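import Pool.Agent.MP_eb915b_lc.Defs3
import Pool.Agent.Mg.F2e8011.G06f54b

section

/-! Strip recovery on three sequences, read as a problem on points and intervals. -/

set_option autoImplicit false

namespace Pool.Agent.MP_eb915b_lc

variable {α β : Type}

theorem MSR3.map (f : α → β) {G₁ G₂ G₃ : List α} {k : ℕ} (h : MSR3 G₁ G₂ G₃ k) :
    MSR3 (G₁.map f) (G₂.map f) (G₃.map f) k := by
  obtain ⟨S₁, S₂, S₃, h1, h2, h3, ⟨P₁, P₂, P₃, rfl, rfl, rfl, p2, p3, hl⟩, hk⟩ := h
  refine ⟨_, _, _, h1.map f, h2.map f, h3.map f,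
    ⟨P₁.map (List.map f), P₂.map (List.map f), P₃.map (List.map f), ?_, ?_, ?_, p2.map _,
      p3.map _, ?_⟩, by rwa [List.length_map]⟩
  · rw [List.map_flatten]
  · rw [List.map_flatten]
  · rw [List.map_flatten]
  · intro s hs
    obtain ⟨t, ht, rfl⟩ := List.mem_map.1 hs
    simpa using hl t ht

theorem msr3_map_iff {f : α → β} {g : β → α} (hg : ∀ a, g (f a) = a) (G₁ G₂ G₃ : List α)
    (k : ℕ) : MSR3 (G₁.map f) (G₂.map f) (G₃.map f) k ↔ MSR3 G₁ G₂ G₃ k := by
  refine ⟨fun h => ?_, fun h => h.map f⟩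
  have := h.map g
  simpa [List.map_map, Function.comp_def, hg] using this

/-- The intervals spanned by two pairs are disjoint in the order given by `κ`. -/
def Sep (κ : α → ℕ) (p q : α × α) : Prop := κ p.2 < κ q.1 ∨ κ q.2 < κ p.1

theorem Sep.symm {κ : α → ℕ} {p q : α × α} (h : Sep κ p q) : Sep κ q p := Or.symm h

/-- A pair as a string of length two. -/
def pl (p : α × α) : List α := [p.1, p.2]

theorem nodup_of_key {κ : α → ℕ} {G : List α} (hG : G.Pairwise fun a b => κ a < κ b) :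
    G.Nodup :=
  hG.imp fun {a b} h e => by rw [e] at h; exact lt_irrefl _ h

theorem exists_arrange (κ : α → ℕ) {G : List α} (hG : G.Pairwise fun a b => κ a < κ b)
    {P : List (α × α)} (hm : ∀ p ∈ P, p.1 ∈ G ∧ p.2 ∈ G ∧ κ p.1 < κ p.2)
    (hs : P.Pairwise (Sep κ)) :
    ∃ Q : List (List α), (P.map pl).Perm Q ∧ Q.flatten.Sublist G := by
  classical
  let P' := P.mergeSort fun p q => decide (κ p.1 ≤ κ q.1)
  have hp : P'.Perm P := List.mergeSort_perm _ _
  have h1 : P'.Pairwise fun p q => decide (κ p.1 ≤ κ q.1) = true :=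
    List.pairwise_mergeSort (fun a b c h1 h2 => by simp at h1 h2 ⊢; omega)
      (fun a b => by simp; omega) P
  have h2 : P'.Pairwise (Sep κ) := (List.Perm.pairwise_iff (fun h => Sep.symm h) hp).2 hs
  have hm' : ∀ p ∈ P', p.1 ∈ G ∧ p.2 ∈ G ∧ κ p.1 < κ p.2 := fun p h => hm p (hp.subset h)
  have h3 : (P'.map pl).flatten.Pairwise fun a b => κ a < κ b := by
    rw [List.pairwise_flatten]
    refine ⟨fun s hs => ?_, ?_⟩
    · obtain ⟨p, hp, rfl⟩ := List.mem_map.1 hs
      simpa [pl] using (hm' p hp).2.2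
    · rw [List.pairwise_map]
      refine (h1.and h2).imp_of_mem fun {p q} hp hq h => ?_
      have e1 := (hm' p hp).2.2
      have e2 := (hm' q hq).2.2
      obtain ⟨e3, e4⟩ := h
      simp only [decide_eq_true_eq] at e3
      unfold Sep at e4
      simp only [pl, List.mem_cons, List.not_mem_nil, or_false, forall_eq_or_imp, forall_eq]
      omega
  refine ⟨P'.map pl, (hp.map pl).symm, ?_⟩
  have : Std.Antisymm fun a b : α => κ a < κ b := ⟨fun a b h1 h2 => by omega⟩
  refine List.sublist_of_subperm_of_pairwise (List.subperm_of_subset (nodup_of_key h3) ?_) h3 hG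
  intro x hx
  obtain ⟨s, hs, hx⟩ := List.mem_flatten.1 hx
  obtain ⟨p, hp, rfl⟩ := List.mem_map.1 hs
  simp only [pl, List.mem_cons, List.not_mem_nil, or_false] at hx
  rcases hx with rfl | rfl
  · exact (hm' p hp).1
  · exact (hm' p hp).2.1

/-- Two strings do not interleave in the order given by `κ`. -/
def SepL (κ : α → ℕ) (s t : List α) : Prop :=
  (∀ x ∈ s, ∀ y ∈ t, κ x < κ y) ∨ (∀ x ∈ t, ∀ y ∈ s, κ x < κ y)

theorem of_arrange (κ : α → ℕ) {G : List α} (hG : G.Pairwise fun a b => κ a < κ b)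
    {P Q : List (List α)} (hp : P.Perm Q) (h : Q.flatten.Sublist G) :
    (∀ s ∈ P, s.Pairwise fun a b => κ a < κ b) ∧ P.Pairwise (SepL κ) := by
  have h1 := List.pairwise_flatten.1 (hG.sublist h)
  refine ⟨fun s hs => h1.1 s (hp.subset hs), ?_⟩
  exact (List.Perm.pairwise_iff (fun h => Or.symm h) hp).2 (h1.2.imp fun h => Or.inl h)

theorem exists_pairs {P : List (List α)} (h : ∀ s ∈ P, ∃ p, s = pl p) :
    ∃ R : List (α × α), P = R.map pl := by
  induction P with
  | nil => exact ⟨[], rfl⟩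
  | cons s P ih =>
    obtain ⟨p, rfl⟩ := h s List.mem_cons_self
    obtain ⟨R, rfl⟩ := ih fun t ht => h t (List.mem_cons_of_mem _ ht)
    exact ⟨p :: R, rfl⟩

theorem length_flatten_pl (R : List (α × α)) : (R.map pl).flatten.length = 2 * R.length := by
  induction R with
  | nil => rfl
  | cons p R ih => simp only [List.map_cons, List.flatten_cons, List.length_append, ih, pl,
      List.length_cons, List.length_nil]; omega

theorem SepL.sep {κ : α → ℕ} {p q : α × α} (h : SepL κ (pl p) (pl q)) : Sep κ p q := by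
  rcases h with h | h
  · exact Or.inl (h _ (by simp [pl]) _ (by simp [pl]))
  · exact Or.inr (h _ (by simp [pl]) _ (by simp [pl]))

/-- `a` comes before `b` in all three orders. -/
def Lt3 (κ₁ κ₂ κ₃ : α → ℕ) (a b : α) : Prop := κ₁ a < κ₁ b ∧ κ₂ a < κ₂ b ∧ κ₃ a < κ₃ b

/-- When no three characters form a common subsequence, a solution is a family of increasing
pairs spanning disjoint intervals in each order. -/
theorem msr3_iff {κ₁ κ₂ κ₃ : α → ℕ} {G₁ G₂ G₃ : List α}
    (h₁ : G₁.Pairwise fun a b => κ₁ a < κ₁ b) (h₂ : G₂.Pairwise fun a b => κ₂ a < κ₂ b)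
    (h₃ : G₃.Pairwise fun a b => κ₃ a < κ₃ b) (m₂ : ∀ x ∈ G₁, x ∈ G₂) (m₃ : ∀ x ∈ G₁, x ∈ G₃)
    (hch : ∀ a ∈ G₁, ∀ b ∈ G₁, ∀ c ∈ G₁, Lt3 κ₁ κ₂ κ₃ a b → Lt3 κ₁ κ₂ κ₃ b c → False)
    (m : ℕ) :
    MSR3 G₁ G₂ G₃ m ↔ ∃ R : List (α × α), m ≤ 2 * R.length ∧
      (∀ p ∈ R, p.1 ∈ G₁ ∧ p.2 ∈ G₁ ∧ Lt3 κ₁ κ₂ κ₃ p.1 p.2) ∧
      R.Pairwise fun p q => Sep κ₁ p q ∧ Sep κ₂ p q ∧ Sep κ₃ p q := by
  constructor
  · rintro ⟨S₁, S₂, S₃, s1, s2, s3, ⟨P₁, P₂, P₃, rfl, rfl, rfl, p2, p3, hl⟩, hk⟩
    obtain ⟨a1, b1⟩ := of_arrange κ₁ h₁ (List.Perm.refl P₁) s1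
    obtain ⟨a2, b2⟩ := of_arrange κ₂ h₂ p2 s2
    obtain ⟨a3, b3⟩ := of_arrange κ₃ h₃ p3 s3
    have hmem : ∀ s ∈ P₁, ∀ x ∈ s, x ∈ G₁ := fun s hs x hx =>
      s1.subset (List.mem_flatten.2 ⟨s, hs, hx⟩)
    have hpair : ∀ s ∈ P₁, ∃ p, s = pl p := by
      intro s hs
      have e0 := hl s hs
      have e1 := a1 s hs
      have e2 := a2 s hs
      have e3 := a3 s hs
      have e4 := hmem s hs
      match s, e0, e1, e2, e3, e4 with
      | [x, y], _, _, _, _, _ => exact ⟨(x, y), rfl⟩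
      | x :: y :: z :: t, _, e1, e2, e3, e4 =>
        simp only [List.pairwise_cons, List.mem_cons, forall_eq_or_imp] at e1 e2 e3 e4
        exact (hch x e4.1 y e4.2.1 z e4.2.2.1 ⟨e1.1.1, e2.1.1, e3.1.1⟩
          ⟨e1.2.1.1, e2.2.1.1, e3.2.1.1⟩).elim
    obtain ⟨R, rfl⟩ := exists_pairs hpair
    refine ⟨R, by rwa [length_flatten_pl] at hk, fun p hp => ?_, ?_⟩
    · have hs : pl p ∈ R.map pl := List.mem_map_of_mem hp
      refine ⟨hmem _ hs _ (by simp [pl]), hmem _ hs _ (by simp [pl]), ?_, ?_, ?_⟩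
      · simpa [pl] using a1 _ hs
      · simpa [pl] using a2 _ hs
      · simpa [pl] using a3 _ hs
    · rw [List.pairwise_map] at b1 b2 b3
      exact (b1.and (b2.and b3)).imp fun h => ⟨h.1.sep, h.2.1.sep, h.2.2.sep⟩
  · rintro ⟨R, hk, hm, hs⟩
    obtain ⟨Q₁, p1, s1⟩ := exists_arrange κ₁ h₁ (P := R)
      (fun p hp => ⟨(hm p hp).1, (hm p hp).2.1, (hm p hp).2.2.1⟩) (hs.imp fun h => h.1)
    obtain ⟨Q₂, p2, s2⟩ := exists_arrange κ₂ h₂ (P := R)
      (fun p hp => ⟨m₂ _ (hm p hp).1, m₂ _ (hm p hp).2.1, (hm p hp).2.2.2.1⟩)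
      (hs.imp fun h => h.2.1)
    obtain ⟨Q₃, p3, s3⟩ := exists_arrange κ₃ h₃ (P := R)
      (fun p hp => ⟨m₃ _ (hm p hp).1, m₃ _ (hm p hp).2.1, (hm p hp).2.2.2.2⟩)
      (hs.imp fun h => h.2.2)
    refine ⟨_, _, _, s1, s2, s3, ⟨Q₁, Q₂, Q₃, rfl, rfl, rfl, p1.symm.trans p2, p1.symm.trans p3,
      fun s hs => ?_⟩, ?_⟩
    · obtain ⟨p, -, rfl⟩ := List.mem_map.1 (p1.symm.subset hs)
      simp [pl]
    · rw [← p1.flatten.length_eq, length_flatten_pl]
      exact hk

/-- The members of `L` listed by increasing key. -/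
def sortBy (κ : α → ℕ) (B : ℕ) (L : List α) : List α :=
  (List.range B).flatMap fun t => L.filter fun x => decide (κ x = t)

theorem mem_sortBy {κ : α → ℕ} {B : ℕ} {L : List α} {x : α} :
    x ∈ sortBy κ B L ↔ x ∈ L ∧ κ x < B := by
  simp only [sortBy, List.mem_flatMap, List.mem_range, List.mem_filter, decide_eq_true_eq]
  exact ⟨fun ⟨t, h1, h2, h3⟩ => ⟨h2, h3 ▸ h1⟩, fun ⟨h1, h2⟩ => ⟨_, h2, h1, rfl⟩⟩

theorem pairwise_sortBy {κ : α → ℕ} (B : ℕ) {L : List α} (hL : L.Nodup)
    (hinj : ∀ x ∈ L, ∀ y ∈ L, κ x = κ y → x = y) :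
    (sortBy κ B L).Pairwise fun a b => κ a < κ b := by
  rw [sortBy, List.pairwise_flatMap]
  refine ⟨fun t _ => ?_, List.pairwise_lt_range.imp fun {s t} h x hx y hy => ?_⟩
  · refine (hL.filter _).imp_of_mem fun {x y} hx hy h => (h ?_).elim
    simp only [List.mem_filter, decide_eq_true_eq] at hx hy
    exact hinj x hx.1 y hy.1 (hx.2.trans hy.2.symm)
  · simp only [List.mem_filter, decide_eq_true_eq] at hx hy
    rw [hx.2, hy.2]
    exact h

/-- Mixed radix numbers compare lexicographically. -/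
theorem rad_lt {W a b c d : ℕ} (hb : b < W) (hd : d < W) :
    a * W + b < c * W + d ↔ a < c ∨ (a = c ∧ b < d) := by
  constructor
  · intro h
    rcases lt_trichotomy a c with h1 | h1 | h1
    · exact Or.inl h1
    · subst h1; exact Or.inr ⟨rfl, by omega⟩
    · have := Nat.mul_le_mul_right W (Nat.succ_le_of_lt h1)
      rw [Nat.succ_mul] at this
      omega
  · rintro (h | ⟨rfl, h⟩)
    · have := Nat.mul_le_mul_right W (Nat.succ_le_of_lt h)
      rw [Nat.succ_mul] at this
      omega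
    · omega

theorem rad_eq {W a b c d : ℕ} (hb : b < W) (hd : d < W) :
    a * W + b = c * W + d ↔ a = c ∧ b = d := by
  have h1 := rad_lt (a := a) (c := c) hb hd
  have h2 := rad_lt (a := c) (c := a) hd hb
  constructor
  · intro h
    omega
  · rintro ⟨rfl, rfl⟩
    rfl

/-- A five digit number in base `W`. -/
def rad (W a b c d e : ℕ) : ℕ := (((a * W + b) * W + c) * W + d) * W + e

theorem rad5_lt {W a b c d e a' b' c' d' e' : ℕ} (hb : b < W) (hc : c < W) (hd : d < W)
    (he : e < W) (hb' : b' < W) (hc' : c' < W) (hd' : d' < W) (he' : e' < W) :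
    rad W a b c d e < rad W a' b' c' d' e' ↔ a < a' ∨ (a = a' ∧ (b < b' ∨ (b = b' ∧
      (c < c' ∨ (c = c' ∧ (d < d' ∨ (d = d' ∧ e < e'))))))) := by
  unfold rad
  rw [rad_lt he he', rad_lt hd hd', rad_eq hd hd', rad_lt hc hc', rad_eq hc hc', rad_lt hb hb',
    rad_eq hb hb']
  omega

theorem rad5_bound {W a b c d e : ℕ} (ha : a < W) (hb : b < W) (hc : c < W) (hd : d < W)
    (he : e < W) : rad W a b c d e < rad W W 0 0 0 0 := by
  have h0 : 0 < W := by omega
  rw [rad5_lt hb hc hd he h0 h0 h0 h0]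
  exact Or.inl ha

end Pool.Agent.MP_eb915b_lc

end

section

/-! The point configuration attached to an instance of the clique problem. -/

set_option autoImplicit false

namespace Pool.Agent.MP_eb915b_lc

/-- A character: its kind, the row and column of its cell, and a pair of vertices.
Kind `0` is the extra character of a lower cluster, kind `1` a member of a lower cluster,
kind `2` a member of an upper cluster and kind `3` the extra character of an upper cluster. -/
abbrev Pt := ℕ × ℕ × ℕ × ℕ × ℕ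

/-- The cyclic predecessor, applied to lower clusters only. -/
def sh (k s a : ℕ) : ℕ := if 2 ≤ s then a else if a = 0 then k - 1 else a - 1

/-- The level of a character inside a block. -/
def lev (n s i : ℕ) : ℕ := if s = 0 then 0 else if s = 3 then n + 1 else i + 1

/-- Position in the first sequence. -/
def kx (k n : ℕ) (t : Pt) : ℕ :=
  rad (k + n + 4) t.2.1 (if t.2.1 = 0 then k - 1 - sh k t.1 t.2.2.1 else sh k t.1 t.2.2.1)
    (lev n t.1 t.2.2.2.1) t.1 t.2.2.2.2

/-- Position in the second sequence. -/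
def ky (k n : ℕ) (t : Pt) : ℕ :=
  rad (k + n + 4) t.2.2.1 (if t.2.2.1 = 0 then sh k t.1 t.2.1 else k - 1 - sh k t.1 t.2.1)
    (lev n t.1 t.2.2.2.2) t.1 t.2.2.2.1

/-- Position in the third sequence. -/
def kz (k n : ℕ) (t : Pt) : ℕ :=
  rad (k + n + 4) (k - 1 - t.2.2.1) (k - 1 - t.2.1) (lev n t.1 (n - 1 - t.2.2.2.2))
    (n - 1 - t.2.2.2.1) t.1

/-- The range conditions on a character. -/
def Box (k n : ℕ) (t : Pt) : Prop :=
  t.1 < 4 ∧ t.2.1 < k ∧ t.2.2.1 < k ∧ t.2.2.2.1 < n ∧ t.2.2.2.2 < n ∧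
    (t.1 = 0 ∨ t.1 = 3 → t.2.2.2.1 = 0 ∧ t.2.2.2.2 = 0)

theorem sh_spec (k s a : ℕ) : (2 ≤ s ∧ sh k s a = a) ∨ (s < 2 ∧ a = 0 ∧ sh k s a = k - 1) ∨
    (s < 2 ∧ a ≠ 0 ∧ sh k s a = a - 1) := by
  unfold sh
  split_ifs <;> omega

theorem lev_spec (n s i : ℕ) : (s = 0 ∧ lev n s i = 0) ∨ (s = 3 ∧ lev n s i = n + 1) ∨
    (s ≠ 0 ∧ s ≠ 3 ∧ lev n s i = i + 1) := by
  unfold lev
  split_ifs <;> omega

theorem sh_lt {k s a : ℕ} (h : a < k) : sh k s a < k := by
  have := sh_spec k s a
  omega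

theorem lev_lt {n s i : ℕ} (h : i < n) : lev n s i < n + 2 := by
  have := lev_spec n s i
  omega

/-- The second digit of the first key. -/
def dx (k s a b : ℕ) : ℕ := if a = 0 then k - 1 - sh k s b else sh k s b

/-- The second digit of the second key. -/
def dy (k s a b : ℕ) : ℕ := if b = 0 then sh k s a else k - 1 - sh k s a

theorem dx_spec (k s a b : ℕ) : (a = 0 ∧ dx k s a b = k - 1 - sh k s b) ∨
    (a ≠ 0 ∧ dx k s a b = sh k s b) := by
  unfold dx
  split_ifs <;> omega

theorem dy_spec (k s a b : ℕ) : (b = 0 ∧ dy k s a b = sh k s a) ∨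
    (b ≠ 0 ∧ dy k s a b = k - 1 - sh k s a) := by
  unfold dy
  split_ifs <;> omega

theorem dx_lt {k s a b : ℕ} (h : b < k) : dx k s a b < k := by
  have := dx_spec k s a b
  have := sh_lt (s := s) h
  omega

theorem dy_lt {k s a b : ℕ} (h : a < k) : dy k s a b < k := by
  have := dy_spec k s a b
  have := sh_lt (s := s) h
  omega

section lex
variable {k n s a b i j s' a' b' i' j' : ℕ}

theorem kx_lt (h : Box k n (s, a, b, i, j)) (h' : Box k n (s', a', b', i', j')) :
    kx k n (s, a, b, i, j) < kx k n (s', a', b', i', j') ↔ a < a' ∨ (a = a' ∧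
      (dx k s a b < dx k s' a' b' ∨ (dx k s a b = dx k s' a' b' ∧ (lev n s i < lev n s' i' ∨
        (lev n s i = lev n s' i' ∧ (s < s' ∨ (s = s' ∧ j < j'))))))) := by
  simp only [Box] at h h'
  have e1 := dx_lt (s := s) (a := a) h.2.2.1
  have e2 := dx_lt (s := s') (a := a') h'.2.2.1
  have e3 := lev_lt (s := s) h.2.2.2.1
  have e4 := lev_lt (s := s') h'.2.2.2.1
  exact rad5_lt (b := dx k s a b) (b' := dx k s' a' b') (c := lev n s i) (c' := lev n s' i')
    (d := s) (d' := s') (e := j) (e' := j') (by omega) (by omega) (by omega) (by omega)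
    (by omega) (by omega) (by omega) (by omega)

theorem ky_lt (h : Box k n (s, a, b, i, j)) (h' : Box k n (s', a', b', i', j')) :
    ky k n (s, a, b, i, j) < ky k n (s', a', b', i', j') ↔ b < b' ∨ (b = b' ∧
      (dy k s a b < dy k s' a' b' ∨ (dy k s a b = dy k s' a' b' ∧ (lev n s j < lev n s' j' ∨
        (lev n s j = lev n s' j' ∧ (s < s' ∨ (s = s' ∧ i < i'))))))) := by
  simp only [Box] at h h'
  have e1 := dy_lt (s := s) (b := b) h.2.1
  have e2 := dy_lt (s := s') (b := b') h'.2.1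
  have e3 := lev_lt (s := s) h.2.2.2.2.1
  have e4 := lev_lt (s := s') h'.2.2.2.2.1
  exact rad5_lt (b := dy k s a b) (b' := dy k s' a' b') (c := lev n s j) (c' := lev n s' j')
    (d := s) (d' := s') (e := i) (e' := i') (by omega) (by omega) (by omega) (by omega)
    (by omega) (by omega) (by omega) (by omega)

theorem kz_lt (h : Box k n (s, a, b, i, j)) (h' : Box k n (s', a', b', i', j')) :
    kz k n (s, a, b, i, j) < kz k n (s', a', b', i', j') ↔ b' < b ∨ (b = b' ∧
      (a' < a ∨ (a = a' ∧ (lev n s (n - 1 - j) < lev n s' (n - 1 - j') ∨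
        (lev n s (n - 1 - j) = lev n s' (n - 1 - j') ∧ (i' < i ∨ (i = i' ∧ s < s'))))))) := by
  simp only [Box] at h h'
  have e3 := lev_lt (s := s) (i := n - 1 - j) (n := n) (by omega)
  have e4 := lev_lt (s := s') (i := n - 1 - j') (n := n) (by omega)
  refine (rad5_lt (a := k - 1 - b) (a' := k - 1 - b') (b := k - 1 - a) (b' := k - 1 - a')
    (c := lev n s (n - 1 - j)) (c' := lev n s' (n - 1 - j')) (d := n - 1 - i) (d' := n - 1 - i')
    (e := s) (e' := s') (by omega) (by omega) (by omega) (by omega)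
    (by omega) (by omega) (by omega) (by omega)).trans ?_
  omega

end lex

/-- The bound on the keys. -/
def bnd (k n : ℕ) : ℕ := rad (k + n + 4) (k + n + 4) 0 0 0 0

theorem keys_lt {k n : ℕ} {t : Pt} (h : Box k n t) :
    kx k n t < bnd k n ∧ ky k n t < bnd k n ∧ kz k n t < bnd k n := by
  obtain ⟨s, a, b, i, j⟩ := t
  simp only [Box] at h
  have e1 := dx_lt (s := s) (a := a) h.2.2.1
  have e2 := dy_lt (s := s) (b := b) h.2.1
  have e3 := lev_lt (s := s) h.2.2.2.1
  have e4 := lev_lt (s := s) h.2.2.2.2.1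
  have e5 := lev_lt (s := s) (i := n - 1 - j) (n := n) (by omega)
  refine ⟨rad5_bound (b := dx k s a b) (c := lev n s i) (by simp only; omega) (by omega) (by omega)
      (by simp only; omega) (by simp only; omega),
    rad5_bound (b := dy k s a b) (c := lev n s j) (by simp only; omega) (by omega) (by omega)
      (by simp only; omega) (by simp only; omega),
    rad5_bound (c := lev n s (n - 1 - j)) (by simp only; omega) (by simp only; omega) (by omega)
      (by simp only; omega) (by simp only; omega)⟩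

theorem kx_inj {k n : ℕ} {t t' : Pt} (h : Box k n t) (h' : Box k n t')
    (e : kx k n t = kx k n t') : t = t' := by
  obtain ⟨s, a, b, i, j⟩ := t
  obtain ⟨s', a', b', i', j'⟩ := t'
  have e1 := kx_lt h h'
  have e2 := kx_lt h' h
  simp only [e, lt_irrefl, false_iff] at e1 e2
  obtain rfl : a = a' := by omega
  obtain rfl : s = s' := by omega
  simp only [Box] at h h'
  have f1 := dx_spec k s a b
  have f2 := dx_spec k s a b'
  have f3 := sh_spec k s b
  have f4 := sh_spec k s b'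
  have f5 := lev_spec n s i
  have f6 := lev_spec n s i'
  have g1 : dx k s a b = dx k s a b' := by omega
  have g2 : lev n s i = lev n s i' := by omega
  have g3 : j = j' := by omega
  have g4 : b = b' := by clear e1 e2 f5 f6; omega
  have g5 : i = i' := by clear e1 e2 f1 f2 f3 f4; omega
  rw [g3, g4, g5]

theorem ky_inj {k n : ℕ} {t t' : Pt} (h : Box k n t) (h' : Box k n t')
    (e : ky k n t = ky k n t') : t = t' := by
  obtain ⟨s, a, b, i, j⟩ := t
  obtain ⟨s', a', b', i', j'⟩ := t'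
  have e1 := ky_lt h h'
  have e2 := ky_lt h' h
  simp only [e, lt_irrefl, false_iff] at e1 e2
  obtain rfl : b = b' := by omega
  obtain rfl : s = s' := by omega
  simp only [Box] at h h'
  have f1 := dy_spec k s a b
  have f2 := dy_spec k s a' b
  have f3 := sh_spec k s a
  have f4 := sh_spec k s a'
  have f5 := lev_spec n s j
  have f6 := lev_spec n s j'
  have g1 : dy k s a b = dy k s a' b := by omega
  have g2 : lev n s j = lev n s j' := by omega
  have g3 : i = i' := by omega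
  have g4 : a = a' := by clear e1 e2 f5 f6; omega
  have g5 : j = j' := by clear e1 e2 f1 f2 f3 f4; omega
  rw [g3, g4, g5]

theorem kz_inj {k n : ℕ} {t t' : Pt} (h : Box k n t) (h' : Box k n t')
    (e : kz k n t = kz k n t') : t = t' := by
  obtain ⟨s, a, b, i, j⟩ := t
  obtain ⟨s', a', b', i', j'⟩ := t'
  have e1 := kz_lt h h'
  have e2 := kz_lt h' h
  simp only [e, lt_irrefl, false_iff] at e1 e2
  obtain rfl : b = b' := by omega
  obtain rfl : a = a' := by omega
  obtain rfl : i = i' := by omega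
  obtain rfl : s = s' := by omega
  simp only [Box] at h h'
  have f5 := lev_spec n s (n - 1 - j)
  have f6 := lev_spec n s (n - 1 - j')
  have g2 : lev n s (n - 1 - j) = lev n s (n - 1 - j') := by omega
  have g5 : j = j' := by clear e1 e2; omega
  rw [g5]

/-- The only increasing pairs join a member of a cluster to the extra character of the cluster. -/
theorem lt3_cases {k n s a b i j s' a' b' i' j' : ℕ} (hk : 2 ≤ k) (h : Box k n (s, a, b, i, j))
    (h' : Box k n (s', a', b', i', j'))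
    (e : Lt3 (kx k n) (ky k n) (kz k n) (s, a, b, i, j) (s', a', b', i', j')) :
    a = a' ∧ b = b' ∧ ((s = 0 ∧ s' = 1) ∨ (s = 2 ∧ s' = 3)) := by
  obtain ⟨e1, e2, e3⟩ := e
  rw [kx_lt h h'] at e1
  rw [ky_lt h h'] at e2
  rw [kz_lt h h'] at e3
  obtain rfl : b = b' := by omega
  obtain rfl : a = a' := by omega
  refine ⟨rfl, rfl, ?_⟩
  simp only [Box] at h h'
  have g1 : dx k s a b ≤ dx k s' a b := by omega
  have g2 : dy k s a b ≤ dy k s' a b := by omega
  have g3 : (2 ≤ s ↔ 2 ≤ s') := by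
    have f1 := dx_spec k s a b
    have f2 := dx_spec k s' a b
    have f3 := dy_spec k s a b
    have f4 := dy_spec k s' a b
    have f5 := sh_spec k s a
    have f6 := sh_spec k s' a
    have f7 := sh_spec k s b
    have f8 := sh_spec k s' b
    clear e1 e2 e3
    omega
  have g4 : ∀ x, sh k s x = sh k s' x := fun x => by
    have f5 := sh_spec k s x
    have f6 := sh_spec k s' x
    clear e1 e2 e3
    omega
  have g5 : dx k s a b = dx k s' a b := by simp only [dx, g4]
  have g6 : dy k s a b = dy k s' a b := by simp only [dy, g4]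
  simp only [g5, g6, lt_irrefl, true_and, false_or] at e1 e2 e3
  have f1 := lev_spec n s i
  have f2 := lev_spec n s' i'
  have f3 := lev_spec n s j
  have f4 := lev_spec n s' j'
  have f5 := lev_spec n s (n - 1 - j)
  have f6 := lev_spec n s' (n - 1 - j')
  clear g1 g2 g4 g5 g6
  omega

end Pool.Agent.MP_eb915b_lc

end

section

/-! Correctness of the configuration. -/

set_option autoImplicit false

namespace Pool.Agent.MP_eb915b_lc

/-- All pairs from two lists. -/
def prd {α β : Type} (l : List α) (m : List β) : List (α × β) :=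
  l.flatMap fun a => m.map fun b => (a, b)

theorem mem_prd {α β : Type} {l : List α} {m : List β} {p : α × β} :
    p ∈ prd l m ↔ p.1 ∈ l ∧ p.2 ∈ m := by
  obtain ⟨a, b⟩ := p
  simp [prd]

theorem nodup_prd {α β : Type} {l : List α} {m : List β} (hl : l.Nodup) (hm : m.Nodup) :
    (prd l m).Nodup := List.Nodup.product hl hm

theorem length_prd {α β : Type} (l : List α) (m : List β) :
    (prd l m).length = l.length * m.length := List.length_product l m

/-- The condition that a character is used. -/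
def ok (A : ℕ → ℕ → Bool) (t : Pt) : Bool :=
  if t.1 = 1 then true
  else if t.1 = 2 then
    (if t.2.1 = t.2.2.1 then decide (t.2.2.2.1 = t.2.2.2.2) else A t.2.2.2.1 t.2.2.2.2)
  else decide (t.2.2.2.1 = 0) && decide (t.2.2.2.2 = 0)

/-- The characters. -/
def pts (k n : ℕ) (A : ℕ → ℕ → Bool) : List Pt :=
  (prd (List.range 4) (prd (List.range k) (prd (List.range k)
    (prd (List.range n) (List.range n))))).filter (ok A)

theorem nodup_pts (k n : ℕ) (A : ℕ → ℕ → Bool) : (pts k n A).Nodup :=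
  (nodup_prd List.nodup_range (nodup_prd List.nodup_range (nodup_prd List.nodup_range
    (nodup_prd List.nodup_range List.nodup_range)))).filter _

theorem mem_pts {k n : ℕ} {A : ℕ → ℕ → Bool} {s a b i j : ℕ} :
    (s, a, b, i, j) ∈ pts k n A ↔ Box k n (s, a, b, i, j) ∧
      (s = 2 → (a = b → i = j) ∧ (a ≠ b → A i j = true)) := by
  simp only [pts, List.mem_filter, mem_prd, List.mem_range, Box, ok]
  by_cases h1 : s = 1
  · subst h1; simp
  by_cases h2 : s = 2
  · subst h2
    by_cases h3 : a = b <;> simp [h3]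
  · simp only [h1, h2, if_false, Bool.and_eq_true, decide_eq_true_eq, false_imp_iff, and_true]
    omega

theorem box_of_mem {k n : ℕ} {A : ℕ → ℕ → Bool} {t : Pt} (h : t ∈ pts k n A) : Box k n t := by
  obtain ⟨s, a, b, i, j⟩ := t
  exact (mem_pts.1 h).1

/-- The three sequences. -/
def seqX (k n : ℕ) (A : ℕ → ℕ → Bool) : List Pt := sortBy (kx k n) (bnd k n) (pts k n A)
/-- The three sequences. -/
def seqY (k n : ℕ) (A : ℕ → ℕ → Bool) : List Pt := sortBy (ky k n) (bnd k n) (pts k n A)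
/-- The three sequences. -/
def seqZ (k n : ℕ) (A : ℕ → ℕ → Bool) : List Pt := sortBy (kz k n) (bnd k n) (pts k n A)

section
variable {k n : ℕ} {A : ℕ → ℕ → Bool}

theorem mem_seqX {t : Pt} : t ∈ seqX k n A ↔ t ∈ pts k n A :=
  mem_sortBy.trans ⟨fun h => h.1, fun h => ⟨h, (keys_lt (box_of_mem h)).1⟩⟩

theorem mem_seqY {t : Pt} : t ∈ seqY k n A ↔ t ∈ pts k n A :=
  mem_sortBy.trans ⟨fun h => h.1, fun h => ⟨h, (keys_lt (box_of_mem h)).2.1⟩⟩

theorem mem_seqZ {t : Pt} : t ∈ seqZ k n A ↔ t ∈ pts k n A :=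
  mem_sortBy.trans ⟨fun h => h.1, fun h => ⟨h, (keys_lt (box_of_mem h)).2.2⟩⟩

theorem pairwise_seqX : (seqX k n A).Pairwise fun a b => kx k n a < kx k n b :=
  pairwise_sortBy _ (nodup_pts k n A) fun _ hx _ hy => kx_inj (box_of_mem hx) (box_of_mem hy)

theorem pairwise_seqY : (seqY k n A).Pairwise fun a b => ky k n a < ky k n b :=
  pairwise_sortBy _ (nodup_pts k n A) fun _ hx _ hy => ky_inj (box_of_mem hx) (box_of_mem hy)

theorem pairwise_seqZ : (seqZ k n A).Pairwise fun a b => kz k n a < kz k n b :=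
  pairwise_sortBy _ (nodup_pts k n A) fun _ hx _ hy => kz_inj (box_of_mem hx) (box_of_mem hy)

theorem perm_seqY : (seqX k n A).Perm (seqY k n A) :=
  (List.perm_ext_iff_of_nodup (nodup_of_key pairwise_seqX) (nodup_of_key pairwise_seqY)).2
    fun _ => mem_seqX.trans mem_seqY.symm

theorem perm_seqZ : (seqX k n A).Perm (seqZ k n A) :=
  (List.perm_ext_iff_of_nodup (nodup_of_key pairwise_seqX) (nodup_of_key pairwise_seqZ)).2
    fun _ => mem_seqX.trans mem_seqZ.symm

end

/-- Separation in all three orders. -/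
def Sep3 (k n : ℕ) (p q : Pt × Pt) : Prop :=
  Sep (kx k n) p q ∧ Sep (ky k n) p q ∧ Sep (kz k n) p q

theorem msr3_seq_iff {k n : ℕ} {A : ℕ → ℕ → Bool} (hk : 2 ≤ k) (m : ℕ) :
    MSR3 (seqX k n A) (seqY k n A) (seqZ k n A) m ↔ ∃ R : List (Pt × Pt), m ≤ 2 * R.length ∧
      (∀ p ∈ R, p.1 ∈ pts k n A ∧ p.2 ∈ pts k n A ∧ Lt3 (kx k n) (ky k n) (kz k n) p.1 p.2) ∧
      R.Pairwise (Sep3 k n) := by
  rw [msr3_iff pairwise_seqX pairwise_seqY pairwise_seqZ
    (fun _ h => mem_seqY.2 (mem_seqX.1 h)) (fun _ h => mem_seqZ.2 (mem_seqX.1 h))]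
  · simp only [mem_seqX]
    rfl
  · rintro ⟨s, a, b, i, j⟩ h ⟨s', a', b', i', j'⟩ h' ⟨s'', a'', b'', i'', j''⟩ h'' e e'
    have e1 := lt3_cases hk (box_of_mem (mem_seqX.1 h)) (box_of_mem (mem_seqX.1 h')) e
    have e2 := lt3_cases hk (box_of_mem (mem_seqX.1 h')) (box_of_mem (mem_seqX.1 h'')) e'
    omega

/-- A clique of size `k`, listed by a function. -/
def Clq (k n : ℕ) (A : ℕ → ℕ → Bool) : Prop :=
  ∃ u : ℕ → ℕ, (∀ a < k, u a < n) ∧ ∀ a < k, ∀ b < k, a ≠ b → A (u a) (u b) = true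

/-- The strip of a lower cluster. -/
def lo (a b i j : ℕ) : Pt × Pt := ((0, a, b, 0, 0), (1, a, b, i, j))

/-- The strip of an upper cluster. -/
def up (a b i j : ℕ) : Pt × Pt := ((2, a, b, i, j), (3, a, b, 0, 0))

section strips
variable {k n a b i j a' b' i' j' : ℕ}

theorem box_of (s : ℕ) (hs : s = 1 ∨ s = 2) (ha : a < k) (hb : b < k) (hi : i < n) (hj : j < n) :
    Box k n (s, a, b, i, j) := by
  simp only [Box]
  omega

theorem box_of' (s : ℕ) (hs : s < 4) (ha : a < k) (hb : b < k) (hn : 0 < n) :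
    Box k n (s, a, b, 0, 0) := ⟨hs, ha, hb, hn, hn, fun _ => ⟨rfl, rfl⟩⟩

theorem lt3_lo (ha : a < k) (hb : b < k) (hi : i < n) (hj : j < n) :
    Lt3 (kx k n) (ky k n) (kz k n) (lo a b i j).1 (lo a b i j).2 := by
  have h := box_of' (k := k) (n := n) 0 (by omega) ha hb (by omega)
  have h' := box_of 1 (by omega) ha hb hi hj
  simp only [Lt3, lo, kx_lt h h', ky_lt h h', kz_lt h h']
  simp [dx, dy, sh, lev]

theorem lt3_up (ha : a < k) (hb : b < k) (hi : i < n) (hj : j < n) :
    Lt3 (kx k n) (ky k n) (kz k n) (up a b i j).1 (up a b i j).2 := by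
  have h := box_of 2 (by omega) ha hb hi hj
  have h' := box_of' (k := k) (n := n) 3 (by omega) ha hb (by omega)
  simp only [Lt3, up, kx_lt h h', ky_lt h h', kz_lt h h']
  simp [dx, dy, sh, lev]
  omega

theorem sep_lo_lo (ha : a < k) (hb : b < k) (hi : i < n) (hj : j < n) (ha' : a' < k)
    (hb' : b' < k) (hi' : i' < n) (hj' : j' < n) :
    Sep3 k n (lo a b i j) (lo a' b' i' j') ↔ (a ≠ a' ∨ b ≠ b') := by
  have h1 := box_of' (k := k) (n := n) 0 (by omega) ha hb (by omega)
  have h2 := box_of 1 (by omega) ha hb hi hj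
  have h3 := box_of' (k := k) (n := n) 0 (by omega) ha' hb' (by omega)
  have h4 := box_of 1 (by omega) ha' hb' hi' hj'
  simp only [Sep3, Sep, lo, kx_lt h2 h3, ky_lt h2 h3, kz_lt h2 h3, kx_lt h4 h1, ky_lt h4 h1,
    kz_lt h4 h1]
  simp [dx, dy, sh, lev]
  split_ifs <;> omega

theorem sep_up_up (ha : a < k) (hb : b < k) (hi : i < n) (hj : j < n) (ha' : a' < k)
    (hb' : b' < k) (hi' : i' < n) (hj' : j' < n) :
    Sep3 k n (up a b i j) (up a' b' i' j') ↔ (a ≠ a' ∨ b ≠ b') := by
  have h1 := box_of 2 (by omega) ha hb hi hj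
  have h2 := box_of' (k := k) (n := n) 3 (by omega) ha hb (by omega)
  have h3 := box_of 2 (by omega) ha' hb' hi' hj'
  have h4 := box_of' (k := k) (n := n) 3 (by omega) ha' hb' (by omega)
  simp only [Sep3, Sep, up, kx_lt h2 h3, ky_lt h2 h3, kz_lt h2 h3, kx_lt h4 h1, ky_lt h4 h1,
    kz_lt h4 h1]
  simp [dx, dy, sh, lev]
  split_ifs <;> omega

theorem sep_lo_up (ha : a < k) (hb : b < k) (hi : i < n) (hj : j < n) (ha' : a' < k)
    (hb' : b' < k) (hi' : i' < n) (hj' : j' < n) :
    Sep3 k n (lo a b i j) (up a' b' i' j') ↔ (a = a' → sh k 0 b = b' → i ≤ i') ∧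
      (b = b' → sh k 0 a = a' → j ≤ j') ∧
      (a = a' → b = b' → j' < j ∨ (j' = j ∧ i' ≤ i)) := by
  have h1 := box_of' (k := k) (n := n) 0 (by omega) ha hb (by omega)
  have h2 := box_of 1 (by omega) ha hb hi hj
  have h3 := box_of 2 (by omega) ha' hb' hi' hj'
  have h4 := box_of' (k := k) (n := n) 3 (by omega) ha' hb' (by omega)
  simp only [Sep3, Sep, lo, up, kx_lt h2 h3, ky_lt h2 h3, kz_lt h2 h3, kx_lt h4 h1, ky_lt h4 h1,
    kz_lt h4 h1]
  refine and_congr ?_ (and_congr ?_ ?_)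
  · simp [dx, sh, lev]
    split_ifs <;> omega
  · simp [dy, sh, lev]
    split_ifs <;> omega
  · simp [lev]
    omega

end strips

theorem Sep3.symm {k n : ℕ} {p q : Pt × Pt} (h : Sep3 k n p q) : Sep3 k n q p :=
  ⟨h.1.symm, h.2.1.symm, h.2.2.symm⟩

/-- A function that does not increase along a cycle is constant. -/
theorem const_of_cyc {k : ℕ} {f : ℕ → ℕ} (h : ∀ a < k, f a ≤ f (sh k 0 a)) :
    ∀ a < k, f a = f 0 := by
  have h1 : ∀ d a, a + d < k → f (a + d) ≤ f a := by
    intro d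
    induction d with
    | zero => intro a _; exact le_rfl
    | succ d ih =>
      intro a ha
      have e1 := h (a + (d + 1)) ha
      have e2 : sh k 0 (a + (d + 1)) = a + d := by simp [sh]
      rw [e2] at e1
      exact e1.trans (ih a (by omega))
  intro a ha
  have e1 := h1 a 0 (by omega)
  have e2 := h1 (k - 1 - a) a (by omega)
  have e3 := h 0 (by omega)
  have e4 : sh k 0 0 = a + (k - 1 - a) := by simp [sh]; omega
  rw [e4] at e3
  rw [zero_add] at e1
  omega

theorem msr3_of_clq {k n : ℕ} {A : ℕ → ℕ → Bool} (hk : 2 ≤ k) (h : Clq k n A) :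
    MSR3 (seqX k n A) (seqY k n A) (seqZ k n A) (4 * k * k) := by
  obtain ⟨u, hu, hA⟩ := h
  rw [msr3_seq_iff hk]
  let I : List (Bool × ℕ × ℕ) := prd [false, true] (prd (List.range k) (List.range k))
  let g : Bool × ℕ × ℕ → Pt × Pt := fun x =>
    cond x.1 (up x.2.1 x.2.2 (u x.2.1) (u x.2.2)) (lo x.2.1 x.2.2 (u x.2.1) (u x.2.2))
  have hI : ∀ x ∈ I, x.2.1 < k ∧ x.2.2 < k := fun x hx => by
    simpa [mem_prd] using (mem_prd.1 hx).2
  have hn : 0 < n := by have := hu 0 (by omega); omega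
  refine ⟨I.map g, ?_, fun p hp => ?_, ?_⟩
  · simp only [I, List.length_map, length_prd, List.length_range, List.length_cons,
      List.length_nil]
    nlinarith
  · obtain ⟨⟨e, a, b⟩, hx, rfl⟩ := List.mem_map.1 hp
    obtain ⟨ha, hb⟩ := hI _ hx
    cases e
    · exact ⟨mem_pts.2 ⟨box_of' 0 (by omega) ha hb hn, by omega⟩,
        mem_pts.2 ⟨box_of 1 (by omega) ha hb (hu a ha) (hu b hb), by omega⟩,
        lt3_lo ha hb (hu a ha) (hu b hb)⟩
    · exact ⟨mem_pts.2 ⟨box_of 2 (by omega) ha hb (hu a ha) (hu b hb),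
          fun _ => ⟨fun e => congrArg u e, hA a ha b hb⟩⟩,
        mem_pts.2 ⟨box_of' 3 (by omega) ha hb hn, by omega⟩,
        lt3_up ha hb (hu a ha) (hu b hb)⟩
  · rw [List.pairwise_map]
    have hnd : I.Nodup := nodup_prd (by simp) (nodup_prd List.nodup_range List.nodup_range)
    have key : ∀ a < k, ∀ b < k, ∀ a' < k, ∀ b' < k,
        Sep3 k n (lo a b (u a) (u b)) (up a' b' (u a') (u b')) := by
      intro a ha b hb a' ha' b' hb'
      rw [sep_lo_up ha hb (hu a ha) (hu b hb) ha' hb' (hu a' ha') (hu b' hb')]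
      refine ⟨fun e _ => by rw [e], fun e _ => by rw [e], fun e e' => Or.inr ?_⟩
      rw [e, e']
      exact ⟨rfl, le_rfl⟩
    refine hnd.imp_of_mem fun {x y} hx hy hne => ?_
    obtain ⟨e, a, b⟩ := x
    obtain ⟨e', a', b'⟩ := y
    obtain ⟨ha, hb⟩ := hI _ hx
    obtain ⟨ha', hb'⟩ := hI _ hy
    have hd : e = e' → a ≠ a' ∨ b ≠ b' := by
      rintro rfl
      by_contra hc
      push Not at hc
      exact hne (by rw [hc.1, hc.2])
    cases e <;> cases e'
    · exact (sep_lo_lo ha hb (hu a ha) (hu b hb) ha' hb' (hu a' ha') (hu b' hb')).2 (hd rfl)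
    · exact key a ha b hb a' ha' b' hb'
    · exact (key a' ha' b' hb' a ha b hb).symm
    · exact (sep_up_up ha hb (hu a ha) (hu b hb) ha' hb' (hu a' ha') (hu b' hb')).2 (hd rfl)

theorem strip_cases {k n : ℕ} {A : ℕ → ℕ → Bool} (hk : 2 ≤ k) {p : Pt × Pt}
    (h1 : p.1 ∈ pts k n A) (h2 : p.2 ∈ pts k n A)
    (h3 : Lt3 (kx k n) (ky k n) (kz k n) p.1 p.2) :
    ∃ a < k, ∃ b < k, ∃ i < n, ∃ j < n, p = lo a b i j ∨
      (p = up a b i j ∧ (a = b → i = j) ∧ (a ≠ b → A i j = true)) := by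
  obtain ⟨⟨s, a, b, i, j⟩, ⟨s', a', b', i', j'⟩⟩ := p
  obtain ⟨rfl, rfl, h⟩ := lt3_cases hk (box_of_mem h1) (box_of_mem h2) h3
  obtain ⟨b1, c1⟩ := mem_pts.1 h1
  obtain ⟨b2, -⟩ := mem_pts.1 h2
  simp only [Box] at b1 b2
  rcases h with ⟨rfl, rfl⟩ | ⟨rfl, rfl⟩
  · obtain ⟨rfl, rfl⟩ := b1.2.2.2.2.2 (Or.inl rfl)
    exact ⟨a, by omega, b, by omega, i', by omega, j', by omega, Or.inl rfl⟩
  · obtain ⟨rfl, rfl⟩ := b2.2.2.2.2.2 (Or.inr rfl)
    exact ⟨a, by omega, b, by omega, i, by omega, j, by omega, Or.inr ⟨rfl, c1 rfl⟩⟩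

theorem clq_of_msr3 {k n : ℕ} {A : ℕ → ℕ → Bool} (hk : 2 ≤ k)
    (h : MSR3 (seqX k n A) (seqY k n A) (seqZ k n A) (4 * k * k)) : Clq k n A := by
  obtain ⟨R, hlen, hm, hs⟩ := (msr3_seq_iff hk _).1 h
  have hc := fun p hp => strip_cases hk (hm p hp).1 (hm p hp).2.1 (hm p hp).2.2
  let g : Pt × Pt → ℕ × ℕ × ℕ := fun p => (p.1.1, p.1.2.1, p.1.2.2.1)
  let J : List (ℕ × ℕ × ℕ) := prd [0, 2] (prd (List.range k) (List.range k))
  have hnd : (R.map g).Nodup := by
    refine List.pairwise_map.2 (hs.imp_of_mem fun {p q} hp hq hsep e => ?_)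
    obtain ⟨a, ha, b, hb, i, hi, j, hj, rfl | ⟨rfl, -⟩⟩ := hc p hp <;>
      obtain ⟨a', ha', b', hb', i', hi', j', hj', rfl | ⟨rfl, -⟩⟩ := hc q hq <;>
      simp only [g, lo, up, Prod.mk.injEq] at e
    · have := (sep_lo_lo ha hb hi hj ha' hb' hi' hj').1 hsep
      omega
    · omega
    · omega
    · have := (sep_up_up ha hb hi hj ha' hb' hi' hj').1 hsep
      omega
  have hsub : R.map g ⊆ J := by
    intro x hx
    obtain ⟨p, hp, rfl⟩ := List.mem_map.1 hx
    obtain ⟨a, ha, b, hb, i, hi, j, hj, rfl | ⟨rfl, -⟩⟩ := hc p hp <;>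
      simp [J, g, lo, up, mem_prd, ha, hb]
  have hperm : (R.map g).Perm J := by
    refine (List.subperm_of_subset hnd hsub).perm_of_length_le ?_
    simp only [J, List.length_map, length_prd, List.length_range, List.length_cons,
      List.length_nil]
    nlinarith
  have hlo : ∀ a b : ℕ, ∃ i j : ℕ, a < k → b < k → i < n ∧ j < n ∧ lo a b i j ∈ R := by
    intro a b
    by_cases hab : a < k ∧ b < k
    · have : (0, a, b) ∈ R.map g := hperm.symm.subset (by simp [J, mem_prd, hab])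
      obtain ⟨p, hp, e⟩ := List.mem_map.1 this
      obtain ⟨a', ha', b', hb', i, hi, j, hj, rfl | ⟨rfl, -⟩⟩ := hc p hp <;>
        simp only [g, lo, up, Prod.mk.injEq] at e
      · obtain ⟨-, rfl, rfl⟩ := e
        exact ⟨i, j, fun _ _ => ⟨hi, hj, hp⟩⟩
      · omega
    · exact ⟨0, 0, fun h1 h2 => (hab ⟨h1, h2⟩).elim⟩
  have hup : ∀ a b : ℕ, ∃ i j : ℕ, a < k → b < k → i < n ∧ j < n ∧ up a b i j ∈ R ∧
      (a = b → i = j) ∧ (a ≠ b → A i j = true) := by
    intro a b
    by_cases hab : a < k ∧ b < k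
    · have : (2, a, b) ∈ R.map g := hperm.symm.subset (by simp [J, mem_prd, hab])
      obtain ⟨p, hp, e⟩ := List.mem_map.1 this
      obtain ⟨a', ha', b', hb', i, hi, j, hj, rfl | ⟨rfl, h⟩⟩ := hc p hp <;>
        simp only [g, lo, up, Prod.mk.injEq] at e
      · omega
      · obtain ⟨-, rfl, rfl⟩ := e
        exact ⟨i, j, fun _ _ => ⟨hi, hj, hp, h⟩⟩
    · exact ⟨0, 0, fun h1 h2 => (hab ⟨h1, h2⟩).elim⟩
  choose i' j' hlo using hlo
  choose i j hup using hup
  have : Std.Symm (Sep3 k n) := ⟨fun _ _ h => h.symm⟩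
  have key : ∀ a < k, ∀ b < k, ∀ a' < k, ∀ b' < k,
      (a = a' → sh k 0 b = b' → i' a b ≤ i a' b') ∧
      (b = b' → sh k 0 a = a' → j' a b ≤ j a' b') ∧
      (a = a' → b = b' → j a' b' < j' a b ∨ (j a' b' = j' a b ∧ i a' b' ≤ i' a b)) := by
    intro a ha b hb a' ha' b' hb'
    obtain ⟨l1, l2, l3⟩ := hlo a b ha hb
    obtain ⟨u1, u2, u3, -⟩ := hup a' b' ha' hb'
    exact (sep_lo_up ha hb l1 l2 ha' hb' u1 u2).1 (hs.forall l3 u3 (by simp [lo, up]))
  have kx' : ∀ a < k, ∀ b < k, i' a b ≤ i a (sh k 0 b) := fun a ha b hb =>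
    (key a ha b hb a ha _ (sh_lt hb)).1 rfl rfl
  have ky' : ∀ a < k, ∀ b < k, j' a b ≤ j (sh k 0 a) b := fun a ha b hb =>
    (key a ha b hb _ (sh_lt ha) b hb).2.1 rfl rfl
  have kz' : ∀ a < k, ∀ b < k, j a b < j' a b ∨ (j a b = j' a b ∧ i a b ≤ i' a b) :=
    fun a ha b hb => (key a ha b hb a ha b hb).2.2 rfl rfl
  have hj : ∀ b < k, ∀ a < k, j a b = j 0 b := fun b hb =>
    const_of_cyc (f := fun a => j a b) fun a ha => by
      have e1 := ky' a ha b hb
      have e2 := kz' a ha b hb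
      omega
  have hi : ∀ a < k, ∀ b < k, i a b = i a 0 := fun a ha =>
    const_of_cyc (f := fun b => i a b) fun b hb => by
      have e1 := ky' a ha b hb
      have e2 := kz' a ha b hb
      have e3 := kx' a ha b hb
      have e4 := hj b hb a ha
      have e5 := hj b hb _ (sh_lt (s := 0) ha)
      omega
  refine ⟨fun a => i a a, fun a ha => (hup a a ha ha).1, fun a ha b hb hab => ?_⟩
  have e1 := (hup a b ha hb).2.2.2.2 hab
  have e2 := (hup b b hb hb).2.2.2.1 rfl
  rw [hi a ha b hb, ← hi a ha a ha, hj b hb a ha, ← hj b hb b hb, ← e2] at e1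
  exact e1

end Pool.Agent.MP_eb915b_lc

end

section

/-! The reduction from the clique problem and its running time. -/

set_option autoImplicit false

open Pool.Agent.MP_2e8011_lc Pool.Agent.MP_e16607_lc Computability

namespace Pool.Agent.MP_eb915b_lc

/-- The name of a character. -/
def name (t : Pt) : ℕ :=
  Nat.pair t.1 (Nat.pair t.2.1 (Nat.pair t.2.2.1 (Nat.pair t.2.2.2.1 t.2.2.2.2)))

/-- The character with a given name. -/
def unname (c : ℕ) : Pt :=
  (c.unpair.1, c.unpair.2.unpair.1, c.unpair.2.unpair.2.unpair.1,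
    c.unpair.2.unpair.2.unpair.2.unpair.1, c.unpair.2.unpair.2.unpair.2.unpair.2)

theorem unname_name (t : Pt) : unname (name t) = t := by
  simp [unname, name, Nat.unpair_pair]

theorem name_inj : Function.Injective name := Function.LeftInverse.injective unname_name

/-- An entry of a Boolean matrix. -/
def entry (M : List (List Bool)) (i j : ℕ) : Bool := (M.getD i []).getD j false

/-- The reduction, with the clique size in unary. -/
def red (M : List (List Bool)) (k : ℕ) : List ℕ × List ℕ × List ℕ × ℕ :=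
  if M.length < k then ([], [], [], 1)
  else if k ≤ 1 then ([], [], [], 0)
  else ((seqX k M.length (entry M)).map name, (seqY k M.length (entry M)).map name,
    (seqZ k M.length (entry M)).map name, 4 * k * k)

/-- The reduction. -/
def reduction (x : List (List Bool) × ℕ) : List ℕ × List ℕ × List ℕ × ℕ :=
  red x.1 (min x.2 (x.1.length + 1))

section time
variable {α β γ : Type} [Enc α] [Enc β] [Enc γ]

@[fun_prop] theorem pt_prd [Inhabited β] [Inhabited γ] {l : α → List β} {m : α → List γ}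
    (hl : PT l) (hm : PT m) : PT (fun a => prd (l a) (m a)) := by
  unfold prd
  fun_prop

@[fun_prop] theorem pt_rad {W a b c d e : α → ℕ} (hW : PT W) (ha : PT a) (hb : PT b) (hc : PT c)
    (hd : PT d) (he : PT e) : PT (fun x => rad (W x) (a x) (b x) (c x) (d x) (e x)) := by
  unfold rad
  fun_prop

@[fun_prop] theorem pt_sh {k s a : α → ℕ} (hk : PT k) (hs : PT s) (ha : PT a) :
    PT (fun x => sh (k x) (s x) (a x)) := by
  unfold sh
  fun_prop

@[fun_prop] theorem pt_lev {k s a : α → ℕ} (hk : PT k) (hs : PT s) (ha : PT a) :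
    PT (fun x => lev (k x) (s x) (a x)) := by
  unfold lev
  fun_prop

@[fun_prop] theorem pt_kx {k n : α → ℕ} {t : α → Pt} (hk : PT k) (hn : PT n) (ht : PT t) :
    PT (fun x => kx (k x) (n x) (t x)) := by
  unfold kx
  fun_prop

@[fun_prop] theorem pt_ky {k n : α → ℕ} {t : α → Pt} (hk : PT k) (hn : PT n) (ht : PT t) :
    PT (fun x => ky (k x) (n x) (t x)) := by
  unfold ky
  fun_prop

@[fun_prop] theorem pt_kz {k n : α → ℕ} {t : α → Pt} (hk : PT k) (hn : PT n) (ht : PT t) :
    PT (fun x => kz (k x) (n x) (t x)) := by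
  unfold kz
  fun_prop

@[fun_prop] theorem pt_bnd {k n : α → ℕ} (hk : PT k) (hn : PT n) :
    PT (fun x => bnd (k x) (n x)) := by
  unfold bnd
  fun_prop

@[fun_prop] theorem pt_name {t : α → Pt} (ht : PT t) : PT (fun x => name (t x)) := by
  unfold name
  fun_prop

@[fun_prop] theorem pt_entry {M : α → List (List Bool)} {i j : α → ℕ} (hM : PT M) (hi : PT i)
    (hj : PT j) : PT (fun x => entry (M x) (i x) (j x)) := by
  unfold entry
  fun_prop

theorem pt_ok {M : α → List (List Bool)} {t : α → Pt} (hM : PT M) (ht : PT t) :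
    PT (fun x => ok (entry (M x)) (t x)) := by
  unfold ok
  fun_prop

theorem pt_pts {M : α → List (List Bool)} {k n : α → ℕ} (hM : PT M) (hk : PT k) (hn : PT n) :
    PT (fun x => pts (k x) (n x) (entry (M x))) := by
  unfold pts
  exact PT.filter (f := fun x t => ok (entry (M x)) t) (pt_ok (by fun_prop) (by fun_prop))
    (by fun_prop)

theorem pt_sortBy [Inhabited β] {κ : α → β → ℕ} {B : α → ℕ} {L : α → List β}
    (hκ : PT (fun p : α × β => κ p.1 p.2)) (hB : PT B) (hL : PT L) :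
    PT (fun x => sortBy (κ x) (B x) (L x)) := by
  unfold sortBy
  refine PT.flatMap (f := fun x t => (L x).filter fun y => decide (κ x y = t))
    (PT.filter (f := fun (p : α × ℕ) y => decide (κ p.1 y = p.2)) (PT.eq ?_ (by fun_prop))
      (by fun_prop)) (by fun_prop)
  exact hκ.comp (f := fun q : (α × ℕ) × β => (q.1.1, q.2)) (by fun_prop)

theorem pt_red {M : α → List (List Bool)} {k : α → ℕ} (hM : PT M) (hk : PT k) :
    PT (fun x => red (M x) (k x)) := by
  have h0 : PT (fun x => pts (k x) (M x).length (entry (M x))) := pt_pts hM hk (by fun_prop)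
  have h1 : PT (fun x => seqX (k x) (M x).length (entry (M x))) :=
    pt_sortBy (κ := fun x t => kx (k x) (M x).length t) (by fun_prop) (by fun_prop) h0
  have h2 : PT (fun x => seqY (k x) (M x).length (entry (M x))) :=
    pt_sortBy (κ := fun x t => ky (k x) (M x).length t) (by fun_prop) (by fun_prop) h0
  have h3 : PT (fun x => seqZ (k x) (M x).length (entry (M x))) :=
    pt_sortBy (κ := fun x t => kz (k x) (M x).length t) (by fun_prop) (by fun_prop) h0
  have h4 : ∀ {l : α → List Pt}, PT l → PT (fun x => (l x).map name) := fun hl =>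
    PT.map (f := fun _ t => name t) (by fun_prop) hl
  unfold red
  exact PT.ite (by fun_prop) (PT.const _) (PT.ite (by fun_prop) (PT.const _)
    ((h4 h1).prodMk ((h4 h2).prodMk ((h4 h3).prodMk (by fun_prop)))))

theorem pt_binRaw {f : α → ℕ} (hf : PT f) : PT (fun x => binRaw (f x)) :=
  PT.mkRaw (pt_encodeNat hf)

end time

/-- The output with its numbers written in binary. -/
def outRaw (y : List ℕ × List ℕ × List ℕ × ℕ) : List Raw × List Raw × List Raw × Raw :=
  (y.1.map binRaw, y.2.1.map binRaw, y.2.2.1.map binRaw, binRaw y.2.2.2)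

theorem pt_outRaw : PT outRaw := by
  have h : ∀ {l : List ℕ × List ℕ × List ℕ × ℕ → List ℕ}, PT l →
      PT (fun x => (l x).map binRaw) := fun hl =>
    PT.map (f := fun _ t => binRaw t) (pt_binRaw (by fun_prop)) hl
  exact (h (by fun_prop)).prodMk ((h (by fun_prop)).prodMk ((h (by fun_prop)).prodMk
    (pt_binRaw (by fun_prop))))

theorem isPolyTime_reduction : N68a2faeb.IsPolyTime reduction := by
  refine isPolyTime_of_PT (fun x : List (List Bool) × ℕ => (x.1, binRaw x.2)) outRaw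
    (fun x => bitEncode_prod (ι := fun M => M) (agree_list (agree_list agree_bool))
      bitEncode_nat x)
    (fun y => bitEncode_prod (bitEncode_list bitEncode_nat) (κ := fun z : List ℕ × List ℕ × ℕ =>
        (z.1.map binRaw, z.2.1.map binRaw, binRaw z.2.2))
      (bitEncode_prod (bitEncode_list bitEncode_nat)
        (κ := fun z : List ℕ × ℕ => (z.1.map binRaw, binRaw z.2))
        (bitEncode_prod (bitEncode_list bitEncode_nat) bitEncode_nat)) y)
    (g := fun x : List (List Bool) × Raw =>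
      outRaw (red x.1 (min (val x.2.bits) (x.1.length + 1)))) ?_ fun x => ?_
  · exact pt_outRaw.comp (pt_red (by fun_prop) (pt_min_val (by fun_prop) (by fun_prop)))
  · simp only [binRaw, val_encodeNat, reduction]

theorem length_adjRows {n : ℕ} (G : SimpleGraph (Fin n)) : (adjRows G).length = n := by
  simp [adjRows]

theorem entry_adjRows {n : ℕ} (G : SimpleGraph (Fin n)) (i j : Fin n) :
    entry (adjRows G) i j = true ↔ G.Adj i j := by
  simp [entry, adjRows, List.getD_eq_getElem?_getD]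

theorem clq_iff {n : ℕ} (G : SimpleGraph (Fin n)) (k : ℕ) :
    Clq k n (entry (adjRows G)) ↔ ∃ s : Finset (Fin n), G.IsNClique k s := by
  constructor
  · rintro ⟨u, hu, hA⟩
    let v : Fin k → Fin n := fun a => ⟨u a, hu a a.2⟩
    have hv : ∀ a b, a ≠ b → G.Adj (v a) (v b) := fun a b hab =>
      (entry_adjRows G (v a) (v b)).1 (hA a a.2 b b.2 fun e => hab (Fin.ext e))
    have hinj : Function.Injective v := fun a b e => by
      by_contra hab
      exact (hv a b hab).ne e
    refine ⟨Finset.univ.map ⟨v, hinj⟩, ?_, by simp⟩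
    intro x hx y hy hxy
    simp only [Finset.coe_map, Function.Embedding.coeFn_mk, Finset.coe_univ, Set.image_univ,
      Set.mem_range] at hx hy
    obtain ⟨a, rfl⟩ := hx
    obtain ⟨b, rfl⟩ := hy
    exact hv a b fun e => hxy (congrArg v e)
  · rintro ⟨s, hs, hc⟩
    let v := s.orderEmbOfFin hc
    refine ⟨fun a => if h : a < k then (v ⟨a, h⟩ : ℕ) else 0, fun a ha => ?_,
      fun a ha b hb hab => ?_⟩
    · simp only [ha, dif_pos]
      exact (v ⟨a, ha⟩).2
    · simp only [ha, hb, dif_pos]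
      refine (entry_adjRows G _ _).2 (hs (Finset.orderEmbOfFin_mem s hc _)
        (Finset.orderEmbOfFin_mem s hc _) fun e => hab ?_)
      simpa using v.injective e

theorem msr3_nil_iff (m : ℕ) : MSR3 ([] : List ℕ) [] [] m ↔ m = 0 := by
  constructor
  · rintro ⟨S₁, S₂, S₃, h1, -, -, -, h⟩
    rw [List.sublist_nil.1 h1] at h
    simpa using h
  · rintro rfl
    exact ⟨[], [], [], List.Sublist.refl _, List.Sublist.refl _, List.Sublist.refl _,
      ⟨[], [], [], rfl, rfl, rfl, List.Perm.refl _, List.Perm.refl _, by simp⟩, le_rfl⟩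

theorem reduction_spec {n : ℕ} (G : SimpleGraph (Fin n)) (k : ℕ) (G₁ G₂ G₃ : List ℕ) (m : ℕ)
    (h : reduction (adjRows G, k) = (G₁, G₂, G₃, m)) :
    G₁.Nodup ∧ G₁.Perm G₂ ∧ G₁.Perm G₃ ∧ m ≤ 4 * k ^ 2 ∧
      ((∃ s : Finset (Fin n), G.IsNClique k s) ↔ MSR3 G₁ G₂ G₃ m) := by
  simp only [reduction, red, length_adjRows] at h
  split_ifs at h with h1 h2
  · obtain ⟨rfl, rfl, rfl, rfl⟩ := by simpa only [Prod.mk.injEq] using h
    have hk : n < k := by omega
    refine ⟨List.nodup_nil, List.Perm.refl _, List.Perm.refl _, by nlinarith, ?_⟩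
    rw [msr3_nil_iff]
    refine ⟨fun ⟨s, hs⟩ => ?_, fun h => by omega⟩
    have := s.card_le_univ
    rw [hs.card_eq, Fintype.card_fin] at this
    omega
  · obtain ⟨rfl, rfl, rfl, rfl⟩ := by simpa only [Prod.mk.injEq] using h
    refine ⟨List.nodup_nil, List.Perm.refl _, List.Perm.refl _, by omega, ?_⟩
    rw [msr3_nil_iff, ← clq_iff]
    exact ⟨fun _ => rfl, fun _ => ⟨fun _ => 0, fun a ha => by dsimp only; omega,
      fun a ha b hb hab => by omega⟩⟩
  · have hk : min k (n + 1) = k := by omega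
    rw [hk] at h h2
    obtain ⟨rfl, rfl, rfl, rfl⟩ := by simpa only [Prod.mk.injEq] using h
    refine ⟨(nodup_of_key pairwise_seqX).map name_inj, perm_seqY.map _, perm_seqZ.map _,
      by nlinarith, ?_⟩
    rw [msr3_map_iff unname_name, ← clq_iff]
    exact ⟨msr3_of_clq (by omega), clq_of_msr3 (by omega)⟩

end Pool.Agent.MP_eb915b_lc

end
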