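import Mathlib
import Pool.Agent.MP_f23db5_lc.Defs

section

/-! Relation algebras with at most four atoms: definitions and the steps of the proof. -/

set_option synthInstance.maxSize 4096

namespace Pool.Agent.MP_f23db5_lc.Low

/-- atom structures: labels `< m`, identity label `0`, converse `cv`; `T a b c` means `c ≤ a ; b` -/
structure St where
  m : ℕ
  cv : ℕ → ℕ
  T : ℕ → ℕ → ℕ → Bool

/-- consistent labellings (the label `0` may occur off the diagonal) -/
structure Con (S : St) {D : Type} (l : D → D → ℕ) : Prop where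
  lt : ∀ x y, l x y < S.m
  dg : ∀ x, l x x = 0
  cv : ∀ x y, l y x = S.cv (l x y)
  tri : ∀ x y z, S.T (l x z) (l z y) (l x y) = true

/-- models -/
structure Mod (S : St) {D : Type} (l : D → D → ℕ) : Prop extends Con S l where
  eq : ∀ x y, l x y = 0 → x = y
  wit : ∀ x y a b, a < S.m → b < S.m → S.T a b (l x y) = true → ∃ z, l x z = a ∧ l z y = b

/-- labellings that come from a model -/
def Emb (S : St) {V : Type} (h : V → V → ℕ) : Prop :=
  ∃ (D : Type) (l : D → D → ℕ), Mod S l ∧ ∃ f : V → D, ∀ i j, l (f i) (f j) = h i j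

/-- the labellings that come from a model have local certificates -/
def SNP (S : St) : Prop :=
  ∃ (B : Type) (_ : Fintype B) (π : B → ℕ) (G : (Fin 4 → Fin 4 → B) → Prop),
    ∀ (n : ℕ) (h : Fin (n + 1) → Fin (n + 1) → ℕ), Emb S h ↔
      ∃ g : Fin (n + 1) → Fin (n + 1) → B, (∀ i j, π (g i j) = h i j) ∧
        ∀ t : Fin 4 → Fin (n + 1), G fun a b => g (t a) (t b)

/-- the satisfiable networks have local certificates -/
def SNPA {A : Type} [BooleanAlgebra A] (R : Ops A) : Prop :=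
  ∃ (B : Type) (_ : Fintype B) (π : B → A) (G : (Fin 4 → Fin 4 → B) → Prop),
    ∀ (n : ℕ) (lab : Fin (n + 1) → Fin (n + 1) → A), Satisfiable R (n + 1) lab ↔
      ∃ g : Fin (n + 1) → Fin (n + 1) → B, (∀ i j, π (g i j) ≤ lab i j) ∧
        ∀ t : Fin 4 → Fin (n + 1), G fun a b => g (t a) (t b)

/-- the laws of converse and identity -/
def Wf (S : St) : Prop :=
  0 < S.m ∧ S.cv 0 = 0 ∧ S.T 0 0 0 = true ∧ (∀ a < S.m, S.cv a < S.m ∧ S.cv (S.cv a) = a) ∧
  ∀ a < S.m, ∀ b < S.m, ∀ c < S.m, S.T a b c = true →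
    S.T (S.cv a) c b = true ∧ S.T c (S.cv b) a = true ∧ (a = 0 → b = c) ∧ S.T 0 c c = true

instance instDecWf (S : St) : Decidable (Wf S) := by unfold Wf; infer_instance

/-- classes of labellings given by a condition on four points -/
def Cl (C : (Fin 4 → Fin 4 → ℕ) → Prop) {D : Type} (l : D → D → ℕ) : Prop :=
  ∀ t : Fin 4 → D, C fun a b => l (t a) (t b)

/-- one more point -/
def ext (S : St) {D : Type} (l : D → D → ℕ) (r : D → ℕ) : Option D → Option D → ℕ
  | some x, some y => l x y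
  | some x, none => r x
  | none, some y => S.cv (r y)
  | none, none => 0

/-- witnesses can be added inside the class -/
def ExtP (S : St) (C : (Fin 4 → Fin 4 → ℕ) → Prop) : Prop :=
  ∀ (D : Type) (l : D → D → ℕ), Cl C l → ∀ x y a b, a < S.m → b < S.m →
    S.T a b (l x y) = true → (∃ z, l x z = a ∧ l z y = b) ∨
      ∃ r : D → ℕ, r x = a ∧ S.cv (r y) = b ∧ Cl C (ext S l r)

/-- all finite consistent labellings come from a model -/
def Amal (S : St) : Prop :=
  ∀ (n : ℕ) (h : Fin (n + 1) → Fin (n + 1) → ℕ), Con S h → Emb S h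

/-- the triangles with the new point -/
def RuleIn (S : St) (a b c : ℕ) (s : ℕ → ℕ → ℕ) (p q : ℕ) : Prop :=
  ∀ p' < S.m, ∀ q' < S.m, S.T p' q' c = true → ¬ (p' = a ∧ q' = b) →
    ∀ u < S.m, S.T p u p' = true → S.T u q' q = true → S.T u (s p' q') (s p q) = true

instance instDecRuleIn (S : St) (a b c : ℕ) (s : ℕ → ℕ → ℕ) (p q : ℕ) :
    Decidable (RuleIn S a b c s p q) := by unfold RuleIn; infer_instance

/-- a rule for one demand: the new point `z` gets `l v z = s (l x v) (l v y)` -/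
def RuleAt (S : St) (a b c : ℕ) (s : ℕ → ℕ → ℕ) : Prop :=
  s 0 c = a ∧ S.cv (s c 0) = b ∧
    ∀ p < S.m, ∀ q < S.m, S.T p q c = true → ¬ (p = a ∧ q = b) → s p q < S.m ∧ RuleIn S a b c s p q

instance instDecRuleAt (S : St) (a b c : ℕ) (s : ℕ → ℕ → ℕ) : Decidable (RuleAt S a b c s) := by
  unfold RuleAt; infer_instance

/-- local rules for all demands -/
def RuleOk (S : St) (σ : ℕ → ℕ → ℕ → ℕ → ℕ → ℕ) : Prop :=
  ∀ a < S.m, ∀ b < S.m, ∀ c < S.m, a ≠ 0 → b ≠ 0 → S.T a b c = true → RuleAt S a b c (σ a b c)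

instance instDecRuleOk (S : St) (σ : ℕ → ℕ → ℕ → ℕ → ℕ → ℕ) : Decidable (RuleOk S σ) := by
  unfold RuleOk; infer_instance

/-- `π` turns models of `S'` into models of `S` -/
def Red (S' S : St) (π : ℕ → ℕ) : Prop :=
  π 0 = 0 ∧ (∀ a < S'.m, S'.T 0 a a = true →
    π a < S.m ∧ (π a = 0 → a = 0) ∧ π (S'.cv a) = S.cv (π a)) ∧
  (∀ a < S'.m, ∀ b < S'.m, ∀ c < S'.m, S'.T a b c = true → S.T (π a) (π b) (π c) = true) ∧
  ∀ c < S'.m, S'.T 0 c c = true → ∀ a < S.m, ∀ b < S.m, S.T a b (π c) = true →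
    ∃ a' < S'.m, ∃ b' < S'.m, π a' = a ∧ π b' = b ∧ S'.T a' b' c = true

instance instDecRed (S' S : St) (π : ℕ → ℕ) : Decidable (Red S' S π) := by
  unfold Red; infer_instance

/-- every nonempty model of `S` has a consistent finer labelling -/
def Exp (S' S : St) (π : ℕ → ℕ) : Prop :=
  ∀ (D : Type) (l : D → D → ℕ), Mod S l → Nonempty D →
    ∃ l' : D → D → ℕ, Con S' l' ∧ ∀ x y, π (l' x y) = l x y

/-! ### finite labellings as lists: row `j` holds the labels of the pairs `i < j` -/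

/-- the label of the pair `i`, `j` -/
def gt (S : St) (N : List (List ℕ)) (i j : ℕ) : ℕ :=
  if i < j then (N.getD j []).getD i 0 else if i = j then 0 else S.cv ((N.getD i []).getD j 0)

/-- the consistent rows of length `i` of a witness `z` for `l x z = a`, `l z y = b` -/
def exts (S : St) (N : List (List ℕ)) (x y a b : ℕ) : ℕ → List (List ℕ)
  | 0 => [[]]
  | i + 1 => (exts S N x y a b i).flatMap fun r =>
      ((List.range S.m).filter fun v => decide ((i = x → v = a) ∧ (i = y → v = S.cv b) ∧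
        ∀ j < i, S.T (gt S N j i) v (r.getD j 0) = true)).map fun v => r ++ [v]

/-- the labelling of the points with the indices `ix` -/
def sub (S : St) (N : List (List ℕ)) (ix : List ℕ) : List (List ℕ) :=
  (List.range ix.length).map fun j => (List.range j).map fun i => gt S N (ix.getD i 0) (ix.getD j 0)

/-- the points `f 0, f 1, …` have the labels `N` -/
def Real {D : Type} (l : D → D → ℕ) (f : ℕ → D) (N : List (List ℕ)) : Prop :=
  ∀ j < N.length, ∀ i < j, l (f i) (f j) = (N.getD j []).getD i 0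

/-- labellings that occur in no model -/
def Bad (S : St) (N : List (List ℕ)) : Prop :=
  ∀ (D : Type) (l : D → D → ℕ), Mod S l → ∀ f : ℕ → D, ¬ Real l f N

/-- all triangles are consistent -/
def Tris (S : St) (N : List (List ℕ)) : Prop :=
  ∀ x < N.length, ∀ y < x, ∀ z < y, S.T (gt S N z y) (gt S N y x) (gt S N z x) = true

instance instDecTris (S : St) (N : List (List ℕ)) : Decidable (Tris S N) := by
  unfold Tris; infer_instance

/-- some witness cannot be added -/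
def Dead (S : St) (N : List (List ℕ)) : Prop :=
  ∃ y < N.length, ∃ x < y + 1, ∃ a < S.m, ∃ b < S.m, S.T a b (gt S N x y) = true ∧
    exts S N x y a b N.length = []

instance instDecDead (S : St) (N : List (List ℕ)) : Decidable (Dead S N) := by
  unfold Dead; infer_instance

/-- steps of a refutation: a labelling, a demand `x y a b`, earlier steps with indices -/
structure Item where
  N : List (List ℕ)
  x : ℕ
  y : ℕ
  a : ℕ
  b : ℕ
  refs : List (ℕ × List ℕ)

/-- every witness for the demand creates one of the labellings `F` -/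
def ItemOk (S : St) (F : List (List (List ℕ))) (it : Item) : Prop :=
  it.x < it.N.length ∧ it.y < it.N.length ∧ it.a < S.m ∧ it.b < S.m ∧
    S.T it.a it.b (gt S it.N it.x it.y) = true ∧
    ∀ r ∈ exts S it.N it.x it.y it.a it.b it.N.length, ∃ e ∈ it.refs,
      e.1 < F.length ∧ (∀ i ∈ e.2, i ≤ it.N.length) ∧ sub S (it.N ++ [r]) e.2 = F.getD e.1 []

instance instDecItemOk (S : St) (F : List (List (List ℕ))) (it : Item) :
    Decidable (ItemOk S F it) := by unfold ItemOk; infer_instance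

/-- refutations -/
def refOk (S : St) : List (List (List ℕ)) → List Item → Bool
  | _, [] => true
  | F, it :: c => decide (ItemOk S F it) && refOk S (F ++ [it.N]) c

/-! ### the structures -/

/-- the exchange of `2` and `3` -/
def sw (a : ℕ) : ℕ := if a = 2 then 3 else if a = 3 then 2 else a

/-- structures with four labels, the table given by the bits of `w` -/
def st (k : Bool) (w : ℕ) : St :=
  ⟨4, fun a => if k then sw a else a, fun a b c => w.testBit (16 * a + 4 * b + c)⟩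

/-- rules given by the digits of a number -/
def dg (m w a b c p q : ℕ) : ℕ := (w >>> (3 * ((((a * m + b) * m + c) * m + p) * m + q))) % 8

/-- the identity law -/
def idl (cv : ℕ → ℕ) (a b c : ℕ) : Bool :=
  decide ((a = 0 → b = c) ∧ (b = 0 → a = c) ∧ (c = 0 → b = cv a))

/-- a pentagon of classes: `1` same class, `d + 1` difference `d` modulo five -/
def hA : St :=
  ⟨6, fun a => if a < 2 then a else 7 - a, fun a b c =>
    idl (fun a => if a < 2 then a else 7 - a) a b c && decide ((a - 1 + (b - 1)) % 5 = c - 1)⟩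

/-- the projection for `hA` -/
def pA (a : ℕ) : ℕ := [0, 2, 1, 3, 3, 1].getD a 0

/-- the atoms `1`, `3` form a pentagon of classes of `2` -/
def sA : St := st false 8694345473035764769

/-- classes that are pentagons: `d < 5` difference `d` modulo five, `5` different classes -/
def hB : St :=
  ⟨6, fun a => if a = 0 ∨ a = 5 then a else 5 - a, fun a b c =>
    if a < 5 ∧ b < 5 then decide ((a + b) % 5 = c) else if a < 5 ∨ b < 5 then decide (c = 5)
    else true⟩

/-- the projection for `hB` -/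
def pB (a : ℕ) : ℕ := [0, 1, 3, 3, 1, 2].getD a 0

/-- the atoms `1`, `3` form pentagons, `2` joins different pentagons -/
def sB : St := st false 3794369842297078817

/-- a linear order with three colours: `1 + 2 d + o`, `d` the difference of the colours modulo
three, `o = 0` for increasing pairs -/
def hC : St :=
  ⟨7, fun a => [0, 2, 1, 6, 5, 4, 3].getD a 0, fun a b c =>
    idl (fun a => [0, 2, 1, 6, 5, 4, 3].getD a 0) a b c && decide (a = 0 ∨ b = 0 ∨ c = 0 ∨
      (((a - 1) / 2 + (b - 1) / 2) % 3 = (c - 1) / 2 ∧ (a % 2 = b % 2 → c % 2 = a % 2)))⟩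

/-- the projection for `hC` -/
def pC (a : ℕ) : ℕ := [0, 2, 2, 1, 3, 3, 1].getD a 0

/-- three classes of `2` -/
def sC : St := st false 8856510794956964897

/-- a circle of length six: `j + 1` for an oriented distance between `j` and `j + 1` -/
def hD : St :=
  ⟨7, fun a => if a = 0 then 0 else 7 - a, fun a b c =>
    idl (fun a => if a = 0 then 0 else 7 - a) a b c && decide (a = 0 ∨ b = 0 ∨ c = 0 ∨
      (a + b + 4) % 6 = c - 1 ∨ (a + b + 5) % 6 = c - 1)⟩

/-- the projection for `hD` -/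
def pD (a : ℕ) : ℕ := [0, 2, 1, 3, 3, 1, 2].getD a 0

/-- `2` near, `1` middle, `3` far -/
def sD : St := st false 8856513268925236257

/-- `2` arcs, `3` reversed arcs, `1` no arc; the ends of a directed path of length two are joined -/
def sE : St := st true 14963487271166313505

/-- no induced path on four points -/
def cE (g : Fin 4 → Fin 4 → ℕ) : Prop :=
  Con sE g ∧ ¬ (2 ≤ g 0 1 ∧ 2 ≤ g 1 2 ∧ 2 ≤ g 2 3 ∧ g 0 2 = 1 ∧ g 0 3 = 1 ∧ g 1 3 = 1)

/-- the associative structures with four labels and a label `c ≠ 0` with `T c c c` -/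
def canon : List (Bool × ℕ) :=
  [(false, 3276833), (false, 1254171477025), (false, 3590663046177), (false, 3728139748385),
   (false, 5652217988129), (false, 8126186259489), (false, 1317342217004811297),
   (false, 1317346752528024609), (false, 1452491299380954145), (false, 1452493635872523297),
   (false, 1452493773349225505), (false, 1452495697427465249), (false, 1452498171395736609),
   (false, 3659214025384952865), (false, 3668221362661655585), (false, 3668223286739895329),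
   (false, 3668225760708166689), (false, 3785358244452664353), (false, 3785362642499175457),
   (false, 3794365444252664865), (false, 3794369842297078817), (false, 3794369842299175969),
   (false, 3947521229882295329), (false, 3947523703850566689), (false, 3947525627928806433),
   (false, 3947528101894980641), (false, 3947528101897077793), (false, 3956530903650567201),
   (false, 3956532827726709793), (false, 3956532827728806945), (false, 3956535301694981153),
   (false, 3956535301697078305), (false, 8685338273237861409), (false, 8685340747206132769),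
   (false, 8694345473035764769), (false, 8694345473037861921), (false, 8847503595159061537),
   (false, 8847506069127332897), (false, 8856510794956964897), (false, 8856510794959062049),
   (false, 8856513131450631201), (false, 8856513268925236257), (false, 8856513268927333409),
   (false, 8982653089948533793), (false, 8982657487995044897), (false, 9144818411869733921),
   (false, 9144820335947973665), (false, 9144822809916245025), (false, 10549723515214529569),
   (false, 10549725989182800929), (false, 10675867734282241057), (false, 10675870208250512417),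
   (false, 10838033056203441185), (false, 10838035530171712545), (false, 12891597797562942497),
   (false, 13017741879153951777), (false, 13170897664783582241), (false, 13170900138751853601),
   (false, 13179907201075151905), (false, 13179907338551854113), (false, 18206029524849820705),
   (false, 18368194846771020833), (true, 2578366607490450465), (true, 2587373944767153185),
   (true, 4695029155017950241), (true, 4866201264300655649), (true, 7199068759287563297),
   (true, 10162605672806515713), (true, 10171613010084398113), (true, 10171613010086495265),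
   (true, 10207676991544656929), (true, 10342785119367103521), (true, 10342785119369200673),
   (true, 10351792456643806241), (true, 10351792456645903393), (true, 12495473167794603041),
   (true, 12495473167796700193), (true, 12531537149252764705), (true, 12531537149254861857),
   (true, 12666645277079405601), (true, 12675652614354011169), (true, 12675652614356108321),
   (true, 14774300487326925825), (true, 14783307824604808225), (true, 14783307824606905377),
   (true, 14954479933887513633), (true, 14954479933889610785), (true, 14963487271164216353),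
   (true, 14963487271166313505), (true, 17098160645038310433), (true, 17107167982315013153),
   (true, 17107167982317110305), (true, 17143231963773174817), (true, 17143231963775271969),
   (true, 17278340091599815713), (true, 17287347428874421281), (true, 17287347428876518433)]

/-! ### the steps -/

/-- local certificates give membership in NP -/
def NpP : Prop :=
  ∀ (A : Type) [BooleanAlgebra A] [Fintype A] (R : Ops A) (code : A → ℕ),
    Function.Injective code → SNPA R → NSP R code ∈ N68a2faeb.NP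

/-- representations of bounded size -/
def BndP : Prop :=
  ∀ (A : Type) [BooleanAlgebra A] [Fintype A] (R : Ops A),
    (∀ a, IsAtom a → a ≤ R.comp a a → a ≤ R.ide) → SNPA R

/-- from algebras to atom structures -/
def BrP : Prop :=
  ∀ (A : Type) [BooleanAlgebra A] [Fintype A] (R : Ops A), IsRelAlg R → Fintype.card A < 32 →
    (∃ (D : Type) (ρ : A → Set (D × D)), IsRep R ρ) →
    (∃ a, IsAtom a ∧ a ≤ R.comp a a ∧ ¬ a ≤ R.ide) →
    ∃ (S : St) (e : ℕ → A), S.m = 4 ∧ Wf S ∧ (∃ c < 4, c ≠ 0 ∧ S.T c c c = true) ∧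
      (∃ (D : Type) (l : D → D → ℕ), Mod S l ∧ Nonempty D) ∧
      ∀ (n : ℕ) (lab : Fin (n + 1) → Fin (n + 1) → A), Satisfiable R (n + 1) lab ↔
        ∃ h : Fin (n + 1) → Fin (n + 1) → ℕ, Emb S h ∧ ∀ i j, e (h i j) ≤ lab i j

/-- models built step by step -/
def ChainP : Prop :=
  ∀ (S : St) (C : (Fin 4 → Fin 4 → ℕ) → Prop), Wf S → (∀ g, C g → Con S g) → ExtP S C →
    ∀ (n : ℕ) (h : Fin (n + 1) → Fin (n + 1) → ℕ), Cl C h → Emb S h

/-- local rules are sound -/
def RuleP : Prop :=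
  ∀ (S : St) (σ : ℕ → ℕ → ℕ → ℕ → ℕ → ℕ), Wf S → RuleOk S σ → Amal S

/-- refutations are sound -/
def RefP : Prop :=
  (∀ (S : St) (c : List Item), refOk S [] c = true → ∀ it ∈ c, Bad S it.N) ∧
  (∀ (S : St) (N : List (List ℕ)), Dead S N → Bad S N) ∧
  ∀ (S : St) (N : List (List ℕ)) (D : Type) (l : D → D → ℕ) (f : ℕ → D), Con S l → Real l f N →
    Tris S N

/-- ways to obtain local certificates -/
def SnpP : Prop :=
  (∀ (S : St) (C : (Fin 4 → Fin 4 → ℕ) → Prop), (∀ g, C g → Con S g) →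
    (∀ (n : ℕ) (h : Fin (n + 1) → Fin (n + 1) → ℕ), Cl C h → Emb S h) →
    (∀ (D : Type) (l : D → D → ℕ), Mod S l → Cl C l) → SNP S) ∧
  (∀ S : St, Amal S → SNP S) ∧
  (∀ (S' S : St) (π : ℕ → ℕ), Red S' S π → Amal S' → Exp S' S π → SNP S) ∧
  (∀ (S S' : St) (p q : ℕ → ℕ), Red S S' p → Red S' S q → (∀ a < S.m, q (p a) = a) →
    SNP S' → SNP S) ∧
  ∀ S : St, Bad S [[]] → SNP S

/-- the list `canon` is complete -/
def EnumP : Prop :=
  ∀ S : St, S.m = 4 → Wf S → (∃ c < 4, c ≠ 0 ∧ S.T c c c = true) →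
    (∃ (D : Type) (l : D → D → ℕ), Mod S l ∧ Nonempty D) →
    ∃ e ∈ canon, ∃ p q : ℕ → ℕ, Red S (st e.1 e.2) p ∧ Red (st e.1 e.2) S q ∧ ∀ a < 4, q (p a) = a

/-- acyclic orientations of complete multipartite graphs -/
def OrdP : Prop :=
  ∀ (D : Type) (E r : D → D → Prop), Equivalence E → (∀ x y, r x y → ¬ E x y) →
    (∀ x y, r x y → ¬ r y x) → (∀ x y, ¬ E x y → r x y ∨ r y x) →
    (∀ x y z, r x y → r y z → ¬ r z x) →
    (∀ x y z w, E x z → E y w → r x y → r y z → r z w → ¬ r w x) →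
    ∃ s : D → D → Prop, IsStrictTotalOrder D s ∧ ∀ x y, r x y → s x y

end Pool.Agent.MP_f23db5_lc.Low

end

section

set_option autoImplicit false

namespace Pool.Agent.MP_f23db5_lc.Low

section atoms

variable {A : Type} [BooleanAlgebra A]

theorem atom_le_compl_LBr {a x : A} (ha : IsAtom a) : a ≤ xᶜ ↔ ¬ a ≤ x := by
  rw [le_compl_iff_disjoint_right, ← ha.not_disjoint_iff_le, not_not]

theorem atom_le_sup_LBr {a x y : A} (ha : IsAtom a) : a ≤ x ⊔ y ↔ a ≤ x ∨ a ≤ y := by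
  refine ⟨fun h => ?_, fun h => h.elim le_sup_of_le_left le_sup_of_le_right⟩
  by_contra hc
  rw [not_or, ← atom_le_compl_LBr ha, ← atom_le_compl_LBr ha, ← le_inf_iff, ← compl_sup] at hc
  exact (atom_le_compl_LBr ha).1 hc h

theorem atom_eq_LBr {a b : A} (ha : IsAtom a) (hb : IsAtom b) (h : a ≤ b) : a = b :=
  (hb.le_iff_eq ha.1).1 h

theorem atom_le_fsup_LBr {a : A} (ha : IsAtom a) (s : Finset A) (hs : ∀ b ∈ s, IsAtom b) :
    a ≤ s.sup id ↔ a ∈ s := by
  classical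
  refine ⟨fun h => ?_, fun h => Finset.le_sup (f := id) h⟩
  induction s using Finset.induction_on with
  | empty => exact absurd (le_bot_iff.1 h) ha.1
  | insert b s _ ih =>
    rw [Finset.sup_insert, atom_le_sup_LBr ha] at h
    rcases h with h | h
    · rw [atom_eq_LBr ha (hs b (Finset.mem_insert_self _ _)) h]
      exact Finset.mem_insert_self _ _
    · exact Finset.mem_insert_of_mem (ih (fun c hc => hs c (Finset.mem_insert_of_mem hc)) h)

theorem card_atoms_LBr [Fintype A] (hA : Fintype.card A < 32) (s : Finset A)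
    (hs : ∀ b ∈ s, IsAtom b) : s.card ≤ 4 := by
  have h1 : s.powerset.card ≤ (Finset.univ : Finset A).card := by
    refine Finset.card_le_card_of_injOn (fun t => t.sup id) (fun _ _ => Finset.mem_univ _) ?_
    intro t ht u hu h
    have ht' : t ⊆ s := Finset.mem_powerset.1 ht
    have hu' : u ⊆ s := Finset.mem_powerset.1 hu
    have h' : t.sup id = u.sup id := h
    ext a
    constructor
    · intro ha
      rw [← atom_le_fsup_LBr (hs a (ht' ha)) u fun b hb => hs b (hu' hb), ← h']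
      exact Finset.le_sup (f := id) ha
    · intro ha
      rw [← atom_le_fsup_LBr (hs a (hu' ha)) t fun b hb => hs b (ht' hb), h']
      exact Finset.le_sup (f := id) ha
  rw [Finset.card_powerset, Finset.card_univ] at h1
  by_contra hc
  have h2 : 2 ^ 5 ≤ 2 ^ s.card := Nat.pow_le_pow_right (by norm_num) (by omega)
  omega

end atoms

section rep

variable {A : Type} [BooleanAlgebra A] {R : Ops A} {D : Type} {ρ : A → Set (D × D)}

theorem mono_LBr (h : IsRep R ρ) {x y : A} (hxy : x ≤ y) {p : D × D} (hp : p ∈ ρ x) : p ∈ ρ y := by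
  rw [← sup_eq_right.2 hxy, h.map_sup]
  exact Or.inl hp

theorem le_of_sub_LBr (h : IsRep R ρ) {x y : A} (hxy : ∀ p ∈ ρ x, p ∈ ρ y) : x ≤ y := by
  refine sup_eq_right.1 (h.inj ?_)
  rw [h.map_sup]
  exact Set.union_eq_self_of_subset_left hxy

theorem ne_LBr (h : IsRep R ρ) {a : A} (ha : a ≠ ⊥) : ∃ x y, (x, y) ∈ ρ a := by
  by_contra hc
  refine ha (le_bot_iff.1 (le_of_sub_LBr h fun p hp => ?_))
  exact absurd ⟨p.1, p.2, hp⟩ hc

theorem atom_le_LBr (h : IsRep R ρ) {a b : A} (ha : IsAtom a) {p : D × D} (h1 : p ∈ ρ a)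
    (h2 : p ∈ ρ b) : a ≤ b := by
  by_contra hc
  have h3 := mono_LBr h ((atom_le_compl_LBr ha).2 hc) h1
  rw [h.map_compl] at h3
  exact h3 h2

theorem mem_comp_LBr (h : IsRep R ρ) {a b : A} {x y : D} :
    (x, y) ∈ ρ (R.comp a b) ↔ ∃ z, (x, z) ∈ ρ a ∧ (z, y) ∈ ρ b := by
  rw [h.map_comp]; rfl

theorem mem_conv_LBr (h : IsRep R ρ) {a : A} {x y : D} :
    (x, y) ∈ ρ (R.conv a) ↔ (y, x) ∈ ρ a := by
  rw [h.map_conv]; rfl

theorem mem_ide_LBr (h : IsRep R ρ) {x y : D} : (x, y) ∈ ρ R.ide ↔ x = y := by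
  rw [h.map_ide]; rfl

theorem ex_atom_LBr [Fintype A] (h : IsRep R ρ) (p : D × D) : ∃ a, IsAtom a ∧ p ∈ ρ a := by
  obtain ⟨a, ha, hm⟩ := WellFounded.has_min (wellFounded_lt (α := A)) {a | p ∈ ρ a}
    ⟨⊤, by change p ∈ ρ ⊤; rw [h.map_top]; trivial⟩
  refine ⟨a, ⟨fun h0 => ?_, fun b hb => ?_⟩, ha⟩
  · have h1 : p ∈ ρ a := ha
    rw [h0, h.map_bot] at h1
    exact h1
  · have h1 : p ∈ ρ (a ⊓ bᶜ) := by
      rw [h.map_inf, h.map_compl]
      exact ⟨ha, fun h2 => hm b h2 hb⟩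
    have h2 : a ⊓ bᶜ = a := by
      by_contra h3
      exact hm _ h1 (lt_of_le_of_ne inf_le_left h3)
    exact le_compl_self.1 (hb.le.trans (inf_eq_left.1 h2))

theorem conv_le_LBr (h : IsRep R ρ) {c x : A} : c ≤ R.conv x ↔ R.conv c ≤ x := by
  constructor
  · intro h1
    refine le_of_sub_LBr h fun p hp => ?_
    exact (mem_conv_LBr h).1 (mono_LBr h h1 ((mem_conv_LBr h).1 hp))
  · intro h1
    refine le_of_sub_LBr h fun p hp => ?_
    exact (mem_conv_LBr h).2 (mono_LBr h h1 ((mem_conv_LBr h).2 hp))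

theorem conv_conv_LBr (h : IsRep R ρ) (x : A) : R.conv (R.conv x) = x :=
  le_antisymm ((conv_le_LBr h).1 le_rfl) (le_of_sub_LBr h fun _ hp =>
    (mem_conv_LBr h).2 ((mem_conv_LBr h).2 hp))

theorem conv_atom_LBr [Fintype A] (h : IsRep R ρ) {a : A} (ha : IsAtom a) : IsAtom (R.conv a) := by
  obtain ⟨x, y, hxy⟩ := ne_LBr h ha.1
  obtain ⟨b, hb, hp⟩ := ex_atom_LBr h (y, x)
  have h1 : b ≤ R.conv a := atom_le_LBr h hb hp ((mem_conv_LBr h).2 hxy)
  have h2 : a ≤ R.conv b := atom_le_LBr h ha hxy ((mem_conv_LBr h).2 hp)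
  rwa [← le_antisymm h1 ((conv_le_LBr h).1 h2)]

theorem conv_ide_LBr (h : IsRep R ρ) : R.conv R.ide = R.ide := by
  have h1 : R.conv R.ide ≤ R.ide := le_of_sub_LBr h fun _ hp =>
    (mem_ide_LBr h).2 ((mem_ide_LBr h).1 ((mem_conv_LBr h).1 hp)).symm
  exact le_antisymm h1 ((conv_le_LBr h).2 h1)

theorem ide_comp_LBr (h : IsRep R ρ) (x : A) : R.comp R.ide x = x := by
  refine le_antisymm (le_of_sub_LBr h fun p hp => ?_) (le_of_sub_LBr h fun p hp => ?_)
  · obtain ⟨z, h1, h2⟩ := (mem_comp_LBr h).1 hp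
    rw [← (mem_ide_LBr h).1 h1] at h2
    exact h2
  · exact (mem_comp_LBr h).2 ⟨p.1, (mem_ide_LBr h).2 rfl, hp⟩

theorem comp_mono_LBr (h : IsRep R ρ) {a b x y : A} (h1 : a ≤ x) (h2 : b ≤ y) :
    R.comp a b ≤ R.comp x y := by
  refine le_of_sub_LBr h fun p hp => ?_
  obtain ⟨z, h3, h4⟩ := (mem_comp_LBr h).1 hp
  exact (mem_comp_LBr h).2 ⟨z, mono_LBr h h1 h3, mono_LBr h h2 h4⟩

theorem comp_split_LBr [Fintype A] (h : IsRep R ρ) {c x y : A} (hc : IsAtom c)
    (h1 : c ≤ R.comp x y) : ∃ a b, IsAtom a ∧ IsAtom b ∧ a ≤ x ∧ b ≤ y ∧ c ≤ R.comp a b := by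
  obtain ⟨u, v, huv⟩ := ne_LBr h hc.1
  obtain ⟨z, h3, h4⟩ := (mem_comp_LBr h).1 (mono_LBr h h1 huv)
  obtain ⟨a, ha, hp⟩ := ex_atom_LBr h (u, z)
  obtain ⟨b, hb, hq⟩ := ex_atom_LBr h (z, v)
  exact ⟨a, b, ha, hb, atom_le_LBr h ha hp h3, atom_le_LBr h hb hq h4,
    atom_le_LBr h hc huv ((mem_comp_LBr h).2 ⟨z, hp, hq⟩)⟩

theorem peirce_LBr (h : IsRep R ρ) {a b c : A} (ha : IsAtom a) (hb : IsAtom b) (hc : IsAtom c)
    (h1 : c ≤ R.comp a b) : b ≤ R.comp (R.conv a) c ∧ a ≤ R.comp c (R.conv b) := by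
  obtain ⟨u, v, huv⟩ := ne_LBr h hc.1
  obtain ⟨z, h3, h4⟩ := (mem_comp_LBr h).1 (mono_LBr h h1 huv)
  exact ⟨atom_le_LBr h hb h4 ((mem_comp_LBr h).2 ⟨u, (mem_conv_LBr h).2 h3, huv⟩),
    atom_le_LBr h ha h3 ((mem_comp_LBr h).2 ⟨v, huv, (mem_conv_LBr h).2 h4⟩)⟩

theorem ide_le_LBr (h : IsRep R ρ) (hi : IsAtom R.ide) {a : A} (ha : IsAtom a) :
    R.ide ≤ R.comp a (R.conv a) := by
  obtain ⟨u, v, huv⟩ := ne_LBr h ha.1
  exact atom_le_LBr h hi (p := (u, u)) ((mem_ide_LBr h).2 rfl)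
    ((mem_comp_LBr h).2 ⟨v, huv, (mem_conv_LBr h).2 huv⟩)

theorem src_LBr (h : IsRep R ρ) {c e : A} (hc : IsAtom c) (he : e ≤ R.ide) {p q p' q' : D}
    (h1 : (p, q) ∈ ρ c) (h2 : (p', q') ∈ ρ c) (h3 : (p, p) ∈ ρ e) : (p', p') ∈ ρ e := by
  have h4 : c ≤ R.comp e c := atom_le_LBr h hc h1 ((mem_comp_LBr h).2 ⟨p, h3, h1⟩)
  obtain ⟨z, h5, -⟩ := (mem_comp_LBr h).1 (mono_LBr h h4 h2)
  have h6 := (mem_ide_LBr h).1 (mono_LBr h he h5)
  rwa [← h6] at h5

theorem tgt_LBr (h : IsRep R ρ) {c e : A} (hc : IsAtom c) (he : e ≤ R.ide) {p q p' q' : D}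
    (h1 : (p, q) ∈ ρ c) (h2 : (p', q') ∈ ρ c) (h3 : (q, q) ∈ ρ e) : (q', q') ∈ ρ e := by
  have h4 : c ≤ R.comp c e := atom_le_LBr h hc h1 ((mem_comp_LBr h).2 ⟨q, h1, h3⟩)
  obtain ⟨z, -, h5⟩ := (mem_comp_LBr h).1 (mono_LBr h h4 h2)
  have h6 := (mem_ide_LBr h).1 (mono_LBr h he h5)
  rwa [h6] at h5

theorem ide_atom_LBr [Fintype A] (h : IsRep R ρ) (hA : Fintype.card A < 32) {a : A}
    (ha : IsAtom a) (h1 : a ≤ R.comp a a) (h2 : ¬ a ≤ R.ide) : IsAtom R.ide := by
  classical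
  obtain ⟨x, y, hxy⟩ := ne_LBr h ha.1
  obtain ⟨z, hxz, hzy⟩ := (mem_comp_LBr h).1 (mono_LBr h h1 hxy)
  obtain ⟨e₁, he₁, hx⟩ := ex_atom_LBr h (x, x)
  have hi₁ : e₁ ≤ R.ide := atom_le_LBr h he₁ hx ((mem_ide_LBr h).2 rfl)
  have hz : (z, z) ∈ ρ e₁ := src_LBr h ha hi₁ hxz hzy hx
  by_contra hc
  have h3 : ∃ e₂, IsAtom e₂ ∧ e₂ ≤ R.ide ∧ e₂ ≠ e₁ := by
    by_contra h4
    refine hc (le_antisymm hi₁ (BooleanAlgebra.le_iff_atom_le_imp.2 fun b hb hb' => ?_) ▸ he₁)
    by_contra h5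
    exact h4 ⟨b, hb, hb', fun h6 => h5 h6.le⟩
  obtain ⟨e₂, he₂, hi₂, hne⟩ := h3
  obtain ⟨w, w', hw⟩ := ne_LBr h he₂.1
  rw [← (mem_ide_LBr h).1 (mono_LBr h hi₂ hw)] at hw
  have hw1 : (w, w) ∉ ρ e₁ := fun h4 => hne (atom_eq_LBr he₂ he₁ (atom_le_LBr h he₂ hw h4))
  have hxw : x ≠ w := fun h4 => hw1 (h4 ▸ hx)
  obtain ⟨b, hb, hxb⟩ := ex_atom_LBr h (x, w)
  obtain ⟨c, hc', hxc⟩ := ex_atom_LBr h (w, x)
  have hbi : ¬ b ≤ R.ide := fun h4 => hxw ((mem_ide_LBr h).1 (mono_LBr h h4 hxb))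
  have hci : ¬ c ≤ R.ide := fun h4 => hxw ((mem_ide_LBr h).1 (mono_LBr h h4 hxc)).symm
  have n1 : e₁ ≠ a := fun h4 => h2 (h4 ▸ hi₁)
  have n2 : e₁ ≠ b := fun h4 => hbi (h4 ▸ hi₁)
  have n3 : e₁ ≠ c := fun h4 => hci (h4 ▸ hi₁)
  have n4 : e₂ ≠ a := fun h4 => h2 (h4 ▸ hi₂)
  have n5 : e₂ ≠ b := fun h4 => hbi (h4 ▸ hi₂)
  have n6 : e₂ ≠ c := fun h4 => hci (h4 ▸ hi₂)
  have n7 : a ≠ b := fun h4 => hw1 (tgt_LBr h ha hi₁ hxz (h4 ▸ hxb) hz)
  have n8 : a ≠ c := fun h4 => hw1 (src_LBr h ha hi₁ hxz (h4 ▸ hxc) hx)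
  have n9 : b ≠ c := fun h4 => hw1 (src_LBr h hb hi₁ hxb (h4 ▸ hxc) hx)
  have h5 := card_atoms_LBr hA {e₁, e₂, a, b, c} (by
    intro t ht
    simp only [Finset.mem_insert, Finset.mem_singleton] at ht
    rcases ht with rfl | rfl | rfl | rfl | rfl <;> assumption)
  rw [Finset.card_insert_of_notMem (by simp [hne.symm, n1, n2, n3]),
    Finset.card_insert_of_notMem (by simp [n4, n5, n6]),
    Finset.card_insert_of_notMem (by simp [n7, n8]),
    Finset.card_insert_of_notMem (by simp [n9]), Finset.card_singleton] at h5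
  omega

end rep

/-- A numbering of the atoms. -/
structure Num_LBr {A : Type} [BooleanAlgebra A] (R : Ops A) (k : ℕ) (e : ℕ → A) (io : A → ℕ) :
    Prop where
  k_le : k ≤ 4
  k_pos : 0 < k
  e0 : e 0 = R.ide
  atm : ∀ i < k, IsAtom (e i)
  ioe : ∀ i < k, io (e i) = i
  lt : ∀ a, IsAtom a → io a < k
  eio : ∀ a, IsAtom a → e (io a) = a

theorem ex_num_LBr {A : Type} [BooleanAlgebra A] [Fintype A] (R : Ops A)
    (hA : Fintype.card A < 32) (hi : IsAtom R.ide) : ∃ k e io, Num_LBr R k e io := by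
  classical
  let L : List A := R.ide :: ((Finset.univ.filter IsAtom).erase R.ide).toList
  have hnd : L.Nodup := List.nodup_cons.2 ⟨by simp, Finset.nodup_toList _⟩
  have hm : ∀ a, a ∈ L ↔ IsAtom a := by
    intro a
    simp only [L, List.mem_cons, Finset.mem_toList, Finset.mem_erase, Finset.mem_filter,
      Finset.mem_univ, true_and]
    constructor
    · rintro (rfl | h)
      · exact hi
      · exact h.2
    · intro h
      by_cases h' : a = R.ide
      · exact Or.inl h'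
      · exact Or.inr ⟨h', h⟩
  refine ⟨L.length, fun i => L.getD i ⊥, fun a => L.idxOf a, ?_, by simp [L], by simp [L], ?_, ?_,
    ?_, ?_⟩
  · rw [← List.toFinset_card_of_nodup hnd]
    exact card_atoms_LBr hA _ fun b hb => (hm b).1 (List.mem_toFinset.1 hb)
  · intro i hi
    rw [List.getD_eq_getElem _ _ hi]
    exact (hm _).1 (List.getElem_mem hi)
  · intro i hi
    rw [List.getD_eq_getElem _ _ hi]
    exact hnd.idxOf_getElem i hi
  · intro a ha
    exact List.idxOf_lt_length_of_mem ((hm a).2 ha)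
  · intro a ha
    have h1 := List.idxOf_lt_length_of_mem ((hm a).2 ha)
    rw [List.getD_eq_getElem _ _ h1]
    exact List.getElem_idxOf h1

open Classical in
/-- The atom structure of an algebra. -/
noncomputable def st_LBr {A : Type} [BooleanAlgebra A] (R : Ops A) (k : ℕ) (e : ℕ → A)
    (io : A → ℕ) : St :=
  ⟨4, fun i => if i < k then io (R.conv (e i)) else i,
    fun a b c => decide (a < k ∧ b < k ∧ c < k ∧ e c ≤ R.comp (e a) (e b))⟩

section main

variable {A : Type} [BooleanAlgebra A] {R : Ops A} {k : ℕ} {e : ℕ → A} {io : A → ℕ}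
  {D : Type} {ρ : A → Set (D × D)}

theorem T_LBr {a b c : ℕ} : (st_LBr R k e io).T a b c = true ↔
    a < k ∧ b < k ∧ c < k ∧ e c ≤ R.comp (e a) (e b) := by
  simp only [st_LBr, decide_eq_true_eq]

theorem cv_LBr {i : ℕ} (hi : i < k) : (st_LBr R k e io).cv i = io (R.conv (e i)) := by
  simp only [st_LBr, if_pos hi]

theorem inj_LBr (N : Num_LBr R k e io) {i j : ℕ} (hi : i < k) (hj : j < k) (h : e i = e j) :
    i = j := by
  rw [← N.ioe i hi, h, N.ioe j hj]

variable [Fintype A]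

theorem cvlt_LBr (h : IsRep R ρ) (N : Num_LBr R k e io) {i : ℕ} (hi : i < k) :
    (st_LBr R k e io).cv i < k := by
  rw [cv_LBr hi]
  exact N.lt _ (conv_atom_LBr h (N.atm i hi))

theorem ecv_LBr (h : IsRep R ρ) (N : Num_LBr R k e io) {i : ℕ} (hi : i < k) :
    e ((st_LBr R k e io).cv i) = R.conv (e i) := by
  rw [cv_LBr hi]
  exact N.eio _ (conv_atom_LBr h (N.atm i hi))

theorem wf_LBr (h : IsRep R ρ) (N : Num_LBr R k e io) : Wf (st_LBr R k e io) := by
  have h0 := N.k_pos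
  refine ⟨Nat.succ_pos 3, ?_, ?_, fun a ha => ?_, fun a _ b _ c _ hT => ?_⟩
  · rw [cv_LBr h0, N.e0, conv_ide_LBr h, ← N.e0, N.ioe 0 h0]
  · refine T_LBr.2 ⟨h0, h0, h0, ?_⟩
    rw [N.e0, ide_comp_LBr h]
  · by_cases hk : a < k
    · refine ⟨(cvlt_LBr h N hk).trans_le N.k_le, ?_⟩
      rw [cv_LBr (cvlt_LBr h N hk), ecv_LBr h N hk, conv_conv_LBr h, N.ioe a hk]
    · have h1 : (st_LBr R k e io).cv a = a := by simp only [st_LBr, if_neg hk]
      rw [h1, h1]
      exact ⟨ha, rfl⟩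
  · obtain ⟨ha, hb, hc, h1⟩ := T_LBr.1 hT
    have h2 := peirce_LBr h (N.atm a ha) (N.atm b hb) (N.atm c hc) h1
    refine ⟨T_LBr.2 ⟨cvlt_LBr h N ha, hc, hb, ?_⟩, T_LBr.2 ⟨hc, cvlt_LBr h N hb, ha, ?_⟩, ?_,
      T_LBr.2 ⟨h0, hc, hc, ?_⟩⟩
    · rw [ecv_LBr h N ha]; exact h2.1
    · rw [ecv_LBr h N hb]; exact h2.2
    · rintro rfl
      rw [N.e0, ide_comp_LBr h] at h1
      exact (inj_LBr N hc hb (atom_eq_LBr (N.atm c hc) (N.atm b hb) h1)).symm
    · rw [N.e0, ide_comp_LBr h]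

theorem mod_LBr (h : IsRep R ρ) (N : Num_LBr R k e io) :
    ∃ l : D → D → ℕ, Mod (st_LBr R k e io) l ∧ ∀ x y b, (x, y) ∈ ρ b → e (l x y) ≤ b := by
  choose l0 hat hmem using ex_atom_LBr h
  have hi : IsAtom R.ide := N.e0 ▸ N.atm 0 N.k_pos
  have hu : ∀ p a, IsAtom a → p ∈ ρ a → l0 p = a := fun p a ha hp =>
    atom_eq_LBr (hat p) ha (atom_le_LBr h (hat p) (hmem p) hp)
  refine ⟨fun x y => io (l0 (x, y)), ⟨⟨fun x y => (N.lt _ (hat _)).trans_le N.k_le, fun x => ?_,
    fun x y => ?_, fun x y z => ?_⟩, fun x y h1 => ?_, fun x y a b _ _ hT => ?_⟩,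
    fun x y b hb => ?_⟩
  · rw [hu _ _ hi ((mem_ide_LBr h).2 rfl), ← N.e0, N.ioe 0 N.k_pos]
  · rw [cv_LBr (N.lt _ (hat _)), N.eio _ (hat _),
      hu (y, x) _ (conv_atom_LBr h (hat (x, y))) ((mem_conv_LBr h).2 (hmem _))]
  · refine T_LBr.2 ⟨N.lt _ (hat _), N.lt _ (hat _), N.lt _ (hat _), ?_⟩
    rw [N.eio _ (hat _), N.eio _ (hat _), N.eio _ (hat _)]
    exact atom_le_LBr h (hat _) (hmem _) ((mem_comp_LBr h).2 ⟨z, hmem _, hmem _⟩)
  · have h2 := N.eio _ (hat (x, y))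
    rw [h1, N.e0] at h2
    exact (mem_ide_LBr h).1 (h2 ▸ hmem (x, y))
  · obtain ⟨ha, hb, -, h1⟩ := T_LBr.1 hT
    rw [N.eio _ (hat _)] at h1
    obtain ⟨z, h2, h3⟩ := (mem_comp_LBr h).1 (mono_LBr h h1 (hmem _))
    exact ⟨z, by rw [hu _ _ (N.atm a ha) h2, N.ioe a ha], by rw [hu _ _ (N.atm b hb) h3, N.ioe b hb]⟩
  · rw [N.eio _ (hat _)]
    exact atom_le_LBr h (hat _) (hmem _) hb

theorem rep_LBr (h : IsRep R ρ) (N : Num_LBr R k e io) {D' : Type} {l : D' → D' → ℕ}
    (M : Mod (st_LBr R k e io) l) (p₀ : D') :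
    IsRep R (fun a => {p : D' × D' | e (l p.1 p.2) ≤ a}) := by
  have hi : IsAtom R.ide := N.e0 ▸ N.atm 0 N.k_pos
  have hlt : ∀ x y, l x y < k := fun x y => (T_LBr.1 (M.tri x y x)).2.1
  have hat : ∀ x y, IsAtom (e (l x y)) := fun x y => N.atm _ (hlt x y)
  have hre : ∀ a, IsAtom a → ∃ z, e (l p₀ z) = a := by
    intro a ha
    have h1 := N.lt a ha
    have h2 := cvlt_LBr h N h1
    obtain ⟨z, h3, -⟩ := M.wit p₀ p₀ (io a) ((st_LBr R k e io).cv (io a)) (h1.trans_le N.k_le)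
      (h2.trans_le N.k_le) (T_LBr.2 ⟨h1, h2, hlt _ _, by
        rw [M.dg, N.e0, ecv_LBr h N h1, N.eio a ha]
        exact ide_le_LBr h hi ha⟩)
    exact ⟨z, by rw [h3, N.eio a ha]⟩
  refine ⟨fun x y hxy => ?_, fun x y => ?_, fun x y => ?_, fun x => ?_, ?_, ?_, fun x y => ?_,
    fun x => ?_, ?_⟩
  · refine BooleanAlgebra.eq_iff_atom_le_iff.2 fun a ha => ?_
    obtain ⟨z, rfl⟩ := hre a ha
    exact Set.ext_iff.1 hxy (p₀, z)
  · ext p
    exact atom_le_sup_LBr (hat _ _)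
  · ext p
    exact le_inf_iff
  · ext p
    exact atom_le_compl_LBr (hat _ _)
  · ext p
    exact ⟨fun h1 => (hat _ _).1 (le_bot_iff.1 h1), fun h1 => h1.elim⟩
  · ext p
    exact ⟨fun _ => trivial, fun _ => le_top⟩
  · ext p
    constructor
    · intro h1
      obtain ⟨a, b, ha, hb, hx, hy, h2⟩ := comp_split_LBr h (hat p.1 p.2) h1
      obtain ⟨z, h3, h4⟩ := M.wit p.1 p.2 (io a) (io b) ((N.lt a ha).trans_le N.k_le)
        ((N.lt b hb).trans_le N.k_le) (T_LBr.2 ⟨N.lt a ha, N.lt b hb, hlt _ _, by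
          rw [N.eio a ha, N.eio b hb]; exact h2⟩)
      refine ⟨z, ?_, ?_⟩
      · change e (l p.1 z) ≤ x
        rwa [h3, N.eio a ha]
      · change e (l z p.2) ≤ y
        rwa [h4, N.eio b hb]
    · rintro ⟨z, h1, h2⟩
      exact (T_LBr.1 (M.tri p.1 p.2 z)).2.2.2.trans (comp_mono_LBr h h1 h2)
  · ext p
    change e (l p.1 p.2) ≤ R.conv x ↔ e (l p.2 p.1) ≤ x
    rw [M.cv p.1 p.2, ecv_LBr h N (hlt _ _)]
    exact conv_le_LBr h
  · ext p
    change e (l p.1 p.2) ≤ R.ide ↔ p.1 = p.2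
    constructor
    · intro h1
      refine M.eq _ _ (inj_LBr N (hlt _ _) N.k_pos ?_)
      rw [N.e0]
      exact atom_eq_LBr (hat _ _) hi h1
    · intro h1
      rw [h1, M.dg, N.e0]

end main

theorem brP : BrP := by
  rintro A _ _ R - hA ⟨D, ρ, h⟩ ⟨a, ha, h1, h2⟩
  obtain ⟨k, e, io, N⟩ := ex_num_LBr R hA (ide_atom_LBr h hA ha h1 h2)
  refine ⟨st_LBr R k e io, e, rfl, wf_LBr h N, ⟨io a, (N.lt a ha).trans_le N.k_le, fun h3 => ?_,
    T_LBr.2 ⟨N.lt a ha, N.lt a ha, N.lt a ha, ?_⟩⟩, ?_, fun n lab => ⟨?_, ?_⟩⟩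
  · have h4 := N.eio a ha
    rw [h3, N.e0] at h4
    exact h2 h4.ge
  · rw [N.eio a ha]; exact h1
  · obtain ⟨l, M, -⟩ := mod_LBr h N
    obtain ⟨x, -, -⟩ := ne_LBr h ha.1
    exact ⟨D, l, M, ⟨x⟩⟩
  · rintro ⟨D', ρ', h', f, hf⟩
    obtain ⟨l, M, hl⟩ := mod_LBr h' N
    exact ⟨fun i j => l (f i) (f j), ⟨D', l, M, f, fun _ _ => rfl⟩, fun i j => hl _ _ _ (hf i j)⟩
  · rintro ⟨g, ⟨D', l, M, f, hf⟩, hg⟩
    refine ⟨D', _, rep_LBr h N M (f 0), f, fun i j => ?_⟩
    change e (l (f i) (f j)) ≤ lab i j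
    rw [hf]
    exact hg i j

end Pool.Agent.MP_f23db5_lc.Low

end

section

namespace Pool.Agent.MP_f23db5_lc.Low

theorem pull_LChain {C : (Fin 4 → Fin 4 → ℕ) → Prop} {D E : Type} {l : D → D → ℕ} (h : Cl C l)
    (f : E → D) : Cl C fun u v => l (f u) (f v) := fun t => h fun a => f (t a)

theorem con_LChain {S : St} {C : (Fin 4 → Fin 4 → ℕ) → Prop} (hC : ∀ g, C g → Con S g) {D : Type}
    {l : D → D → ℕ} (h : Cl C l) : Con S l :=
  ⟨fun x y => (hC _ (h ![x, y, y, y])).lt 0 1, fun x => (hC _ (h ![x, x, x, x])).dg 0,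
    fun x y => (hC _ (h ![x, y, y, y])).cv 0 1, fun x y z => (hC _ (h ![x, y, z, z])).tri 0 1 2⟩

theorem step_LChain {S : St} {C : (Fin 4 → Fin 4 → ℕ) → Prop} (hE : ExtP S C) (l : ℕ → ℕ → ℕ)
    (hl : Cl C l) (k x y a b : ℕ) :
    ∃ l' : ℕ → ℕ → ℕ, Cl C l' ∧ (∀ u v, u ≠ k → v ≠ k → l' u v = l u v) ∧
      (x ≠ k → y ≠ k → a < S.m → b < S.m → S.T a b (l x y) = true → l' x k = a ∧ l' k y = b) := by
  by_cases h : a < S.m ∧ b < S.m ∧ S.T a b (l x y) = true
  · rcases hE ℕ l hl x y a b h.1 h.2.1 h.2.2 with ⟨z, h1, h2⟩ | ⟨r, h1, h2, h3⟩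
    · refine ⟨_, pull_LChain hl fun u => if u = k then z else u, fun u v hu hv => ?_,
        fun hx hy _ _ _ => ?_⟩
      · simp only [if_neg hu, if_neg hv]
      · simp only [if_neg hx, if_neg hy, if_true]
        exact ⟨h1, h2⟩
    · refine ⟨_, pull_LChain h3 fun u => if u = k then none else some u, fun u v hu hv => ?_,
        fun hx hy _ _ _ => ?_⟩
      · simp only [if_neg hu, if_neg hv, ext]
      · simp only [if_neg hx, if_neg hy, if_true, ext]
        exact ⟨h1, h2⟩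
  · exact ⟨l, hl, fun _ _ _ _ => rfl, fun _ _ h1 h2 h3 => absurd ⟨h1, h2, h3⟩ h⟩

theorem dem_LChain : ∃ d : ℕ → ℕ × ℕ × ℕ × ℕ, ∀ p N, ∃ i, N ≤ i ∧ d i = p := by
  refine ⟨fun i => (Denumerable.ofNat ((ℕ × ℕ × ℕ × ℕ) × ℕ) i).1, fun p N => ?_⟩
  have hinj : Function.Injective fun j : ℕ => Encodable.encode ((p, j) : (ℕ × ℕ × ℕ × ℕ) × ℕ) :=
    fun j j' h => (Prod.ext_iff.1 (Encodable.encode_injective h)).2
  obtain ⟨_, ⟨j, rfl⟩, hj⟩ := (Set.infinite_range_of_injective hinj).exists_gt N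
  exact ⟨_, hj.le, by simp only [Denumerable.ofNat_encode]⟩

theorem lim_LChain {S : St} {C : (Fin 4 → Fin 4 → ℕ) → Prop} (hE : ExtP S C) (n : ℕ)
    (l₀ : ℕ → ℕ → ℕ) (h₀ : Cl C l₀) :
    ∃ l : ℕ → ℕ → ℕ, Cl C l ∧ (∀ u v, u < n + 1 → v < n + 1 → l u v = l₀ u v) ∧
      ∀ x y a b, a < S.m → b < S.m → S.T a b (l x y) = true → ∃ z, l x z = a ∧ l z y = b := by
  choose F hF1 hF2 hF3 using step_LChain hE
  obtain ⟨d, hd⟩ := dem_LChain
  let L : ℕ → {l : ℕ → ℕ → ℕ // Cl C l} := fun i => Nat.rec ⟨l₀, h₀⟩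
    (fun i p => ⟨F p.1 p.2 (n + 1 + i) (d i).1 (d i).2.1 (d i).2.2.1 (d i).2.2.2,
      hF1 _ _ _ _ _ _ _⟩) i
  have hs : ∀ i, (L (i + 1)).1 =
      F (L i).1 (L i).2 (n + 1 + i) (d i).1 (d i).2.1 (d i).2.2.1 (d i).2.2.2 := fun _ => rfl
  have hst : ∀ i j u v, i ≤ j → u < n + 1 + i → v < n + 1 + i → (L j).1 u v = (L i).1 u v := by
    intro i j u v hij hu hv
    induction hij with
    | refl => rfl
    | step hm ih =>
      have hm' : i ≤ _ := hm
      rw [hs, hF2 _ _ _ _ _ _ _ u v (by omega) (by omega), ih]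
  have hlim : ∀ i u v, u < n + 1 + i → v < n + 1 + i →
      (L (max u v)).1 u v = (L i).1 u v := by
    intro i u v hu hv
    rw [← hst i (max i (max u v)) u v (le_max_left _ _) hu hv,
      hst (max u v) (max i (max u v)) u v (le_max_right _ _) (by omega) (by omega)]
  refine ⟨fun u v => (L (max u v)).1 u v, fun t => ?_, fun u v hu hv => hlim 0 u v hu hv,
    fun x y a b ha hb hT => ?_⟩
  · have hle : ∀ a, t a < n + 1 + ∑ c, t c := fun a => by
      have := Finset.single_le_sum (f := t) (fun _ _ => Nat.zero_le _) (Finset.mem_univ a)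
      omega
    have e : (fun a b => (L (max (t a) (t b))).1 (t a) (t b)) =
        fun a b => (L (∑ c, t c)).1 (t a) (t b) := by
      funext a b
      exact hlim _ _ _ (hle a) (hle b)
    show C fun a b => (L (max (t a) (t b))).1 (t a) (t b)
    rw [e]
    exact (L _).2 t
  · obtain ⟨i, hi, hdi⟩ := hd (x, y, a, b) (max x y)
    have hx : x < n + 1 + i := by omega
    have hy : y < n + 1 + i := by omega
    have hT' : S.T a b ((L i).1 x y) = true := by rw [← hlim i x y hx hy]; exact hT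
    have h3 := hF3 (L i).1 (L i).2 (n + 1 + i) x y a b hx.ne hy.ne ha hb hT'
    have h4 := hs i
    rw [hdi] at h4
    refine ⟨n + 1 + i, ?_, ?_⟩
    · show (L (max x (n + 1 + i))).1 x (n + 1 + i) = a
      rw [hlim (i + 1) _ _ (by omega) (by omega), h4]
      exact h3.1
    · show (L (max (n + 1 + i) y)).1 (n + 1 + i) y = b
      rw [hlim (i + 1) _ _ (by omega) (by omega), h4]
      exact h3.2

theorem quot_LChain {S : St} (hW : Wf S) {D : Type} {l : D → D → ℕ} (hl : Con S l)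
    (hw : ∀ x y a b, a < S.m → b < S.m → S.T a b (l x y) = true → ∃ z, l x z = a ∧ l z y = b) :
    Emb S l := by
  have h1 : ∀ x x' y, l x x' = 0 → l x' y = l x y := fun x x' y h =>
    (hW.2.2.2.2 _ (hl.lt _ _) _ (hl.lt _ _) _ (hl.lt _ _) (hl.tri x y x')).2.2.1 h
  have h2 : ∀ x y y', l y y' = 0 → l x y' = l x y := fun x y y' h => by
    rw [hl.cv y' x, hl.cv y x, h1 y y' x h]
  let s : Setoid D := ⟨fun x y => l x y = 0, hl.dg, fun {x y} h => by
    rw [hl.cv x y, h]; exact hW.2.1, fun {x y z} h h' => by rw [← h1 x y z h]; exact h'⟩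
  refine ⟨Quotient s, Quotient.lift₂ l fun x y x' y' hx hy => ?_, ⟨⟨?_, ?_, ?_, ?_⟩, ?_, ?_⟩,
    Quotient.mk s, fun _ _ => rfl⟩
  · rw [h1 x x' y' hx, h2 x y y' hy]
  · rintro ⟨x⟩ ⟨y⟩; exact hl.lt x y
  · rintro ⟨x⟩; exact hl.dg x
  · rintro ⟨x⟩ ⟨y⟩; exact hl.cv x y
  · rintro ⟨x⟩ ⟨y⟩ ⟨z⟩; exact hl.tri x y z
  · rintro ⟨x⟩ ⟨y⟩ h; exact Quotient.sound h
  · rintro ⟨x⟩ ⟨y⟩ a b ha hb hT
    obtain ⟨z, h3, h4⟩ := hw x y a b ha hb hT
    exact ⟨Quotient.mk s z, h3, h4⟩

theorem chainP : ChainP := by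
  intro S C hW hC hE n h hh
  obtain ⟨l, h1, h2, h3⟩ := lim_LChain hE n _
    (pull_LChain hh fun u : ℕ => if hu : u < n + 1 then (⟨u, hu⟩ : Fin (n + 1)) else 0)
  obtain ⟨D, l', hM, f, hf⟩ := quot_LChain hW (con_LChain hC h1) h3
  refine ⟨D, l', hM, fun i => f i, fun i j => ?_⟩
  rw [hf, h2 i j i.2 j.2]
  simp only [dif_pos i.2, dif_pos j.2]

end Pool.Agent.MP_f23db5_lc.Low

end

section

/-! Soundness of local rules and the ways to obtain local certificates. -/

namespace Pool.Agent.MP_f23db5_lc.Low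

theorem con_comap_LRule {S : St} {D E : Type} {l : D → D → ℕ} (h : Con S l) (t : E → D) :
    Con S fun a b => l (t a) (t b) :=
  ⟨fun _ _ => h.lt _ _, fun _ => h.dg _, fun _ _ => h.cv _ _, fun _ _ _ => h.tri _ _ _⟩

theorem cl_con_LRule {S : St} {D : Type} {l : D → D → ℕ} :
    Cl (fun g => Con S g) l ↔ Con S l :=
  ⟨fun h => ⟨fun x y => (h ![x, y, y, y]).lt 0 1, fun x => (h fun _ => x).dg 0,
    fun x y => (h ![x, y, y, y]).cv 0 1, fun x y z => (h ![x, y, z, z]).tri 0 1 2⟩,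
    fun h t => con_comap_LRule h t⟩

theorem con_ext_LRule {S : St} (hW : Wf S) {D : Type} {l : D → D → ℕ} (hl : Con S l) {r : D → ℕ}
    (hr : ∀ v, r v < S.m) (K : ∀ v w, S.T (l v w) (r w) (r v) = true) : Con S (ext S l r) := by
  obtain ⟨h0, h1, h2, h3, h4⟩ := hW
  have K1 : ∀ v w, S.T (r v) (S.cv (r w)) (l v w) = true := fun v w =>
    (h4 _ (hl.lt v w) _ (hr w) _ (hr v) (K v w)).2.1
  have K2 : ∀ v w, S.T (S.cv (r v)) (l v w) (S.cv (r w)) = true := fun v w =>
    (h4 _ (hr v) _ (h3 _ (hr w)).1 _ (hl.lt v w) (K1 v w)).1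
  have K3 : ∀ v, S.T 0 (S.cv (r v)) (S.cv (r v)) = true := fun v =>
    (h4 _ (h3 _ (hr v)).1 _ (hl.lt v v) _ (h3 _ (hr v)).1 (K2 v v)).2.2.2
  have K4 : ∀ v, S.T (S.cv (r v)) (r v) 0 = true := fun v => by
    have := (h4 _ h0 _ (h3 _ (hr v)).1 _ (h3 _ (hr v)).1 (K3 v)).2.1
    rwa [(h3 _ (hr v)).2] at this
  have K5 : ∀ v, S.T (r v) 0 (r v) = true := fun v => by
    have := (h4 _ (h3 _ (hr v)).1 _ (hr v) _ h0 (K4 v)).1
    rwa [(h3 _ (hr v)).2] at this
  refine ⟨?_, ?_, ?_, ?_⟩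
  · rintro (_ | x) (_ | y)
    exacts [h0, (h3 _ (hr y)).1, hr x, hl.lt x y]
  · rintro (_ | x)
    exacts [rfl, hl.dg x]
  · rintro (_ | x) (_ | y)
    exacts [h1.symm, (h3 _ (hr y)).2.symm, rfl, hl.cv x y]
  · rintro (_ | x) (_ | y) (_ | z)
    exacts [h2, K4 z, K3 y, K2 z y, K5 x, K x z, K1 x y, hl.tri x y z]

theorem ruleP (hC : ChainP) : RuleP := by
  intro S σ hW hR n h hc
  refine hC S (fun g => Con S g) hW (fun _ hg => hg) ?_ n h (cl_con_LRule.2 hc)
  intro D l hl x y a b ha hb hT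
  rw [cl_con_LRule] at hl
  by_cases hex : ∃ z, l x z = a ∧ l z y = b
  · exact Or.inl hex
  obtain ⟨h0, h1, h2, h3, h4⟩ := id hW
  have hc' := hl.lt x y
  have ha0 : a ≠ 0 := fun h => hex ⟨x, by rw [hl.dg, h], ((h4 _ ha _ hb _ hc' hT).2.2.1 h).symm⟩
  have hb0 : b ≠ 0 := by
    rintro rfl
    refine hex ⟨y, ?_, hl.dg y⟩
    have e1 := (h4 _ ha _ hb _ hc' hT).1
    have e2 := (h4 _ (h3 _ ha).1 _ hc' _ h0 e1).2.1
    have e3 := (h4 _ h0 _ (h3 _ hc').1 _ (h3 _ ha).1 e2).2.2.1 rfl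
    rw [← (h3 _ hc').2, e3, (h3 _ ha).2]
  obtain ⟨r1, r2, r3⟩ := hR a ha b hb _ hc' ha0 hb0 hT
  have r4 := fun v => r3 _ (hl.lt x v) _ (hl.lt v y) (hl.tri x y v) fun h => hex ⟨v, h⟩
  refine Or.inr ⟨fun v => σ a b (l x y) (l x v) (l v y), ?_, ?_,
    cl_con_LRule.2 (con_ext_LRule hW hl (fun v => (r4 v).1) fun v w => ?_)⟩
  · simpa only [hl.dg] using r1
  · simpa only [hl.dg] using r2
  · exact (r4 v).2 _ (hl.lt x w) _ (hl.lt w y) (hl.tri x y w) (fun h => hex ⟨w, h⟩) _ (hl.lt v w)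
      (hl.tri x w v) (hl.tri v y w)

theorem emb_lt_LRule {S : St} {V : Type} {h : V → V → ℕ} (he : Emb S h) (i j : V) :
    h i j < S.m := by
  obtain ⟨D, l, hM, f, hf⟩ := he
  rw [← hf]
  exact hM.lt _ _

theorem red_mod_LRule {S' S : St} {π : ℕ → ℕ} (hR : Red S' S π) {D : Type} {l : D → D → ℕ}
    (hM : Mod S' l) : Mod S fun x y => π (l x y) := by
  obtain ⟨h0, h1, h2, h3⟩ := hR
  have t : ∀ x y, S'.T 0 (l x y) (l x y) = true := fun x y => by
    have := hM.tri x y x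
    rwa [hM.dg] at this
  refine ⟨⟨fun x y => (h1 _ (hM.lt x y) (t x y)).1, fun x => by simp only [hM.dg, h0],
    fun x y => ?_, fun x y z => h2 _ (hM.lt _ _) _ (hM.lt _ _) _ (hM.lt _ _) (hM.tri x y z)⟩,
    fun x y h => hM.eq x y ((h1 _ (hM.lt x y) (t x y)).2.1 h), fun x y a b ha hb hT => ?_⟩
  · rw [← (h1 _ (hM.lt x y) (t x y)).2.2, ← hM.cv]
  · obtain ⟨a', ha', b', hb', e1, e2, hT'⟩ := h3 _ (hM.lt x y) (t x y) a ha b hb hT
    obtain ⟨z, z1, z2⟩ := hM.wit x y a' b' ha' hb' hT'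
    exact ⟨z, by rw [z1, e1], by rw [z2, e2]⟩

theorem red_emb_LRule {S' S : St} {π : ℕ → ℕ} (hR : Red S' S π) {V : Type} {g : V → V → ℕ}
    (he : Emb S' g) : Emb S fun i j => π (g i j) := by
  obtain ⟨D, l, hM, f, hf⟩ := he
  exact ⟨D, _, red_mod_LRule hR hM, f, fun i j => by rw [hf]⟩

theorem snp_one_LRule (S : St) (C : (Fin 4 → Fin 4 → ℕ) → Prop)
    (h1 : ∀ (n : ℕ) (h : Fin (n + 1) → Fin (n + 1) → ℕ), Cl C h → Emb S h)
    (h2 : ∀ (D : Type) (l : D → D → ℕ), Mod S l → Cl C l) : SNP S := by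
  refine ⟨Fin S.m, inferInstance, Fin.val, fun g => C fun a b => (g a b).val, fun n h => ⟨?_, ?_⟩⟩
  · intro he
    refine ⟨fun i j => ⟨h i j, emb_lt_LRule he i j⟩, fun _ _ => rfl, fun t => ?_⟩
    obtain ⟨D, l, hM, f, hf⟩ := he
    have := h2 D l hM fun a => f (t a)
    simpa only [hf] using this
  · rintro ⟨g, hg, hG⟩
    refine h1 n h fun t => ?_
    simpa only [hg] using hG t

theorem snpP : SnpP := by
  refine ⟨fun S C _ h1 h2 => snp_one_LRule S C h1 h2,
    fun S hA => snp_one_LRule S (fun g => Con S g) (fun n h hc => hA n h (cl_con_LRule.1 hc))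
      fun D l hM => cl_con_LRule.2 hM.toCon, fun S' S π hR hA hE => ?_,
    fun S S' p q hp hq hpq hS => ?_, fun S hB => ?_⟩
  · refine ⟨Fin S'.m, inferInstance, fun b => π b.val, fun g => Con S' fun a b => (g a b).val,
      fun n h => ⟨?_, ?_⟩⟩
    · rintro ⟨D, l, hM, f, hf⟩
      obtain ⟨l', hl', e⟩ := hE D l hM ⟨f 0⟩
      exact ⟨fun i j => ⟨l' (f i) (f j), hl'.lt _ _⟩, fun i j => (e _ _).trans (hf i j),
        fun t => con_comap_LRule hl' fun a => f (t a)⟩
    · rintro ⟨g, hg, hG⟩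
      have := red_emb_LRule hR (hA n (fun i j => (g i j).val) (cl_con_LRule.1 hG))
      simpa only [hg] using this
  · obtain ⟨B, hB, π, G, H⟩ := hS
    refine ⟨B, hB, fun b => q (π b), G, fun n h => ⟨fun he => ?_, ?_⟩⟩
    · obtain ⟨g, hg, hG⟩ := (H n _).1 (red_emb_LRule hp he)
      exact ⟨g, fun i j => by simp only [hg, hpq _ (emb_lt_LRule he i j)], hG⟩
    · rintro ⟨g, hg, hG⟩
      have := red_emb_LRule hq ((H n fun i j => π (g i j)).2 ⟨g, fun _ _ => rfl, hG⟩)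
      simpa only [hg] using this
  · refine ⟨Unit, inferInstance, fun _ => 0, fun _ => False, fun n h => ⟨?_, ?_⟩⟩
    · rintro ⟨D, l, hM, f, -⟩
      refine (hB D l hM (fun _ => f 0) fun j hj i hi => ?_).elim
      simp only [List.length_singleton] at hj
      omega
    · rintro ⟨g, -, hG⟩
      exact (hG fun _ => 0).elim

end Pool.Agent.MP_f23db5_lc.Low

end

section

set_option synthInstance.maxSize 4096

namespace Pool.Agent.MP_f23db5_lc.Low

/-- the position on the pentagon -/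
def ps_LPent (a b : ℕ) : ℕ :=
  if b = 1 ∧ a ≠ 3 then 0 else if a = 1 ∧ b ≠ 3 then 1 else if b = 1 then 2 else if a = 3 then 3
  else 4

theorem ps_lt_LPent (a b : ℕ) : ps_LPent a b < 5 := by
  unfold ps_LPent
  split_ifs <;> omega

theorem real_LPent {D : Type} (l : D → D → ℕ) (x y u v : D) :
    Real l (fun i => [x, y, u, v].getD i x) [[], [l x y], [l x u, l y u], [l x v, l y v, l u v]] := by
  intro j hj i hi
  simp only [List.length_cons, List.length_nil] at hj
  interval_cases j <;> interval_cases i <;> rfl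

theorem chkA_LPent : ∀ A < 4, ∀ B < 4, ∀ C < 4, ∀ D < 4, ∀ E < 4, E ≠ 0 →
    Tris sA [[], [1], [A, B], [C, D, E]] →
    pA ((ps_LPent C D + 5 - ps_LPent A B) % 5 + 1) = E ∨ Dead sA [[], [1], [A, B], [C, D, E]] := by
  decide +kernel

theorem chkB_LPent : ∀ A < 4, A ≠ 2 → ∀ B < 4, ∀ C < 4, C ≠ 2 → ∀ D < 4, ∀ E < 4, E ≠ 2 →
    Tris sB [[], [1], [A, B], [C, D, E]] →
    pB ((ps_LPent C D + 5 - ps_LPent A B) % 5) = E ∨ Dead sB [[], [1], [A, B], [C, D, E]] := by
  decide +kernel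

theorem arA_LPent : ∀ p < 5, ∀ q < 5,
    ((p + 5 - q) % 5 + 1 = hA.cv ((q + 5 - p) % 5 + 1) ∧
      hA.T 0 ((q + 5 - p) % 5 + 1) ((q + 5 - p) % 5 + 1) = true ∧
      hA.T ((q + 5 - p) % 5 + 1) 0 ((q + 5 - p) % 5 + 1) = true ∧
      hA.T ((q + 5 - p) % 5 + 1) ((p + 5 - q) % 5 + 1) 0 = true) ∧
    ∀ r < 5, hA.T ((q + 5 - p) % 5 + 1) ((r + 5 - q) % 5 + 1) ((r + 5 - p) % 5 + 1) = true := by
  decide +kernel

theorem arB_LPent : ∀ p < 5, ∀ q < 5,
    ((p + 5 - q) % 5 = hB.cv ((q + 5 - p) % 5) ∧ hB.T ((q + 5 - p) % 5) 5 5 = true ∧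
      hB.T 5 ((q + 5 - p) % 5) 5 = true ∧ hB.T 5 5 ((q + 5 - p) % 5) = true) ∧
    ∀ r < 5, hB.T ((q + 5 - p) % 5) ((r + 5 - q) % 5) ((r + 5 - p) % 5) = true := by
  decide +kernel

theorem trB_LPent : ∀ a < 4, ∀ b < 4, ∀ c < 4, sB.T a b c = true → a ≠ 2 → b ≠ 2 → c ≠ 2 := by
  decide +kernel

theorem expA (hR : RefP) : Exp hA sA pA := by
  classical
  intro D l hM ⟨x⟩
  obtain ⟨y, hy, -⟩ := hM.wit x x 1 1 (by decide) (by decide) (by rw [hM.dg]; decide +kernel)
  let pos : D → ℕ := fun v => ps_LPent (l x v) (l y v)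
  have hp : ∀ v, pos v < 5 := fun v => ps_lt_LPent _ _
  refine ⟨fun u v => if u = v then 0 else (pos v + 5 - pos u) % 5 + 1, ⟨fun u v => ?_,
    fun u => if_pos rfl, fun u v => ?_, fun u v w => ?_⟩, fun u v => ?_⟩
  · show _ < 6
    split_ifs <;> omega
  · by_cases h : u = v
    · rw [if_pos h, if_pos h.symm]
      rfl
    · rw [if_neg h, if_neg (Ne.symm h)]
      exact (arA_LPent _ (hp u) _ (hp v)).1.1
  · by_cases h1 : u = w
    · subst h1
      rw [if_pos rfl]
      by_cases h2 : u = v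
      · rw [if_pos h2]
        rfl
      · rw [if_neg h2]
        exact (arA_LPent _ (hp u) _ (hp v)).1.2.1
    rw [if_neg h1]
    by_cases h2 : w = v
    · subst h2
      rw [if_pos rfl, if_neg h1]
      exact (arA_LPent _ (hp u) _ (hp w)).1.2.2.1
    rw [if_neg h2]
    by_cases h3 : u = v
    · subst h3
      rw [if_pos rfl]
      exact (arA_LPent _ (hp u) _ (hp w)).1.2.2.2
    · rw [if_neg h3]
      exact (arA_LPent _ (hp u) _ (hp w)).2 _ (hp v)
  · by_cases h : u = v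
    · subst h
      simp only [if_true]
      rw [hM.dg]
      rfl
    · simp only [if_neg h]
      have hr := real_LPent l x y u v
      rw [hy] at hr
      refine (chkA_LPent _ (hM.lt x u) _ (hM.lt y u) _ (hM.lt x v) _ (hM.lt y v) _ (hM.lt u v)
        (fun h0 => h (hM.eq u v h0)) (hR.2.2 _ _ D l _ hM.toCon hr)).resolve_right fun hd => ?_
      exact hR.2.1 _ _ hd D l hM _ hr

theorem expB (hR : RefP) : Exp hB sB pB := by
  classical
  intro D l hM hD
  have hs : ∀ u v, l v u = l u v := fun u v => hM.cv u v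
  have ht : ∀ u w v, l u w ≠ 2 → l w v ≠ 2 → l u v ≠ 2 := fun u w v =>
    trB_LPent _ (hM.lt u w) _ (hM.lt w v) _ (hM.lt u v) (hM.tri u v w)
  let x : D → D := fun u => Classical.epsilon fun w => l u w ≠ 2
  have hx : ∀ u, l (x u) u ≠ 2 := fun u => by
    rw [hs]
    exact Classical.epsilon_spec (p := fun w => l u w ≠ 2) ⟨u, by rw [hM.dg]; decide⟩
  have hxe : ∀ u v, l u v ≠ 2 → x v = x u := fun u v h =>
    congrArg Classical.epsilon (funext fun w =>
      propext ⟨fun h1 => ht u v w h h1, fun h1 => ht v u w (by rwa [hs]) h1⟩)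
  have hw : ∀ u, ∃ w, l u w = 1 := fun u => by
    obtain ⟨y, hy, -⟩ := hM.wit u u 1 1 (by decide) (by decide) (by rw [hM.dg]; decide +kernel)
    exact ⟨y, hy⟩
  choose y hy using hw
  let pos : D → ℕ := fun v => ps_LPent (l (x v) v) (l (y (x v)) v)
  have hp : ∀ v, pos v < 5 := fun v => ps_lt_LPent _ _
  refine ⟨fun u v => if l u v = 2 then 5 else (pos v + 5 - pos u) % 5, ⟨fun u v => ?_,
    fun u => ?_, fun u v => ?_, fun u v w => ?_⟩, fun u v => ?_⟩
  · show _ < 6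
    split_ifs <;> omega
  · rw [if_neg (by rw [hM.dg]; decide)]
    omega
  · rw [hs u v]
    by_cases h : l u v = 2
    · rw [if_pos h, if_pos h]
      rfl
    · rw [if_neg h, if_neg h]
      exact (arB_LPent _ (hp u) _ (hp v)).1.1
  · by_cases h1 : l u w = 2 <;> by_cases h2 : l w v = 2 <;> by_cases h3 : l u v = 2
    · rw [if_pos h1, if_pos h2, if_pos h3]
      rfl
    · rw [if_pos h1, if_pos h2, if_neg h3]
      exact (arB_LPent _ (hp u) _ (hp v)).1.2.2.2
    · rw [if_pos h1, if_neg h2, if_pos h3]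
      exact (arB_LPent _ (hp w) _ (hp v)).1.2.2.1
    · exact absurd h1 (ht u v w h3 (by rwa [hs]))
    · rw [if_neg h1, if_pos h2, if_pos h3]
      exact (arB_LPent _ (hp u) _ (hp w)).1.2.1
    · exact absurd h2 (ht w u v (by rwa [hs]) h3)
    · exact absurd h3 (ht u w v h1 h2)
    · rw [if_neg h1, if_neg h2, if_neg h3]
      exact (arB_LPent _ (hp u) _ (hp w)).2 _ (hp v)
  · by_cases h : l u v = 2
    · simp only [if_pos h]
      rw [h]
      rfl
    · simp only [if_neg h, pos]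
      have h1 := hx v
      rw [hxe u v h] at h1 ⊢
      have hr := real_LPent l (x u) (y (x u)) u v
      rw [hy] at hr
      refine (chkB_LPent _ (hM.lt _ u) (hx u) _ (hM.lt _ u) _ (hM.lt _ v) h1 _ (hM.lt _ v) _
        (hM.lt u v) h (hR.2.2 _ _ D l _ hM.toCon hr)).resolve_right fun hd => ?_
      exact hR.2.1 _ _ hd D l hM _ hr

end Pool.Agent.MP_f23db5_lc.Low

end

section

set_option synthInstance.maxSize 4096

namespace Pool.Agent.MP_f23db5_lc.Low

theorem tab_LCol : ∀ a < 4, ∀ b < 4, ∀ c < 4, sC.T a b c = true →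
    (a = 0 → b = c) ∧ (b = 0 → a = c) ∧ ¬ (a = 1 ∧ b = 1 ∧ c = 1) ∧ ¬ (a = 3 ∧ b = 3 ∧ c = 3) ∧
      (a = 2 → b = 2 → c = 0 ∨ c = 2) := by decide +kernel

theorem dead1_LCol : ∀ a < 4, ∀ b < 4, ∀ c < 4, (a = 1 ∨ a = 3) → (b = 1 ∨ b = 3) →
    (c = 1 ∨ c = 3) → Dead sC [[], [1], [3, 1], [a, b, c]] := by decide +kernel

theorem dead2_LCol : Dead sC [[], [1], [2, 3], [3, 2, 1]] ∧ Dead sC [[], [3], [2, 1], [1, 2, 3]] := by
  decide +kernel

theorem real_LCol {D : Type} (l : D → D → ℕ) (p0 p1 p2 p3 : D) :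
    Real l (fun i => [p0, p1, p2, p3].getD i p0)
      [[], [l p0 p1], [l p0 p2, l p1 p2], [l p0 p3, l p1 p3, l p2 p3]] := by
  intro j hj i hi
  have hj' : j < 4 := hj
  interval_cases j <;> interval_cases i <;> rfl

/-- The finer label from the two classes and the order. -/
def lab_LCol (a b : ℕ) (o : Bool) : ℕ := 1 + 2 * ((b + 3 - a) % 3) + (if o then 0 else 1)

theorem lab1_LCol : ∀ a < 3, ∀ b < 3, ∀ o : Bool, lab_LCol a b o < 7 ∧
    lab_LCol b a (!o) = hC.cv (lab_LCol a b o) ∧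
    hC.T (lab_LCol a b o) (lab_LCol b a (!o)) 0 = true ∧
    hC.T 0 (lab_LCol a b o) (lab_LCol a b o) = true ∧
    hC.T (lab_LCol a b o) 0 (lab_LCol a b o) = true ∧
    (a = b → pC (lab_LCol a b o) = 2) ∧
    ((a + 1) % 3 = b → pC (lab_LCol a b true) = 1 ∧ pC (lab_LCol b a false) = 1) ∧
    ((a + 2) % 3 = b → pC (lab_LCol a b true) = 3 ∧ pC (lab_LCol b a false) = 3) := by
  decide +kernel

theorem lab2_LCol : ∀ a < 3, ∀ b < 3, ∀ c < 3, ∀ o₁ o₂ o₃ : Bool, (o₁ = o₂ → o₃ = o₁) →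
    hC.T (lab_LCol a c o₁) (lab_LCol c b o₂) (lab_LCol a b o₃) = true := by decide +kernel

theorem cls_LCol (hR : RefP) {D : Type} {l : D → D → ℕ} (hl : Mod sC l) (p : D) :
    ∃ cls : D → ℕ, (∀ v, cls v < 3) ∧ ∀ u v, (l u v = 0 ∨ l u v = 2) ↔ cls u = cls v := by
  classical
  have hlt : ∀ x y, l x y < 4 := hl.lt
  have hsym : ∀ x y, l y x = l x y := hl.cv
  have htri := fun x y z => tab_LCol _ (hlt x z) _ (hlt z y) _ (hlt x y) (hl.tri x y z)
  have htr : ∀ x y z, (l x y = 0 ∨ l x y = 2) → (l y z = 0 ∨ l y z = 2) →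
      (l x z = 0 ∨ l x z = 2) := by
    intro x y z h1 h2
    have := htri x z y
    omega
  obtain ⟨x2, h02, -⟩ := hl.wit p p 3 3 (by decide) (by decide) (by rw [hl.dg]; decide)
  obtain ⟨x1, h01, h12⟩ := hl.wit p x2 1 1 (by decide) (by decide) (by rw [h02]; decide)
  have hone : ∀ v, (l p v = 0 ∨ l p v = 2) ∨ (l x1 v = 0 ∨ l x1 v = 2) ∨
      (l x2 v = 0 ∨ l x2 v = 2) := by
    intro v
    by_contra hc
    have h1 := hlt p v
    have h2 := hlt x1 v
    have h3 := hlt x2 v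
    refine hR.2.1 _ _ ?_ D l hl _ (real_LCol l p x1 x2 v)
    rw [h01, h02, h12]
    exact dead1_LCol _ h1 _ h2 _ h3 (by omega) (by omega) (by omega)
  obtain ⟨E, hE⟩ : ∃ E : D → D → Prop, ∀ u v, (l u v = 0 ∨ l u v = 2) ↔ E u v :=
    ⟨_, fun _ _ => Iff.rfl⟩
  have hEs : ∀ u v, E u v → E v u := fun u v h => by rw [← hE, hsym u v, hE]; exact h
  simp only [hE] at htr hone ⊢
  refine ⟨fun v => if E p v then 0 else if E x1 v then 1 else 2,
    fun v => by simp only []; split_ifs <;> omega, fun u v => ⟨fun h => ?_, fun h => ?_⟩⟩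
  · have h1 : ∀ x, E x u ↔ E x v := fun x => ⟨fun k => htr _ _ _ k h, fun k => htr _ _ _ k (hEs _ _ h)⟩
    simp only [h1]
  · have h1 : ∀ x, E x u → E x v → E u v := fun x k k' => htr _ _ _ (hEs _ _ k) k'
    have b1 := hone u
    have b2 := hone v
    simp only [] at h
    have b3 := h1 p
    have b4 := h1 x1
    have b5 := h1 x2
    split_ifs at h <;> first | omega | tauto

theorem expC (hR : RefP) (hO : OrdP) : Exp hC sC pC := by
  classical
  rintro D l hl ⟨p⟩
  obtain ⟨cls, hc3, hcls⟩ := cls_LCol hR hl p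
  have hlt : ∀ x y, l x y < 4 := hl.lt
  have hsym : ∀ x y, l y x = l x y := hl.cv
  have htri := fun x y z => tab_LCol _ (hlt x z) _ (hlt z y) _ (hlt x y) (hl.tri x y z)
  have hcase : ∀ x y, cls x ≠ cls y →
      (((cls x + 1) % 3 = cls y ∧ l x y = 1) ∨ ((cls x + 2) % 3 = cls y ∧ l x y = 3)) ∨
      (((cls y + 1) % 3 = cls x ∧ l y x = 1) ∨ ((cls y + 2) % 3 = cls x ∧ l y x = 3)) := by
    intro x y h
    have h1 := hcls x y
    have h2 := hc3 x
    have h3 := hc3 y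
    have h4 := hlt x y
    rw [hsym x y]
    omega
  obtain ⟨s, hs, hrs⟩ := hO D (fun x y => cls x = cls y)
    (fun x y => ((cls x + 1) % 3 = cls y ∧ l x y = 1) ∨ ((cls x + 2) % 3 = cls y ∧ l x y = 3))
    ⟨fun _ => rfl, Eq.symm, Eq.trans⟩
    (fun x y h => by have := hc3 x; omega)
    (fun x y h => by have := hc3 x; have := hsym x y; omega)
    hcase
    (fun x y z h1 h2 => by
      have := hc3 x; have := htri x z y; have := hsym x z; omega)
    (fun x y z w e1 e2 h1 h2 h3 h4 => by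
      have e5 : (l x y = 1 ∧ l y z = 3 ∧ l w x = 3 ∧ l z w = 1) ∨
          (l x y = 3 ∧ l y z = 1 ∧ l w x = 1 ∧ l z w = 3) := by
        have k1 := hc3 x
        have k2 := hc3 y
        rw [← e1, ← e2] at h3
        rw [← e1] at h2
        rw [← e2] at h4
        omega
      rw [hsym x w] at e5
      have e3 : l x z = 2 := by
        refine ((hcls x z).2 e1).resolve_left fun h0 => ?_
        have k5 := (htri x y z).1 h0
        have k7 := hsym y z
        omega
      have e4 : l y w = 2 := by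
        refine ((hcls y w).2 e2).resolve_left fun h0 => ?_
        have k5 := (htri y z w).1 h0
        have k7 := hsym z w
        omega
      have hd := fun h => hR.2.1 sC _ h D l hl _ (real_LCol l x y z w)
      rcases e5 with ⟨f1, f2, f3, f4⟩ | ⟨f1, f2, f3, f4⟩
      · rw [e3, e4, f1, f2, f3, f4] at hd
        exact hd dead2_LCol.1
      · rw [e3, e4, f1, f2, f3, f4] at hd
        exact hd dead2_LCol.2)
  have hasym : ∀ x y, s x y → ¬ s y x := fun x y h h' =>
    hs.toIsStrictOrder.toIrrefl.irrefl x (hs.toIsStrictOrder.toIsTrans.trans _ _ _ h h')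
  have htot : ∀ x y, x ≠ y → ¬ s x y → s y x := fun x y h h' => by
    by_contra h''
    exact h (hs.toTrichotomous.trichotomous x y h' h'')
  have hneg : ∀ x y, x ≠ y → decide (s y x) = !decide (s x y) := by
    intro x y h
    by_cases h1 : s x y
    · simp [h1, hasym x y h1]
    · simp [h1, htot x y h h1]
  refine ⟨fun x y => if x = y then 0 else lab_LCol (cls x) (cls y) (decide (s x y)),
    ⟨fun x y => ?_, fun x => by simp, fun x y => ?_, fun x y z => ?_⟩, fun x y => ?_⟩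
  · split_ifs
    · decide
    · exact (lab1_LCol _ (hc3 x) _ (hc3 y) _).1
  · by_cases h : x = y
    · subst h; simp only [if_true]; rfl
    · rw [if_neg h, if_neg (Ne.symm h), hneg x y h]
      exact (lab1_LCol _ (hc3 x) _ (hc3 y) _).2.1
  · by_cases h1 : x = z
    · subst h1
      by_cases h2 : x = y
      · subst h2; simp only [if_true]; decide
      · rw [if_pos rfl, if_neg h2]
        exact (lab1_LCol _ (hc3 x) _ (hc3 y) _).2.2.2.1
    by_cases h2 : z = y
    · subst h2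
      rw [if_pos rfl, if_neg h1]
      exact (lab1_LCol _ (hc3 x) _ (hc3 z) _).2.2.2.2.1
    by_cases h3 : x = y
    · subst h3
      rw [if_pos rfl, if_neg h1, if_neg h2, hneg x z h1]
      exact (lab1_LCol _ (hc3 x) _ (hc3 z) _).2.2.1
    rw [if_neg h1, if_neg h2, if_neg h3]
    refine lab2_LCol _ (hc3 x) _ (hc3 y) _ (hc3 z) _ _ _ fun h => ?_
    by_cases h4 : s x z
    · have h5 : s z y := by simpa [h4] using h
      simp [h4, hs.toIsStrictOrder.toIsTrans.trans _ _ _ h4 h5]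
    · have h5 : ¬ s z y := by simpa [h4] using h
      have h6 := hs.toIsStrictOrder.toIsTrans.trans _ _ _ (htot z y h2 h5) (htot x z h1 h4)
      simp [h4, hasym y x h6]
  · simp only []
    by_cases h : x = y
    · subst h; rw [if_pos rfl, hl.dg]; rfl
    rw [if_neg h]
    by_cases hc : cls x = cls y
    · have h1 := (hcls x y).2 hc
      have h2 : l x y ≠ 0 := fun h0 => h (hl.eq x y h0)
      rw [(lab1_LCol _ (hc3 x) _ (hc3 y) _).2.2.2.2.2.1 hc]
      omega
    rcases hcase x y hc with h1 | h1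
    · rw [decide_eq_true (hrs x y h1)]
      rcases h1 with ⟨h1, h2⟩ | ⟨h1, h2⟩
      · rw [h2]; exact ((lab1_LCol _ (hc3 x) _ (hc3 y) true).2.2.2.2.2.2.1 h1).1
      · rw [h2]; exact ((lab1_LCol _ (hc3 x) _ (hc3 y) true).2.2.2.2.2.2.2 h1).1
    · rw [decide_eq_false (hasym y x (hrs y x h1)), ← hsym x y]
      rcases h1 with ⟨h1, h2⟩ | ⟨h1, h2⟩
      · rw [h2]; exact ((lab1_LCol _ (hc3 y) _ (hc3 x) true).2.2.2.2.2.2.1 h1).2
      · rw [h2]; exact ((lab1_LCol _ (hc3 y) _ (hc3 x) true).2.2.2.2.2.2.2 h1).2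

end Pool.Agent.MP_f23db5_lc.Low

end

section

namespace Pool.Agent.MP_f23db5_lc.Low

/-- the table of `sE` in words -/
def TT_LTour (a b c : ℕ) : Prop :=
  (a = 0 → b = c) ∧ (b = 0 → a = c) ∧ (c = 0 → a = 0 ∨ (a = 1 ∧ b = 1) ∨ (2 ≤ a ∧ a + b = 5)) ∧
    (c = 1 → 2 ≤ a → 2 ≤ b → a ≠ b) ∧ (a = 1 → 2 ≤ b → 2 ≤ c → b = c) ∧
    (b = 1 → 2 ≤ a → 2 ≤ c → a = c)

set_option synthInstance.maxSize 4096 in
instance decTT_LTour (a b c : ℕ) : Decidable (TT_LTour a b c) := by
  unfold TT_LTour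
  infer_instance

theorem tt_LTour : ∀ a < 4, ∀ b < 4, ∀ c < 4, sE.T a b c = true ↔ TT_LTour a b c := by
  decide +kernel

theorem cvE_LTour (a : ℕ) : sE.cv a = sw a := rfl

theorem sw_LTour (a : ℕ) : (a = 2 ∧ sw a = 3) ∨ (a = 3 ∧ sw a = 2) ∨ (a ≠ 2 ∧ a ≠ 3 ∧ sw a = a) := by
  unfold sw
  split_ifs <;> omega

/-- labellings in the class -/
structure Gd_LTour {D : Type} (l : D → D → ℕ) : Prop where
  dg : ∀ x, l x x = 0
  cv : ∀ x y, l x y < 4 ∧ (l x y < 2 → l y x = l x y) ∧ (2 ≤ l x y → l y x + l x y = 5)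
  tri : ∀ x y z, TT_LTour (l x z) (l z y) (l x y)
  np : ∀ a b c d, ¬ (2 ≤ l a b ∧ 2 ≤ l b c ∧ 2 ≤ l c d ∧ l a c = 1 ∧ l a d = 1 ∧ l b d = 1)

theorem cl_of_LTour {D : Type} {l : D → D → ℕ} (h : Con sE l)
    (np : ∀ a b c d, ¬ (2 ≤ l a b ∧ 2 ≤ l b c ∧ 2 ≤ l c d ∧ l a c = 1 ∧ l a d = 1 ∧ l b d = 1)) :
    Cl cE l := fun t =>
  ⟨⟨fun _ _ => h.lt _ _, fun _ => h.dg _, fun _ _ => h.cv _ _, fun _ _ _ => h.tri _ _ _⟩,
    np (t 0) (t 1) (t 2) (t 3)⟩

theorem gd_of_LTour {D : Type} {l : D → D → ℕ} (h : Cl cE l) : Gd_LTour l := by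
  have lt : ∀ x y, l x y < 4 := fun x y => (h ![x, y, x, x]).1.lt 0 1
  refine ⟨fun x => (h ![x, x, x, x]).1.dg 0, fun x y => ?_, fun x y z => ?_,
    fun a b c d => (h ![a, b, c, d]).2⟩
  · have h1 : l y x = sw (l x y) := (h ![x, y, x, x]).1.cv 0 1
    have h2 := sw_LTour (l x y)
    have h3 := lt x y
    omega
  · exact (tt_LTour _ (lt _ _) _ (lt _ _) _ (lt _ _)).1 ((h ![x, y, z, x]).1.tri 0 1 2)

theorem cl_of_gd_LTour {D : Type} {l : D → D → ℕ} (h : Gd_LTour l) : Cl cE l := by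
  refine cl_of_LTour ⟨fun x y => (h.cv x y).1, h.dg, fun x y => ?_, fun x y z => ?_⟩ h.np
  · have h2 := sw_LTour (l x y)
    have h3 := h.cv x y
    rw [cvE_LTour]
    omega
  · exact (tt_LTour _ (h.cv _ _).1 _ (h.cv _ _).1 _ (h.cv _ _).1).2 (h.tri x y z)

theorem rot1_LTour : ∀ a < 4, ∀ b < 4, ∀ c < 4, TT_LTour a b c →
    TT_LTour c (sw b) a ∧ TT_LTour (sw c) a (sw b) := by
  decide +kernel

set_option synthInstance.maxSize 4096 in
theorem rot2_LTour : ∀ a < 4, TT_LTour 0 a a ∧ TT_LTour a 0 a ∧ TT_LTour a (sw a) 0 ∧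
    TT_LTour (sw a) a 0 ∧ sw a < 4 ∧ (sw a < 2 → a = sw a) ∧ (2 ≤ sw a → a + sw a = 5) ∧
    (a < 2 → sw a = a) ∧ (2 ≤ a → sw a + a = 5) := by
  decide +kernel

theorem ext_ok_LTour {D : Type} {l : D → D → ℕ} (h : Gd_LTour l) (r : D → ℕ) (hr : ∀ v, r v < 4)
    (ht : ∀ v w, TT_LTour (l v w) (r w) (r v))
    (p1 : ∀ b c d, ¬ (2 ≤ r b ∧ 2 ≤ l b c ∧ 2 ≤ l c d ∧ r c = 1 ∧ r d = 1 ∧ l b d = 1))
    (p2 : ∀ a c d, ¬ (2 ≤ r a ∧ 2 ≤ r c ∧ 2 ≤ l c d ∧ l a c = 1 ∧ l a d = 1 ∧ r d = 1)) :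
    Cl cE (ext sE l r) := by
  have q := fun v => rot2_LTour (r v) (hr v)
  have q4 : ∀ v, sw (r v) < 4 := fun v => (q v).2.2.2.2.1
  refine cl_of_gd_LTour ⟨?_, ?_, ?_, ?_⟩
  · rintro (_ | x)
    · rfl
    · exact h.dg x
  · rintro (_ | x) (_ | y)
    · simp [ext]
    · exact ⟨q4 y, (q y).2.2.2.2.2.1, (q y).2.2.2.2.2.2.1⟩
    · exact ⟨hr x, (q x).2.2.2.2.2.2.2.1, (q x).2.2.2.2.2.2.2.2⟩
    · exact h.cv x y
  · rintro (_ | x) (_ | y) (_ | z)
    · exact (rot2_LTour 0 (by norm_num)).1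
    · exact (q z).2.2.2.1
    · exact (rot2_LTour _ (q4 y)).1
    · exact (rot1_LTour _ (h.cv z y).1 _ (hr y) _ (hr z) (ht z y)).2
    · exact (q x).2.1
    · exact ht x z
    · exact (rot1_LTour _ (h.cv x y).1 _ (hr y) _ (hr x) (ht x y)).1
    · exact h.tri x y z
  · rintro (_ | a) (_ | b) (_ | c) (_ | d) <;> simp only [ext, cvE_LTour] <;> try omega
    · have h1 := p1 b c d
      have := sw_LTour (r b)
      have := sw_LTour (r c)
      have := sw_LTour (r d)
      omega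
    · have h1 := p2 a c d
      have := sw_LTour (r c)
      have := sw_LTour (r d)
      omega
    · have h1 := p2 d b a
      have := sw_LTour (r d)
      have := h.cv a b
      have := h.cv a d
      have := h.cv b d
      omega
    · have h1 := p1 c b a
      have := h.cv a b
      have := h.cv b c
      have := h.cv a c
      omega
    · exact h.np a b c d

theorem cp_LTour {D : Type} {l : D → D → ℕ} (h : Gd_LTour l) {u v : D} (e : l u v = 0) (w : D) :
    l v w = l u w ∧ l w v = l w u := by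
  have h1 := (h.tri u w v).1 e
  have h2 := h.cv u w
  have h3 := h.cv v w
  omega

theorem md_LTour {D : Type} {l : D → D → ℕ} (h : Gd_LTour l) {u w : D} (e : l u w = 1) (m : D) :
    2 ≤ l u m → 2 ≤ l w m → l u m = l w m := fun a b =>
  ((h.tri u m w).2.2.2.2.1 e b a).symm

theorem const_LTour {D : Type} {l : D → D → ℕ} (h : Gd_LTour l) (a : ℕ) (ha : a < 4)
    (_ : a ≠ 0) : Cl cE (ext sE l fun _ => a) := by
  refine ext_ok_LTour h _ (fun _ => ha) (fun v w => ?_) (fun _ _ _ => by omega)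
    (fun _ _ _ => by omega)
  unfold TT_LTour
  omega

theorem twin_LTour {D : Type} {l : D → D → ℕ} (h : Gd_LTour l) (x : D) (a : ℕ) (ha : a < 4)
    (h0 : a ≠ 0) : Cl cE (ext sE l fun v => if l x v = 0 then a else l v x) := by
  refine ext_ok_LTour h _ (fun v => ?_) (fun v w => ?_) (fun b c d => ?_) (fun b c d => ?_)
  · split_ifs
    · exact ha
    · exact (h.cv _ _).1
  · have h1 := h.cv x v
    have h2 := h.cv x w
    split_ifs with e1 e2 e2
    · have h3 := (cp_LTour h e2 w).1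
      unfold TT_LTour
      omega
    · have h3 := (cp_LTour h e1 v).2
      unfold TT_LTour
      omega
    · have h3 := (cp_LTour h e2 w).1
      unfold TT_LTour
      omega
    · exact h.tri v x w
  · have h1 := h.cv x b
    have h2 := h.cv x c
    have h3 := h.cv x d
    have h4 := fun e => (cp_LTour (u := x) (v := b) h e c).1
    have h5 := fun e => (cp_LTour (u := x) (v := c) h e d).1
    have h6 := fun e => (cp_LTour (u := x) (v := d) h e c).2
    have h7 := h.np x b c d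
    split_ifs <;> omega
  · have h1 := h.cv x b
    have h2 := h.cv x c
    have h3 := h.cv x d
    have h4 := fun e => (cp_LTour (u := x) (v := b) h e c).1
    have h5 := fun e => (cp_LTour (u := x) (v := c) h e b).2
    have h6 := fun e => (cp_LTour (u := x) (v := d) h e b).2
    have h7 := h.np b x c d
    split_ifs <;> omega

theorem tr_LTour {D : Type} {l : D → D → ℕ} (h : Gd_LTour l) : Gd_LTour fun a b => l b a := by
  refine ⟨h.dg, fun x y => h.cv y x, fun x y z => ?_, fun a b c d => h.np d c b a ∘ fun e =>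
    ⟨e.2.2.1, e.2.1, e.1, e.2.2.2.2.2, e.2.2.2.2.1, e.2.2.2.1⟩⟩
  have h1 := h.tri y x z
  have h2 := (h.cv y z).1
  have h3 := (h.cv z x).1
  unfold TT_LTour at h1 ⊢
  omega

theorem lemL_LTour {D : Type} {l : D → D → ℕ} (h : Gd_LTour l) {s t y w : D} (e : l s t = 1)
    (hs : l s y = 2) (ht : l t y = 2) (hn : l s w ≠ l t w) (h1 : l s w ≠ 0) (h2 : l t w ≠ 0) :
    l w y = 2 ∧ (l s w = 1 ∨ l t w = 1) := by
  have a2 := h.cv s w
  have a3 := h.cv t w
  have c1 : (l s w = 1 ∧ 2 ≤ l t w) ∨ (l t w = 1 ∧ 2 ≤ l s w) := by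
    have a1 := md_LTour h e w
    omega
  have a4 := (h.cv w y).1
  have a7 : l t s = 1 := by
    have := h.cv s t
    omega
  have a5 : l y s = 3 := by
    have := h.cv s y
    omega
  have a6 : l y t = 3 := by
    have := h.cv t y
    omega
  rcases c1 with ⟨c, d⟩ | ⟨c, d⟩
  · refine ⟨?_, Or.inl c⟩
    have a8 := fun e => (cp_LTour (u := w) (v := y) h e s).2
    have b2 := h.np w t y s
    have b3 := md_LTour h c y
    have f1 : l w s = 1 := by omega
    have f2 : 2 ≤ l w t := by omega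
    clear a2 a3
    omega
  · refine ⟨?_, Or.inr c⟩
    have a9 := fun e => (cp_LTour (u := w) (v := y) h e t).2
    have b1 := h.np w s y t
    have b4 := md_LTour h c y
    have f1 : l w t = 1 := by omega
    have f2 : 2 ≤ l w s := by omega
    clear a2 a3
    omega

/-- the points that are dominated by the new point -/
def XX_LTour {D : Type} (l : D → D → ℕ) (x y v : D) : Prop :=
  l v y = 2 ∧ (l v x ≤ 1 ∨ ∃ u, l u y = 2 ∧ l u x = 1 ∧ l u v = 1)

theorem m1a_LTour {D : Type} {l : D → D → ℕ} (h : Gd_LTour l) {x y v w : D} (e : l x y = 2)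
    (hv : l v y = 2) (h1 : l v x ≤ 1) (hw : ¬ XX_LTour l x y w) : l v w = l x w := by
  by_cases h0 : l v x = 0
  · exact (cp_LTour h h0 w).1.symm
  have h2 : l v x = 1 := by omega
  by_contra hn
  apply hw
  have a1 := h.cv x w
  by_cases b1 : l x w = 0
  · exact ⟨by rw [(cp_LTour h b1 y).1, e], Or.inl (by omega)⟩
  by_cases b2 : l v w = 0
  · exact ⟨by rw [(cp_LTour h b2 y).1, hv], Or.inl (by rw [(cp_LTour h b2 x).1]; exact h1)⟩
  obtain ⟨c1, c2 | c2⟩ := lemL_LTour h h2 hv e hn b2 b1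
  · exact ⟨c1, Or.inr ⟨v, hv, h2, c2⟩⟩
  · exact ⟨c1, Or.inl (by omega)⟩

theorem m1_LTour {D : Type} {l : D → D → ℕ} (h : Gd_LTour l) {x y v w : D} (e : l x y = 2)
    (hv : XX_LTour l x y v) (hw : ¬ XX_LTour l x y w) : l v w = l x w := by
  by_cases h1 : l v x ≤ 1
  · exact m1a_LTour h e hv.1 h1 hw
  obtain ⟨u, u1, u2, u3⟩ := hv.2.resolve_left h1
  have h2 := m1a_LTour h e u1 u2.le hw
  rw [← h2]
  by_contra hn
  apply hw
  have a1 := h.cv x w
  by_cases b1 : l u w = 0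
  · have b3 : l x w = 0 := by omega
    exact ⟨by rw [(cp_LTour h b3 y).1, e], Or.inl (by omega)⟩
  by_cases b2 : l v w = 0
  · exact ⟨by rw [(cp_LTour h b2 y).1, hv.1],
      Or.inr ⟨u, u1, u2, by rw [(cp_LTour h b2 u).2, u3]⟩⟩
  obtain ⟨c1, c2⟩ := lemL_LTour h u3 u1 hv.1 (Ne.symm hn) b1 b2
  by_cases c3 : l u w = 1
  · exact ⟨c1, Or.inr ⟨u, u1, u2, c3⟩⟩
  · exfalso
    have d1 := h.np u w x v
    have d2 := h.cv v x
    have d3 := h.cv v w
    omega

theorem m3_LTour {D : Type} {l : D → D → ℕ} (h : Gd_LTour l) {x y v : D} (e : l x y = 2)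
    (hx : XX_LTour l x y v) (hy : XX_LTour (fun a b => l b a) y x v) : False := by
  obtain ⟨a1, a2⟩ := hx
  obtain ⟨b1, b2⟩ := hy
  have c1 := h.cv x v
  have c2 := h.cv v y
  simp only at b1 b2
  obtain ⟨u, u1, u2, u3⟩ := a2.resolve_left (by omega)
  obtain ⟨t, t1, t2, t3⟩ := b2.resolve_left (by omega)
  have d1 := h.np u y x t
  have d2 := h.np v y u t
  have d3 := fun e => (cp_LTour (u := u) (v := t) h e y).2
  have d4 := h.cv x y
  have d5 := h.cv u y
  have d6 := h.cv u v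
  omega

theorem m4_LTour {D : Type} {l : D → D → ℕ} (h : Gd_LTour l) {x y w : D} (e : l x y = 2)
    (hx : ¬ XX_LTour l x y w) : l w x ≠ 0 ∧ (l w x = 1 → l w y ≤ 1) := by
  refine ⟨fun b => hx ⟨by rw [← (cp_LTour h b y).1, e], Or.inl (by omega)⟩, fun b => ?_⟩
  by_contra c
  have d := md_LTour h b y (by omega) (by omega)
  exact hx ⟨by omega, Or.inl b.le⟩

theorem main_LTour {D : Type} {l : D → D → ℕ} (h : Gd_LTour l) {x y : D} (e : l x y = 2) :
    ∃ r : D → ℕ, r x = 3 ∧ r y = 2 ∧ Cl cE (ext sE l r) := by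
  classical
  have h' := tr_LTour h
  have key : ∀ v, ∃ r : ℕ, (XX_LTour l x y v ∧ ¬ XX_LTour (fun a b => l b a) y x v ∧ r = 3) ∨
      (¬ XX_LTour l x y v ∧ XX_LTour (fun a b => l b a) y x v ∧ r = 2) ∨
      (¬ XX_LTour l x y v ∧ ¬ XX_LTour (fun a b => l b a) y x v ∧ r = l v x ∧ l v x ≠ 0 ∧
        l v y ≠ 0 ∧ (l v x = 1 ↔ l v y = 1)) := by
    intro v
    by_cases a : XX_LTour l x y v
    · exact ⟨3, Or.inl ⟨a, m3_LTour h e a, rfl⟩⟩
    by_cases b : XX_LTour (fun a b => l b a) y x v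
    · exact ⟨2, Or.inr (Or.inl ⟨a, b, rfl⟩)⟩
    refine ⟨_, Or.inr (Or.inr ⟨a, b, rfl, ?_⟩)⟩
    have c1 := m4_LTour h e a
    have c2 := m4_LTour h' (x := y) (y := x) e b
    have c3 := h.cv v x
    have c4 := h.cv v y
    omega
  choose r hr using key
  have mx : ∀ v w, XX_LTour l x y v → ¬ XX_LTour l x y w → l v w = l x w :=
    fun v w a b => m1_LTour h e a b
  have my : ∀ v w, XX_LTour (fun a b => l b a) y x v → ¬ XX_LTour (fun a b => l b a) y x w →
      l w v = l w y := fun v w a b => m1_LTour h' (x := y) (y := x) e a b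
  have hx : XX_LTour l x y x := ⟨e, Or.inl (by rw [h.dg]; omega)⟩
  have hy : XX_LTour (fun a b => l b a) y x y := ⟨e, Or.inl (by simp only [h.dg]; omega)⟩
  refine ⟨r, ?_, ?_, ext_ok_LTour h r (fun v => ?_) (fun v w => ?_) (fun b c d => ?_)
    (fun b c d => ?_)⟩
  · rcases hr x with a | a | a
    · exact a.2.2
    · exact absurd hx a.1
    · exact absurd hx a.1
  · rcases hr y with a | a | a
    · exact absurd hy a.2.1
    · exact a.2.2
    · exact absurd hy a.2.1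
  · have c := (h.cv v x).1
    rcases hr v with a | a | a <;> omega
  · have c1 := h.cv v w
    have c2 := h.cv v x
    have c3 := h.cv w x
    have c4 := h.cv w y
    rcases hr v with a | a | a <;> rcases hr w with b | b | b
    · unfold TT_LTour
      omega
    · have d1 := mx v w a.1 b.1
      have d2 : l x w = 2 := b.2.1.1
      unfold TT_LTour
      omega
    · have d1 := mx v w a.1 b.1
      unfold TT_LTour
      omega
    · have d1 := mx w v b.1 a.1
      have d2 : l x v = 2 := a.2.1.1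
      have c5 := h.cv w v
      unfold TT_LTour
      omega
    · unfold TT_LTour
      omega
    · have d1 := my v w a.2.1 b.2.1
      have c5 := h.cv w v
      unfold TT_LTour
      omega
    · have d1 := mx w v b.1 a.1
      have c5 := h.cv w v
      unfold TT_LTour
      omega
    · have d1 := my w v b.2.1 a.2.1
      unfold TT_LTour
      omega
    · rw [a.2.2.1, b.2.2.1]
      exact h.tri v x w
  · rintro ⟨p1, p2, p3, p4, p5, p6⟩
    have c1 := h.cv c x
    have c2 := h.cv d x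
    have c3 := h.cv b x
    have c4 := h.cv b c
    rcases hr c with a | a | a
    · omega
    · omega
    rcases hr d with f | f | f
    · omega
    · omega
    rcases hr b with g | g | g
    · have d1 := mx b c g.1 a.1
      omega
    · have d1 := my b c g.2.1 a.2.1
      omega
    · have d1 := h.np x b c d
      omega
  · rintro ⟨p1, p2, p3, p4, p5, p6⟩
    have c1 := h.cv c x
    have c2 := h.cv d x
    have c3 := h.cv b c
    have c4 := h.cv c d
    rcases hr d with f | f | f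
    · omega
    · omega
    rcases hr c with a | a | a
    · have d1 := mx c d a.1 f.1
      omega
    · have d1 := my c d a.2.1 f.2.1
      omega
    rcases hr b with g | g | g
    · have d1 := mx b c g.1 a.1
      omega
    · have d1 := my b c g.2.1 a.2.1
      omega
    · have d1 := h.np b x c d
      omega

set_option synthInstance.maxSize 4096 in
theorem cases_LTour : ∀ a < 4, ∀ b < 4, ∀ c < 4, TT_LTour a b c →
    (a = 0 ∧ b = c) ∨ (b = 0 ∧ a = c) ∨ (a ≠ 0 ∧ sw a = b) ∨ (a ≠ 0 ∧ c ≠ 0 ∧ b = c) ∨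
      (sw b < 4 ∧ sw b ≠ 0 ∧ sw (sw b) = b ∧ c ≠ 0 ∧ a = c) ∨ (c = 2 ∧ a = 3 ∧ b = 3) ∨
      (c = 3 ∧ a = 2 ∧ b = 2) := by
  decide +kernel

theorem extE : ExtP sE cE := by
  intro D l hc x y a b ha hb hT
  have h := gd_of_LTour hc
  have c1 := h.cv x y
  rcases cases_LTour a ha b hb _ c1.1 ((tt_LTour a ha b hb _ c1.1).1 hT) with
    ⟨e1, e2⟩ | ⟨e1, e2⟩ | ⟨e1, e2⟩ | ⟨e1, e2, e3⟩ | ⟨e1, e2, e3, e4, e5⟩ | ⟨e1, e2, e3⟩ |
    ⟨e1, e2, e3⟩
  · exact Or.inl ⟨x, by rw [h.dg, e1], e2.symm⟩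
  · exact Or.inl ⟨y, e2.symm, by rw [h.dg, e1]⟩
  · exact Or.inr ⟨fun _ => a, rfl, e2, const_LTour h a ha e1⟩
  · refine Or.inr ⟨_, ?_, ?_, twin_LTour h x a ha e1⟩
    · simp [h.dg]
    · have s3 := sw_LTour (l y x)
      rw [cvE_LTour, if_neg e2]
      omega
  · refine Or.inr ⟨_, ?_, ?_, twin_LTour h y (sw b) e1 e2⟩
    · show (if l y x = 0 then sw b else l x y) = a
      rw [if_neg (by omega), e5]
    · simp only [h.dg, if_true, cvE_LTour]
      exact e3
  · obtain ⟨r, r1, r2, r3⟩ := main_LTour h e1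
    exact Or.inr ⟨r, by rw [r1, e2], by rw [r2, e3]; rfl, r3⟩
  · obtain ⟨r, r1, r2, r3⟩ := main_LTour h (x := y) (y := x) (by omega)
    exact Or.inr ⟨r, by rw [r2, e2], by rw [r1, e3]; rfl, r3⟩

theorem dead_LTour : Dead sE [[], [2], [1, 3], [1, 1, 2]] ∧ Dead sE [[], [3], [1, 2], [1, 1, 3]] := by
  decide +kernel

theorem clE (hR : RefP) : ∀ (D : Type) (l : D → D → ℕ), Mod sE l → Cl cE l := by
  intro D l hm
  refine cl_of_LTour hm.toCon fun a b c d => ?_
  rintro ⟨p1, p2, p3, p4, p5, p6⟩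
  have lt : ∀ x y, l x y < 4 := hm.lt
  have t1 := (tt_LTour _ (lt _ _) _ (lt _ _) _ (lt _ _)).1 (hm.tri a c b)
  have t2 := (tt_LTour _ (lt _ _) _ (lt _ _) _ (lt _ _)).1 (hm.tri b d c)
  have q1 := t1.2.2.2.1 p4 p1 p2
  have q2 := t2.2.2.2.1 p6 p2 p3
  have l1 := lt a b
  have l2 := lt b c
  have l3 := lt c d
  have real : ∀ A C F, l a b = A → l b c = C → l c d = F →
      Real l (fun i => [a, b, c, d].getD i a) [[], [A], [1, C], [1, 1, F]] := by
    intro A C F e1 e2 e3 j hj i hi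
    have hj' : j < 4 := hj
    interval_cases j <;> interval_cases i <;> simp [e1, e2, e3, p4, p5, p6]
  by_cases e : l a b = 2
  · exact hR.2.1 _ _ dead_LTour.1 D l hm _ (real 2 3 2 e (by omega) (by omega))
  · exact hR.2.1 _ _ dead_LTour.2 D l hm _ (real 3 2 3 (by omega) (by omega) (by omega))

end Pool.Agent.MP_f23db5_lc.Low

end
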