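import Pool.Agent.MP_f23db5_lc.Defs
import Mathlib
import Pool.Agent.Mg.Xeb915b.Gf1ba05
import Pool.Agent.Mg.F2e8011.G06f54b

section

section

/-! The algebra satisfies the axioms; representations from flat connections. -/

namespace Pool.Agent.MP_f23db5_lc

open Function

instance (r s t : Fin 5) : Decidable (Tri r s t) := by unfold Tri; infer_instance

/-- table of the consistent triangles -/
def tri : Fin 5 → Fin 5 → Fin 5 → Bool :=
  ![![![true, false, false, false, false], ![false, true, false, false, false],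
      ![false, false, true, false, false], ![false, false, false, true, false],
      ![false, false, false, false, true]],
    ![![false, true, false, false, false], ![true, true, false, false, false],
      ![false, false, false, true, false], ![false, false, true, true, false],
      ![false, false, false, false, true]],
    ![![false, false, true, false, false], ![false, false, false, true, false],
      ![true, false, true, false, true], ![false, true, false, true, true],
      ![false, false, true, true, true]],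
    ![![false, false, false, true, false], ![false, false, true, true, false],
      ![false, true, false, true, true], ![true, true, true, true, true],
      ![false, false, true, true, true]],
    ![![false, false, false, false, true], ![false, false, false, false, true],
      ![false, false, true, true, true], ![false, false, true, true, true],
      ![true, true, true, true, true]]]

theorem tri_iff : ∀ r s t, Tri r s t ↔ tri r s t = true := by decide

theorem mem_comp {X Y : Finset (Fin 5)} {t : Fin 5} :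
    t ∈ alg.comp X Y ↔ ∃ r ∈ X, ∃ s ∈ Y, tri r s t = true := by
  simp [alg, tri_iff]

theorem tri_assoc : ∀ r s u t : Fin 5, (∃ p, tri r s p = true ∧ tri p u t = true) ↔
    ∃ q, tri s u q = true ∧ tri r q t = true := by decide

theorem tri_comm : ∀ r s t : Fin 5, tri r s t = tri s r t := by decide
theorem tri_comm' : ∀ r s t : Fin 5, tri r s t = tri r t s := by decide
theorem tri_zero : ∀ r t : Fin 5, tri r 0 t = true ↔ r = t := by decide

theorem isRelAlg_alg : IsRelAlg alg where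
  comp_assoc x y z := by
    ext t
    simp only [mem_comp]
    constructor
    · rintro ⟨p, ⟨r, hr, s, hs, h1⟩, u, hu, h2⟩
      obtain ⟨q, h3, h4⟩ := (tri_assoc r s u t).1 ⟨p, h1, h2⟩
      exact ⟨r, hr, q, ⟨s, hs, u, hu, h3⟩, h4⟩
    · rintro ⟨r, hr, q, ⟨s, hs, u, hu, h3⟩, h4⟩
      obtain ⟨p, h1, h2⟩ := (tri_assoc r s u t).2 ⟨q, h3, h4⟩
      exact ⟨p, ⟨r, hr, s, hs, h1⟩, u, hu, h2⟩
  sup_comp x y z := by
    ext t
    simp only [mem_comp, Finset.sup_eq_union, Finset.mem_union]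
    constructor
    · rintro ⟨r, hr | hr, h⟩
      · exact Or.inl ⟨r, hr, h⟩
      · exact Or.inr ⟨r, hr, h⟩
    · rintro (⟨r, hr, h⟩ | ⟨r, hr, h⟩)
      · exact ⟨r, Or.inl hr, h⟩
      · exact ⟨r, Or.inr hr, h⟩
  comp_ide x := by
    ext t
    simp only [mem_comp]
    simp [alg, tri_zero]
  conv_conv x := rfl
  conv_sup x y := rfl
  conv_comp x y := by
    ext t
    change t ∈ alg.comp x y ↔ t ∈ alg.comp y x
    simp only [mem_comp]
    constructor
    · rintro ⟨r, hr, s, hs, h⟩
      exact ⟨s, hs, r, hr, by rw [tri_comm, h]⟩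
    · rintro ⟨r, hr, s, hs, h⟩
      exact ⟨s, hs, r, hr, by rw [tri_comm, h]⟩
  tarski x y := by
    rw [sup_eq_right]
    intro t ht
    change t ∈ alg.comp x _ at ht
    rw [mem_comp] at ht
    obtain ⟨r, hr, s, hs, h⟩ := ht
    rw [Finset.mem_compl] at hs ⊢
    intro hy
    exact hs (mem_comp.2 ⟨r, hr, t, hy, by rw [tri_comm', h]⟩)

/-- A labelling of pairs by atoms with the witness property is a representation. -/
theorem isRep_of_at {D : Type} (α : D → D → Fin 5) (h0 : ∀ x y, α x y = 0 ↔ x = y)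
    (hs : ∀ x y, α x y = α y x) (ht : ∀ x y z, tri (α x z) (α z y) (α x y) = true)
    (hw : ∀ x y r s, tri r s (α x y) = true → ∃ z, α x z = r ∧ α z y = s)
    (hne : Nonempty D) :
    IsRep alg (fun X : Finset (Fin 5) => {p : D × D | α p.1 p.2 ∈ X}) where
  inj X Y h := by
    obtain ⟨x⟩ := hne
    ext r
    obtain ⟨z, hz, -⟩ := hw x x r r (by
      rw [(h0 x x).2 rfl, tri_comm', tri_zero])
    have := Set.ext_iff.1 h (x, z)
    simpa [hz] using this
  map_sup X Y := by ext p; simp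
  map_inf X Y := by ext p; simp
  map_compl X := by ext p; simp
  map_bot := by ext p; simp
  map_top := by ext p; simp
  map_comp X Y := by
    ext p
    simp only [Set.mem_ofPred_eq, mem_comp]
    constructor
    · rintro ⟨r, hr, s, hs, h⟩
      obtain ⟨z, h1, h2⟩ := hw _ _ r s h
      exact ⟨z, h1 ▸ hr, h2 ▸ hs⟩
    · rintro ⟨z, h1, h2⟩
      exact ⟨_, h1, _, h2, ht _ _ _⟩
  map_conv X := by
    ext p
    simp only [Set.mem_ofPred_eq]
    rw [hs p.1]
    rfl
  map_ide := by
    ext p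
    simp [alg, h0]

/-- A group-valued connection on an oriented graph, flat on triangles. -/
structure Conn (V G : Type) [Group G] where
  up : V → V → Option G
  rk : V → ℕ
  lt : ∀ x y g, up x y = some g → rk x < rk y
  flat : ∀ x y z a b c, up x y = some c → up y z = some b → up x z = some a → a = b * c

/-- join of the two orientations -/
def sym {G : Type} [Group G] (a b : Option G) : Option G :=
  match a, b with
  | some g, _ => some g
  | none, some g => some g⁻¹
  | none, none => none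

namespace Conn

variable {V G : Type} [Group G] (C : Conn V G)

/-- the transport from `x` to `y` -/
def tr (x y : V) : Option G := sym (C.up x y) (C.up y x)

theorem tr_eq_some {x y : V} {g : G} :
    C.tr x y = some g ↔ C.up x y = some g ∨ C.up y x = some g⁻¹ := by
  unfold tr
  cases h1 : C.up x y with
  | some a =>
    cases h2 : C.up y x with
    | some b => exact absurd (C.lt _ _ _ h1) (not_lt.2 (C.lt _ _ _ h2).le)
    | none => simp [sym]
  | none =>
    cases h2 : C.up y x with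
    | some b => simp [sym, inv_eq_iff_eq_inv]
    | none => simp [sym]

theorem tr_symm {x y : V} {g : G} (h : C.tr x y = some g) : C.tr y x = some g⁻¹ := by
  rw [tr_eq_some] at h ⊢
  simpa [or_comm] using h

theorem tr_none {x y : V} (h : C.tr x y = none) : C.tr y x = none := by
  cases h' : C.tr y x with
  | none => rfl
  | some g => rw [C.tr_symm h'] at h; cases h

theorem tr_self (x : V) : C.tr x x = none := by
  cases h' : C.tr x x with
  | none => rfl
  | some g =>
    rcases C.tr_eq_some.1 h' with h | h <;> exact absurd (C.lt _ _ _ h) (lt_irrefl _)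

theorem tr_flat {x y z : V} {a b c : G} (h1 : C.tr x y = some c) (h2 : C.tr y z = some b)
    (h3 : C.tr x z = some a) : a = b * c := by
  rcases C.tr_eq_some.1 h1 with h1 | h1 <;> rcases C.tr_eq_some.1 h2 with h2 | h2 <;>
    rcases C.tr_eq_some.1 h3 with h3 | h3
  · exact C.flat _ _ _ _ _ _ h1 h2 h3
  · have := C.lt _ _ _ h1; have := C.lt _ _ _ h2; have := C.lt _ _ _ h3; omega
  · rw [C.flat _ _ _ _ _ _ h3 h2 h1]; group
  · have := C.flat _ _ _ _ _ _ h3 h1 h2
    rw [← inv_inv b, this]; group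
  · rw [C.flat _ _ _ _ _ _ h1 h3 h2]; group
  · have := C.flat _ _ _ _ _ _ h2 h3 h1
    rw [← inv_inv c, this]; group
  · have := C.lt _ _ _ h1; have := C.lt _ _ _ h2; have := C.lt _ _ _ h3; omega
  · have := C.flat _ _ _ _ _ _ h2 h1 h3
    rw [← inv_inv a, this]; group

end Conn

/-- The free extension by witnesses. -/
inductive Tr (B G : Type) : Type
  | base (b : B) : Tr B G
  | node (u v : Tr B G) (g : G) (k : ℕ) : Tr B G

section ext

variable {B G : Type} [Group G] (C : Conn B G)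

open Classical in
noncomputable def upT : Tr B G → Tr B G → Option G
  | .base i, .base j => C.up i j
  | .node _ _ _ _, .base _ => none
  | x, .node u v g _ =>
      if x = u then some 1 else if x = v then some ((sym (upT v u) (upT u v)).getD g) else none
termination_by structural _ y => y

def rkT : Tr B G → ℕ
  | .base i => C.rk i
  | .node u v _ k => rkT u + rkT v + k + 1

open Classical in
theorem upT_node (x u v : Tr B G) (g : G) (k : ℕ) : upT C x (.node u v g k) =
    if x = u then some 1 else if x = v then some ((sym (upT C v u) (upT C u v)).getD g)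
      else none := by
  cases x <;> rw [upT]

theorem upT_lt : ∀ x y g, upT C x y = some g → rkT C x < rkT C y := by
  intro x y g h
  cases y with
  | base j =>
    cases x with
    | base i => exact C.lt _ _ _ h
    | node => simp [upT] at h
  | node u v g' k =>
    rw [upT_node] at h
    split_ifs at h with h1 h2
    · subst h1; simp only [rkT]; omega
    · subst h2; simp only [rkT]; omega

noncomputable def ext : Conn (Tr B G) G where
  up := upT C
  rk := rkT C
  lt := upT_lt C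
  flat x y z a b c h1 h2 h3 := by
    cases z with
    | base k =>
      cases y with
      | node => simp [upT] at h2
      | base j =>
        cases x with
        | node => simp [upT] at h3
        | base i => exact C.flat _ _ _ _ _ _ h1 h2 h3
    | node u v g k =>
      have hxy := upT_lt C _ _ _ h1
      rw [upT_node] at h2 h3
      split_ifs at h2 h3 with e1 e2 e3 e4 e5 e6
      · subst e1 e2; omega
      · subst e1 e3
        cases h2
        rw [h1] at h3
        simpa [sym] using h3.symm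
      · subst e4 e5
        cases h3
        have : upT C y x = none := by
          cases h : upT C y x with
          | none => rfl
          | some g => have := upT_lt C _ _ _ h; omega
        rw [h1, this] at h2
        simp only [sym, Option.getD_some, Option.some.injEq] at h2
        rw [← h2]; simp
      · subst e4 e6; omega

theorem ext_base (i j : B) : (ext C).tr (.base i) (.base j) = C.tr i j := rfl

open Classical in
theorem ext_node (x u v : Tr B G) (g : G) (k : ℕ) (hk : rkT C x ≤ k) :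
    (ext C).tr x (.node u v g k) =
    if x = u then some 1 else if x = v then some (((ext C).tr v u).getD g) else none := by
  have h : upT C (.node u v g k) x = none := by
    cases h : upT C (.node u v g k) x with
    | none => rfl
    | some g => have := upT_lt C _ _ _ h; simp only [rkT] at this; omega
  change sym (upT C x _) (upT C _ x) = _
  rw [h, upT_node]
  split_ifs <;> rfl

theorem ne_node {x u v : Tr B G} {g : G} {k : ℕ} (hk : rkT C x ≤ k) : x ≠ .node u v g k := by
  rintro rfl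
  simp only [rkT] at hk
  omega

theorem ext_both (x y : Tr B G) (g : G) : ∃ w, x ≠ w ∧ y ≠ w ∧ (ext C).tr x w = some 1 ∧
    (y = x ∨ (ext C).tr y w = some (((ext C).tr y x).getD g)) := by
  refine ⟨.node x y g (rkT C x + rkT C y), ne_node C (by omega), ne_node C (by omega), ?_, ?_⟩
  · rw [ext_node C _ _ _ _ _ (by omega), if_pos rfl]
  · by_cases h : y = x
    · exact Or.inl h
    · rw [ext_node C _ _ _ _ _ (by omega), if_neg h, if_pos rfl]
      exact Or.inr rfl

theorem ext_one {x y : Tr B G} (h : y ≠ x) : ∃ w, x ≠ w ∧ y ≠ w ∧ (ext C).tr x w = some 1 ∧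
    (ext C).tr y w = none := by
  refine ⟨.node x x 1 (rkT C x + rkT C y), ne_node C (by omega), ne_node C (by omega), ?_, ?_⟩
  · rw [ext_node C _ _ _ _ _ (by omega), if_pos rfl]
  · rw [ext_node C _ _ _ _ _ (by omega), if_neg h, if_neg h]

theorem ext_zero (x y : Tr B G) : ∃ w, x ≠ w ∧ y ≠ w ∧ (ext C).tr x w = none ∧
    (ext C).tr y w = none := by
  have h1 : x ≠ .node x x 1 (rkT C x + rkT C y) := ne_node C (by omega)
  have h2 : y ≠ .node x x 1 (rkT C x + rkT C y) := ne_node C (by omega)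
  refine ⟨.node (.node x x 1 (rkT C x + rkT C y)) (.node x x 1 (rkT C x + rkT C y)) 1
    (rkT C x + rkT C y), ne_node C (by omega), ne_node C (by omega), ?_, ?_⟩
  · rw [ext_node C _ _ _ _ _ (by omega), if_neg h1, if_neg h1]
  · rw [ext_node C _ _ _ _ _ (by omega), if_neg h2, if_neg h2]

end ext

end Pool.Agent.MP_f23db5_lc

end

section

/-! The cover of a graph given by a flat connection is a representation. -/

namespace Pool.Agent.MP_f23db5_lc

open Function Equiv

variable {V S : Type} (C : Conn V (Perm S))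

open Classical in
/-- the atom carried by a pair of points of the cover -/
noncomputable def atC (d e : V × S) : Fin 5 :=
  if d.1 = e.1 then (if d.2 = e.2 then 0 else 1) else
    match C.tr d.1 e.1 with
    | some g => if g d.2 = e.2 then 2 else 3
    | none => 4

theorem atC_0 (x : V) (s : S) : atC C (x, s) (x, s) = 0 := by simp [atC]

theorem atC_1 (x : V) {s t : S} (h : s ≠ t) : atC C (x, s) (x, t) = 1 := by simp [atC, h]

theorem tr_ne {x y : V} {g : Perm S} (h : C.tr x y = some g) : x ≠ y := by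
  rintro rfl
  rw [C.tr_self] at h
  cases h

theorem atC_2 {x y : V} {g : Perm S} (h : C.tr x y = some g) {s t : S} (e : g s = t) :
    atC C (x, s) (y, t) = 2 := by simp [atC, tr_ne C h, h, e]

theorem atC_3 {x y : V} {g : Perm S} (h : C.tr x y = some g) {s t : S} (e : g s ≠ t) :
    atC C (x, s) (y, t) = 3 := by simp [atC, tr_ne C h, h, e]

theorem atC_4 {x y : V} (h' : x ≠ y) (h : C.tr x y = none) (s t : S) :
    atC C (x, s) (y, t) = 4 := by simp [atC, h', h]

theorem atC_cases (x y : V) (s t : S) :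
    (x = y ∧ s = t ∧ atC C (x, s) (y, t) = 0) ∨ (x = y ∧ s ≠ t ∧ atC C (x, s) (y, t) = 1) ∨
    (∃ g, C.tr x y = some g ∧ g s = t ∧ atC C (x, s) (y, t) = 2) ∨
    (∃ g, C.tr x y = some g ∧ g s ≠ t ∧ atC C (x, s) (y, t) = 3) ∨
    (x ≠ y ∧ C.tr x y = none ∧ atC C (x, s) (y, t) = 4) := by
  by_cases h : x = y
  · subst h
    by_cases h' : s = t
    · subst h'; exact Or.inl ⟨rfl, rfl, atC_0 C _ _⟩
    · exact Or.inr (Or.inl ⟨rfl, h', atC_1 C _ h'⟩)
  · cases h1 : C.tr x y with
    | none => exact Or.inr (Or.inr (Or.inr (Or.inr ⟨h, rfl, atC_4 C h h1 _ _⟩)))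
    | some g =>
      by_cases h' : g s = t
      · exact Or.inr (Or.inr (Or.inl ⟨g, rfl, h', atC_2 C h1 h'⟩))
      · exact Or.inr (Or.inr (Or.inr (Or.inl ⟨g, rfl, h', atC_3 C h1 h'⟩)))

theorem atC_eq_zero (d e : V × S) : atC C d e = 0 ↔ d = e := by
  obtain ⟨x, s⟩ := d
  obtain ⟨y, t⟩ := e
  constructor
  · intro h
    rcases atC_cases C x y s t with ⟨rfl, rfl, -⟩ | ⟨-, -, h'⟩ | ⟨_, -, -, h'⟩ | ⟨_, -, -, h'⟩ |
      ⟨-, -, h'⟩
    · rfl
    all_goals rw [h] at h'; cases h'
  · intro h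
    cases h
    exact atC_0 C _ _

theorem atC_symm (d e : V × S) : atC C d e = atC C e d := by
  obtain ⟨x, s⟩ := d
  obtain ⟨y, t⟩ := e
  rcases atC_cases C x y s t with ⟨rfl, rfl, -⟩ | ⟨rfl, h, h'⟩ | ⟨g, h1, h, h'⟩ | ⟨g, h1, h, h'⟩ |
      ⟨h1, h, h'⟩
  · rfl
  · rw [h', atC_1 C _ h.symm]
  · rw [h', atC_2 C (C.tr_symm h1) (by rw [← h]; simp)]
  · rw [h', atC_3 C (C.tr_symm h1) (by rintro rfl; simp at h)]
  · rw [h', atC_4 C h1.symm (C.tr_none h)]

theorem atC_tri (d e f : V × S) : tri (atC C d f) (atC C f e) (atC C d e) = true := by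
  obtain ⟨x, s⟩ := d
  obtain ⟨y, t⟩ := e
  obtain ⟨z, u⟩ := f
  have k1 := @Conn.tr_symm _ _ _ C
  have k2 := @Conn.tr_none _ _ _ C
  have k3 := C.tr_self
  rcases atC_cases C x z s u with ⟨a0, a1, a⟩ | ⟨a0, a1, a⟩ | ⟨g, a1, a2, a⟩ | ⟨g, a1, a2, a⟩ |
      ⟨a1, a2, a⟩ <;>
  rcases atC_cases C z y u t with ⟨b0, b1, b⟩ | ⟨b0, b1, b⟩ | ⟨g', b1, b2, b⟩ |
      ⟨g', b1, b2, b⟩ | ⟨b1, b2, b⟩ <;>
  rcases atC_cases C x y s t with ⟨c0, c1, c⟩ | ⟨c0, c1, c⟩ | ⟨g'', c1, c2, c⟩ |
      ⟨g'', c1, c2, c⟩ | ⟨c1, c2, c⟩ <;>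
  rw [a, b, c] <;>
  first
  | decide
  | (exfalso; clear a b c; have := C.tr_flat a1 b1 c1; subst this a2; simp_all; done)
  | (exfalso; clear a b c; have := C.tr_flat a1 b1 c1; subst this b2 c2; simp_all; done)
  | (exfalso; clear a b c; subst c0; have := k1 a1; rw [this] at b1; cases b1; subst a2;
      simp_all; done)
  | (exfalso; clear a b c; subst c0; have := k1 a1; rw [this] at b1; cases b1; subst b2;
      simp_all; done)
  | (exfalso; clear a b c; subst a0; rw [b1] at c1; cases c1; subst b2; simp_all; done)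
  | (exfalso; clear a b c; have := C.tr_flat a1 b1 c1; subst this b2; simp_all; done)
  | (exfalso; clear a b c; grind)

theorem exists_ne_two [Infinite S] (a b : S) : ∃ u, u ≠ a ∧ u ≠ b := by
  classical
  obtain ⟨u, hu⟩ := Infinite.exists_notMem_finset ({a, b} : Finset S)
  exact ⟨u, by simpa using hu⟩

theorem fiber_witness [Infinite S] (x y : V) (s t : S) (r : Fin 5)
    (h : tri 1 r (atC C (x, s) (y, t)) = true) :
    ∃ u, atC C (x, s) (x, u) = 1 ∧ atC C (x, u) (y, t) = r := by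
  rcases atC_cases C x y s t with ⟨rfl, rfl, c⟩ | ⟨rfl, c1, c⟩ | ⟨g, c1, c2, c⟩ |
      ⟨g, c1, c2, c⟩ | ⟨c1, c2, c⟩ <;> rw [c] at h
  · obtain rfl : r = 1 := by revert r; decide
    obtain ⟨u, hu, -⟩ := exists_ne_two s s
    exact ⟨u, atC_1 C _ hu.symm, atC_1 C _ hu⟩
  · obtain rfl | rfl : r = 0 ∨ r = 1 := by revert r; decide
    · exact ⟨t, c, atC_0 C _ _⟩
    · obtain ⟨u, hu, hu'⟩ := exists_ne_two s t
      exact ⟨u, atC_1 C _ hu.symm, atC_1 C _ hu'⟩
  · obtain rfl : r = 3 := by revert r; decide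
    obtain ⟨u, hu, -⟩ := exists_ne_two s s
    exact ⟨u, atC_1 C _ hu.symm, atC_3 C c1 (by subst c2; simpa using hu)⟩
  · obtain rfl | rfl : r = 2 ∨ r = 3 := by revert r; decide
    · exact ⟨g⁻¹ t, atC_1 C _ (by rintro rfl; simp at c2), atC_2 C c1 (by simp)⟩
    · obtain ⟨u, hu, hu'⟩ := exists_ne_two s (g⁻¹ t)
      exact ⟨u, atC_1 C _ hu.symm, atC_3 C c1 (by rintro rfl; simp at hu')⟩
  · obtain rfl : r = 4 := by revert r; decide
    obtain ⟨u, hu, -⟩ := exists_ne_two s s
    exact ⟨u, atC_1 C _ hu.symm, atC_4 C c1 c2 _ _⟩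

variable {B : Type} (E : Conn B (Perm S))

theorem both_witness (x y : Tr B (Perm S)) (s t : S) (g : Perm S) :
    ∃ w β, (ext E).tr x w = some 1 ∧ (ext E).tr y w = some β ∧
      (atC (ext E) (x, s) (y, t) = 0 ∨ atC (ext E) (x, s) (y, t) = 2 → β t = s) ∧
      (atC (ext E) (x, s) (y, t) = 1 ∨ atC (ext E) (x, s) (y, t) = 3 → β t ≠ s) ∧
      (atC (ext E) (x, s) (y, t) = 4 → β = g) := by
  obtain ⟨w, -, -, h1, h2⟩ := ext_both E x y g
  rcases atC_cases (ext E) x y s t with ⟨rfl, rfl, c⟩ | ⟨rfl, c1, c⟩ | ⟨g', c1, c2, c⟩ |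
      ⟨g', c1, c2, c⟩ | ⟨c1, c2, c⟩ <;> rw [c]
  · exact ⟨w, 1, h1, h1, by simp⟩
  · exact ⟨w, 1, h1, h1, by simp [c1.symm]⟩
  · have h3 := h2.resolve_left (tr_ne _ c1).symm
    rw [(ext E).tr_symm c1] at h3
    exact ⟨w, g'⁻¹, h1, h3, by simp [← c2]⟩
  · have h3 := h2.resolve_left (tr_ne _ c1).symm
    rw [(ext E).tr_symm c1] at h3
    refine ⟨w, g'⁻¹, h1, h3, by simp, fun _ => ?_, by simp⟩
    rintro rfl
    simp at c2
  · have h3 := h2.resolve_left c1.symm
    rw [(ext E).tr_none c2] at h3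
    exact ⟨w, g, h1, h3, by simp⟩

theorem atC_witness_aux [Infinite S] (x y : Tr B (Perm S)) (s t : S) (r r' : Fin 5) (hr : r ≤ r')
    (h : tri r r' (atC (ext E) (x, s) (y, t)) = true) :
    ∃ z, atC (ext E) (x, s) z = r ∧ atC (ext E) z (y, t) = r' := by
  classical
  obtain rfl | rfl | ⟨rfl, rfl⟩ | ⟨rfl, rfl⟩ | ⟨rfl, rfl⟩ | ⟨h1, rfl⟩ | ⟨rfl, rfl⟩ :
      r = 0 ∨ r = 1 ∨ (r = 2 ∧ r' = 2) ∨ (r = 2 ∧ r' = 3) ∨ (r = 3 ∧ r' = 3) ∨
        ((r = 2 ∨ r = 3) ∧ r' = 4) ∨ (r = 4 ∧ r' = 4) := by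
    clear h; revert r r'; decide
  · refine ⟨(x, s), atC_0 _ _ _, ?_⟩
    rw [tri_comm, tri_zero] at h
    exact h.symm
  · obtain ⟨u, hu⟩ := fiber_witness (ext E) x y s t r' h
    exact ⟨(x, u), hu⟩
  · obtain ⟨w, β, h1, h2, h3, -, h5⟩ := both_witness E x y s t (Equiv.swap t s)
    refine ⟨(w, s), atC_2 _ h1 rfl, ?_⟩
    rw [atC_symm]
    refine atC_2 _ h2 ?_
    generalize atC (ext E) (x, s) (y, t) = c at *
    obtain h6 | h6 : (c = 0 ∨ c = 2) ∨ c = 4 := by clear h3 h5; revert c; decide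
    · exact h3 h6
    · rw [h5 h6]; simp
  · obtain ⟨u, hu, -⟩ := exists_ne_two s s
    obtain ⟨w, β, h1, h2, -, h4, h5⟩ := both_witness E x y s t (Equiv.swap t u)
    refine ⟨(w, s), atC_2 _ h1 rfl, ?_⟩
    rw [atC_symm]
    refine atC_3 _ h2 ?_
    generalize atC (ext E) (x, s) (y, t) = c at *
    obtain h6 | h6 : (c = 1 ∨ c = 3) ∨ c = 4 := by clear h4 h5; revert c; decide
    · exact h4 h6
    · rw [h5 h6]; simpa using hu
  · obtain ⟨w, β, h1, h2, -⟩ := both_witness E x y s t 1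
    obtain ⟨u, hu, hu'⟩ := exists_ne_two s (β t)
    refine ⟨(w, u), atC_3 _ h1 hu.symm, ?_⟩
    rw [atC_symm]
    exact atC_3 _ h2 hu'.symm
  · have hxy : y ≠ x := by
      rintro rfl
      rcases atC_cases (ext E) y y s t with ⟨-, -, c⟩ | ⟨-, -, c⟩ | ⟨g', c1, -, -⟩ |
        ⟨g', c1, -, -⟩ | ⟨c1, -, -⟩
      · rw [c] at h; rcases h1 with rfl | rfl <;> simp [tri] at h
      · rw [c] at h; rcases h1 with rfl | rfl <;> simp [tri] at h
      · exact tr_ne _ c1 rfl
      · exact tr_ne _ c1 rfl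
      · exact c1 rfl
    obtain ⟨w, -, h2, h3, h4⟩ := ext_one E hxy
    obtain ⟨u, hu, -⟩ := exists_ne_two s s
    rcases h1 with rfl | rfl
    · exact ⟨(w, s), atC_2 _ h3 rfl, by rw [atC_symm]; exact atC_4 _ h2 h4 _ _⟩
    · exact ⟨(w, u), atC_3 _ h3 hu.symm, by rw [atC_symm]; exact atC_4 _ h2 h4 _ _⟩
  · obtain ⟨w, h1, h2, h3, h4⟩ := ext_zero E x y
    exact ⟨(w, s), atC_4 _ h1 h3 _ _, by rw [atC_symm]; exact atC_4 _ h2 h4 _ _⟩

theorem atC_witness [Infinite S] (d e : Tr B (Perm S) × S) (r r' : Fin 5)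
    (h : tri r r' (atC (ext E) d e) = true) :
    ∃ z, atC (ext E) d z = r ∧ atC (ext E) z e = r' := by
  obtain ⟨x, s⟩ := d
  obtain ⟨y, t⟩ := e
  rcases le_total r r' with hr | hr
  · exact atC_witness_aux E x y s t r r' hr h
  · rw [tri_comm, atC_symm] at h
    obtain ⟨z, h1, h2⟩ := atC_witness_aux E y x t s r' r hr h
    exact ⟨z, by rw [atC_symm, h2], by rw [atC_symm, h1]⟩

theorem isRep_cover [Infinite S] [Nonempty B] :
    IsRep alg (fun X : Finset (Fin 5) =>
      {p : (Tr B (Perm S) × S) × (Tr B (Perm S) × S) | atC (ext E) p.1 p.2 ∈ X}) :=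
  isRep_of_at _ (atC_eq_zero _) (atC_symm _) (atC_tri _) (atC_witness E)
    ⟨(.base (Classical.arbitrary B), Classical.arbitrary S)⟩

end Pool.Agent.MP_f23db5_lc

end

section

/-! Multiplication tables of permutations as networks. -/

namespace Pool.Agent.MP_f23db5_lc

open Function Equiv

theorem exists_at {D : Type} {ρ : Finset (Fin 5) → Set (D × D)} (h : IsRep alg ρ) :
    ∃ α : D → D → Fin 5, (∀ X x y, (x, y) ∈ ρ X ↔ α x y ∈ X) ∧ (∀ x y, α x y = 0 ↔ x = y) ∧
      (∀ x y, α x y = α y x) ∧ (∀ x y z, tri (α x z) (α z y) (α x y) = true) ∧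
      (∀ x y r s, tri r s (α x y) = true → ∃ z, α x z = r ∧ α z y = s) := by
  have h1 : ∀ (X : Finset (Fin 5)) p, p ∈ ρ X ↔ ∃ r ∈ X, p ∈ ρ {r} := by
    intro X p
    induction X using Finset.induction_on with
    | empty => simpa using Set.ext_iff.1 h.map_bot p
    | insert a X _ ih =>
      rw [Finset.insert_eq, ← Finset.sup_eq_union, h.map_sup, Set.mem_union, ih]
      simp
  have h2 : ∀ x y, ∃ r, (x, y) ∈ ρ {r} := fun x y => by
    have : (x, y) ∈ ρ ⊤ := by rw [h.map_top]; trivial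
    obtain ⟨r, -, hr⟩ := (h1 _ _).1 this
    exact ⟨r, hr⟩
  choose α hα using h2
  have h3 : ∀ X x y, (x, y) ∈ ρ X ↔ α x y ∈ X := by
    intro X x y
    rw [h1]
    refine ⟨?_, fun hx => ⟨_, hx, hα x y⟩⟩
    rintro ⟨r, hr, h4⟩
    by_contra hc
    have : (x, y) ∈ ρ ({r} ⊓ {α x y}) := by rw [h.map_inf]; exact ⟨h4, hα x y⟩
    have e : ({r} ⊓ {α x y} : Finset (Fin 5)) = ⊥ := by
      ext t
      simp only [Finset.inf_eq_inter, Finset.mem_inter, Finset.mem_singleton, Finset.bot_eq_empty,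
        Finset.notMem_empty, iff_false, not_and]
      rintro rfl e
      exact hc (e ▸ hr)
    rw [e, h.map_bot] at this
    exact this
  refine ⟨α, h3, fun x y => ?_, fun x y => ?_, fun x y z => ?_, fun x y r s hr => ?_⟩
  · have := Set.ext_iff.1 h.map_ide (x, y)
    rw [h3] at this
    simpa [alg] using this
  · have := Set.ext_iff.1 (h.map_conv {α x y}) (x, y)
    simp only [alg, h3, Set.mem_ofPred_eq, Finset.mem_singleton, true_iff] at this
    exact this.symm
  · have := Set.ext_iff.1 (h.map_comp {α x z} {α z y}) (x, y)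
    rw [h3, mem_comp] at this
    simpa using this.2 ⟨z, hα _ _, hα _ _⟩
  · have := Set.ext_iff.1 (h.map_comp {r} {s}) (x, y)
    rw [h3, mem_comp] at this
    simpa [h3] using this.1 ⟨r, by simp, s, by simp, hr⟩

abbrev Gn : Type := ℕ × ℕ
abbrev Nd : Type := ℕ × Gn × Gn × Gn
abbrev Lb : Type := Finset (Fin 5)
abbrev Cons : Type := List (Nd × Nd × Lb)

def un : Gn := (0, 0)
def nd (i : ℕ) (g : Gn) : Nd := (i, g, un, un)
def lE : Lb := {2, 3}
def lF : Lb := {0, 1}

def CSat (c : Cons) : Prop :=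
  ∃ (D : Type) (ρ : Lb → Set (D × D)), IsRep alg ρ ∧ ∃ f : Nd → D, ∀ x ∈ c, (f x.1, f x.2.1) ∈ ρ x.2.2

def gad (g h k : Gn) : Cons :=
  [(nd 0 un, nd 3 g, lE), (nd 1 un, nd 3 g, lE), (nd 1 un, nd 4 h, lE), (nd 2 un, nd 4 h, lE),
    (nd 0 un, nd 5 k, lE), (nd 2 un, nd 5 k, lE), (nd 0 un, (6, g, h, k), lE),
    (nd 1 un, (6, g, h, k), lE), (nd 2 un, (6, g, h, k), lE), (nd 3 g, (6, g, h, k), lE),
    (nd 4 h, (6, g, h, k), lE), (nd 5 k, (6, g, h, k), lE)]

def tcons (t : Gn × Gn × Gn) : Cons :=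
  gad t.1 t.2.1 t.2.2 ++ gad un t.2.1 t.2.1 ++ gad t.2.1 un t.2.1 ++ gad t.2.2 un t.2.2

def pcons (t : Gn × Gn × Gn) : Cons :=
  [(nd 7 t.1, nd 0 un, lF), ((8, t), nd 3 t.2.1, lF), ((9, t), nd 1 un, lF),
    ((10, t), nd 3 un, lF), (nd 7 t.2.2, nd 0 un, lF), (nd 7 t.1, (8, t), {2}),
    ((8, t), (9, t), {2}), ((9, t), (10, t), {2}), ((10, t), nd 7 t.2.2, {2})]

def toC (T Q : List (Gn × Gn × Gn)) (p q : Gn) : Cons :=
  T.flatMap tcons ++ Q.flatMap pcons ++
    [(nd 7 p, nd 0 un, lF), (nd 7 q, nd 0 un, lF), (nd 7 p, nd 7 q, {1}),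
      (nd 0 un, nd 3 un, lE), (nd 1 un, nd 3 un, lE)]

section sound

variable {D : Type} (α : D → D → Fin 5)

def Sim (x y : D) : Prop := α x y ∈ lF
def Adj (x y : D) : Prop := α x y ∈ lE

open Classical in
/-- transport into the fibre of `v` -/
noncomputable def mv (v x : D) : D := if h : ∃ y, α x y = 2 ∧ Sim α y v then h.choose else v

variable {α} (h0 : ∀ x y, α x y = 0 ↔ x = y) (hs : ∀ x y, α x y = α y x)
  (ht : ∀ x y z, tri (α x z) (α z y) (α x y) = true)
  (hw : ∀ x y r s, tri r s (α x y) = true → ∃ z, α x z = r ∧ α z y = s)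

include h0 in
theorem sim_refl (x : D) : Sim α x x := by simp [Sim, (h0 x x).2 rfl, lF]

include h0 in
theorem mv_sim (v x : D) : Sim α (mv α v x) v := by
  unfold mv
  split_ifs with h
  · exact h.choose_spec.2
  · exact sim_refl h0 v

include hs in
theorem Sim.symm {x y : D} (h : Sim α x y) : Sim α y x := by unfold Sim; rwa [hs]

include hs in
theorem Adj.symm {x y : D} (h : Adj α x y) : Adj α y x := by unfold Adj; rwa [hs]

include ht in
theorem Sim.trans {x y z : D} (h : Sim α x y) (h' : Sim α y z) : Sim α x z := by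
  have := ht x z y
  unfold Sim at *
  generalize α x y = a at *
  generalize α y z = b at *
  generalize α x z = c at *
  revert a b c
  decide

include ht in
theorem Sim.adj {x y z : D} (h : Sim α x y) (h' : Adj α y z) : Adj α x z := by
  have := ht x z y
  unfold Sim Adj at *
  generalize α x y = a at *
  generalize α y z = b at *
  generalize α x z = c at *
  revert a b c
  decide

include h0 hw in
theorem mv_spec {x v : D} (h : Adj α x v) : α x (mv α v x) = 2 := by
  have : ∃ y, α x y = 2 ∧ Sim α y v := by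
    have h1 : α x v = 2 ∨ α x v = 3 := by simpa [Adj, lE] using h
    rcases h1 with h1 | h1
    · exact ⟨v, h1, sim_refl h0 v⟩
    · obtain ⟨z, h2, h3⟩ := hw x v 2 1 (by rw [h1]; rfl)
      exact ⟨z, h2, by simp [Sim, h3, lF]⟩
  unfold mv
  rw [dif_pos this]
  exact this.choose_spec.1

include h0 hs ht in
theorem mv_eq {x y v : D} (h : α x y = 2) (h' : Sim α y v) : mv α v x = y := by
  have : ∃ y, α x y = 2 ∧ Sim α y v := ⟨y, h, h'⟩
  unfold mv
  rw [dif_pos this]
  obtain ⟨h1, h2⟩ := this.choose_spec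
  generalize this.choose = z at *
  have h3 := h2.trans ht (h'.symm hs)
  have h4 := ht z y x
  rw [hs z x, h1, h] at h4
  rw [← h0]
  unfold Sim at h3
  generalize α z y = c at *
  revert c
  decide

include h0 hs ht hw in
theorem mv_mv {x u v : D} (h1 : Adj α x u) (h2 : Adj α u v) (h3 : Adj α x v) :
    mv α v (mv α u x) = mv α v x := by
  have a1 := mv_spec h0 hw h1
  have a2 := mv_spec h0 hw ((mv_sim h0 u x).adj ht h2)
  have a3 : Adj α x (mv α v (mv α u x)) :=
    (((mv_sim h0 v _).adj ht (h3.symm hs))).symm hs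
  refine (mv_eq h0 hs ht ?_ (mv_sim h0 v _)).symm
  have := ht x (mv α v (mv α u x)) (mv α u x)
  rw [a1, a2] at this
  unfold Adj at a3
  generalize α x (mv α v (mv α u x)) = c at *
  revert c
  decide

include h0 hs ht hw in
theorem mv_back {x u w : D} (h1 : Sim α x w) (h2 : Adj α w u) : mv α w (mv α u x) = x :=
  mv_eq h0 hs ht (by rw [hs]; exact mv_spec h0 hw (h1.adj ht h2)) h1

include h0 hs ht hw in
theorem mv_cone {x i j m c : D} (hx : Sim α x i) (h1 : Adj α i m) (h2 : Adj α j m)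
    (h3 : Adj α i c) (h4 : Adj α j c) (h5 : Adj α m c) :
    mv α j (mv α m x) = mv α j (mv α c x) := by
  rw [← mv_mv h0 hs ht hw (hx.adj ht h1) h5 (hx.adj ht h3)]
  exact (mv_mv h0 hs ht hw ((mv_sim h0 m x).adj ht h5) (h4.symm hs)
    ((mv_sim h0 m x).adj ht (h2.symm hs))).symm

include h0 hs ht hw in
theorem gad_sound (f : Nd → D) {g h k : Gn} (H : ∀ x ∈ gad g h k, α (f x.1) (f x.2.1) ∈ x.2.2)
    {x : D} (hx : Sim α x (f (nd 0 un))) :
    mv α (f (nd 2 un)) (mv α (f (nd 5 k)) x) =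
      mv α (f (nd 2 un)) (mv α (f (nd 4 h)) (mv α (f (nd 1 un)) (mv α (f (nd 3 g)) x))) := by
  simp only [gad, List.mem_cons, List.not_mem_nil, or_false, forall_eq_or_imp, forall_eq] at H
  obtain ⟨a1, a2, a3, a4, a5, a6, a7, a8, a9, a10, a11, a12⟩ := H
  rw [mv_cone h0 hs ht hw hx a5 a6 a7 a9 a12, mv_cone h0 hs ht hw hx a1 a2 a7 a8 a10,
    mv_cone h0 hs ht hw (mv_sim h0 _ _) a3 a4 a8 a9 a11,
    mv_back h0 hs ht hw (mv_sim h0 _ _) (Adj.symm hs a8)]

end sound

theorem toC_sound {T Q : List (Gn × Gn × Gn)} {p q : Gn} (H : CSat (toC T Q p q)) :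
    ∃ (S : Type) (σ : Gn → S → S) (ω : Gn → S), (∀ s, σ un s = s) ∧
      (∀ t ∈ T, ∀ s, σ t.2.2 s = σ t.2.1 (σ t.1 s)) ∧ (∀ t ∈ Q, σ t.2.1 (ω t.1) = ω t.2.2) ∧
      ω p ≠ ω q := by
  classical
  obtain ⟨D, ρ, hρ, f, hf⟩ := H
  obtain ⟨α, hα, h0, hs, ht, hw⟩ := exists_at hρ
  simp only [hα, toC, List.mem_append, List.mem_flatMap, or_imp, forall_and,
    List.mem_cons, List.not_mem_nil, forall_eq, forall_exists_index, and_imp] at hf
  obtain ⟨⟨hT, hQ⟩, b1, b2, b3, b4, b5, -⟩ := hf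
  let σ : Gn → {x // Sim α x (f (nd 0 un))} → {x // Sim α x (f (nd 0 un))} := fun g x =>
    ⟨mv α (f (nd 0 un)) (mv α (f (nd 3 un)) (mv α (f (nd 1 un)) (mv α (f (nd 3 g)) x.1))),
      mv_sim h0 _ _⟩
  let ω : Gn → {x // Sim α x (f (nd 0 un))} := fun p =>
    if h : Sim α (f (nd 7 p)) (f (nd 0 un)) then ⟨_, h⟩ else ⟨_, sim_refl h0 _⟩
  have hω : ∀ p, Sim α (f (nd 7 p)) (f (nd 0 un)) → (ω p).1 = f (nd 7 p) := fun p h => by
    simp only [ω, dif_pos h]
  have c1 : ∀ x, Sim α x (f (nd 1 un)) → mv α (f (nd 1 un)) (mv α (f (nd 3 un))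
      (mv α (f (nd 0 un)) (mv α (f (nd 3 un)) x))) = x := fun x hx => by
    rw [mv_back h0 hs ht hw (mv_sim h0 _ _) (Adj.symm hs b4), mv_back h0 hs ht hw hx b5]
  refine ⟨_, σ, ω, fun s => Subtype.ext ?_, fun t htT s => Subtype.ext ?_,
    fun t htQ => Subtype.ext ?_, fun h => ?_⟩
  · simp only [σ]
    rw [mv_back h0 hs ht hw (mv_sim h0 _ _) (Adj.symm hs b5), mv_back h0 hs ht hw s.2 b4]
  · obtain ⟨g, h, k⟩ := t
    have e : ∀ x ∈ tcons (g, h, k), α (f x.1) (f x.2.1) ∈ x.2.2 := fun x hx => hT x _ htT hx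
    simp only [tcons, List.mem_append, or_imp, forall_and] at e
    obtain ⟨⟨⟨e1, e2⟩, e3⟩, e4⟩ := e
    have g1 := gad_sound h0 hs ht hw f e1 s.2
    have g2 := gad_sound h0 hs ht hw f e2 (σ g s).2
    have g3 := gad_sound h0 hs ht hw f e3 (σ g s).2
    have g4 := gad_sound h0 hs ht hw f e4 s.2
    simp only [σ] at g2 g3 ⊢
    rw [c1 _ (mv_sim h0 _ _), ← g1, g4, g3] at g2
    have a3 : Adj α (f (nd 1 un)) (f (nd 4 un)) := e4 (nd 1 un, nd 4 un, lE) (by simp [gad])
    have a4 : Adj α (f (nd 2 un)) (f (nd 4 un)) := e4 (nd 2 un, nd 4 un, lE) (by simp [gad])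
    have g5 := congrArg (fun y => mv α (f (nd 1 un)) (mv α (f (nd 4 un)) y)) g2
    simp only [mv_back h0 hs ht hw (mv_sim h0 _ _) (Adj.symm hs a4),
      mv_back h0 hs ht hw (mv_sim h0 _ _) a3] at g5
    rw [g5]
  · have e : ∀ x ∈ pcons t, α (f x.1) (f x.2.1) ∈ x.2.2 := fun x hx => hQ x _ htQ hx
    simp only [pcons, List.mem_cons, List.not_mem_nil, or_false, forall_eq_or_imp, forall_eq,
      Finset.mem_singleton] at e
    obtain ⟨a1, a2, a3, a4, a5, a6, a7, a8, a9⟩ := e
    simp only [σ]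
    rw [hω _ a1, hω _ a5, mv_eq h0 hs ht a6 a2, mv_eq h0 hs ht a7 a3, mv_eq h0 hs ht a8 a4,
      mv_eq h0 hs ht a9 a5]
  · have := congrArg Subtype.val h
    rw [hω _ b1, hω _ b2, ← h0] at this
    rw [this] at b3
    simp at b3

end Pool.Agent.MP_f23db5_lc

end

end

section

/-! Local certificates give membership in NP. -/

namespace Pool.Agent.MP_f23db5_lc.Low

open Pool.Agent.MP_2e8011_lc Pool.Agent.MP_e16607_lc

/-- the test made by the verifier -/
def chk_LNp (L1 : List ℕ) (tb : List Raw) (L2 : List (List (List ℕ))) (x w : List Bool)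
    (W n : ℕ) : Prop :=
  x = enc ((List.range n).map fun i => (List.range n).map fun j =>
    tb.getD (rd w W 0 i j) default) ∧
  (∀ i < n, ∀ j < n, rd w W 0 i j ∈ L1) ∧
  ∀ a < n, ∀ b < n, ∀ c < n, ∀ d < n,
    ([a, b, c, d].map fun i => [a, b, c, d].map fun j => rd w W 0 i j) ∈ L2

open Classical in
theorem pt_LNp (c0 : Bool) (k : ℕ) (L1 : List ℕ) (tb : List Raw) (L2 : List (List (List ℕ))) :
    PT (fun p : List Bool × List Bool => decide ((p.1 = [] ∧ c0 = true) ∨
      ∃ n < p.1.length, chk_LNp L1 tb L2 p.1 p.2 (p.1.length + k) (n + 1))) := by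
  refine PT.decide_or (PT.decide_and (PT.eq (by fun_prop) (PT.const _)) (PT.const _))
    (PT.exists_lt (by fun_prop) ?_)
  unfold chk_LNp
  refine PT.decide_and (PT.eq (by fun_prop) (PT.enc ?_)) (PT.decide_and ?_ ?_)
  · fun_prop
  · exact PT.forall_lt (by fun_prop) (PT.forall_lt (by fun_prop)
      (PT.mem (by fun_prop) (PT.const _)))
  · refine PT.forall_lt (by fun_prop) (PT.forall_lt (by fun_prop) (PT.forall_lt (by fun_prop)
      (PT.forall_lt (by fun_prop) (PT.mem ?_ (PT.const _)))))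
    fun_prop

theorem code_LNp {n : ℕ} (f : Fin n → Fin n → ℕ) (u : ℕ → ℕ → Raw)
    (h : ∀ i j : Fin n, u i j = binRaw (f i j)) :
    N487b59b3.bitEncode (List.ofFn fun i => List.ofFn fun j => f i j) =
      enc ((List.range n).map fun i => (List.range n).map fun j => u i j) := by
  rw [bitEncode_list (bitEncode_list bitEncode_nat)]
  refine congrArg enc (List.ext_getElem (by simp) fun i h1 h2 => ?_)
  simp only [List.getElem_map, List.getElem_ofFn, List.getElem_range]
  refine List.ext_getElem (by simp) fun j h3 h4 => ?_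
  simp only [List.getElem_map, List.getElem_ofFn, List.getElem_range]
  exact (h ⟨i, by simpa using h2⟩ ⟨j, by simpa using h4⟩).symm

theorem four_LNp {X : Type} (M : Fin 4 → Fin 4 → X) (t : Fin 4 → ℕ) (u : ℕ → ℕ → X) :
    (List.ofFn fun a => List.ofFn fun b => M a b) =
      ([t 0, t 1, t 2, t 3].map fun i => [t 0, t 1, t 2, t 3].map fun j => u i j) ↔
        ∀ a b, M a b = u (t a) (t b) := by
  have e : ([t 0, t 1, t 2, t 3].map fun i => [t 0, t 1, t 2, t 3].map fun j => u i j) =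
      List.ofFn fun a : Fin 4 => List.ofFn fun b : Fin 4 => u (t a) (t b) := rfl
  rw [e, List.ofFn_inj, funext_iff]
  refine forall_congr' fun a => ?_
  rw [List.ofFn_inj, funext_iff]

theorem npP : NpP := by
  classical
  rintro A _ _ R code - ⟨B, _, π, G, hG⟩
  obtain ⟨k, ⟨e⟩⟩ : ∃ k, Nonempty (B × A ≃ Fin k) := ⟨_, ⟨Fintype.equivFin _⟩⟩
  obtain ⟨L1, hL1⟩ : ∃ L1 : List ℕ, ∀ u, u ∈ L1 ↔ ∃ p : B × A, π p.1 ≤ p.2 ∧ (e p).val = u :=
    ⟨((Finset.univ.filter fun p : B × A => π p.1 ≤ p.2).toList).map fun p => (e p).val,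
      fun u => by simp only [List.mem_map, Finset.mem_toList, Finset.mem_filter, Finset.mem_univ,
        true_and]⟩
  obtain ⟨tb, htb⟩ : ∃ tb : List Raw, ∀ p : B × A, tb.getD (e p).val default = binRaw (code p.2) :=
    ⟨List.ofFn fun u : Fin k => binRaw (code (e.symm u).2), fun p => by
      rw [List.getD_eq_getElem _ _ (by simp), List.getElem_ofFn]
      simp⟩
  obtain ⟨L2, hL2⟩ : ∃ L2 : List (List (List ℕ)), ∀ u, u ∈ L2 ↔ ∃ M : Fin 4 → Fin 4 → B × A,
      G (fun a b => (M a b).1) ∧ (List.ofFn fun a => List.ofFn fun b => (e (M a b)).val) = u :=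
    ⟨((Finset.univ.filter fun M : Fin 4 → Fin 4 → B × A => G fun a b => (M a b).1).toList).map
      fun M => List.ofFn fun a => List.ofFn fun b => (e (M a b)).val,
      fun u => by simp only [List.mem_map, Finset.mem_toList, Finset.mem_filter, Finset.mem_univ,
        true_and]⟩
  refine mem_NP_of_PT (4 * (Polynomial.X + Polynomial.C k) * (Polynomial.X + Polynomial.C k) *
    (Polynomial.X + Polynomial.C k)) _ (pt_LNp (NSP R code []) k L1 tb L2) fun x => ?_
  simp only [decide_eq_true_eq, Polynomial.eval_mul, Polynomial.eval_add, Polynomial.eval_X,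
    Polynomial.eval_C, Polynomial.eval_ofNat]
  constructor
  · intro hx
    by_cases h0 : x = []
    · exact ⟨[], Nat.zero_le _, Or.inl ⟨h0, h0 ▸ hx⟩⟩
    unfold NSP at hx
    obtain ⟨n, lab, hs, hx⟩ := of_decide_eq_true hx
    rcases n with _ | n
    · exact absurd hx h0
    obtain ⟨g, hg1, hg2⟩ := (hG n lab).1 hs
    have hn : n < x.length := by
      rw [hx, bitEncode_list (bitEncode_list bitEncode_nat)]
      refine lt_of_lt_of_le ?_ (length_le_sz _)
      simp
    obtain ⟨w, hw, hD⟩ := exists_table (x.length + k) fun _ i j =>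
      if h : i < n + 1 ∧ j < n + 1 then (e (g ⟨i, h.1⟩ ⟨j, h.2⟩, lab ⟨i, h.1⟩ ⟨j, h.2⟩)).val else 0
    have hr : ∀ i j : Fin (n + 1), rd w (x.length + k) 0 i j = (e (g i j, lab i j)).val := by
      intro i j
      have hi := i.2
      have hj := j.2
      have h1 := (e (g i j, lab i j)).2
      rw [hD 0 (by omega) i (by omega) j (by omega) (by rw [dif_pos ⟨hi, hj⟩]; exact le_add_left h1.le),
        dif_pos ⟨hi, hj⟩]
    refine ⟨w, hw.le, Or.inr ⟨n, hn, ?_, fun i hi j hj => ?_, fun a ha b hb c hc d hd => ?_⟩⟩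
    · refine hx.trans (code_LNp _ _ fun i j => ?_)
      rw [hr, htb]
    · exact (hL1 _).2 ⟨(g ⟨i, hi⟩ ⟨j, hj⟩, lab ⟨i, hi⟩ ⟨j, hj⟩), hg1 _ _, (hr ⟨i, hi⟩ ⟨j, hj⟩).symm⟩
    · let t : Fin 4 → Fin (n + 1) := ![⟨a, ha⟩, ⟨b, hb⟩, ⟨c, hc⟩, ⟨d, hd⟩]
      exact (hL2 _).2 ⟨fun s r => (g (t s) (t r), lab (t s) (t r)), hg2 t,
        (four_LNp _ (fun s => (t s).val) (fun i j => rd w (x.length + k) 0 i j)).2
          fun s r => (hr _ _).symm⟩
  · rintro ⟨w, -, ⟨h0, h1⟩ | ⟨n, -, h1, h2, h3⟩⟩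
    · exact h0 ▸ h1
    choose p hp1 hp2 using fun i j : Fin (n + 1) => (hL1 _).1 (h2 i i.2 j j.2)
    unfold NSP
    refine decide_eq_true ⟨n + 1, fun i j => (p i j).2,
      (hG n _).2 ⟨fun i j => (p i j).1, hp1, fun t => ?_⟩, ?_⟩
    · obtain ⟨M, hM, hM'⟩ := (hL2 _).1 (h3 _ (t 0).2 _ (t 1).2 _ (t 2).2 _ (t 3).2)
      have h4 := (four_LNp _ (fun s => (t s).val) (fun i j => rd w (x.length + k) 0 i j)).1 hM'
      have h5 : M = fun a b => p (t a) (t b) := by
        funext a b
        exact e.injective (Fin.ext ((h4 a b).trans (hp2 _ _).symm))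
      rw [h5] at hM
      exact hM
    · refine h1.trans (code_LNp _ _ fun i j => ?_).symm
      rw [← hp2, htb]

end Pool.Agent.MP_f23db5_lc.Low

end
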