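import Mathlib
import Pool.Agent.Mg.Xeb915b.G83409e

section

/-! Structured counter programs (copied from the development for MP_3c2488_lc). -/

namespace Pool.Agent.MP_f23db5_lc

open Function

/-- structured counter programs -/
inductive Prog : Type
  | inc (i : ℕ)
  | dec (i : ℕ)
  | seq (p q : Prog)
  | loop (i : ℕ) (p : Prog)
  deriving DecidableEq

abbrev Cfg : Type := List Prog × (ℕ → ℕ)

def pstep : Cfg → Option Cfg
  | ([], _) => none
  | (.inc i :: K, x) => some (K, update x i (x i + 1))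
  | (.dec i :: K, x) => some (K, update x i (x i - 1))
  | (.seq p q :: K, x) => some (p :: q :: K, x)
  | (.loop i p :: K, x) => if x i = 0 then some (K, x) else some (p :: .loop i p :: K, x)

def PS (c d : Cfg) : Prop := pstep c = some d

abbrev PR : Cfg → Cfg → Prop := Relation.ReflTransGen PS

/-- `p` started in `x` terminates in a state satisfying `Q` -/
def Runs (p : Prog) (x : ℕ → ℕ) (Q : (ℕ → ℕ) → Prop) : Prop :=
  ∃ y, Q y ∧ ∀ K, PR (p :: K, x) (K, y)

theorem Runs.mono {p : Prog} {x : ℕ → ℕ} {Q Q' : (ℕ → ℕ) → Prop} (h : Runs p x Q)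
    (hQ : ∀ y, Q y → Q' y) : Runs p x Q' :=
  let ⟨y, hy, hr⟩ := h; ⟨y, hQ y hy, hr⟩

theorem runs_inc {i : ℕ} {x : ℕ → ℕ} {Q : (ℕ → ℕ) → Prop} (h : Q (update x i (x i + 1))) :
    Runs (.inc i) x Q := ⟨_, h, fun _ => .single rfl⟩

theorem runs_dec {i : ℕ} {x : ℕ → ℕ} {Q : (ℕ → ℕ) → Prop} (h : Q (update x i (x i - 1))) :
    Runs (.dec i) x Q := ⟨_, h, fun _ => .single rfl⟩

theorem runs_seq {p q : Prog} {x : ℕ → ℕ} {Q : (ℕ → ℕ) → Prop}
    (h : Runs p x fun y => Runs q y Q) : Runs (.seq p q) x Q := by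
  obtain ⟨y, ⟨z, hz, h2⟩, h1⟩ := h
  exact ⟨z, hz, fun K => .head rfl ((h1 _).trans (h2 _))⟩

theorem runs_loop {i : ℕ} {p : Prog} (I : ℕ → (ℕ → ℕ) → Prop)
    (h0 : ∀ x, I 0 x → x i = 0) (hs : ∀ n x, I (n + 1) x → x i ≠ 0 ∧ Runs p x (I n)) :
    ∀ n x, I n x → Runs (.loop i p) x (I 0) := by
  intro n
  induction n with
  | zero =>
    intro x hx
    exact ⟨x, hx, fun K => .single (by simp [PS, pstep, h0 x hx])⟩
  | succ n ih =>
    intro x hx
    obtain ⟨h1, y, hy, h2⟩ := hs n x hx
    obtain ⟨z, hz, h3⟩ := ih y hy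
    exact ⟨z, hz, fun K => .head (by simp [PS, pstep, h1]) ((h2 _).trans (h3 _))⟩

def clear (i : ℕ) : Prog := .loop i (.dec i)

theorem runs_clear (i : ℕ) (x : ℕ → ℕ) :
    Runs (clear i) x fun y => y i = 0 ∧ ∀ j, j ≠ i → y j = x j := by
  refine runs_loop (fun n y => y i = n ∧ ∀ j, j ≠ i → y j = x j) (fun y h => h.1) ?_ (x i) x
    ⟨rfl, fun _ _ => rfl⟩
  rintro n y ⟨h1, h2⟩
  refine ⟨by omega, runs_dec ⟨by simp [h1], fun j hj => by simp [hj, h2 j hj]⟩⟩

def copy (a b t : ℕ) : Prog :=
  .seq (clear b) (.seq (clear t) (.seq (.loop a (.seq (.dec a) (.seq (.inc b) (.inc t))))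
    (.loop t (.seq (.dec t) (.inc a)))))

theorem runs_copy {a b t : ℕ} (hab : a ≠ b) (hat : a ≠ t) (hbt : b ≠ t) (x : ℕ → ℕ) :
    Runs (copy a b t) x fun y => y b = x a ∧ ∀ j, j ≠ b → j ≠ t → y j = x j := by
  refine runs_seq ((runs_clear b x).mono fun y1 ⟨h1, h1'⟩ => ?_)
  refine runs_seq ((runs_clear t y1).mono fun y2 ⟨h2, h2'⟩ => ?_)
  refine runs_seq ((runs_loop (fun n y => y a = n ∧ y b + n = x a ∧ y t + n = x a ∧
      ∀ j, j ≠ a → j ≠ b → j ≠ t → y j = x j) (fun y h => h.1) ?_ (x a) y2 ?_).mono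
      fun y3 ⟨h3, h4, h5, h6⟩ => ?_)
  · rintro n y ⟨e1, e2, e3, e4⟩
    refine ⟨by omega, runs_seq (runs_dec (runs_seq (runs_inc (runs_inc ?_))))⟩
    refine ⟨?_, ?_, ?_, fun j j1 j2 j3 => ?_⟩
    · simp [hab, hat, e1]
    · simp [hab.symm, hbt]; omega
    · simp [hat.symm, hbt.symm]; omega
    · simp [j1, j2, j3, e4 j j1 j2 j3]
  · refine ⟨by rw [h2' a hat, h1' a hab], by rw [h2' b hbt, h1]; simp, by rw [h2]; simp, ?_⟩
    intro j _ j2 j3
    rw [h2' j j3, h1' j j2]
  · refine (runs_loop (fun n y => y t = n ∧ y a + n = x a ∧ y b = x a ∧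
      ∀ j, j ≠ a → j ≠ b → j ≠ t → y j = x j) (fun y h => h.1) ?_ (x a) y3 ?_).mono ?_
    · rintro n y ⟨e1, e2, e3, e4⟩
      refine ⟨by omega, runs_seq (runs_dec (runs_inc ?_))⟩
      refine ⟨?_, ?_, ?_, fun j j1 j2 j3 => ?_⟩
      · simp [hat.symm, e1]
      · simp [hat]; omega
      · simp [hab.symm, hbt, e3]
      · simp [j1, j3, e4 j j1 j2 j3]
    · exact ⟨by omega, by omega, by omega, h6⟩
    · rintro y ⟨-, e2, e3, e4⟩
      refine ⟨e3, fun j j2 j3 => ?_⟩
      by_cases j1 : j = a
      · subst j1; omega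
      · exact e4 j j1 j2 j3

theorem compile {n : ℕ} {f : List.Vector ℕ n → ℕ} (hf : Nat.Primrec' f) :
    ∀ (ins : Fin n → ℕ) (out m : ℕ), (∀ i, ins i < m) → out < m → (∀ i, ins i ≠ out) →
      ∃ p : Prog, ∀ x, Runs p x fun y =>
        y out = f (List.Vector.ofFn fun i => x (ins i)) ∧ ∀ j < m, j ≠ out → y j = x j := by
  induction hf with
  | zero =>
    intro ins out m _ _ _
    exact ⟨clear out, fun x => (runs_clear out x).mono fun y h => ⟨h.1, fun j _ hj => h.2 j hj⟩⟩
  | succ =>
    intro ins out m h1 h2 h3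
    refine ⟨.seq (copy (ins 0) out m) (.inc out), fun x => runs_seq
      ((runs_copy (h3 0) (h1 0).ne h2.ne x).mono fun y h => runs_inc ⟨?_, fun j hj hj' => ?_⟩)⟩
    · simp [h.1, List.Vector.head_ofFn]
    · simp [hj', h.2 j hj' hj.ne]
  | get i =>
    intro ins out m h1 h2 h3
    refine ⟨copy (ins i) out m, fun x =>
      (runs_copy (h3 i) (h1 i).ne h2.ne x).mono fun y h => ⟨?_, fun j hj hj' => h.2 j hj' hj.ne⟩⟩
    simp [h.1]
  | @comp m' n f g _ _ ihf ihg =>
    intro ins out m h1 h2 h3
    have key : ∀ t ≤ n, ∃ p : Prog, ∀ x, Runs p x fun y =>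
        (∀ i : Fin n, (i : ℕ) < t → y (m + i) = g i (List.Vector.ofFn fun i => x (ins i))) ∧
          ∀ j < m, y j = x j := by
      intro t
      induction t with
      | zero =>
        intro _
        refine ⟨clear m, fun x => (runs_clear m x).mono fun y h => ⟨?_, fun j hj => h.2 j hj.ne⟩⟩
        intro i hi
        omega
      | succ t ih =>
        intro ht
        obtain ⟨p, hp⟩ := ih (by omega)
        obtain ⟨q, hq⟩ := ihg ⟨t, ht⟩ ins (m + t) (m + n) (fun i => by have := h1 i; omega)
          (by omega) (fun i => by have := h1 i; omega)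
        refine ⟨.seq p q, fun x => runs_seq ((hp x).mono fun y hy => (hq y).mono fun z hz => ?_)⟩
        have e : (fun i => y (ins i)) = fun i => x (ins i) := funext fun i => hy.2 _ (h1 i)
        refine ⟨fun i hi => ?_, fun j hj => by rw [hz.2 j (by omega) (by omega), hy.2 j hj]⟩
        by_cases hit : (i : ℕ) = t
        · obtain rfl : i = ⟨t, ht⟩ := Fin.ext hit
          rw [hz.1, e]
        · rw [hz.2 _ (by have := i.2; omega) (by omega), hy.1 i (by omega)]
    obtain ⟨p, hp⟩ := key n le_rfl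
    obtain ⟨q, hq⟩ := ihf (fun i => m + i) out (m + n) (fun i => by have := i.2; omega) (by omega)
      (fun i => by omega)
    refine ⟨.seq p q, fun x => runs_seq ((hp x).mono fun y hy => (hq y).mono fun z hz => ?_)⟩
    refine ⟨?_, fun j hj hj' => by rw [hz.2 j (by omega) hj', hy.2 j hj]⟩
    rw [hz.1]
    congr 2
    funext i
    exact hy.1 i i.2
  | @prec n f g _ _ ihf ihg =>
    intro ins out m h1 h2 h3
    obtain ⟨pf, hpf⟩ := ihf (fun i => ins i.succ) (m + 2) (m + 4)
      (fun i => by have := h1 i.succ; omega) (by omega) (fun i => by have := h1 i.succ; omega)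
    obtain ⟨pg, hpg⟩ := ihg (Fin.cons (m + 1) (Fin.cons (m + 2) fun i => ins i.succ)) (m + 3) (m + 4)
      (fun i => by
        refine Fin.cases (by simp) (fun i => Fin.cases (by simp) (fun i => ?_) i) i
        have := h1 i.succ
        simp only [Fin.cons_succ]
        omega) (by omega)
      (fun i => by
        refine Fin.cases (by simp) (fun i => Fin.cases (by simp) (fun i => ?_) i) i
        have := h1 i.succ
        simp only [Fin.cons_succ]
        omega)
    refine ⟨.seq (copy (ins 0) m (m + 4)) (.seq (clear (m + 1)) (.seq pf (.seq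
      (.loop m (.seq (.dec m) (.seq pg (.seq (copy (m + 3) (m + 2) (m + 4)) (.inc (m + 1))))))
      (copy (m + 2) out (m + 4))))), fun x => ?_⟩
    have h10 := h1 0
    set F : ℕ → ℕ := fun c => Nat.rec (f (List.Vector.ofFn fun i => x (ins i.succ)))
      (fun y IH => g (y ::ᵥ IH ::ᵥ List.Vector.ofFn fun i => x (ins i.succ))) c with hF
    refine runs_seq ((runs_copy (by omega) (by omega) (by omega) x).mono fun y1 ⟨a1, a2⟩ => ?_)
    refine runs_seq ((runs_clear _ y1).mono fun y2 ⟨b1, b2⟩ => ?_)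
    refine runs_seq ((hpf y2).mono fun y3 ⟨c1, c2⟩ => ?_)
    refine runs_seq ((runs_loop (fun t y => y m = t ∧ y (m + 1) + t = x (ins 0) ∧
      y (m + 2) = F (y (m + 1)) ∧ ∀ j < m, y j = x j) (fun y h => h.1) ?_ (x (ins 0)) y3 ?_).mono
      fun y4 ⟨_, d2, d3, d4⟩ => ?_)
    · rintro t y ⟨e1, e2, e3, e4⟩
      refine ⟨by omega, runs_seq (runs_dec (runs_seq ((hpg _).mono fun z ⟨f1, f2⟩ => ?_)))⟩
      refine runs_seq ((runs_copy (by omega) (by omega) (by omega) z).mono fun w ⟨g1, g2⟩ => ?_)
      have hw1 : w (m + 1) = y (m + 1) := by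
        rw [g2 _ (by omega) (by omega), f2 _ (by omega) (by omega)]
        simp
      refine runs_inc ⟨?_, ?_, ?_, fun j hj => ?_⟩
      · rw [update_of_ne (by omega), g2 _ (by omega) (by omega), f2 _ (by omega) (by omega)]
        simp [e1]
      · simp only [update_self]
        omega
      · rw [update_of_ne (by omega), update_self, g1, f1, hw1]
        simp only [hF]
        congr 1
        rw [← List.Vector.cons_head_tail (List.Vector.ofFn _), List.Vector.head_ofFn,
          List.Vector.tail_ofFn, ← List.Vector.cons_head_tail (List.Vector.ofFn _),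
          List.Vector.head_ofFn, List.Vector.tail_ofFn]
        simp only [Fin.cons_zero, Fin.cons_succ]
        rw [update_of_ne (by omega), update_of_ne (by omega), e3]
        congr 3
        funext i
        rw [update_of_ne (h1 _).ne, e4 _ (h1 _)]
      · rw [update_of_ne (by omega), g2 _ (by omega) (by omega), f2 _ (by omega) (by omega),
          update_of_ne (by omega), e4 j hj]
    · have e : ∀ j < m, y2 j = x j := fun j hj => by
        rw [b2 _ (by omega), a2 _ (by omega) (by omega)]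
      refine ⟨?_, ?_, ?_, fun j hj => by rw [c2 _ (by omega) (by omega), e j hj]⟩
      · rw [c2 _ (by omega) (by omega), b2 _ (by omega), a1]
      · rw [c2 _ (by omega) (by omega), b1]; simp
      · rw [c1, c2 _ (by omega) (by omega), b1]
        simp only [hF, Nat.rec_zero]
        congr 2
        funext i
        exact e _ (h1 _)
    · refine (runs_copy (by omega) (by omega) (by omega) y4).mono fun y5 ⟨g1, g2⟩ => ⟨?_, ?_⟩
      · simp only [add_zero] at d2
        rw [g1, d3, d2]
        simp only [List.Vector.head_ofFn, List.Vector.tail_ofFn, hF]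
      · intro j hj hj'
        rw [g2 j hj' (by omega), d4 j hj]

def PHalts (c : Cfg) : Prop := ∃ z, PR c ([], z)

theorem PS_unique : Relator.RightUnique PS := by
  intro a b c h1 h2
  unfold PS at h1 h2
  rw [h1] at h2
  exact Option.some.inj h2

theorem PHalts.acc {c : Cfg} (h : PHalts c) : Acc (fun d c => PS c d) c := by
  obtain ⟨z, h⟩ := h
  induction h using Relation.ReflTransGen.head_induction_on with
  | refl => exact ⟨_, fun d hd => by simp [PS, pstep] at hd⟩
  | head h1 _ ih => exact ⟨_, fun d hd => PS_unique h1 hd ▸ ih⟩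

theorem not_halts_of_inv (I : Cfg → Prop) (hI : ∀ c, I c → ∃ d, Relation.TransGen PS c d ∧ I d)
    {c : Cfg} (hc : I c) : ¬ PHalts c := by
  intro h
  have h1 := h.acc.transGen
  clear h
  induction h1 with
  | intro c _ ih =>
    obtain ⟨d, hd, hId⟩ := hI c hc
    exact ih d (Relation.transGen_swap.2 hd) hId

/-- unbounded search over a primitive recursive function -/
theorem exists_search {g : ℕ → ℕ → ℕ} (hg : Primrec₂ g) :
    ∃ p : Prog, ∀ n, PHalts ([p], fun j => if j = 0 then n else if j = 2 then 1 else 0) ↔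
      ∃ s, g s n = 0 := by
  obtain ⟨q, hq⟩ := compile (Nat.Primrec'.prim_iff₂.2 hg) ![1, 0] 2 3 (by decide) (by decide)
    (by decide)
  have hq' : ∀ x, Runs (.seq q (.inc 1)) x fun y =>
      y 2 = g (x 1) (x 0) ∧ y 0 = x 0 ∧ y 1 = x 1 + 1 := by
    intro x
    refine runs_seq ((hq x).mono fun y ⟨h1, h2⟩ => runs_inc ⟨?_, ?_, ?_⟩)
    · simp [h1, List.Vector.head_ofFn, List.Vector.tail_ofFn]
    · simp [h2 0]
    · simp [h2 1]
  refine ⟨.loop 2 (.seq q (.inc 1)), fun n => ⟨fun h => ?_, fun h => ?_⟩⟩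
  · by_contra hn
    push Not at hn
    refine not_halts_of_inv (fun c => c.1 = [.loop 2 (.seq q (.inc 1))] ∧ c.2 0 = n ∧ c.2 2 ≠ 0)
      ?_ ⟨rfl, by simp, by simp⟩ h
    rintro ⟨K, x⟩ ⟨rfl, h1, h2⟩
    obtain ⟨y, ⟨e1, e2, -⟩, hy⟩ := hq' x
    simp only at h1 h2
    refine ⟨(_, y), .head' (by simp [PS, pstep, h2]) (hy _), rfl, e2.trans h1, ?_⟩
    simp only [e1, h1]
    exact hn _
  · classical
    obtain ⟨y, -, hy⟩ := runs_loop (i := 2) (p := .seq q (.inc 1))
      (fun t x => x 0 = n ∧ x 1 + t = Nat.find h + 1 ∧ (x 2 = 0 ↔ t = 0))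
      (fun x hx => hx.2.2.2 rfl) (by
        rintro t x ⟨e1, e2, e3⟩
        refine ⟨fun h0 => by simpa using e3.1 h0, (hq' x).mono fun y ⟨f1, f2, f3⟩ => ?_⟩
        refine ⟨f2.trans e1, by omega, ?_⟩
        rw [f1, e1]
        constructor
        · intro h0
          have := Nat.find_min' h h0
          omega
        · rintro rfl
          rw [show x 1 = Nat.find h by omega]
          exact Nat.find_spec h) (Nat.find h + 1)
      (fun j => if j = 0 then n else if j = 2 then 1 else 0) ⟨by simp, by simp, by simp⟩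
    exact ⟨y, hy []⟩

def conts : Prog → List Prog → List (List Prog)
  | .inc i, K => [.inc i :: K]
  | .dec i, K => [.dec i :: K]
  | .seq p q, K => (.seq p q :: K) :: (conts p (q :: K) ++ conts q K)
  | .loop i p, K => (.loop i p :: K) :: conts p (.loop i p :: K)

def Prog.bound : Prog → ℕ
  | .inc i => i + 1
  | .dec i => i + 1
  | .seq p q => max p.bound q.bound
  | .loop i p => max (i + 1) p.bound

def headOK (m : ℕ) : List Prog → Prop
  | .inc i :: _ => i < m
  | .dec i :: _ => i < m
  | .loop i _ :: _ => i < m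
  | _ => True

theorem self_mem_conts (p : Prog) (K : List Prog) : p :: K ∈ conts p K := by
  cases p <;> simp [conts]

theorem conts_closed (p : Prog) : ∀ K c, c ∈ conts p K → ∀ x d, pstep (c, x) = some d →
    d.1 ∈ conts p K ∨ d.1 = K := by
  induction p with
  | inc i =>
    intro K c hc x d hd
    simp only [conts, List.mem_singleton] at hc
    subst hc
    simp only [pstep, Option.some.injEq] at hd
    subst hd
    exact Or.inr rfl
  | dec i =>
    intro K c hc x d hd
    simp only [conts, List.mem_singleton] at hc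
    subst hc
    simp only [pstep, Option.some.injEq] at hd
    subst hd
    exact Or.inr rfl
  | seq p q ihp ihq =>
    intro K c hc x d hd
    simp only [conts, List.mem_cons, List.mem_append] at hc ⊢
    rcases hc with rfl | hc | hc
    · simp only [pstep, Option.some.injEq] at hd
      subst hd
      exact Or.inl (Or.inr (Or.inl (self_mem_conts _ _)))
    · rcases ihp _ c hc x d hd with h | h
      · exact Or.inl (Or.inr (Or.inl h))
      · exact Or.inl (Or.inr (Or.inr (h ▸ self_mem_conts _ _)))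
    · rcases ihq _ c hc x d hd with h | h
      · exact Or.inl (Or.inr (Or.inr h))
      · exact Or.inr h
  | loop i p ih =>
    intro K c hc x d hd
    simp only [conts, List.mem_cons] at hc ⊢
    rcases hc with rfl | hc
    · simp only [pstep] at hd
      split_ifs at hd
      · simp only [Option.some.injEq] at hd
        subst hd
        exact Or.inr rfl
      · simp only [Option.some.injEq] at hd
        subst hd
        exact Or.inl (Or.inr (self_mem_conts _ _))
    · rcases ih _ c hc x d hd with h | h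
      · exact Or.inl (Or.inr h)
      · exact Or.inl (Or.inl h)

theorem conts_headOK (m : ℕ) (p : Prog) : p.bound ≤ m → ∀ K c, c ∈ conts p K → headOK m c := by
  induction p with
  | inc i =>
    intro h K c hc
    simp only [conts, List.mem_singleton] at hc
    subst hc
    exact h
  | dec i =>
    intro h K c hc
    simp only [conts, List.mem_singleton] at hc
    subst hc
    exact h
  | seq p q ihp ihq =>
    intro h K c hc
    simp only [conts, List.mem_cons, List.mem_append, Prog.bound, max_le_iff] at hc h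
    rcases hc with rfl | hc | hc
    · trivial
    · exact ihp h.1 _ c hc
    · exact ihq h.2 _ c hc
  | loop i p ih =>
    intro h K c hc
    simp only [conts, List.mem_cons, Prog.bound, max_le_iff] at hc h
    rcases hc with rfl | hc
    · exact h.1
    · exact ih h.2 _ c hc

end Pool.Agent.MP_f23db5_lc

end

section

section

/-! A solution by permutations gives a solution of the network. -/

namespace Pool.Agent.MP_f23db5_lc

open Function Equiv

variable {S : Type} (σ : Gn → Perm S)

open Classical in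
noncomputable def up0 : Nd → Nd → Option (Perm S)
  | (0, _), (3, g, _) => some (σ g)
  | (1, _), (3, _) => some 1
  | (1, _), (4, g, _) => some (σ g)
  | (2, _), (4, _) => some 1
  | (0, _), (5, g, _) => some (σ g)
  | (2, _), (5, _) => some 1
  | (0, _), (6, _, _, k) => some (σ k)
  | (1, _), (6, _, h, _) => some (σ h)
  | (2, _), (6, _) => some 1
  | (3, a, _), (6, g, h, k) => if a = g ∧ σ k = σ h * σ g then some (σ h) else none
  | (4, a, _), (6, _, h, _) => if a = h then some 1 else none
  | (5, a, _), (6, _, _, k) => if a = k then some 1 else none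
  | _, _ => none

theorem up0_cases {x y : Nd} {a : Perm S} (h : up0 σ x y = some a) :
    (x.1 = 0 ∧ y.1 = 3 ∧ a = σ y.2.1) ∨ (x.1 = 1 ∧ y.1 = 3 ∧ a = 1) ∨
    (x.1 = 1 ∧ y.1 = 4 ∧ a = σ y.2.1) ∨ (x.1 = 2 ∧ y.1 = 4 ∧ a = 1) ∨
    (x.1 = 0 ∧ y.1 = 5 ∧ a = σ y.2.1) ∨ (x.1 = 2 ∧ y.1 = 5 ∧ a = 1) ∨
    (x.1 = 0 ∧ y.1 = 6 ∧ a = σ y.2.2.2) ∨ (x.1 = 1 ∧ y.1 = 6 ∧ a = σ y.2.2.1) ∨
    (x.1 = 2 ∧ y.1 = 6 ∧ a = 1) ∨
    (x.1 = 3 ∧ y.1 = 6 ∧ a = σ y.2.2.1 ∧ σ y.2.2.2 = σ y.2.2.1 * σ x.2.1) ∨
    (x.1 = 4 ∧ y.1 = 6 ∧ a = 1 ∧ x.2.1 = y.2.2.1) ∨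
    (x.1 = 5 ∧ y.1 = 6 ∧ a = 1 ∧ x.2.1 = y.2.2.2) := by
  unfold up0 at h
  split at h
  all_goals first
    | (cases h; simp)
    | (split_ifs at h with h1; cases h; simp [h1])
    | cases h

noncomputable def conn0 : Conn Nd (Perm S) where
  up := up0 σ
  rk x := x.1
  lt x y g h := by
    have := up0_cases σ h
    omega
  flat x y z a b c h1 h2 h3 := by
    rcases up0_cases σ h1 with h | h | h | h | h | h | h | h | h | h | h | h <;>
    rcases up0_cases σ h2 with k | k | k | k | k | k | k | k | k | k | k | k <;>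
    first
    | omega
    | (rcases up0_cases σ h3 with l | l | l | l | l | l | l | l | l | l | l | l <;>
        first
        | omega
        | simp_all)

theorem tr0 {x y : Nd} {a : Perm S} (h : up0 σ x y = some a) :
    (ext (conn0 σ)).tr (.base x) (.base y) = some a := by
  rw [ext_base, Conn.tr_eq_some]
  exact Or.inl h

theorem atC_adj {V : Type} (C : Conn V (Perm S)) {x y : V} {g : Perm S} (h : C.tr x y = some g)
    (s t : S) : atC C (x, s) (y, t) ∈ lE := by
  by_cases e : g s = t
  · rw [atC_2 C h e]; decide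
  · rw [atC_3 C h e]; decide

theorem atC_sim {V : Type} (C : Conn V (Perm S)) (x : V) (s t : S) :
    atC C (x, s) (x, t) ∈ lF := by
  by_cases e : s = t
  · subst e; rw [atC_0]; decide
  · rw [atC_1 C _ e]; decide

variable (ω : Gn → S)

noncomputable def pos : Nd → Tr Nd (Perm S) × S
  | (7, p, _) => (.base (nd 0 un), ω p)
  | (8, p, g, _) => (.base (nd 3 g), σ g (ω p))
  | (9, p, g, _) => (.base (nd 1 un), σ g (ω p))
  | (10, p, g, _) => (.base (nd 3 un), σ g (ω p))
  | x => (.base x, ω un)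

theorem gad_complete {g h k : Gn} (e : σ k = σ h * σ g) :
    ∀ x ∈ gad g h k, atC (ext (conn0 σ)) (pos σ ω x.1) (pos σ ω x.2.1) ∈ x.2.2 := by
  simp only [gad, List.mem_cons, List.not_mem_nil, or_false, forall_eq_or_imp, forall_eq]
  have e1 : up0 σ (nd 3 g) (6, g, h, k) = some (σ h) := by simp [up0, nd, e]
  have e2 : up0 σ (nd 4 h) (6, g, h, k) = some 1 := by simp [up0, nd]
  have e3 : up0 σ (nd 5 k) (6, g, h, k) = some 1 := by simp [up0, nd]
  refine ⟨?_, ?_, ?_, ?_, ?_, ?_, ?_, ?_, ?_, atC_adj _ (tr0 σ e1) _ _, atC_adj _ (tr0 σ e2) _ _,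
    atC_adj _ (tr0 σ e3) _ _⟩
  all_goals exact atC_adj _ (tr0 σ rfl) _ _

theorem toC_complete [Infinite S] {T Q : List (Gn × Gn × Gn)} {p q : Gn} (h1 : σ un = 1)
    (hT : ∀ t ∈ T, σ t.2.2 = σ t.2.1 * σ t.1) (hQ : ∀ t ∈ Q, σ t.2.1 (ω t.1) = ω t.2.2)
    (hpq : ω p ≠ ω q) : CSat (toC T Q p q) := by
  refine ⟨_, _, isRep_cover (conn0 σ), pos σ ω, ?_⟩
  simp only [toC, List.mem_append, List.mem_flatMap, or_imp, forall_and,
    List.mem_cons, List.not_mem_nil, forall_eq, forall_exists_index, and_imp, Set.mem_ofPred_eq]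
  refine ⟨⟨?_, ?_⟩, atC_sim _ _ _ _, atC_sim _ _ _ _, ?_, atC_adj _ (tr0 σ rfl) _ _,
    atC_adj _ (tr0 σ rfl) _ _, by simp⟩
  · intro x t ht hx
    simp only [tcons, List.mem_append] at hx
    rcases hx with ((hx | hx) | hx) | hx
    · exact gad_complete σ ω (hT t ht) x hx
    · exact gad_complete σ ω (by simp [h1]) x hx
    · exact gad_complete σ ω (by simp [h1]) x hx
    · exact gad_complete σ ω (by simp [h1]) x hx
  · rintro x ⟨a, g, b⟩ ht
    revert x
    simp only [pcons, List.mem_cons, List.not_mem_nil, or_false, forall_eq_or_imp, forall_eq,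
      Finset.mem_singleton]
    refine ⟨atC_sim _ _ _ _, atC_sim _ _ _ _, atC_sim _ _ _ _, atC_sim _ _ _ _, atC_sim _ _ _ _,
      atC_2 _ (tr0 σ rfl) rfl, ?_, atC_2 _ (tr0 σ rfl) rfl, ?_⟩
    · rw [atC_symm]
      exact atC_2 _ (tr0 σ rfl) rfl
    · rw [atC_symm]
      refine atC_2 _ (tr0 σ rfl) ?_
      rw [h1]
      exact (hQ _ ht).symm
  · exact Finset.mem_singleton.2 (atC_1 _ _ hpq)

end Pool.Agent.MP_f23db5_lc

end

section

/-! Affine rewriting rules on integers simulated by permutations. -/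

namespace Pool.Agent.MP_f23db5_lc

open Function Equiv Cardinal

theorem exists_equiv_fiber {α β γ : Type} (f : α → γ) (g : β → γ)
    (h : ∀ c, #{a // f a = c} = #{b // g b = c}) {a₀ : α} {b₀ : β} (e : g b₀ = f a₀) :
    ∃ E : α ≃ β, (∀ a, g (E a) = f a) ∧ E a₀ = b₀ := by
  classical
  let E : α ≃ β := Equiv.ofFiberEquiv fun c => (Cardinal.eq.1 (h c)).some
  have hE : ∀ a, g (E a) = f a := fun a => Equiv.ofFiberEquiv_map _ a
  refine ⟨E.trans (Equiv.swap (E a₀) b₀), fun a => ?_, by simp⟩
  rw [Equiv.trans_apply, Equiv.swap_apply_def]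
  split_ifs with h1 h2
  · rw [e, ← hE, ← h1, hE]
  · rw [hE, ← e, ← h2, hE]
  · exact hE a

abbrev Om : Type := (Set ℤ × Set ℤ) × ℤ

def pat (c d : ℕ) (o : (Set ℤ × Set ℤ) × Fin d) : Set ℤ := {u | u * d + (o.2 : ℕ) + c ∈ o.1.1}

theorem card_pat (c d : ℕ) [NeZero d] (P : Set ℤ) : #{o // pat c d o = P} = 𝔠 := by
  refine le_antisymm ((mk_subtype_le _).trans ?_) ?_
  · simp [Cardinal.continuum_mul_nat (NeZero.ne d)]
  · have := mk_le_of_injective (f := fun k : Set ℤ =>
      (⟨(((fun u : ℤ => u * d + c) '' P, k), 0), by ext u; simp [pat, NeZero.ne d]⟩ :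
        {o // pat c d o = P})) (fun k k' h => by simpa using h)
    simpa using this

def dec (c d : ℕ) [NeZero d] : ((Set ℤ × Set ℤ) × Fin d) × ℤ ≃ Om :=
  (Equiv.prodAssoc _ _ _).trans (Equiv.prodCongr (Equiv.refl _)
    (((Equiv.prodComm _ _).trans (Int.divModEquiv d).symm).trans (Equiv.addRight (c : ℤ))))

theorem dec_apply (c d : ℕ) [NeZero d] (o : (Set ℤ × Set ℤ) × Fin d) (u : ℤ) :
    dec c d (o, u) = (o.1, u * d + (o.2 : ℕ) + c) := rfl

def sh (j : ℕ) : Perm Om := Equiv.prodCongr (Equiv.refl _) (Equiv.addRight (j : ℤ))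

theorem sh_apply (j : ℕ) (w : Om) : sh j w = (w.1, w.2 + j) := rfl

theorem exists_R (P P' : Set ℤ) {c d c' d' : ℕ} (hd : 0 < d) (hd' : 0 < d')
    (h : ∀ u : ℤ, c + d * u ∈ P ↔ c' + d' * u ∈ P') :
    ∃ R : Perm Om, (∀ w, R (sh d' w) = sh d (R w)) ∧
      (∀ w, (R w).2 ∈ (R w).1.1 ↔ w.2 ∈ w.1.1) ∧ R ((P', ∅), (c' : ℤ)) = ((P, ∅), (c : ℤ)) := by
  have : NeZero d := ⟨hd.ne'⟩
  have : NeZero d' := ⟨hd'.ne'⟩
  obtain ⟨E, h1, h2⟩ := exists_equiv_fiber (pat c' d') (pat c d)
    (fun Q => by rw [card_pat, card_pat]) (a₀ := ((P', ∅), 0)) (b₀ := ((P, ∅), 0)) (by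
      ext u
      simpa [pat, add_comm, mul_comm] using h u)
  obtain ⟨R, hR⟩ : ∃ R : Perm Om, ∀ o u, R (dec c' d' (o, u)) = dec c d (E o, u) :=
    ⟨(dec c' d').symm.trans ((Equiv.prodCongr E (Equiv.refl _)).trans (dec c d)), fun o u => by
      simp⟩
  refine ⟨R, fun w => ?_, fun w => ?_, ?_⟩
  · obtain ⟨⟨o, u⟩, rfl⟩ := (dec c' d').surjective w
    have : sh d' (dec c' d' (o, u)) = dec c' d' (o, u + 1) := by
      simp only [sh_apply, dec_apply]; congr 1; ring
    rw [this, hR, hR]
    simp only [sh_apply, dec_apply]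
    congr 1; ring
  · obtain ⟨⟨o, u⟩, rfl⟩ := (dec c' d').surjective w
    rw [hR]
    exact Set.ext_iff.1 (h1 o) u
  · have : (((P', ∅), (c' : ℤ)) : Om) = dec c' d' (((P', ∅), 0), 0) := by simp [dec_apply]
    rw [this, hR, h2]
    simp [dec_apply]

/-- a rule `(q, c, d, q', c', d')` links `(q, c + d u)` and `(q', c' + d' u)` -/
abbrev Rl : Type := ℕ × ℕ × ℕ × ℕ × ℕ × ℕ

def rT (r : Rl) : List (Gn × Gn × Gn) :=
  [((0, r.2.2.2.2.2), (2, Encodable.encode r), (3, Encodable.encode r)),
    ((2, Encodable.encode r), (0, r.2.2.1), (3, Encodable.encode r)),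
    ((2, Encodable.encode r), (1, 0), (4, Encodable.encode r)),
    ((1, 0), (2, Encodable.encode r), (4, Encodable.encode r))]

def rQ (r : Rl) : List (Gn × Gn × Gn) :=
  [((0, r.2.2.2.1), (0, r.2.2.2.2.1), (1, Encodable.encode r)),
    ((0, r.1), (0, r.2.1), (2, Encodable.encode r)),
    ((1, Encodable.encode r), (2, Encodable.encode r), (2, Encodable.encode r))]

def inst (Rs : List Rl) (h q v N : ℕ) : Cons :=
  toC (((List.range N).map fun j => ((0, j), (0, 1), (0, j + 1))) ++ Rs.flatMap rT)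
    (Rs.flatMap rQ ++ [((0, h), (1, 0), (0, h)), ((0, q), (0, v), (3, 0)), ((3, 0), (1, 0), (4, 0))])
    (3, 0) (4, 0)

theorem inst_sound {Rs : List Rl} {h q v N : ℕ} (hv : v ≤ N)
    (hN : ∀ r ∈ Rs, r.2.1 ≤ N ∧ r.2.2.1 ≤ N ∧ r.2.2.2.2.1 ≤ N ∧ r.2.2.2.2.2 ≤ N)
    (H : CSat (inst Rs h q v N)) :
    ∃ P : ℕ → ℕ → Prop, P h 0 ∧
      (∀ r ∈ Rs, ∀ u, P r.2.2.2.1 (r.2.2.2.2.1 + r.2.2.2.2.2 * u) → P r.1 (r.2.1 + r.2.2.1 * u)) ∧
      ¬ P q v := by
  obtain ⟨S, σ, ω, h0, hT, hQ, hne⟩ := toC_sound H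
  simp only [List.mem_append, List.mem_map, List.mem_range, List.mem_flatMap, or_imp, forall_and,
    forall_exists_index, and_imp, List.mem_cons, List.not_mem_nil, forall_eq] at hT hQ
  obtain ⟨hT1, hT2⟩ := hT
  obtain ⟨hQ1, q1, q2, q3, -⟩ := hQ
  have hx : ∀ j ≤ N, ∀ s, σ (0, j) s = (σ (0, 1))^[j] s := by
    intro j hj s
    induction j with
    | zero => exact h0 s
    | succ j ih => rw [Function.iterate_succ_apply', ← ih (by omega)]; exact hT1 _ j hj rfl s
  refine ⟨fun a b => σ (1, 0) ((σ (0, 1))^[b] (ω (0, a))) = (σ (0, 1))^[b] (ω (0, a)), q1, ?_, ?_⟩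
  · rintro ⟨a, c, d, a', c', d'⟩ hr u hP
    obtain ⟨n1, n2, n3, n4⟩ := hN _ hr
    have t1 := hT2 _ _ hr (List.mem_cons_self (a := _) (l := _))
    have t2 := hT2 _ _ hr (List.mem_cons_of_mem _ List.mem_cons_self)
    have t3 := hT2 _ _ hr (List.mem_cons_of_mem _ (List.mem_cons_of_mem _ List.mem_cons_self))
    have t4 := hT2 _ _ hr (List.mem_cons_of_mem _ (List.mem_cons_of_mem _
      (List.mem_cons_of_mem _ List.mem_cons_self)))
    have p1 := hQ1 _ _ hr (List.mem_cons_self (a := _) (l := _))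
    have p2 := hQ1 _ _ hr (List.mem_cons_of_mem _ List.mem_cons_self)
    have p3 := hQ1 _ _ hr (List.mem_cons_of_mem _ (List.mem_cons_of_mem _ List.mem_cons_self))
    simp only at t1 t2 t3 t4 p1 p2 p3 n1 n2 n3 n4 hP ⊢
    generalize Encodable.encode (a, c, d, a', c', d') = e at *
    rw [hx _ n3] at p1
    rw [hx _ n1] at p2
    have key : ∀ u, σ (2, e) ((σ (0, 1))^[c' + d' * u] (ω (0, a'))) =
        (σ (0, 1))^[c + d * u] (ω (0, a)) := by
      intro u
      induction u with
      | zero => simp [p1, p2, p3]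
      | succ u ih =>
        rw [show c' + d' * (u + 1) = d' + (c' + d' * u) by ring,
          show c + d * (u + 1) = d + (c + d * u) by ring, Function.iterate_add_apply,
          Function.iterate_add_apply _ d, ← ih, ← hx _ n4, ← t1, t2, hx _ n2]
    rw [← key, ← t3, t4, hP]
  · intro hP
    rw [← hx _ hv, q2, q3] at hP
    exact hne hP.symm

open Classical in
noncomputable def flp : Perm (Om × Bool) :=
  Function.Involutive.toPerm (fun x => (x.1, if x.1.2 ∈ x.1.1.1 then x.2 else !x.2))
    (fun x => by by_cases h : x.1.2 ∈ x.1.1.1 <;> simp [h])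

open Classical in
theorem flp_apply (x : Om × Bool) : flp x = (x.1, if x.1.2 ∈ x.1.1.1 then x.2 else !x.2) := rfl

theorem inst_complete {Rs : List Rl} {h q v N : ℕ} (H : ℕ → Set ℤ) (h0 : 0 ∈ H h)
    (hR : ∀ r ∈ Rs, 0 < r.2.2.1 ∧ 0 < r.2.2.2.2.2 ∧
      ∀ u : ℤ, r.2.1 + r.2.2.1 * u ∈ H r.1 ↔ r.2.2.2.2.1 + r.2.2.2.2.2 * u ∈ H r.2.2.2.1)
    (hv : (v : ℤ) ∉ H q) : CSat (inst Rs h q v N) := by
  have : ∀ r : Rl, ∃ R : Perm Om, r ∈ Rs → (∀ w, R (sh r.2.2.2.2.2 w) = sh r.2.2.1 (R w)) ∧
      (∀ w, (R w).2 ∈ (R w).1.1 ↔ w.2 ∈ w.1.1) ∧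
        R ((H r.2.2.2.1, ∅), (r.2.2.2.2.1 : ℤ)) = ((H r.1, ∅), (r.2.1 : ℤ)) := by
    intro r
    by_cases hr : r ∈ Rs
    · obtain ⟨a, b, c⟩ := hR r hr
      obtain ⟨R, hR⟩ := exists_R _ _ a b c
      exact ⟨R, fun _ => hR⟩
    · exact ⟨1, fun h => absurd h hr⟩
  choose R hR' using this
  obtain ⟨D, hD⟩ : ∃ D : ℕ → Rl, ∀ r, D (Encodable.encode r) = r :=
    ⟨Denumerable.ofNat Rl, Denumerable.ofNat_encode⟩
  let l : Perm Om → Perm (Om × Bool) := fun e => Equiv.prodCongr e (Equiv.refl _)
  have hl : ∀ e x, l e x = (e x.1, x.2) := fun _ _ => rfl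
  let σ : Gn → Perm (Om × Bool) := fun g => match g with
    | (0, j) => l (sh j)
    | (1, _) => flp
    | (2, e) => l (R (D e))
    | (3, e) => l (R (D e)) * l (sh (D e).2.2.2.2.2)
    | (_, e) => flp * l (R (D e))
  let ω : Gn → Om × Bool := fun g => match g with
    | (0, a) => (((H a, ∅), 0), true)
    | (1, e) => (((H (D e).2.2.2.1, ∅), (D e).2.2.2.2.1), true)
    | (2, e) => (((H (D e).1, ∅), (D e).2.1), true)
    | (3, _) => (((H q, ∅), v), true)
    | _ => (((H q, ∅), v), false)
  refine toC_complete σ ω ?_ ?_ ?_ (by simp [ω])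
  · ext x <;> simp [σ, un, hl, sh_apply]
  · simp only [List.mem_append, List.mem_map, List.mem_range, List.mem_flatMap, or_imp, forall_and,
      forall_exists_index, and_imp]
    refine ⟨?_, fun t r hr => ?_⟩
    · rintro _ j - rfl
      refine Equiv.ext fun x => ?_
      simp [σ, hl, sh_apply, add_assoc]
    · obtain ⟨a1, a2, -⟩ := hR' r hr
      revert t
      simp only [rT, List.mem_cons, List.not_mem_nil, or_false, forall_eq_or_imp, forall_eq, σ,
        hD, true_and]
      refine ⟨Equiv.ext fun x => ?_, Equiv.ext fun x => ?_⟩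
      · simp [hl, a1]
      · simp only [Equiv.Perm.mul_apply, hl, flp_apply]
        by_cases hx : x.1.2 ∈ x.1.1.1
        · rw [if_pos hx, if_pos ((a2 _).2 hx)]
        · rw [if_neg hx, if_neg (fun h => hx ((a2 _).1 h))]
  · simp only [List.mem_append, List.mem_flatMap, or_imp, forall_and,
      forall_exists_index, and_imp, List.mem_cons, List.not_mem_nil, forall_eq]
    refine ⟨fun t r hr => ?_, ?_, ?_, ?_, by simp⟩
    · obtain ⟨-, -, a3⟩ := hR' r hr
      revert t
      simp only [rQ, List.mem_cons, List.not_mem_nil, or_false, forall_eq_or_imp, forall_eq, σ, ω,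
        hD, hl, sh_apply, a3]
      simp
    · simp [σ, ω, flp_apply, h0]
    · simp [σ, ω, hl, sh_apply]
    · simp [σ, ω, flp_apply, hv]

end Pool.Agent.MP_f23db5_lc

end

section

/-! Counter programs as affine rules, through prime power codes. -/

namespace Pool.Agent.MP_f23db5_lc

open Function Relation

noncomputable def pm (i : ℕ) : ℕ := Nat.nth Nat.Prime i

theorem pm_prime (i : ℕ) : (pm i).Prime := Nat.prime_nth_prime i

theorem pm_inj : Injective pm := Nat.nth_injective Nat.infinite_setOfPred_prime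

noncomputable def enc (m : ℕ) (x : ℕ → ℕ) : ℕ := ∏ j ∈ Finset.range m, pm j ^ x j

theorem enc_inc {m i : ℕ} (hi : i < m) (x : ℕ → ℕ) :
    enc m (update x i (x i + 1)) = pm i * enc m x := by
  unfold enc
  rw [← Finset.mul_prod_erase _ _ (Finset.mem_range.2 hi),
    ← Finset.mul_prod_erase _ (fun j => pm j ^ x j) (Finset.mem_range.2 hi), update_self, pow_succ',
    mul_assoc]
  congr 2
  exact Finset.prod_congr rfl fun j hj => by rw [update_of_ne (Finset.ne_of_mem_erase hj)]

theorem enc_dec {m i : ℕ} (hi : i < m) {x : ℕ → ℕ} (hx : x i ≠ 0) :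
    enc m x = pm i * enc m (update x i (x i - 1)) := by
  rw [← enc_inc hi]
  congr 1
  rw [update_idem, update_self, Nat.sub_add_cancel (by omega), update_eq_self]

theorem dvd_enc {m i : ℕ} (hi : i < m) (x : ℕ → ℕ) : pm i ∣ enc m x ↔ x i ≠ 0 := by
  refine ⟨fun h h0 => ?_, fun h => by rw [enc_dec hi h]; exact dvd_mul_right _ _⟩
  obtain ⟨j, -, hj⟩ := (Prime.dvd_finsetProd_iff (pm_prime i).prime _).1 h
  have h1 := (pm_prime i).dvd_of_dvd_pow hj
  obtain rfl := pm_inj ((Nat.prime_dvd_prime_iff_eq (pm_prime i) (pm_prime j)).1 h1)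
  rw [h0, pow_zero] at hj
  exact (pm_prime i).one_lt.ne' (Nat.dvd_one.1 hj)

noncomputable def nx : List Prog × ℤ → Option (List Prog × ℤ)
  | ([], _) => none
  | (.inc i :: K, v) => some (K, pm i * v)
  | (.dec i :: K, v) => if (pm i : ℤ) ∣ v then some (K, v / pm i) else some (K, v)
  | (.seq p q :: K, v) => some (p :: q :: K, v)
  | (.loop i p :: K, v) => if (pm i : ℤ) ∣ v then some (p :: .loop i p :: K, v) else some (K, v)

theorem nx_enc {m : ℕ} {K K' : List Prog} {x x' : ℕ → ℕ} (hK : headOK m K)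
    (h : pstep (K, x) = some (K', x')) : nx (K, (enc m x : ℤ)) = some (K', (enc m x' : ℤ)) := by
  have hp : ∀ i, (pm i : ℤ) ≠ 0 := fun i => by exact_mod_cast (pm_prime i).ne_zero
  match K, hK, h with
  | .inc i :: K, hK, h =>
    cases h
    simp [nx, enc_inc hK]
  | .dec i :: K, hK, h =>
    cases h
    by_cases hx : x i = 0
    · have : update x i (x i - 1) = x := by rw [hx, update_eq_self_iff, hx]
      rw [this]
      simp [nx, Int.natCast_dvd_natCast, dvd_enc hK, hx]
    · rw [enc_dec hK hx]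
      simp [nx, Int.mul_ediv_cancel_left _ (hp i)]
  | .seq p q :: K, hK, h =>
    cases h
    rfl
  | .loop i p :: K, hK, h =>
    by_cases hx : x i = 0
    · simp only [pstep, hx, if_true, Option.some.injEq, Prod.mk.injEq] at h
      simp [nx, Int.natCast_dvd_natCast, dvd_enc hK, hx, h.1, h.2.symm]
    · simp only [pstep, hx, if_false, Option.some.injEq, Prod.mk.injEq] at h
      simp [nx, Int.natCast_dvd_natCast, dvd_enc hK, hx, h.1, h.2.symm]

abbrev SR : Type := List Prog × ℕ × ℕ × List Prog × ℕ × ℕ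

noncomputable def rules : List Prog → List SR
  | [] => [([], 1, 1, [], 0, 1)]
  | .inc i :: K => [(.inc i :: K, 0, 1, K, 0, pm i)]
  | .dec i :: K => (.dec i :: K, 0, pm i, K, 0, 1) ::
      (List.range (pm i - 1)).map fun a => (.dec i :: K, a + 1, pm i, K, a + 1, pm i)
  | .seq p q :: K => [(.seq p q :: K, 0, 1, p :: q :: K, 0, 1)]
  | .loop i p :: K => (.loop i p :: K, 0, pm i, p :: .loop i p :: K, 0, pm i) ::
      (List.range (pm i - 1)).map fun a => (.loop i p :: K, a + 1, pm i, K, a + 1, pm i)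

theorem not_dvd_aux {p a : ℕ} (h : a < p - 1) (u : ℤ) : ¬ (p : ℤ) ∣ (a + 1 : ℕ) + p * u := by
  rw [dvd_add_left (dvd_mul_right _ _), Int.natCast_dvd_natCast]
  intro h'
  have := Nat.le_of_dvd (by omega) h'
  omega

theorem rules_nx {K : List Prog} {r : SR} (h : r ∈ rules K) :
    0 < r.2.2.1 ∧ 0 < r.2.2.2.2.2 ∧ ((r.1 = [] ∧ r.2.2.2.1 = []) ∨
      ∀ u : ℤ, nx (r.1, (r.2.1 : ℤ) + r.2.2.1 * u) =
        some (r.2.2.2.1, (r.2.2.2.2.1 : ℤ) + r.2.2.2.2.2 * u)) := by
  have hp : ∀ i, 0 < pm i := fun i => (pm_prime i).pos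
  match K, h with
  | [], h =>
    simp only [rules, List.mem_singleton] at h
    subst h
    simp
  | .inc i :: K, h =>
    simp only [rules, List.mem_singleton] at h
    subst h
    simp [nx, hp]
  | .dec i :: K, h =>
    simp only [rules, List.mem_cons, List.mem_map, List.mem_range] at h
    rcases h with rfl | ⟨a, ha, rfl⟩
    · simp [nx, hp, (hp i).ne']
    · exact ⟨hp i, hp i, Or.inr fun u => if_neg (not_dvd_aux ha u)⟩
  | .seq p q :: K, h =>
    simp only [rules, List.mem_singleton] at h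
    subst h
    simp [nx]
  | .loop i p :: K, h =>
    simp only [rules, List.mem_cons, List.mem_map, List.mem_range] at h
    rcases h with rfl | ⟨a, ha, rfl⟩
    · simp [nx, hp]
    · exact ⟨hp i, hp i, Or.inr fun u => if_neg (not_dvd_aux ha u)⟩

theorem exists_residue {p v : ℕ} (hp : 0 < p) (h : ¬ p ∣ v) :
    ∃ a < p - 1, ∃ u, v = a + 1 + p * u := by
  have h1 := Nat.mod_lt v hp
  have h2 := Nat.mod_add_div v p
  have h3 : v % p ≠ 0 := fun e => h (Nat.dvd_of_mod_eq_zero e)
  exact ⟨v % p - 1, by omega, v / p, by omega⟩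

theorem rules_cover {K K' : List Prog} {v v' : ℕ} (h : nx (K, (v : ℤ)) = some (K', (v' : ℤ))) :
    ∃ r ∈ rules K, r.1 = K ∧ r.2.2.2.1 = K' ∧ ∃ u, v = r.2.1 + r.2.2.1 * u ∧
      v' = r.2.2.2.2.1 + r.2.2.2.2.2 * u := by
  have hp : ∀ i, 0 < pm i := fun i => (pm_prime i).pos
  match K, h with
  | .inc i :: K, h =>
    simp only [nx, Option.some.injEq, Prod.mk.injEq] at h
    refine ⟨_, List.mem_singleton_self _, rfl, h.1, v, by simp, ?_⟩
    simp only [zero_add]
    exact_mod_cast h.2.symm
  | .dec i :: K, h =>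
    simp only [nx, Int.natCast_dvd_natCast] at h
    split_ifs at h with h1
    · obtain ⟨u, rfl⟩ := h1
      simp only [Option.some.injEq, Prod.mk.injEq] at h
      refine ⟨_, List.mem_cons_self, rfl, h.1, u, by simp, ?_⟩
      have := h.2
      simp [(hp i).ne'] at this
      simp [this]
    · simp only [Option.some.injEq, Prod.mk.injEq, Nat.cast_inj] at h
      obtain ⟨a, ha, u, e⟩ := exists_residue (hp i) h1
      exact ⟨_, List.mem_cons_of_mem _ (List.mem_map.2 ⟨a, List.mem_range.2 ha, rfl⟩), rfl, h.1, u,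
        e, h.2 ▸ e⟩
  | .seq p q :: K, h =>
    simp only [nx, Option.some.injEq, Prod.mk.injEq, Nat.cast_inj] at h
    exact ⟨_, List.mem_singleton_self _, rfl, h.1, v, by simp, by simp [h.2]⟩
  | .loop i p :: K, h =>
    simp only [nx, Int.natCast_dvd_natCast] at h
    split_ifs at h with h1
    · obtain ⟨u, rfl⟩ := h1
      simp only [Option.some.injEq, Prod.mk.injEq, Nat.cast_inj] at h
      exact ⟨_, List.mem_cons_self, rfl, h.1, u, by simp, by simp [h.2]⟩
    · simp only [Option.some.injEq, Prod.mk.injEq, Nat.cast_inj] at h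
      obtain ⟨a, ha, u, e⟩ := exists_residue (hp i) h1
      exact ⟨_, List.mem_cons_of_mem _ (List.mem_map.2 ⟨a, List.mem_range.2 ha, rfl⟩), rfl, h.1, u,
        e, h.2 ▸ e⟩

def pcode : Prog → ℕ
  | .inc i => Nat.pair 0 i
  | .dec i => Nat.pair 1 i
  | .seq p q => Nat.pair 2 (Nat.pair (pcode p) (pcode q))
  | .loop i p => Nat.pair 3 (Nat.pair i (pcode p))

theorem pcode_inj : Injective pcode := by
  intro p
  induction p with
  | inc i => intro q h; cases q <;> simp_all [pcode]
  | dec i => intro q h; cases q <;> simp_all [pcode]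
  | seq p q ihp ihq =>
    intro r h
    cases r <;> simp only [pcode, Nat.pair_eq_pair] at h
    · omega
    · omega
    · rw [ihp h.2.1, ihq h.2.2]
    · omega
  | loop i p ih =>
    intro r h
    cases r <;> simp only [pcode, Nat.pair_eq_pair] at h
    · omega
    · omega
    · omega
    · rw [h.2.1, ih h.2.2]

instance : Countable Prog := pcode_inj.countable

def HZ (c : List Prog × ℤ) : Prop := ∃ w, ReflTransGen (fun a b => nx a = some b) c ([], w)

theorem HZ_step {c d : List Prog × ℤ} (h : nx c = some d) : HZ c ↔ HZ d := by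
  refine ⟨?_, fun ⟨w, hw⟩ => ⟨w, .head h hw⟩⟩
  rintro ⟨w, hw⟩
  rcases hw.cases_head with rfl | ⟨e, h1, h2⟩
  · simp [nx] at h
  · rw [h] at h1
    cases h1
    exact ⟨w, h2⟩

theorem pstep_some {K : List Prog} (hK : K ≠ []) (x : ℕ → ℕ) : ∃ d, pstep (K, x) = some d := by
  match K, hK with
  | .inc i :: K, _ => exact ⟨_, rfl⟩
  | .dec i :: K, _ => exact ⟨_, rfl⟩
  | .seq p q :: K, _ => exact ⟨_, rfl⟩
  | .loop i p :: K, _ =>
    simp only [pstep]
    split_ifs <;> exact ⟨_, rfl⟩

theorem exists_rules (p : Prog) : ∃ (Rs : List Rl) (h q m : ℕ), ∀ (x : ℕ → ℕ) (N : ℕ),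
    enc m x ≤ N → (∀ r ∈ Rs, r.2.1 ≤ N ∧ r.2.2.1 ≤ N ∧ r.2.2.2.2.1 ≤ N ∧ r.2.2.2.2.2 ≤ N) →
    (CSat (inst Rs h q (enc m x) N) ↔ ¬ PHalts ([p], x)) := by
  obtain ⟨cd, hcd⟩ := exists_injective_nat (List Prog)
  let L : List (List Prog) := [] :: conts p []
  let m := p.bound
  have hL : ∀ K ∈ L, headOK m K := by
    intro K hK
    rcases List.mem_cons.1 hK with rfl | hK
    · trivial
    · exact conts_headOK m p le_rfl _ _ hK
  have hcl : ∀ c d : Cfg, c.1 ∈ L → pstep c = some d → d.1 ∈ L := by
    rintro ⟨K, x⟩ d hK hd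
    rcases List.mem_cons.1 hK with hK | hK
    · simp only at hK
      subst hK
      simp [pstep] at hd
    · rcases conts_closed p _ _ hK x d hd with h | h
      · exact List.mem_cons_of_mem _ h
      · exact h ▸ List.mem_cons_self
  have hp : [p] ∈ L := List.mem_cons_of_mem _ (self_mem_conts p [])
  let num : SR → Rl := fun r => (cd r.1, r.2.1, r.2.2.1, cd r.2.2.2.1, r.2.2.2.2.1, r.2.2.2.2.2)
  refine ⟨(L.flatMap rules).map num, cd [], cd [p], m, fun x N h1 h2 => ⟨fun h3 h4 => ?_, fun h3 => ?_⟩⟩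
  · obtain ⟨P, p0, p1, p2⟩ := inst_sound h1 h2 h3
    have p3 : ∀ K ∈ L, ∀ r ∈ rules K, ∀ u, P (cd r.2.2.2.1) (r.2.2.2.2.1 + r.2.2.2.2.2 * u) →
        P (cd r.1) (r.2.1 + r.2.2.1 * u) := fun K hK r hr =>
      p1 (num r) (List.mem_map_of_mem (List.mem_flatMap.2 ⟨K, hK, hr⟩))
    have p4 : ∀ v, P (cd []) v := by
      intro v
      induction v with
      | zero => exact p0
      | succ v ih =>
        have := p3 [] List.mem_cons_self _ (List.mem_singleton_self _) v (by simpa using ih)
        simpa [add_comm] using this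
    obtain ⟨z, hz⟩ := h4
    refine p2 ?_
    suffices ∀ c : Cfg, PR c ([], z) → c.1 ∈ L → P (cd c.1) (enc m c.2) from this _ hz hp
    intro c hc
    induction hc using ReflTransGen.head_induction_on with
    | refl => exact fun _ => p4 _
    | @head a b hab _ ih =>
      intro ha
      obtain ⟨r, hr, e1, e2, u, e3, e4⟩ := rules_cover (nx_enc (hL _ ha) (K' := b.1) (x' := b.2) hab)
      have := ih (hcl _ _ ha hab)
      rw [← e2, e4] at this
      rw [← e1, e3]
      exact p3 _ ha r hr u this
  · have hH : ∀ K v, (∃ K', cd K' = cd K ∧ HZ (K', v)) ↔ HZ (K, v) := fun K v =>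
      ⟨fun ⟨K', e, h⟩ => hcd e ▸ h, fun h => ⟨K, rfl, h⟩⟩
    refine inst_complete (fun q => {v | ∃ K, cd K = q ∧ HZ (K, v)}) ⟨[], rfl, 0, .refl⟩ ?_ ?_
    · intro r hr
      obtain ⟨r, hr', rfl⟩ := List.mem_map.1 hr
      obtain ⟨K, -, hr''⟩ := List.mem_flatMap.1 hr'
      obtain ⟨a1, a2, a3⟩ := rules_nx hr''
      refine ⟨a1, a2, fun u => ?_⟩
      simp only [num, Set.mem_ofPred_eq, hH]
      rcases a3 with ⟨e1, e2⟩ | a3
      · rw [e1, e2]
        exact iff_of_true ⟨_, .refl⟩ ⟨_, .refl⟩
      · exact HZ_step (a3 u)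
    · simp only [Set.mem_ofPred_eq, hH]
      rintro ⟨w, hw⟩
      refine h3 ?_
      suffices ∀ c, ReflTransGen (fun a b => nx a = some b) c ([], w) → ∀ d : Cfg, d.1 ∈ L →
          c = (d.1, (enc m d.2 : ℤ)) → PHalts d from this _ hw ([p], x) hp rfl
      intro c hc
      induction hc using ReflTransGen.head_induction_on with
      | refl =>
        rintro ⟨K, y⟩ - e
        cases e
        exact ⟨y, .refl⟩
      | @head a b hab _ ih =>
        rintro ⟨K, y⟩ hK rfl
        have hne : K ≠ [] := by rintro rfl; simp [nx] at hab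
        obtain ⟨d, hd⟩ := pstep_some hne y
        have := nx_enc (hL _ hK) (K' := d.1) (x' := d.2) hd
        simp only at hab
        rw [this] at hab
        obtain ⟨z, hz⟩ := ih d (hcl _ _ hK hd) (Option.some.inj hab).symm
        exact ⟨z, .head hd hz⟩

end Pool.Agent.MP_f23db5_lc

end

section

/-! The reduction is primitive recursive. -/

namespace Pool.Agent.MP_f23db5_lc

open Function

attribute [fun_prop] Primrec

section
variable {α β γ σ : Type*} [Primcodable α] [Primcodable β] [Primcodable γ] [Primcodable σ]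

@[fun_prop] theorem pr_id : Primrec fun a : α => a := Primrec.id
@[fun_prop] theorem pr_const (s : σ) : Primrec fun _ : α => s := Primrec.const s
@[fun_prop] theorem pr_comp {f : β → σ} {g : α → β} (hf : Primrec f) (hg : Primrec g) :
    Primrec fun a => f (g a) := hf.comp hg
@[fun_prop] theorem pr_fst {f : α → β × γ} (hf : Primrec f) : Primrec fun a => (f a).1 :=
  Primrec.fst.comp hf
@[fun_prop] theorem pr_snd {f : α → β × γ} (hf : Primrec f) : Primrec fun a => (f a).2 :=
  Primrec.snd.comp hf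
@[fun_prop] theorem pr_pair {f : α → β} {g : α → γ} (hf : Primrec f) (hg : Primrec g) :
    Primrec fun a => (f a, g a) := hf.pair hg
@[fun_prop] theorem pr_add {f g : α → ℕ} (hf : Primrec f) (hg : Primrec g) :
    Primrec fun a => f a + g a := Primrec.nat_add.comp hf hg
@[fun_prop] theorem pr_append {f g : α → List β} (hf : Primrec f) (hg : Primrec g) :
    Primrec fun a => f a ++ g a := Primrec.list_append.comp hf hg
@[fun_prop] theorem pr_cons {f : α → β} {g : α → List β} (hf : Primrec f) (hg : Primrec g) :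
    Primrec fun a => f a :: g a := Primrec.list_cons.comp hf hg
@[fun_prop] theorem pr_encode {f : α → β} (hf : Primrec f) :
    Primrec fun a => Encodable.encode (f a) := Primrec.encode.comp hf
end

noncomputable instance : Primcodable Lb := Primcodable.ofEquiv _ (Fintype.equivFin Lb)

theorem pr_tcons : Primrec tcons := by
  unfold tcons gad nd
  fun_prop

theorem pr_pcons : Primrec pcons := by
  unfold pcons nd
  fun_prop

theorem pr_inst (Rs : List Rl) (h q : ℕ) {v N : ℕ → ℕ} (hv : Primrec v) (hN : Primrec N) :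
    Primrec fun n => inst Rs h q (v n) (N n) := by
  unfold inst toC
  refine pr_append (pr_append (Primrec.list_flatMap (pr_append (Primrec.list_map
    (Primrec.list_range.comp hN) ?_) (Primrec.const _)) (pr_tcons.comp Primrec.snd))
    (Primrec.list_flatMap ?_ (pr_pcons.comp Primrec.snd))) (Primrec.const _)
  · unfold Primrec₂
    fun_prop
  · fun_prop

def csize (c : Cons) : ℕ :=
  c.foldr (fun x s => Encodable.encode x.1 + Encodable.encode x.2.1 + 1 + s) 0

def clab (c : Cons) (i j : ℕ) : Lb :=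
  c.foldr (fun x s => if Encodable.encode x.1 = i ∧ Encodable.encode x.2.1 = j then x.2.2 ⊓ s else s) ⊤

theorem lt_csize {c : Cons} {x : Nd × Nd × Lb} (h : x ∈ c) :
    Encodable.encode x.1 < csize c ∧ Encodable.encode x.2.1 < csize c := by
  induction c with
  | nil => simp at h
  | cons y c ih =>
    change _ < _ + csize c ∧ _ < _ + csize c
    rcases List.mem_cons.1 h with rfl | h
    · omega
    · have := ih h
      omega

theorem mem_clab {D : Type} {ρ : Lb → Set (D × D)} (h : IsRep alg ρ) (c : Cons) (i j : ℕ)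
    (p : D × D) : p ∈ ρ (clab c i j) ↔
      ∀ x ∈ c, Encodable.encode x.1 = i → Encodable.encode x.2.1 = j → p ∈ ρ x.2.2 := by
  induction c with
  | nil =>
    change p ∈ ρ ⊤ ↔ _
    rw [h.map_top]
    simp
  | cons y c ih =>
    change p ∈ ρ (if _ then _ ⊓ clab c i j else clab c i j) ↔ _
    rw [List.forall_mem_cons, ← ih]
    split_ifs with h1
    · rw [h.map_inf]
      simp [h1]
    · exact ⟨fun h2 => ⟨fun a b => absurd ⟨a, b⟩ h1, h2⟩, fun h2 => h2.2⟩

theorem sat_iff (c : Cons) :
    Satisfiable alg (csize c) (fun i j => clab c i j) ↔ CSat c := by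
  classical
  constructor
  · rintro ⟨D, ρ, hρ, f, hf⟩
    obtain ⟨d⟩ : Nonempty D := by
      by_contra hD
      rw [not_nonempty_iff] at hD
      have : (⊥ : Lb) = ⊤ := hρ.inj (Subsingleton.elim _ _)
      exact absurd this (by decide)
    refine ⟨D, ρ, hρ, fun a => if h : Encodable.encode a < csize c then f ⟨_, h⟩ else d,
      fun x hx => ?_⟩
    obtain ⟨h1, h2⟩ := lt_csize hx
    simp only [dif_pos h1, dif_pos h2]
    exact (mem_clab hρ _ _ _ _).1 (hf ⟨_, h1⟩ ⟨_, h2⟩) x hx rfl rfl
  · rintro ⟨D, ρ, hρ, f, hf⟩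
    refine ⟨D, ρ, hρ, fun i => f (Denumerable.ofNat Nd i), fun i j => ?_⟩
    rw [mem_clab hρ]
    intro x hx h1 h2
    beta_reduce
    rw [← h1, ← h2, Denumerable.ofNat_encode, Denumerable.ofNat_encode]
    exact hf x hx

def bits (code : Lb → ℕ) (c : Cons) : List Bool :=
  N487b59b3.bitEncode ((List.range (csize c)).map fun i =>
    (List.range (csize c)).map fun j => code (clab c i j))

theorem map_range_eq {β : Type} (n : ℕ) (f : ℕ → β) :
    (List.range n).map f = List.ofFn fun i : Fin n => f i :=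
  List.ext_getElem (by simp) (by simp)

theorem nsp_bits {code : Lb → ℕ} (hc : Injective code) (c : Cons) :
    NSP alg code (bits code c) = true ↔ CSat c := by
  rw [← sat_iff]
  simp only [NSP, decide_eq_true_eq, bits, map_range_eq]
  refine ⟨?_, fun h => ⟨_, _, h, rfl⟩⟩
  rintro ⟨n, lab, h1, h2⟩
  have h3 := N487b59b3.bitEncode_injective h2
  obtain rfl : csize c = n := by simpa using congrArg List.length h3
  have : (fun (i j : Fin (csize c)) => clab c i j) = lab := by
    funext i j
    exact hc (congrFun (List.ofFn_injective (congrFun (List.ofFn_injective h3) i)) j)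
  rwa [this]

theorem pr_delimit : Primrec N487b59b3.delimit := by
  have : Primrec fun l : List Bool => l.foldr (fun b s => true :: b :: s) [false] :=
    Primrec.list_foldr (h := fun _ p => true :: p.1 :: p.2) Primrec.id (Primrec.const _)
      (by unfold Primrec₂; fun_prop)
  refine this.of_eq fun l => ?_
  induction l with
  | nil => rfl
  | cons b l ih => simp [N487b59b3.delimit, ← ih]

theorem pr_csize : Primrec csize :=
  Primrec.list_foldr (h := fun _ (p : (Nd × Nd × Lb) × ℕ) =>
    Encodable.encode p.1.1 + Encodable.encode p.1.2.1 + 1 + p.2) Primrec.id (Primrec.const _)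
      (by unfold Primrec₂; fun_prop)

theorem pr_clab : Primrec fun p : Cons × ℕ × ℕ => clab p.1 p.2.1 p.2.2 := by
  have h1 : Primrec fun p : Lb × Lb => p.1 ⊓ p.2 := Primrec.dom_finite _
  refine Primrec.list_foldr (h := fun (p : Cons × ℕ × ℕ) (y : (Nd × Nd × Lb) × Lb) =>
    if Encodable.encode y.1.1 = p.2.1 ∧ Encodable.encode y.1.2.1 = p.2.2 then y.1.2.2 ⊓ y.2
      else y.2) Primrec.fst (Primrec.const _) ?_
  refine Primrec.ite (PrimrecPred.and (Primrec.eq.comp ?_ ?_) (Primrec.eq.comp ?_ ?_))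
    (h1.comp (g := fun p : (Cons × ℕ × ℕ) × (Nd × Nd × Lb) × Lb => (p.2.1.2.2, p.2.2)) ?_) ?_
  all_goals fun_prop

theorem pr_bits (code : Lb → ℕ) : Primrec (bits code) := by
  have h1 : Primrec fun a : Lb => N487b59b3.delimit (N487b59b3.bitEncode (code a)) :=
    Primrec.dom_finite _
  have h2 : Primrec fun c : Cons => ((List.range (csize c)).map fun i => N487b59b3.delimit
      ((List.range (csize c)).map fun j =>
        N487b59b3.delimit (N487b59b3.bitEncode (code (clab c i j)))).flatten).flatten := by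
    refine Primrec.list_flatten.comp (Primrec.list_map (Primrec.list_range.comp pr_csize) ?_)
    refine pr_delimit.comp (Primrec.list_flatten.comp (Primrec.list_map
      (Primrec.list_range.comp (pr_csize.comp Primrec.fst)) ?_))
    exact h1.comp (pr_clab.comp (g := fun p : (Cons × ℕ) × ℕ => (p.1.1, p.1.2, p.2))
      (by fun_prop))
  refine h2.of_eq fun c => ?_
  change _ = (((_ : List (List ℕ)).map N487b59b3.bitEncode).map N487b59b3.delimit).flatten
  simp only [List.map_map]
  congr 2
  funext i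
  change _ = N487b59b3.delimit
    (((_ : List ℕ).map N487b59b3.bitEncode).map N487b59b3.delimit).flatten
  simp only [List.map_map]
  rfl

open Nat.Partrec in
theorem not_computable {code : Lb → ℕ} (hc : Injective code) : ¬ Computable (NSP alg code) := by
  classical
  intro H
  have hg : Primrec₂ fun s n : ℕ =>
      bif (Code.evaln s (Denumerable.ofNat Code n) 0).isSome then 0 else 1 := by
    refine Primrec.cond (Primrec.option_isSome.comp ?_) (Primrec.const 0) (Primrec.const 1)
    exact Code.primrec_evaln.comp ((Primrec.fst.pair ((Primrec.ofNat Code).comp Primrec.snd)).pair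
      (Primrec.const 0))
  obtain ⟨p, hp⟩ := exists_search hg
  obtain ⟨Rs, h, q, m, hR⟩ := exists_rules p
  let v : ℕ → ℕ := fun n => enc m fun j => if j = 0 then n else if j = 2 then 1 else 0
  have hv : Primrec v := by
    simp only [v, enc]
    clear v hR
    induction m with
    | zero => exact Primrec.const 1
    | succ m ih =>
      simp only [Finset.prod_range_succ]
      refine Primrec.nat_mul.comp ih ?_
      by_cases h0 : m = 0
      · simp only [h0, if_true]
        exact (Primrec₂.unpaired'.1 Nat.Primrec.pow).comp (Primrec.const _) Primrec.id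
      · simp only [h0, if_false]
        exact Primrec.const _
  obtain ⟨C, hC⟩ : ∃ C, ∀ r ∈ Rs, r.2.1 + r.2.2.1 + r.2.2.2.2.1 + r.2.2.2.2.2 ≤ C := by
    obtain ⟨C, hC⟩ := ((List.finite_toSet Rs).image fun r : Rl =>
      r.2.1 + r.2.2.1 + r.2.2.2.2.1 + r.2.2.2.2.2).bddAbove
    exact ⟨C, fun r hr => hC ⟨r, hr, rfl⟩⟩
  have h1 : Computable fun n => NSP alg code (bits code (inst Rs h q (v n) (v n + C))) :=
    H.comp ((pr_bits code).comp (pr_inst Rs h q hv (by fun_prop))).to_comp
  have h2 : ∀ c : Code, (Code.eval c 0).Dom ↔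
      (!NSP alg code (bits code (inst Rs h q (v (Encodable.encode c))
        (v (Encodable.encode c) + C)))) = true := by
    intro c
    rw [Bool.not_eq_true', ← Bool.not_eq_true, nsp_bits hc,
      hR _ _ (Nat.le_add_right _ _) (fun r hr => by have := hC r hr; omega), not_not, hp]
    simp only [Denumerable.ofNat_encode, Part.dom_iff_mem, Code.evaln_complete]
    constructor
    · rintro ⟨y, z, e⟩
      exact ⟨z, by simp [Option.mem_def.1 e]⟩
    · rintro ⟨z, hz⟩
      cases e : Code.evaln z c 0 with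
      | none => simp [e] at hz
      | some y => exact ⟨y, z, e⟩
  refine ComputablePred.halting_problem 0 (ComputablePred.computable_iff.2 ⟨_,
    Primrec.not.to_comp.comp (h1.comp Computable.encode), funext fun c => propext (h2 c)⟩)

end Pool.Agent.MP_f23db5_lc

end

section

/-! Locality of one step of a multi-stack machine and its simulation by table lookup (copied from
the developments for MP_2e8011_lc and MP_a4408f_lc). -/

namespace Pool.Agent.MP_f23db5_lc

open Turing

variable {K : Type} [DecidableEq K] {Γ : K → Type} {Λ σ : Type}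

/-- Number of stack operations along the longest branch. -/
def depth : TM2.Stmt Γ Λ σ → ℕ
  | .push _ _ q => depth q + 1
  | .peek _ _ q => depth q + 1
  | .pop _ _ q => depth q + 1
  | .load _ q => depth q
  | .branch _ q₁ q₂ => max (depth q₁) (depth q₂)
  | .goto _ => 0
  | .halt => 0

theorem stepAux_append (q : TM2.Stmt Γ Λ σ) : ∀ (v : σ) (W R : ∀ k, List (Γ k)),
    (∀ k, depth q ≤ (W k).length ∨ R k = []) →
    TM2.stepAux q v (fun k => W k ++ R k) =
      ⟨(TM2.stepAux q v W).l, (TM2.stepAux q v W).var,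
        fun k => (TM2.stepAux q v W).stk k ++ R k⟩ := by
  induction q with
  | push k f q ih =>
    intro v W R h
    simp only [TM2.stepAux]
    rw [← ih v (Function.update W k (f v :: W k)) R]
    · congr 1
      funext j
      by_cases hj : j = k
      · subst hj; simp
      · simp [hj]
    · intro j
      refine (h j).imp_left (fun h => ?_)
      simp only [depth] at h
      by_cases hj : j = k
      · subst hj; simp; omega
      · simp [hj]; omega
  | peek k f q ih =>
    intro v W R h
    simp only [TM2.stepAux]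
    have : (W k ++ R k).head? = (W k).head? := by
      rcases h k with h | h
      · simp only [depth] at h
        cases hW : W k with
        | nil => simp [hW] at h
        | cons a l => simp
      · simp [h]
    rw [this, ih]
    intro j
    refine (h j).imp_left (fun h => ?_)
    simp only [depth] at h
    omega
  | pop k f q ih =>
    intro v W R h
    simp only [TM2.stepAux]
    have : (W k ++ R k).head? = (W k).head? ∧ (W k ++ R k).tail = (W k).tail ++ R k := by
      rcases h k with h | h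
      · simp only [depth] at h
        cases hW : W k with
        | nil => simp [hW] at h
        | cons a l => simp
      · simp [h]
    rw [this.1, this.2, ← ih _ (Function.update W k (W k).tail) R]
    · congr 1
      funext j
      by_cases hj : j = k
      · subst hj; simp
      · simp [hj]
    · intro j
      refine (h j).imp_left (fun h => ?_)
      simp only [depth] at h
      by_cases hj : j = k
      · subst hj; simp; omega
      · simp [hj]; omega
  | load f q ih =>
    intro v W R h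
    simp only [TM2.stepAux]
    exact ih _ W R h
  | branch f q₁ q₂ ih₁ ih₂ =>
    intro v W R h
    simp only [TM2.stepAux]
    cases f v
    · exact ih₂ v W R (fun j => (h j).imp_left (fun h => le_trans (le_max_right _ _) h))
    · exact ih₁ v W R (fun j => (h j).imp_left (fun h => le_trans (le_max_left _ _) h))
  | goto f => intro v W R _; rfl
  | halt => intro v W R _; rfl

/-- The symbols a statement can push. -/
def syms : TM2.Stmt Γ Λ σ → Set (Σ k, Γ k)
  | .push k f q => Set.range (fun v => (⟨k, f v⟩ : Σ k, Γ k)) ∪ syms q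
  | .peek _ _ q => syms q
  | .pop _ _ q => syms q
  | .load _ q => syms q
  | .branch _ q₁ q₂ => syms q₁ ∪ syms q₂
  | .goto _ => ∅
  | .halt => ∅

omit [DecidableEq K] in
theorem syms_finite [Finite σ] (q : TM2.Stmt Γ Λ σ) : (syms q).Finite := by
  induction q with
  | push k f q ih => exact (Set.finite_range _).union ih
  | peek k f q ih => exact ih
  | pop k f q ih => exact ih
  | load f q ih => exact ih
  | branch f q₁ q₂ ih₁ ih₂ => exact ih₁.union ih₂
  | goto f => exact Set.finite_empty
  | halt => exact Set.finite_empty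

/-- All stack symbols lie in `A`. -/
def Over (A : Set (Σ k, Γ k)) (S : ∀ k, List (Γ k)) : Prop := ∀ k, ∀ γ ∈ S k, ⟨k, γ⟩ ∈ A

theorem over_stepAux {A : Set (Σ k, Γ k)} (q : TM2.Stmt Γ Λ σ) : ∀ (v : σ) (S : ∀ k, List (Γ k)),
    syms q ⊆ A → Over A S → Over A (TM2.stepAux q v S).stk := by
  induction q with
  | push k f q ih =>
    intro v S hq hS
    refine ih v _ (fun x hx => hq (Or.inr hx)) (fun j γ hγ => ?_)
    by_cases hj : j = k
    · subst hj
      simp only [Function.update_self, List.mem_cons] at hγ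
      rcases hγ with rfl | hγ
      · exact hq (Or.inl ⟨v, rfl⟩)
      · exact hS _ _ hγ
    · rw [Function.update_of_ne hj] at hγ
      exact hS _ _ hγ
  | peek k f q ih => intro v S hq hS; exact ih _ S hq hS
  | pop k f q ih =>
    intro v S hq hS
    refine ih _ _ hq (fun j γ hγ => ?_)
    by_cases hj : j = k
    · subst hj
      simp only [Function.update_self] at hγ
      exact hS _ _ (List.mem_of_mem_tail hγ)
    · rw [Function.update_of_ne hj] at hγ
      exact hS _ _ hγ
  | load f q ih => intro v S hq hS; exact ih _ S hq hS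
  | branch f q₁ q₂ ih₁ ih₂ =>
    intro v S hq hS
    simp only [TM2.stepAux]
    cases f v
    · exact ih₂ v S (fun x hx => hq (Or.inr hx)) hS
    · exact ih₁ v S (fun x hx => hq (Or.inl hx)) hS
  | goto f => intro v S _ hS; exact hS
  | halt => intro v S _ hS; exact hS

/-- One step, a halted configuration being left unchanged. -/
def nxt (m : Λ → TM2.Stmt Γ Λ σ) (c : TM2.Cfg Γ Λ σ) : TM2.Cfg Γ Λ σ :=
  match c.l with
  | none => c
  | some l => TM2.stepAux (m l) c.var c.stk

theorem nxt_iter_of_steps (m : Λ → TM2.Stmt Γ Λ σ) (n : ℕ) : ∀ c c' : TM2.Cfg Γ Λ σ,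
    (flip bind (TM2.step m))^[n] (some c) = some c' → (nxt m)^[n] c = c' := by
  induction n with
  | zero => intro c c' h; simpa using h
  | succ n ih =>
    intro c c' h
    rw [Function.iterate_succ_apply] at h ⊢
    obtain ⟨l, v, S⟩ := c
    cases l with
    | none =>
      exfalso
      have : ∀ n, (flip bind (TM2.step m))^[n] (none : Option (TM2.Cfg Γ Λ σ)) = none :=
        fun n => Function.iterate_fixed rfl n
      change (flip bind (TM2.step m))^[n] none = _ at h
      rw [this] at h
      cases h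
    | some l => exact ih _ _ h

theorem nxt_iter_halt (m : Λ → TM2.Stmt Γ Λ σ) {c : TM2.Cfg Γ Λ σ} (h : c.l = none) (n : ℕ) :
    (nxt m)^[n] c = c := Function.iterate_fixed (by simp [nxt, h]) n

theorem over_nxt {A : Set (Σ k, Γ k)} {m : Λ → TM2.Stmt Γ Λ σ} (hm : ∀ l, syms (m l) ⊆ A)
    {c : TM2.Cfg Γ Λ σ} (h : Over A c.stk) : Over A (nxt m c).stk := by
  unfold nxt
  split
  · exact h
  · exact over_stepAux _ _ _ (hm _) h

/-- The window of a configuration: the top `d` symbols of each stack. -/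
def win (d : ℕ) (c : TM2.Cfg Γ Λ σ) : TM2.Cfg Γ Λ σ := ⟨c.l, c.var, fun k => (c.stk k).take d⟩

theorem nxt_local {m : Λ → TM2.Stmt Γ Λ σ} {d : ℕ} (hd : ∀ l, depth (m l) ≤ d)
    (c : TM2.Cfg Γ Λ σ) :
    nxt m c = ⟨(nxt m (win d c)).l, (nxt m (win d c)).var,
      fun k => (nxt m (win d c)).stk k ++ (c.stk k).drop d⟩ := by
  obtain ⟨l, v, S⟩ := c
  cases l with
  | none => simp [nxt, win]
  | some l =>
    simp only [nxt, win]
    rw [← stepAux_append (m l) v (fun k => (S k).take d) (fun k => (S k).drop d)]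
    · simp
    · intro k
      by_cases h : d ≤ (S k).length
      · left; simp [h, hd l]
      · right; simp; omega

omit [DecidableEq K] in
theorem windows_finite [Finite K] [Finite Λ] [Finite σ] {A : Set (Σ k, Γ k)} (hA : A.Finite)
    (d : ℕ) : {c : TM2.Cfg Γ Λ σ | (∀ k, (c.stk k).length ≤ d) ∧ Over A c.stk}.Finite := by
  have h1 : ∀ k, {l : List (Γ k) | l.length ≤ d ∧ ∀ γ ∈ l, (⟨k, γ⟩ : Σ k, Γ k) ∈ A}.Finite := by
    intro k
    have hk : {γ : Γ k | (⟨k, γ⟩ : Σ k, Γ k) ∈ A}.Finite :=
      hA.preimage (sigma_mk_injective.injOn)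
    have := hk.to_subtype
    refine ((List.finite_length_le {γ : Γ k | (⟨k, γ⟩ : Σ k, Γ k) ∈ A} d).image
      (List.map Subtype.val)).subset ?_
    rintro l ⟨hl, hl'⟩
    refine ⟨l.attachWith _ hl', ?_, List.attachWith_map_subtype_val hl'⟩
    exact (List.length_attachWith (H := hl')).trans_le hl
  have h2 := (Set.finite_univ (α := Option Λ × σ)).prod (Set.Finite.pi' h1)
  refine (h2.image (fun p => (⟨p.1.1, p.1.2, p.2⟩ : TM2.Cfg Γ Λ σ))).subset ?_
  rintro ⟨l, v, S⟩ ⟨h, h'⟩
  exact ⟨((l, v), S), ⟨trivial, fun k => ⟨h k, h' k⟩⟩, rfl⟩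

/-- Code of a configuration. -/
def ccode (KL : List K) (cc : Option Λ × σ → ℕ) (cs : (Σ k, Γ k) → ℕ) (c : TM2.Cfg Γ Λ σ) :
    ℕ × List (List ℕ) :=
  (cc (c.l, c.var), KL.map fun k => (c.stk k).map fun γ => cs ⟨k, γ⟩)

omit [DecidableEq K] in
lemma ccode_inj {KL : List K} (hKL : ∀ k, k ∈ KL) {cc : Option Λ × σ → ℕ} (hcc : Function.Injective cc)
    {cs : (Σ k, Γ k) → ℕ} {A : Set (Σ k, Γ k)} (hcs : Set.InjOn cs A) {c c' : TM2.Cfg Γ Λ σ}
    (h : Over A c.stk) (h' : Over A c'.stk) (e : ccode KL cc cs c = ccode KL cc cs c') : c = c' := by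
  obtain ⟨l, v, S⟩ := c
  obtain ⟨l', v', S'⟩ := c'
  simp only [ccode, Prod.mk.injEq, List.map_inj_left] at e
  obtain ⟨rfl, rfl⟩ := Prod.mk.inj (hcc e.1)
  congr 1
  funext k
  have e2 := e.2 k (hKL k)
  have h1 := h k
  have h2 := h' k
  simp only at h1 h2
  generalize S k = a at *
  generalize S' k = b at *
  induction a generalizing b with
  | nil => cases b <;> simp_all
  | cons x a ih =>
    cases b with
    | nil => simp at e2
    | cons y b =>
      simp only [List.map_cons, List.cons.injEq] at e2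
      have := hcs (h1 x List.mem_cons_self) (h2 y List.mem_cons_self) e2.1
      obtain rfl : x = y := by simpa using this
      rw [ih (fun γ hγ => h1 γ (List.mem_cons_of_mem _ hγ)) b
        (fun γ hγ => h2 γ (List.mem_cons_of_mem _ hγ)) e2.2]

/-- One step on codes, by table lookup. -/
def cstep (T : List ((ℕ × List (List ℕ)) × (ℕ × List (List ℕ)))) (n d : ℕ) (x : ℕ × List (List ℕ)) :
    ℕ × List (List ℕ) :=
  (((T.filter fun e => decide (e.1 = (x.1, x.2.map (List.take d)))).headD default).2.1,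
    (List.range n).map fun j =>
      ((T.filter fun e => decide (e.1 = (x.1, x.2.map (List.take d)))).headD default).2.2.getD j []
        ++ (x.2.getD j []).drop d)

lemma cstep_ccode {KL : List K} (hKL : ∀ k, k ∈ KL) {cc : Option Λ × σ → ℕ}
    (hcc : Function.Injective cc) {cs : (Σ k, Γ k) → ℕ} {A : Set (Σ k, Γ k)} (hcs : Set.InjOn cs A)
    {m : Λ → TM2.Stmt Γ Λ σ} {d : ℕ} (hd : ∀ l, depth (m l) ≤ d) {TL : List (TM2.Cfg Γ Λ σ)}
    (hTL : ∀ c, c ∈ TL ↔ (∀ k, (c.stk k).length ≤ d) ∧ Over A c.stk) {c : TM2.Cfg Γ Λ σ}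
    (h : Over A c.stk) :
    cstep (TL.map fun w => (ccode KL cc cs w, ccode KL cc cs (nxt m w))) KL.length d
      (ccode KL cc cs c) = ccode KL cc cs (nxt m c) := by
  have hw : win d c ∈ TL := (hTL _).2 ⟨fun k => by simp [win], fun k γ hγ =>
    h k γ (List.mem_of_mem_take hγ)⟩
  have e1 : ((ccode KL cc cs c).1, (ccode KL cc cs c).2.map (List.take d)) =
      ccode KL cc cs (win d c) := by
    simp [ccode, win, List.map_take]
  have e2 : (((TL.map fun w => (ccode KL cc cs w, ccode KL cc cs (nxt m w))).filter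
      fun e => decide (e.1 = ccode KL cc cs (win d c))).headD default).2 =
      ccode KL cc cs (nxt m (win d c)) := by
    have a1 : ∀ e ∈ (TL.map fun w => (ccode KL cc cs w, ccode KL cc cs (nxt m w))).filter
        fun e => decide (e.1 = ccode KL cc cs (win d c)), e.2 = ccode KL cc cs (nxt m (win d c)) := by
      intro e he
      simp only [List.mem_filter, List.mem_map, decide_eq_true_eq] at he
      obtain ⟨⟨w, hw', rfl⟩, he⟩ := he
      rw [ccode_inj hKL hcc hcs ((hTL _).1 hw').2 ((hTL _).1 hw).2 he]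
    have a2 : (ccode KL cc cs (win d c), ccode KL cc cs (nxt m (win d c))) ∈
        (TL.map fun w => (ccode KL cc cs w, ccode KL cc cs (nxt m w))).filter
        fun e => decide (e.1 = ccode KL cc cs (win d c)) := by
      simp only [List.mem_filter, List.mem_map, decide_eq_true_eq]
      exact ⟨⟨_, hw, rfl⟩, trivial⟩
    generalize List.filter _ _ = l at a1 a2
    cases l with
    | nil => simp at a2
    | cons a l => exact a1 a List.mem_cons_self
  unfold cstep
  rw [e1, e2, nxt_local hd c]
  simp only [ccode, Prod.mk.injEq, true_and]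
  refine List.ext_getElem (by simp) fun j h1 h2 => ?_
  have hj : j < KL.length := by simpa using h1
  simp [List.getD_eq_getElem?_getD, hj, List.map_drop]


end Pool.Agent.MP_f23db5_lc

end

section

/-! Every language in NP is computable. -/

namespace Pool.Agent.MP_f23db5_lc

open Function Turing

theorem pr_cstep (T : List ((ℕ × List (List ℕ)) × (ℕ × List (List ℕ)))) (n d : ℕ) :
    Primrec (cstep T n d) := by
  have h0 : Primrec fun x : ℕ × List (List ℕ) => (x.1, x.2.map (List.take d)) :=
    Primrec.fst.pair (Primrec.list_map Primrec.snd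
      (Primrec.list_take.comp (Primrec.const d) Primrec.snd))
  have h2 : Primrec fun y : ℕ × List (List ℕ) =>
      ((T.filter fun e => decide (e.1 = y)).headD default).2 := by
    induction T with
    | nil => exact Primrec.const _
    | cons e T ih =>
      refine (Primrec.ite (Primrec.eq.comp (Primrec.const e.1) Primrec.id) (Primrec.const e.2)
        ih).of_eq fun y => ?_
      by_cases h : e.1 = y <;> simp [h]
  have h1 := h2.comp h0
  unfold cstep
  refine (Primrec.fst.comp h1).pair (Primrec.list_map (Primrec.const _) ?_)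
  exact Primrec.list_append.comp
    ((Primrec.list_getD []).comp (Primrec.snd.comp (h1.comp Primrec.fst)) Primrec.snd)
    (Primrec.list_drop.comp (Primrec.const d)
      ((Primrec.list_getD []).comp (Primrec.snd.comp Primrec.fst) Primrec.snd))

theorem pr_eval (p : Polynomial ℕ) : Primrec fun n => p.eval n := by
  induction p using Polynomial.induction_on' with
  | add p q hp hq => simpa using Primrec.nat_add.comp hp hq
  | monomial k a =>
    simp only [Polynomial.eval_monomial]
    exact Primrec.nat_mul.comp (Primrec.const a)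
      ((Primrec₂.unpaired'.1 Nat.Primrec.pow).comp Primrec.id (Primrec.const k))

theorem pr_bitsEnc : Primrec (N487b59b3.bitEncode : List Bool → List Bool) := by
  have : Primrec fun l : List Bool => (l.map fun b => N487b59b3.delimit [b]).flatten :=
    Primrec.list_flatten.comp (Primrec.list_map Primrec.id
      ((Primrec.dom_finite fun b : Bool => N487b59b3.delimit [b]).comp Primrec.snd))
  refine this.of_eq fun l => ?_
  change _ = ((l.map N487b59b3.bitEncode).map N487b59b3.delimit).flatten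
  rw [List.map_map]
  rfl

theorem pr_of_tm {α : Type} [Primcodable α] {e : α → List Bool} (he : Primrec e) {f : α → Bool}
    (M : TM2ComputableInPolyTime e (fun b : Bool => [b]) f) : Primrec f := by
  classical
  have := M.tm.kFin
  have := M.tm.ΛFin
  have := M.tm.σFin
  let A : Set (Σ k, M.tm.Γ k) := (⋃ l, syms (M.tm.m l)) ∪
    (Set.range (fun b => ⟨M.tm.k₀, M.inputAlphabet.symm b⟩) ∪
      Set.range (fun b => ⟨M.tm.k₁, M.outputAlphabet.symm b⟩))
  have hA : A.Finite := (Set.finite_iUnion (fun l => syms_finite _)).union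
    ((Set.finite_range _).union (Set.finite_range _))
  obtain ⟨cs, hcs⟩ := Set.countable_iff_exists_injOn.1 hA.countable
  obtain ⟨cc, hcc⟩ := exists_injective_nat (Option M.tm.Λ × M.tm.σ)
  let d := Finset.univ.sup (fun l => depth (M.tm.m l))
  have hd : ∀ l, depth (M.tm.m l) ≤ d := fun l =>
    Finset.le_sup (f := fun l => depth (M.tm.m l)) (Finset.mem_univ l)
  have hT := windows_finite (Λ := M.tm.Λ) (σ := M.tm.σ) hA d
  let KL : List M.tm.K := Finset.univ.toList
  have hKL : ∀ k, k ∈ KL := fun k => by simp [KL]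
  let TL := hT.toFinset.toList
  have hTL : ∀ c, c ∈ TL ↔ (∀ k, (c.stk k).length ≤ d) ∧ Over A c.stk := fun c => by simp [TL]
  let g := cstep (TL.map fun w => (ccode KL cc cs w, ccode KL cc cs (nxt M.tm.m w))) KL.length d
  have hm : ∀ l, syms (M.tm.m l) ⊆ A := fun l x hx => Or.inl (Set.mem_iUnion.2 ⟨l, hx⟩)
  let c0 : α → TM2.Cfg M.tm.Γ M.tm.Λ M.tm.σ := fun x =>
    initList M.tm (List.map M.inputAlphabet.invFun (e x))
  have hstk : ∀ x k, (((c0 x).stk k).map fun γ => cs ⟨k, γ⟩) =
      if k = M.tm.k₀ then (e x).map fun b => cs ⟨M.tm.k₀, M.inputAlphabet.symm b⟩ else [] := by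
    intro x k
    by_cases hk : k = M.tm.k₀
    · subst hk
      simp [c0, initList]
    · simp [c0, initList, hk]
  have hover0 : ∀ x, Over A (c0 x).stk := by
    intro x k γ hγ
    by_cases hk : k = M.tm.k₀
    · subst hk
      simp only [c0, initList, dif_pos] at hγ
      obtain ⟨b, -, rfl⟩ := List.mem_map.1 hγ
      exact Or.inr (Or.inl ⟨b, rfl⟩)
    · simp [c0, initList, hk] at hγ
  have hover : ∀ x n, Over A ((nxt M.tm.m)^[n] (c0 x)).stk := by
    intro x n
    induction n with
    | zero => exact hover0 x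
    | succ n ih => rw [Function.iterate_succ_apply']; exact over_nxt hm ih
  have hiter : ∀ x n, g^[n] (ccode KL cc cs (c0 x)) = ccode KL cc cs ((nxt M.tm.m)^[n] (c0 x)) := by
    intro x n
    induction n with
    | zero => rfl
    | succ n ih =>
      rw [Function.iterate_succ_apply', Function.iterate_succ_apply', ih]
      exact cstep_ccode hKL hcc hcs hd hTL (hover x n)
  have hs : Primrec fun x : α => ccode KL cc cs (c0 x) := by
    have h1 : Primrec fun x : α => (e x).map fun b => cs ⟨M.tm.k₀, M.inputAlphabet.symm b⟩ :=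
      Primrec.list_map he ((Primrec.dom_finite
        fun b : Bool => cs ⟨M.tm.k₀, M.inputAlphabet.symm b⟩).comp Primrec.snd)
    simp only [ccode, hstk]
    refine (Primrec.const (cc (some M.tm.main, M.tm.initialState))).pair ?_
    generalize KL = l
    induction l with
    | nil => exact Primrec.const _
    | cons k l ih =>
      refine Primrec.list_cons.comp ?_ ih
      beta_reduce
      split_ifs
      · exact h1
      · exact Primrec.const _
  let T : α → ℕ := fun x => M.time.eval (e x).length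
  have hT' : Primrec T := (pr_eval _).comp (Primrec.list_length.comp he)
  have hrun : Primrec fun x => g^[T x] (ccode KL cc cs (c0 x)) :=
    Primrec.nat_iterate hT' hs ((pr_cstep _ _ _).comp Primrec.snd)
  obtain ⟨j, hj, hjk⟩ := List.getElem_of_mem (hKL M.tm.k₁)
  have hout : Primrec fun x => decide ((g^[T x] (ccode KL cc cs (c0 x))).2.getD j [] =
      [cs ⟨M.tm.k₁, M.outputAlphabet.symm true⟩]) :=
    (Primrec.eq.comp ((Primrec.list_getD []).comp (Primrec.snd.comp hrun) (Primrec.const _))
      (Primrec.const _)).decide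
  refine hout.of_eq fun x => ?_
  simp only [hiter]
  obtain ⟨⟨n, hn⟩, hn'⟩ := M.outputsFun x
  simp only at hn'
  have h1 := nxt_iter_of_steps M.tm.m n _ _ hn
  have h3 : n ≤ T x := hn'
  obtain ⟨r, hr⟩ := Nat.exists_eq_add_of_le h3
  rw [hr, add_comm, Function.iterate_add_apply]
  change decide ((ccode KL cc cs ((nxt M.tm.m)^[r] ((nxt M.tm.m)^[n] (initList M.tm _)))).2.getD j []
    = _) = _
  rw [h1, nxt_iter_halt _ rfl]
  have hne : cs ⟨M.tm.k₁, M.outputAlphabet.symm false⟩ ≠ cs ⟨M.tm.k₁, M.outputAlphabet.symm true⟩ := by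
    intro h
    have := hcs (Or.inr (Or.inr ⟨false, rfl⟩)) (Or.inr (Or.inr ⟨true, rfl⟩)) h
    simp at this
  simp only [ccode, List.getD_eq_getElem?_getD, List.getElem?_map, List.getElem?_eq_getElem hj, hjk,
    Option.map_some, Option.getD_some, haltList, dif_pos]
  change decide (List.map _ (List.map M.outputAlphabet.invFun [f x]) = _) = _
  cases f x <;> simp [hne]

def allL (n : ℕ) : List (List Bool) :=
  (fun L => [] :: L.flatMap fun w => [false :: w, true :: w])^[n] [[]]

theorem mem_allL (n : ℕ) : ∀ w : List Bool, w ∈ allL n ↔ w.length ≤ n := by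
  induction n with
  | zero => simp [allL]
  | succ n ih =>
    intro w
    unfold allL at ih ⊢
    rw [Function.iterate_succ_apply']
    cases w with
    | nil => simp
    | cons b w => cases b <;> simp [ih]

theorem pr_allL : Primrec allL :=
  Primrec.nat_iterate Primrec.id (Primrec.const _) (pr_cons (Primrec.const _)
    (Primrec.list_flatMap Primrec.snd (by unfold Primrec₂; fun_prop)))

theorem primrec_of_NP {L : List Bool → Bool} (h : L ∈ N68a2faeb.NP) : Primrec L := by
  obtain ⟨p, R, ⟨M⟩, hL⟩ := h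
  have hR : Primrec R := pr_of_tm (e := fun x : List Bool × List Bool =>
    N487b59b3.delimit (N487b59b3.bitEncode x.1) ++ N487b59b3.bitEncode x.2)
    (pr_append (pr_delimit.comp (pr_bitsEnc.comp Primrec.fst)) (pr_bitsEnc.comp Primrec.snd)) M
  have h1 : PrimrecRel fun w x : List Bool => R (x, w) = true :=
    Primrec.eq.comp (hR.comp (Primrec.snd.pair Primrec.fst)) (Primrec.const true)
  have h2 := (h1.exists_mem_list.comp
    (pr_allL.comp ((pr_eval p).comp Primrec.list_length)) Primrec.id).decide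
  refine h2.of_eq fun x => ?_
  rw [Bool.eq_iff_iff, hL]
  simp [mem_allL]

end Pool.Agent.MP_f23db5_lc

end

end
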