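import Pool.Agent.Mg.Xeb915b.Gec54b5
import Pool.Agent.Mg.F2e8011.G06f54b
import Pool.Agent.Mg.Xeb915b.G8b3df9

section

/-! Groups of columns, digits and histograms. -/

set_option autoImplicit false

namespace Pool.Agent.MP_eb915b_lc

theorem headD_le {L : List ℕ} (h : L.Pairwise (· < ·)) {x : ℕ} (hx : x ∈ L) (d : ℕ) :
    L.headD d ∈ L ∧ ∀ y ∈ L, L.headD d ≤ y := by
  cases L with
  | nil => simp at hx
  | cons a t =>
    refine ⟨List.mem_cons_self, fun y hy => ?_⟩
    rcases List.mem_cons.1 hy with rfl | hy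
    · exact le_rfl
    · exact ((List.pairwise_cons.1 h).1 y hy).le

/-- The members of the group of `u`. -/
def mates (gl : List ℕ) (u : ℕ) : List ℕ :=
  (List.range gl.length).filter fun v => decide (gl.getD v 0 = gl.getD u 0)

/-- The cyclic successor of `u` in its group. -/
def succG (gl : List ℕ) (u : ℕ) : ℕ :=
  ((mates gl u).filter fun v => decide (u < v)).headD ((mates gl u).headD 0)

/-- The table of successors. -/
def nxl (gl : List ℕ) : List ℕ := (List.range gl.length).map (succG gl)

theorem mem_mates {gl : List ℕ} {u v : ℕ} :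
    v ∈ mates gl u ↔ v < gl.length ∧ gl.getD v 0 = gl.getD u 0 := by
  simp only [mates, List.mem_filter, List.mem_range, decide_eq_true_eq]

theorem pairwise_mates (gl : List ℕ) (u : ℕ) : (mates gl u).Pairwise (· < ·) :=
  List.pairwise_lt_range.filter _

theorem nxl_getD {gl : List ℕ} {u : ℕ} (hu : u < gl.length) :
    (nxl gl).getD u 0 = succG gl u := by
  simp [nxl, List.getD_eq_getElem?_getD, hu]

theorem succG_spec {gl : List ℕ} {u : ℕ} (hu : u < gl.length) :
    succG gl u ∈ mates gl u ∧
      ((u < succG gl u ∧ ∀ v ∈ mates gl u, u < v → succG gl u ≤ v) ∨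
        ∀ v ∈ mates gl u, v ≤ u ∧ succG gl u ≤ v) := by
  by_cases h : ∃ v ∈ mates gl u, u < v
  · obtain ⟨v, hv, huv⟩ := h
    obtain ⟨h1, h2⟩ := headD_le ((pairwise_mates gl u).filter fun v => decide (u < v))
      (x := v) (by simp [hv, huv]) ((mates gl u).headD 0)
    rw [List.mem_filter] at h1
    exact ⟨h1.1, Or.inl ⟨of_decide_eq_true h1.2, fun y hy hy' => h2 y (by simp [hy, hy'])⟩⟩
  · push Not at h
    have e : ((mates gl u).filter fun v => decide (u < v)) = [] :=
      List.filter_eq_nil_iff.2 fun v hv => by simpa using h v hv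
    obtain ⟨h1, h2⟩ := headD_le (pairwise_mates gl u) (mem_mates.2 ⟨hu, rfl⟩) 0
    have e' : succG gl u = (mates gl u).headD 0 := by rw [succG, e]; rfl
    rw [e']
    exact ⟨h1, Or.inr fun v hv => ⟨h v hv, h2 v hv⟩⟩

theorem good_nxl {M : ℕ} {gl : List ℕ} (hl : gl.length = 2 * M)
    (hside : ∀ u < 2 * M, ∀ v < 2 * M, gl.getD u 0 = gl.getD v 0 → (u < M ↔ v < M))
    (htwo : ∀ u < 2 * M, ∃ v < 2 * M, v ≠ u ∧ gl.getD v 0 = gl.getD u 0) : Good M (nxl gl) := by
  rw [← hl] at hside htwo
  refine ⟨fun u hu => ?_, fun u hu => ?_, fun u hu => ?_, fun u hu v hv => ?_⟩ <;>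
    rw [← hl] at hu <;> rw [nxl_getD hu] <;> obtain ⟨h1, h2⟩ := succG_spec hu
  · rw [← hl]
    exact (mem_mates.1 h1).1
  · obtain ⟨v, hv, hne, e⟩ := htwo u hu
    rcases h2 with h2 | h2
    · omega
    · have := h2 v (mem_mates.2 ⟨hv, e⟩)
      omega
  · exact hside _ (mem_mates.1 h1).1 _ hu (mem_mates.1 h1).2
  · rw [← hl] at hv
    rw [nxl_getD hv]
    intro e
    obtain ⟨h3, h4⟩ := succG_spec hv
    have e1 : gl.getD u 0 = gl.getD v 0 := by
      rw [← (mem_mates.1 h1).2, ← (mem_mates.1 h3).2, e]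
    have m1 : v ∈ mates gl u := mem_mates.2 ⟨hv, e1.symm⟩
    have m2 : u ∈ mates gl v := mem_mates.2 ⟨hu, e1⟩
    rcases h2 with h2 | h2 <;> rcases h4 with h4 | h4
    · have := h2.2 v m1
      have := h4.2 u m2
      omega
    · have := h4 u m2
      omega
    · have := h2 v m1
      omega
    · have := h2 v m1
      have := h4 u m2
      omega

theorem const_of_nxl {gl : List ℕ} {w : ℕ → ℕ}
    (h : ∀ u < gl.length, w ((nxl gl).getD u 0) = w u) :
    ∀ u < gl.length, ∀ v < gl.length, gl.getD u 0 = gl.getD v 0 → w u = w v := by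
  have key : ∀ n u, u < gl.length → gl.length - u ≤ n → ∀ m ∈ mates gl u,
      (∀ y ∈ mates gl u, m ≤ y) → w u = w m := by
    intro n
    induction n with
    | zero => intro u hu h0; omega
    | succ n ih =>
      intro u hu h0 m hm hmin
      obtain ⟨h1, h2⟩ := succG_spec hu
      rw [← h u hu, nxl_getD hu]
      have e : mates gl (succG gl u) = mates gl u := by
        simp only [mates, (mem_mates.1 h1).2]
      rcases h2 with h2 | h2
      · exact ih _ (mem_mates.1 h1).1 (by omega) m (e ▸ hm) (e ▸ hmin)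
      · rw [le_antisymm (h2 m hm).2 (hmin _ h1)]
  intro u hu v hv e
  obtain ⟨h1, h2⟩ := headD_le (pairwise_mates gl u) (mem_mates.2 ⟨hu, rfl⟩) 0
  have e' : mates gl v = mates gl u := by simp only [mates, e]
  exact (key _ u hu le_rfl _ h1 h2).trans
    (key _ v hv le_rfl _ (by rw [e']; exact h1) (by rw [e']; exact h2)).symm

theorem exists_digits {B : ℕ} (D : ℕ) : ∀ θ : ℕ → ℕ, (∀ v < D, θ v < B) →
    ∃ h < B ^ D, ∀ v < D, h / B ^ v % B = θ v := by
  induction D with
  | zero => intro θ _; exact ⟨0, by simp, by simp⟩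
  | succ D ih =>
    intro θ hθ
    obtain ⟨h, h1, h2⟩ := ih (fun v => θ (v + 1)) fun v hv => hθ _ (by omega)
    have h0 := hθ 0 (by omega)
    refine ⟨h * B + θ 0, ?_, fun v hv => ?_⟩
    · rw [pow_succ]
      exact MP_e16607_lc.lin_lt h1 h0
    · cases v with
      | zero => simpa using MP_e16607_lc.lin_mod (t := h) h0
      | succ v =>
        rw [pow_succ', ← Nat.div_div_eq_div_mul, MP_e16607_lc.lin_div h0]
        exact h2 v (by omega)

theorem exists_hist {M D : ℕ} {val : ℕ → ℕ} (hv : ∀ t < M, val t < D) :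
    ∃ h < (M + 1) ^ D, ∃ ρ : ℕ → ℕ, (∀ t < M, ρ t < M ∧
      ((List.range D).filter fun v => decide (h / (M + 1) ^ v % (M + 1) ≤ ρ t)).length = val t) ∧
      ∀ t < M, ∀ t' < M, ρ t = ρ t' → t = t' := by
  classical
  let S : ℕ → Finset ℕ := fun t =>
    (Finset.range M).filter fun x => val x < val t ∨ (val x = val t ∧ x < t)
  let Θ : ℕ → Finset ℕ := fun v => (Finset.range M).filter fun x => val x ≤ v
  obtain ⟨h, h1, h2⟩ := exists_digits (B := M + 1) D (fun v => (Θ v).card) fun v _ =>
    Nat.lt_succ_of_le ((Finset.card_filter_le _ _).trans (by simp))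
  have hlt : ∀ t < M, ∀ U : Finset ℕ, t ∈ U → S t ⊆ U → (S t).card < U.card := fun t _ U hU hs =>
    Finset.card_lt_card ⟨hs, fun h => by simpa [S] using h hU⟩
  refine ⟨h, h1, fun t => (S t).card, fun t ht => ⟨?_, ?_⟩, fun t ht t' ht' e => ?_⟩
  · simpa using hlt t ht (Finset.range M) (by simpa using ht) (Finset.filter_subset _ _)
  · rw [← MP_e16607_lc.length_filter_lt (hv t ht).le]
    congr 1
    refine List.filter_congr fun v hv' => ?_
    rw [h2 v (List.mem_range.1 hv'), decide_eq_decide]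
    constructor
    · intro hle
      by_contra hc
      have := hlt t ht (Θ v) (by simp only [Θ, Finset.mem_filter, Finset.mem_range]; omega)
        (fun x hx => by simp only [S, Θ, Finset.mem_filter, Finset.mem_range] at hx ⊢; omega)
      dsimp only at hle
      omega
    · intro hlt'
      exact Finset.card_le_card fun x hx => by
        simp only [S, Θ, Finset.mem_filter, Finset.mem_range] at hx ⊢; omega
  · by_contra hne
    have aux : ∀ t < M, ∀ t' < M, (val t < val t' ∨ (val t = val t' ∧ t < t')) →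
        (S t).card < (S t').card := fun t ht t' _ h => hlt t ht (S t')
      (by simp only [S, Finset.mem_filter, Finset.mem_range]; omega)
      (fun x hx => by simp only [S, Finset.mem_filter, Finset.mem_range] at hx ⊢; omega)
    have a1 := aux t ht t' ht'
    have a2 := aux t' ht' t ht
    dsimp only at e
    omega

end Pool.Agent.MP_eb915b_lc

end

section

/-! From satisfiability to slot configurations. -/

set_option autoImplicit false

namespace Pool.Agent.MP_eb915b_lc

open MP_e16607_lc (lin_lt lin_div lin_mod)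

/-- A formula in conjunctive normal form. -/
abbrev Cnf := List (List (ℕ × Bool))

/-- A power, capped at `T`. -/
def cpw (T b e : ℕ) : ℕ := min (b ^ e) T

/-- Digit `v` of `h` in base `B`. -/
def dig (T B h v : ℕ) : ℕ := h / cpw T B v % B

theorem dig_eq {T B h v D : ℕ} (hB : 0 < B) (hT : B ^ D ≤ T) (hv : v ≤ D) :
    dig T B h v = h / B ^ v % B := by
  rw [dig, cpw, min_eq_left ((Nat.pow_le_pow_right hB hv).trans hT)]

/-- The literal at position `e % 3` of clause `e / 3`. -/
def lit (φ : Cnf) (e : ℕ) : ℕ × Bool := (φ.getD (e / 3) []).getD (e % 3) (0, false)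

/-- The pair of groups of an occurrence. -/
def pairOf (φ : Cnf) (s e : ℕ) : ℕ := (lit φ e).1 / s ^ 3 * s + e / (3 * s ^ 3)

/-- The occurrences belonging to a pair of groups. -/
def occ (φ : Cnf) (s q : ℕ) : List ℕ :=
  (List.range (3 * s ^ 4)).filter fun e => decide (pairOf φ s e = q)

/-- The chunks. -/
def chunks (φ : Cnf) (s d : ℕ) : List (ℕ × ℕ) :=
  (List.range (s * s)).flatMap fun q =>
    (List.range ((occ φ s q).length / d + 1)).map fun i => (q, i)

/-- The groups of the columns. -/
def groups (φ : Cnf) (s d : ℕ) : List ℕ :=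
  (chunks φ s d).map (fun c => c.1 / s) ++ (chunks φ s d).map (fun c => s + c.1 % s)

/-- The class of a slot. -/
def cls (T M s h j : ℕ) : ℕ :=
  ((List.range s).filter fun v => decide (dig T (M + 1) h v ≤ j)).length

/-- The value `x` of a chunk agrees with the window `a` of a group of variables. -/
def AvX (φ : Cnf) (s d T : ℕ) (c : ℕ × ℕ) (a x : ℕ) : Prop :=
  ∀ l < d, c.2 * d + l < (occ φ s c.1).length →
    dig T 2 x l = dig T 2 a ((lit φ ((occ φ s c.1).getD (c.2 * d + l) 0)).1 % s ^ 3)

/-- The window `b` satisfies all clauses of group `y`. -/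
def Fine (φ : Cnf) (s T y b : ℕ) : Prop :=
  ∀ C < φ.length, C / s ^ 3 = y → ∃ p < (φ.getD C []).length,
    dig T 2 b ((3 * C + p) % (3 * s ^ 3)) = cond (lit φ (3 * C + p)).2 1 0

/-- The value `x` of a chunk agrees with the window `b` of a group of clauses. -/
def AvY (φ : Cnf) (s d T : ℕ) (c : ℕ × ℕ) (b x : ℕ) : Prop :=
  Fine φ s T (c.1 % s) b ∧ ∀ l < d, c.2 * d + l < (occ φ s c.1).length →
    dig T 2 x l = dig T 2 b ((occ φ s c.1).getD (c.2 * d + l) 0 % (3 * s ^ 3))

instance (φ : Cnf) (s d T : ℕ) (c : ℕ × ℕ) (a x : ℕ) : Decidable (AvX φ s d T c a x) := by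
  unfold AvX; infer_instance

instance (φ : Cnf) (s T y b : ℕ) : Decidable (Fine φ s T y b) := by
  unfold Fine; infer_instance

instance (φ : Cnf) (s d T : ℕ) (c : ℕ × ℕ) (a x : ℕ) : Decidable (AvY φ s d T c a x) := by
  unfold AvY; infer_instance

/-- The available triples of a column, a window and a slot. -/
def avail (φ : Cnf) (s d T h : ℕ) : List (ℕ × ℕ × ℕ) :=
  (prd (List.range (2 * (chunks φ s d).length)) (prd (List.range (cpw T 2 (3 * s ^ 3)))
    (List.range (chunks φ s d).length))).filter fun t =>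
      if t.1 < (chunks φ s d).length then
        decide (AvX φ s d T ((chunks φ s d).getD t.1 (0, 0)) t.2.1
          (cls T (chunks φ s d).length s h t.2.2))
      else decide (AvY φ s d T ((chunks φ s d).getD (t.1 - (chunks φ s d).length) (0, 0)) t.2.1
          (cls T (chunks φ s d).length s h t.2.2))

variable {φ : Cnf} {s d T : ℕ}

theorem mem_chunks {c : ℕ × ℕ} :
    c ∈ chunks φ s d ↔ c.1 < s * s ∧ c.2 ≤ (occ φ s c.1).length / d := by
  obtain ⟨q, i⟩ := c
  simp only [chunks, List.mem_flatMap, List.mem_range, List.mem_map, Prod.mk.injEq]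
  constructor
  · rintro ⟨q', h1, i', h2, rfl, rfl⟩
    exact ⟨h1, by omega⟩
  · rintro ⟨h1, h2⟩
    exact ⟨q, h1, i, by omega, rfl, rfl⟩

theorem getD_mem {α : Type} {l : List α} {t : ℕ} (h : t < l.length) (x : α) : l.getD t x ∈ l := by
  rw [List.getD_eq_getElem _ _ h]
  exact List.getElem_mem h

theorem exists_getD {α : Type} {l : List α} {c : α} (h : c ∈ l) (x : α) :
    ∃ t < l.length, l.getD t x = c := by
  obtain ⟨t, ht, rfl⟩ := List.getElem_of_mem h
  exact ⟨t, ht, List.getD_eq_getElem _ _ ht⟩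

theorem length_groups : (groups φ s d).length = 2 * (chunks φ s d).length := by
  simp [groups]; omega

theorem groups_left {t : ℕ} (h : t < (chunks φ s d).length) :
    (groups φ s d).getD t 0 = ((chunks φ s d).getD t (0, 0)).1 / s := by
  rw [groups, List.getD_append _ _ _ _ (by simpa using h)]
  simp [List.getD_eq_getElem?_getD, h]

theorem groups_right {t : ℕ} (h : t < (chunks φ s d).length) :
    (groups φ s d).getD ((chunks φ s d).length + t) 0 =
      s + ((chunks φ s d).getD t (0, 0)).1 % s := by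
  rw [groups, List.getD_append_right _ _ _ _ (by simp)]
  simp [List.getD_eq_getElem?_getD, h]

theorem groups_lt {t : ℕ} (h : t < (chunks φ s d).length) : (groups φ s d).getD t 0 < s := by
  rw [groups_left h]
  exact Nat.div_lt_of_lt_mul (mem_chunks.1 (getD_mem h (0, 0))).1

theorem good_groups (hs : 2 ≤ s) : Good (chunks φ s d).length (nxl (groups φ s d)) := by
  have hcase : ∀ u < 2 * (chunks φ s d).length, u < (chunks φ s d).length ∨
      ∃ t < (chunks φ s d).length, u = (chunks φ s d).length + t := fun u hu => by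
    by_cases h : u < (chunks φ s d).length
    · exact Or.inl h
    · exact Or.inr ⟨u - (chunks φ s d).length, by omega, by omega⟩
  have hch : ∀ x < s, ∀ y < s, ∃ t < (chunks φ s d).length,
      (chunks φ s d).getD t (0, 0) = (x * s + y, 0) := fun x hx y hy =>
    exists_getD (mem_chunks.2 ⟨lin_lt hx hy, Nat.zero_le _⟩) _
  refine good_nxl length_groups (fun u hu v hv e => ?_) (fun u hu => ?_)
  · rcases hcase u hu with h | ⟨t, ht, rfl⟩ <;> rcases hcase v hv with h' | ⟨t', ht', rfl⟩
    · simp [h, h']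
    · have := groups_lt h
      rw [groups_right ht'] at e
      omega
    · have := groups_lt h'
      rw [groups_right ht] at e
      omega
    · simp
  · rcases hcase u hu with h | ⟨t, ht, rfl⟩
    · obtain ⟨a, ha, ea⟩ := hch _ (groups_lt h) 0 (by omega)
      obtain ⟨b, hb, eb⟩ := hch _ (groups_lt h) 1 (by omega)
      have hab : a ≠ b := fun e => by rw [e, eb] at ea; simp at ea
      have ga : (groups φ s d).getD a 0 = (groups φ s d).getD u 0 := by
        rw [groups_left ha, ea]; exact lin_div (by omega)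
      have gb : (groups φ s d).getD b 0 = (groups φ s d).getD u 0 := by
        rw [groups_left hb, eb]; exact lin_div (by omega)
      by_cases e : a = u
      · exact ⟨b, by omega, by omega, gb⟩
      · exact ⟨a, by omega, e, ga⟩
    · have hy : ((chunks φ s d).getD t (0, 0)).1 % s < s := Nat.mod_lt _ (by omega)
      obtain ⟨a, ha, ea⟩ := hch 0 (by omega) _ hy
      obtain ⟨b, hb, eb⟩ := hch 1 (by omega) _ hy
      have hab : a ≠ b := fun e => by rw [e, eb] at ea; simp at ea; omega
      have ga : (groups φ s d).getD ((chunks φ s d).length + a) 0 =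
          (groups φ s d).getD ((chunks φ s d).length + t) 0 := by
        rw [groups_right ha, groups_right ht, ea, lin_mod hy]
      have gb : (groups φ s d).getD ((chunks φ s d).length + b) 0 =
          (groups φ s d).getD ((chunks φ s d).length + t) 0 := by
        rw [groups_right hb, groups_right ht, eb, lin_mod hy]
      by_cases e : a = t
      · exact ⟨_, by omega, by omega, gb⟩
      · exact ⟨_, by omega, by omega, ga⟩

theorem length_chunks : (chunks φ s d).length * d ≤ 3 * s ^ 4 + s * s * d := by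
  have h1 : (sortBy (pairOf φ s) (s * s) (List.range (3 * s ^ 4))).length ≤ 3 * s ^ 4 := by
    have hn : (sortBy (pairOf φ s) (s * s) (List.range (3 * s ^ 4))).Nodup := by
      rw [sortBy, List.nodup_flatMap]
      refine ⟨fun _ _ => List.nodup_range.filter _, List.nodup_range.imp fun {a b} h => ?_⟩
      simp only [Function.onFun, List.disjoint_left, List.mem_filter, decide_eq_true_eq]
      rintro x ⟨-, h1⟩ ⟨-, h2⟩
      exact h (h1.symm.trans h2)
    simpa using (List.subperm_of_subset hn fun x hx => (mem_sortBy.1 hx).1).length_le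
  have h2 : ∀ L : List ℕ, (L.flatMap fun q =>
      (List.range ((occ φ s q).length / d + 1)).map fun i => (q, i)).length * d ≤
      (L.flatMap (occ φ s)).length + L.length * d := by
    intro L
    induction L with
    | nil => simp
    | cons q L ih =>
      simp only [List.flatMap_cons, List.length_append, List.length_map, List.length_range,
        List.length_cons, add_mul, one_mul]
      have := Nat.div_mul_le_self (occ φ s q).length d
      omega
  have h3 := h2 (List.range (s * s))
  rw [List.length_range] at h3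
  exact h3.trans (Nat.add_le_add_right h1 _)

theorem mem_avail_left {h t a j : ℕ} (ht : t < (chunks φ s d).length) :
    (t, a, j) ∈ avail φ s d T h ↔ a < cpw T 2 (3 * s ^ 3) ∧ j < (chunks φ s d).length ∧
      AvX φ s d T ((chunks φ s d).getD t (0, 0)) a (cls T (chunks φ s d).length s h j) := by
  have : t < 2 * (chunks φ s d).length := by omega
  simp only [avail, List.mem_filter, mem_prd, List.mem_range, ht, if_true, decide_eq_true_eq,
    this, true_and, and_assoc]

theorem mem_avail_right {h t a j : ℕ} (ht : t < (chunks φ s d).length) :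
    ((chunks φ s d).length + t, a, j) ∈ avail φ s d T h ↔
      a < cpw T 2 (3 * s ^ 3) ∧ j < (chunks φ s d).length ∧
      AvY φ s d T ((chunks φ s d).getD t (0, 0)) a (cls T (chunks φ s d).length s h j) := by
  have h1 : (chunks φ s d).length + t < 2 * (chunks φ s d).length := by omega
  have h2 : ¬ (chunks φ s d).length + t < (chunks φ s d).length := by omega
  simp only [avail, List.mem_filter, mem_prd, List.mem_range, h1, h2, if_false, decide_eq_true_eq,
    true_and, and_assoc, Nat.add_sub_cancel_left]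

theorem lit_eq {C p : ℕ} (hp : p < 3) : lit φ (3 * C + p) = (φ.getD C []).getD p (0, false) := by
  rw [lit, show (3 * C + p) / 3 = C by omega, show (3 * C + p) % 3 = p by omega]

theorem div_group {C p : ℕ} (hp : p < 3) : (3 * C + p) / (3 * s ^ 3) = C / s ^ 3 := by
  rw [← Nat.div_div_eq_div_mul, show (3 * C + p) / 3 = C by omega]

theorem occ_facts {q e : ℕ} (he : e ∈ occ φ s q) :
    q / s = (lit φ e).1 / s ^ 3 ∧ q % s = e / (3 * s ^ 3) := by
  simp only [occ, List.mem_filter, List.mem_range, decide_eq_true_eq] at he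
  have h1 : e / (3 * s ^ 3) < s := Nat.div_lt_of_lt_mul (by rw [mul_assoc, ← pow_succ]; exact he.1)
  rw [← he.2, pairOf]
  exact ⟨lin_div h1, lin_mod h1⟩

theorem sat_of_msrp (hs : 2 ≤ s) (hd : 0 < d) (hlen : φ.length ≤ s ^ 4)
    (hφ : ∀ C ∈ φ, C.length ≤ 3 ∧ ∀ l ∈ C, l.1 < s ^ 4) {h : ℕ}
    (H : MSRp (sq1 (chunks φ s d).length (cpw T 2 (3 * s ^ 3)) (nxl (groups φ s d))
      (avail φ s d T h)) (sq2 (chunks φ s d).length (cpw T 2 (3 * s ^ 3)) (avail φ s d T h))
      (16 * (chunks φ s d).length + 2)) :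
    ∃ σ : ℕ → Bool, ∀ C ∈ φ, ∃ l ∈ C, σ l.1 = l.2 := by
  classical
  obtain ⟨w, hw, hj⟩ := slots_of_msrp (good_groups hs) H
  have hconst := const_of_nxl (gl := groups φ s d) (w := w)
    fun u hu => (hw u (by rwa [← length_groups])).2
  rw [length_groups] at hconst
  refine ⟨fun x => decide (∃ u < (chunks φ s d).length, (groups φ s d).getD u 0 = x / s ^ 3 ∧
    dig T 2 (w u) (x % s ^ 3) = 1), fun cl hcl => ?_⟩
  obtain ⟨C, hC, rfl⟩ := exists_getD hcl []
  have hy : C / s ^ 3 < s :=
    Nat.div_lt_of_lt_mul (by rw [← pow_succ]; exact hC.trans_le hlen)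
  obtain ⟨t0, ht0, e0⟩ := exists_getD (mem_chunks (φ := φ) (d := d) (c := (C / s ^ 3, 0)).2
    ⟨by nlinarith, Nat.zero_le _⟩) (0, 0)
  obtain ⟨j0, -, -, hj0⟩ := hj t0 ht0
  obtain ⟨p, hp, ep⟩ := ((mem_avail_right ht0).1 hj0).2.2.1 C hC
    (by rw [e0]; exact (Nat.mod_eq_of_lt hy).symm)
  have hp3 : p < 3 := hp.trans_le (hφ _ hcl).1
  have hl : lit φ (3 * C + p) ∈ φ.getD C [] := by rw [lit_eq hp3]; exact getD_mem hp _
  refine ⟨_, hl, ?_⟩
  have hx := (hφ _ hcl).2 _ hl
  have hmem : 3 * C + p ∈ occ φ s (pairOf φ s (3 * C + p)) := by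
    simp only [occ, List.mem_filter, List.mem_range, decide_eq_true_eq, and_true]
    omega
  obtain ⟨f1, f2⟩ := occ_facts hmem
  obtain ⟨m, hm, em⟩ := exists_getD hmem 0
  have hq : pairOf φ s (3 * C + p) < s * s :=
    lin_lt (Nat.div_lt_of_lt_mul (by rw [← pow_succ]; exact hx)) (by rwa [div_group hp3])
  obtain ⟨t, ht, et⟩ := exists_getD (mem_chunks (φ := φ) (d := d)
    (c := (pairOf φ s (3 * C + p), m / d)).2 ⟨hq, Nat.div_le_div_right hm.le⟩) (0, 0)
  obtain ⟨j, -, hj1, hj2⟩ := hj t ht
  have a1 := ((mem_avail_left ht).1 hj1).2.2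
  have a2 := ((mem_avail_right ht).1 hj2).2.2.2
  rw [et] at a1 a2
  have hmd : m / d * d + m % d = m := Nat.div_add_mod' m d
  have b1 := a1 (m % d) (Nat.mod_lt _ hd) (by rwa [hmd])
  have b2 := a2 (m % d) (Nat.mod_lt _ hd) (by rwa [hmd])
  dsimp only at b1 b2
  rw [hmd, em] at b1 b2
  have b3 : w ((chunks φ s d).length + t) = w ((chunks φ s d).length + t0) :=
    hconst _ (by omega) _ (by omega) (by
      rw [groups_right ht, groups_right ht0, et, e0, f2, div_group hp3, Nat.mod_eq_of_lt hy])
  rw [b3, ep, b1] at b2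
  have b4 : (groups φ s d).getD t 0 = (lit φ (3 * C + p)).1 / s ^ 3 := by
    rw [groups_left ht, et, f1]
  cases hb : (lit φ (3 * C + p)).2
  · rw [hb] at b2
    refine decide_eq_false fun ⟨u, hu, g1, g2⟩ => ?_
    rw [hconst u (by omega) t (by omega) (g1.trans b4.symm), b2] at g2
    simp at g2
  · rw [hb] at b2
    exact decide_eq_true ⟨t, ht, b4, b2⟩

theorem msrp_of_sat (hd : 0 < d) (hsd : s = 2 ^ d) (hφ : ∀ C ∈ φ, C.length ≤ 3)
    (hT : 2 ^ (3 * s ^ 3) ≤ T) (hT' : ((chunks φ s d).length + 1) ^ s ≤ T)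
    {σ : ℕ → Bool} (hσ : ∀ C ∈ φ, ∃ l ∈ C, σ l.1 = l.2) :
    ∃ h < ((chunks φ s d).length + 1) ^ s,
      MSRp (sq1 (chunks φ s d).length (cpw T 2 (3 * s ^ 3)) (nxl (groups φ s d))
      (avail φ s d T h)) (sq2 (chunks φ s d).length (cpw T 2 (3 * s ^ 3)) (avail φ s d T h))
      (16 * (chunks φ s d).length + 2) := by
  have hds : d < s := by rw [hsd]; exact Nat.lt_two_pow_self
  have hs : 2 ≤ s := by omega
  have hs3 : s ≤ s ^ 3 := Nat.le_self_pow (by omega) s
  have hW : cpw T 2 (3 * s ^ 3) = 2 ^ (3 * s ^ 3) := min_eq_left hT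
  have hb : ∀ x, cond (σ x) 1 0 < 2 := fun x => by cases σ x <;> simp
  choose A hA1 hA2 using fun r => exists_digits (3 * s ^ 3)
    (fun i => cond (σ (r * s ^ 3 + i)) 1 0) fun _ _ => hb _
  choose B hB1 hB2 using fun y => exists_digits (3 * s ^ 3)
    (fun i => cond (σ (lit φ (y * (3 * s ^ 3) + i)).1) 1 0) fun _ _ => hb _
  choose V hV1 hV2 using fun c : ℕ × ℕ => exists_digits d
    (fun l => cond (σ (lit φ ((occ φ s c.1).getD (c.2 * d + l) 0)).1) 1 0) fun _ _ => hb _
  obtain ⟨h, hh, ρ, hρ, hinj⟩ := exists_hist (M := (chunks φ s d).length) (D := s)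
    (val := fun t => V ((chunks φ s d).getD t (0, 0))) fun t _ => by rw [hsd]; exact hV1 _
  have hcls : ∀ t < (chunks φ s d).length, cls T (chunks φ s d).length s h (ρ t) =
      V ((chunks φ s d).getD t (0, 0)) := fun t ht => by
    rw [← (hρ t ht).2, cls]
    congr 1
    refine List.filter_congr fun v hv => ?_
    rw [dig_eq (Nat.succ_pos _) hT' (List.mem_range.1 hv).le]
  have dA : ∀ x, dig T 2 (A (x / s ^ 3)) (x % s ^ 3) = cond (σ x) 1 0 := fun x => by
    have : x % s ^ 3 < s ^ 3 := Nat.mod_lt _ (by omega)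
    rw [dig_eq two_pos hT (by omega), hA2 _ _ (by omega), Nat.div_add_mod']
  have dB : ∀ e, dig T 2 (B (e / (3 * s ^ 3))) (e % (3 * s ^ 3)) = cond (σ (lit φ e).1) 1 0 :=
    fun e => by
    have : e % (3 * s ^ 3) < 3 * s ^ 3 := Nat.mod_lt _ (by omega)
    rw [dig_eq two_pos hT this.le, hB2 _ _ this, Nat.div_add_mod']
  have dV : ∀ c, ∀ l < d, dig T 2 (V c) l =
      cond (σ (lit φ ((occ φ s c.1).getD (c.2 * d + l) 0)).1) 1 0 := fun c l hl => by
    rw [dig_eq two_pos hT (by omega), hV2 _ _ hl]
  let F : ℕ → ℕ := fun y => if y < s then A y else B (y - s)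
  have hg := good_groups (φ := φ) (d := d) hs
  refine ⟨h, hh, msrp_of_slots hg (w := fun u => F ((groups φ s d).getD u 0))
    (ρ := fun u => ρ (if u < (chunks φ s d).length then u else u - (chunks φ s d).length))
    ⟨fun u _ => ?_, fun u hu => ?_, fun u hu => (hρ _ (by split_ifs <;> omega)).1,
      fun u hu v hv e => ?_⟩ fun u hu => ?_⟩
  · rw [hW]
    simp only [F]
    split_ifs
    · exact hA1 _
    · exact hB1 _
  · rw [← length_groups] at hu
    rw [nxl_getD hu, (mem_mates.1 (succG_spec hu).1).2]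
  · have := hinj _ (by split_ifs <;> omega) _ (by split_ifs <;> omega) e
    split_ifs at this <;> omega
  · by_cases hu' : u < (chunks φ s d).length
    · have e : F ((groups φ s d).getD u 0) = A (((chunks φ s d).getD u (0, 0)).1 / s) := by
        simp only [F, groups_lt hu', if_true]
        rw [groups_left hu']
      rw [mem_avail_left hu', if_pos hu', hcls u hu', e, hW]
      refine ⟨hA1 _, (hρ u hu').1, fun l hl hlt => ?_⟩
      rw [dV _ l hl, (occ_facts (getD_mem hlt 0)).1, dA]
    · obtain ⟨t, rfl⟩ : ∃ t, u = (chunks φ s d).length + t := ⟨u - (chunks φ s d).length, by omega⟩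
      have ht : t < (chunks φ s d).length := by omega
      have e : F ((groups φ s d).getD ((chunks φ s d).length + t) 0) =
          B (((chunks φ s d).getD t (0, 0)).1 % s) := by
        rw [groups_right ht]
        simp [F]
      rw [mem_avail_right ht, if_neg hu', Nat.add_sub_cancel_left, hcls t ht, e, hW]
      refine ⟨hB1 _, (hρ t ht).1, fun C hC eC => ?_, fun l hl hlt => ?_⟩
      · obtain ⟨l, hl, el⟩ := hσ _ (getD_mem hC [])
        obtain ⟨p, hp, ep⟩ := exists_getD hl (0, false)
        have hp3 : p < 3 := hp.trans_le (hφ _ (getD_mem hC []))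
        refine ⟨p, hp, ?_⟩
        rw [← eC, ← div_group hp3, dB, lit_eq hp3, ep, el]
      · rw [dV _ l hl, (occ_facts (getD_mem hlt 0)).2, dB]

end Pool.Agent.MP_eb915b_lc

end

section

/-! The running time of the reduction from satisfiability, and its specification. -/

set_option autoImplicit false

open Pool.Agent.MP_2e8011_lc Pool.Agent.MP_e16607_lc Computability

namespace Pool.Agent.MP_eb915b_lc

/-- The name of a character. -/
def name4 (t : Q4) : ℕ := Nat.pair t.1 (Nat.pair t.2.1 (Nat.pair t.2.2.1 t.2.2.2))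

/-- The character with a given name. -/
def unname4 (c : ℕ) : Q4 :=
  (c.unpair.1, c.unpair.2.unpair.1, c.unpair.2.unpair.2.unpair.1, c.unpair.2.unpair.2.unpair.2)

theorem unname4_name4 (t : Q4) : unname4 (name4 t) = t := by
  simp [unname4, name4, Nat.unpair_pair]

theorem name4_inj : Function.Injective name4 := Function.LeftInverse.injective unname4_name4

/-- The instance of strip recovery attached to slot data. -/
def slotInst (M W : ℕ) (nx : List ℕ) (av : List (ℕ × ℕ × ℕ)) : List ℕ × List ℕ × ℕ :=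
  ((sq1 M W nx av).map name4, (sq2 M W av).map name4, 16 * M + 2)

/-- The list of instances, with all numbers in unary. -/
def satRed (φ : Cnf) (s d T : ℕ) : List (List ℕ × List ℕ × ℕ) :=
  (List.range (cpw T ((chunks φ s d).length + 1) s)).map fun h =>
    slotInst (chunks φ s d).length (cpw T 2 (3 * s ^ 3)) (nxl (groups φ s d)) (avail φ s d T h)

/-- The reduction. -/
def satReduction (x : Cnf × ℕ × List Bool) : List (List ℕ × List ℕ × ℕ) :=
  satRed (x.1.map fun C => C.map fun l => (min l.1 x.2.2.length, l.2))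
    (cpw x.2.2.length 2 (min x.2.1 x.2.2.length)) (min x.2.1 x.2.2.length) x.2.2.length

section time
variable {α : Type} [Enc α]

@[fun_prop] theorem pt_cpw {T b e : α → ℕ} (hT : PT T) (hb : PT b) (he : PT e) :
    PT (fun x => cpw (T x) (b x) (e x)) := by
  let g : α → ℕ → ℕ := fun x n => if n * b x ≤ T x then n * b x else T x
  have key : ∀ x i, (g x)^[i] (if 1 ≤ T x then 1 else T x) = cpw (T x) (b x) i := by
    intro x i
    induction i with
    | zero => simp only [Function.iterate_zero, id, cpw, pow_zero]; split_ifs <;> omega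
    | succ i ih =>
      rw [Function.iterate_succ_apply', ih]
      simp only [g, cpw, pow_succ]
      rcases le_total (b x ^ i) (T x) with h | h
      · rw [min_eq_left h]
        split_ifs <;> omega
      · rw [min_eq_right h]
        rcases Nat.eq_zero_or_pos (b x) with h0 | h0
        · simp [h0]
        · have h1 : T x ≤ T x * b x := Nat.le_mul_of_pos_right _ h0
          have h2 : T x * b x ≤ b x ^ i * b x := Nat.mul_le_mul_right _ h
          split_ifs <;> omega
  refine (PT.iterP (g := g) (by fun_prop) he (s := fun x => if 1 ≤ T x then 1 else T x)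
    (by fun_prop) hT.pb fun x i _ => ?_).congr fun x => key x _
  rw [key, sz_nat]
  exact min_le_right _ _

@[fun_prop] theorem pt_dig {T B h v : α → ℕ} (hT : PT T) (hB : PT B) (hh : PT h) (hv : PT v) :
    PT (fun x => dig (T x) (B x) (h x) (v x)) := by
  unfold dig
  fun_prop

@[fun_prop] theorem pt_lit {φ : α → Cnf} {e : α → ℕ} (hφ : PT φ) (he : PT e) :
    PT (fun x => lit (φ x) (e x)) := by
  unfold lit
  fun_prop

@[fun_prop] theorem pt_pairOf {φ : α → Cnf} {s e : α → ℕ} (hφ : PT φ) (hs : PT s) (he : PT e) :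
    PT (fun x => pairOf (φ x) (s x) (e x)) := by
  unfold pairOf
  fun_prop

@[fun_prop] theorem pt_occ {φ : α → Cnf} {s q : α → ℕ} (hφ : PT φ) (hs : PT s) (hq : PT q) :
    PT (fun x => occ (φ x) (s x) (q x)) := by
  unfold occ
  fun_prop

@[fun_prop] theorem pt_chunks {φ : α → Cnf} {s d : α → ℕ} (hφ : PT φ) (hs : PT s) (hd : PT d) :
    PT (fun x => chunks (φ x) (s x) (d x)) := by
  unfold chunks
  fun_prop

@[fun_prop] theorem pt_groups {φ : α → Cnf} {s d : α → ℕ} (hφ : PT φ) (hs : PT s) (hd : PT d) :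
    PT (fun x => groups (φ x) (s x) (d x)) := by
  unfold groups
  fun_prop

@[fun_prop] theorem pt_cls {T M s h j : α → ℕ} (hT : PT T) (hM : PT M) (hs : PT s) (hh : PT h)
    (hj : PT j) : PT (fun x => cls (T x) (M x) (s x) (h x) (j x)) := by
  unfold cls
  fun_prop

@[fun_prop] theorem pt_AvX {φ : α → Cnf} {s d T a y : α → ℕ} {c : α → ℕ × ℕ}
    {i : ∀ x, Decidable (AvX (φ x) (s x) (d x) (T x) (c x) (a x) (y x))} (hφ : PT φ) (hs : PT s)
    (hd : PT d) (hT : PT T) (hc : PT c) (ha : PT a) (hy : PT y) :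
    PT (fun x => @decide (AvX (φ x) (s x) (d x) (T x) (c x) (a x) (y x)) (i x)) := by
  unfold AvX
  fun_prop

@[fun_prop] theorem pt_Fine {φ : α → Cnf} {s T y b : α → ℕ}
    {i : ∀ x, Decidable (Fine (φ x) (s x) (T x) (y x) (b x))} (hφ : PT φ) (hs : PT s)
    (hT : PT T) (hy : PT y) (hb : PT b) :
    PT (fun x => @decide (Fine (φ x) (s x) (T x) (y x) (b x)) (i x)) := by
  unfold Fine
  fun_prop

@[fun_prop] theorem pt_AvY {φ : α → Cnf} {s d T a y : α → ℕ} {c : α → ℕ × ℕ}
    {i : ∀ x, Decidable (AvY (φ x) (s x) (d x) (T x) (c x) (a x) (y x))} (hφ : PT φ) (hs : PT s)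
    (hd : PT d) (hT : PT T) (hc : PT c) (ha : PT a) (hy : PT y) :
    PT (fun x => @decide (AvY (φ x) (s x) (d x) (T x) (c x) (a x) (y x)) (i x)) := by
  unfold AvY
  fun_prop

@[fun_prop] theorem pt_avail {φ : α → Cnf} {s d T h : α → ℕ} (hφ : PT φ) (hs : PT s) (hd : PT d)
    (hT : PT T) (hh : PT h) : PT (fun x => avail (φ x) (s x) (d x) (T x) (h x)) := by
  unfold avail
  fun_prop

@[fun_prop] theorem pt_mates {gl : α → List ℕ} {u : α → ℕ} (hg : PT gl) (hu : PT u) :
    PT (fun x => mates (gl x) (u x)) := by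
  unfold mates
  fun_prop

@[fun_prop] theorem pt_succG {gl : α → List ℕ} {u : α → ℕ} (hg : PT gl) (hu : PT u) :
    PT (fun x => succG (gl x) (u x)) := by
  unfold succG
  fun_prop

@[fun_prop] theorem pt_nxl {gl : α → List ℕ} (hg : PT gl) : PT (fun x => nxl (gl x)) :=
  PT.map (f := fun x u => succG (gl x) u) (by fun_prop) (by fun_prop)

@[fun_prop] theorem pt_k1 {M W : α → ℕ} {nx : α → List ℕ} {t : α → Q4} (hM : PT M) (hW : PT W)
    (hn : PT nx) (ht : PT t) : PT (fun x => k1 (M x) (W x) (nx x) (t x)) := by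
  unfold k1 cX x1 x2
  fun_prop

@[fun_prop] theorem pt_k2 {M W : α → ℕ} {t : α → Q4} (hM : PT M) (hW : PT W) (ht : PT t) :
    PT (fun x => k2 (M x) (W x) (t x)) := by
  unfold k2 rY y1 y2 y3
  fun_prop

theorem pt_decide_ite {p q r : α → Prop} [DecidablePred p] [DecidablePred q] [DecidablePred r]
    {i : ∀ x, Decidable (if p x then q x else r x)} (hp : PT fun x => decide (p x))
    (hq : PT fun x => decide (q x)) (hr : PT fun x => decide (r x)) :
    PT (fun x => @decide (if p x then q x else r x) (i x)) :=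
  (PT.ite hp hq hr).congr fun x => by by_cases h : p x <;> simp [h]

@[fun_prop] theorem pt_Bx {M W : α → ℕ} {t : α → Q4} {i : ∀ x, Decidable (Bx (M x) (W x) (t x))}
    (hM : PT M) (hW : PT W) (ht : PT t) :
    PT (fun x => @decide (Bx (M x) (W x) (t x)) (i x)) := by
  unfold Bx
  exact PT.decide_and (by fun_prop) (PT.decide_and
    (pt_decide_ite (by fun_prop) (by fun_prop) (by fun_prop)) (PT.decide_and
    (pt_decide_ite (by fun_prop) (by fun_prop) (by fun_prop))
    (pt_decide_ite (by fun_prop) (by fun_prop) (by fun_prop))))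

@[fun_prop] theorem pt_qts {M W : α → ℕ} {av : α → List (ℕ × ℕ × ℕ)} (hM : PT M) (hW : PT W)
    (ha : PT av) : PT (fun x => qts (M x) (W x) (av x)) := by
  unfold qts
  fun_prop

@[fun_prop] theorem pt_slotInst {M W : α → ℕ} {nx : α → List ℕ} {av : α → List (ℕ × ℕ × ℕ)}
    (hM : PT M) (hW : PT W) (hn : PT nx) (ha : PT av) :
    PT (fun x => slotInst (M x) (W x) (nx x) (av x)) := by
  have hb : PT (fun x => bd (M x) (W x)) := by
    unfold bd
    fun_prop
  have h1 : PT (fun x => sq1 (M x) (W x) (nx x) (av x)) :=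
    pt_sortBy (κ := fun x t => k1 (M x) (W x) (nx x) t) (by fun_prop) hb (by fun_prop)
  have h2 : PT (fun x => sq2 (M x) (W x) (av x)) :=
    pt_sortBy (κ := fun x t => k2 (M x) (W x) t) (by fun_prop) hb (by fun_prop)
  have h4 : ∀ {l : α → List Q4}, PT l → PT (fun x => (l x).map name4) := fun hl =>
    PT.map (f := fun _ t => name4 t) (by unfold name4; fun_prop) hl
  exact (h4 h1).prodMk ((h4 h2).prodMk (by fun_prop))

theorem pt_satRed {φ : α → Cnf} {s d T : α → ℕ} (hφ : PT φ) (hs : PT s) (hd : PT d) (hT : PT T) :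
    PT (fun x => satRed (φ x) (s x) (d x) (T x)) := by
  unfold satRed
  fun_prop

end time

/-- An instance with its numbers written in binary. -/
def instRaw (y : List ℕ × List ℕ × ℕ) : List Raw × List Raw × Raw :=
  (y.1.map binRaw, y.2.1.map binRaw, binRaw y.2.2)

theorem pt_instRaw : PT instRaw := by
  have h : ∀ {l : List ℕ × List ℕ × ℕ → List ℕ}, PT l →
      PT (fun x => (l x).map binRaw) := fun hl =>
    PT.map (f := fun _ t => binRaw t) (pt_binRaw (by fun_prop)) hl
  exact (h (by fun_prop)).prodMk ((h (by fun_prop)).prodMk (pt_binRaw (by fun_prop)))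

theorem isPolyTime_satReduction : N68a2faeb.IsPolyTime satReduction := by
  refine isPolyTime_of_PT
    (fun x : Cnf × ℕ × List Bool =>
      (x.1.map (List.map fun l : ℕ × Bool => (binRaw l.1, l.2)), binRaw x.2.1, x.2.2))
    (List.map instRaw)
    (fun x => bitEncode_prod
      (bitEncode_list (bitEncode_list (ι := fun l : ℕ × Bool => (binRaw l.1, l.2))
        (bitEncode_prod bitEncode_nat (κ := fun b : Bool => b) agree_bool)))
      (κ := fun z : ℕ × List Bool => (binRaw z.1, z.2))
      (bitEncode_prod bitEncode_nat (κ := fun b : List Bool => b) (agree_list agree_bool)) x)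
    (bitEncode_list (ι := instRaw) (bitEncode_prod (bitEncode_list bitEncode_nat)
      (κ := fun z : List ℕ × ℕ => (z.1.map binRaw, binRaw z.2))
      (bitEncode_prod (bitEncode_list bitEncode_nat) bitEncode_nat)))
    (g := fun x : List (List (Raw × Bool)) × Raw × List Bool =>
      (satRed (x.1.map fun C => C.map fun l => (min (val l.1.bits) x.2.2.length, l.2))
        (cpw x.2.2.length 2 (min (val x.2.1.bits) x.2.2.length))
        (min (val x.2.1.bits) x.2.2.length) x.2.2.length).map instRaw) ?_ fun x => ?_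
  · have hd : PT fun x : List (List (Raw × Bool)) × Raw × List Bool =>
        min (val x.2.1.bits) x.2.2.length := pt_min_val (by fun_prop) (by fun_prop)
    refine PT.map (f := fun _ y => instRaw y) (pt_instRaw.comp (by fun_prop))
      (pt_satRed ?_ (pt_cpw (by fun_prop) (by fun_prop) hd) hd (by fun_prop))
    refine PT.map (f := fun (x : List (List (Raw × Bool)) × Raw × List Bool)
      (C : List (Raw × Bool)) => C.map fun l => (min (val l.1.bits) x.2.2.length, l.2)) ?_
      (PT.fst PT.id)
    refine PT.map (f := fun (p : (List (List (Raw × Bool)) × Raw × List Bool) × List (Raw × Bool))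
      (l : Raw × Bool) => (min (val l.1.bits) p.1.2.2.length, l.2)) ?_ (PT.snd PT.id)
    exact (pt_min_val (by fun_prop) (by fun_prop)).prodMk (by fun_prop)
  · simp only [binRaw, val_encodeNat, satReduction, List.map_map, Function.comp_def]

theorem satReduction_spec {d : ℕ} (hd : 1 ≤ d) {φ : Cnf} {pad : List Bool}
    (hlen : φ.length ≤ 16 ^ d) (hφ : ∀ C ∈ φ, C.length ≤ 3 ∧ ∀ l ∈ C, l.1 < 16 ^ d)
    (hT : 2 ^ (3 * 8 ^ d) ≤ pad.length) :
    (∀ I ∈ satReduction (φ, d, pad),
      I.1.Nodup ∧ I.1.Perm I.2.1 ∧ I.2.2 * d ≤ 66 * 16 ^ d) ∧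
    ((∃ σ : ℕ → Bool, ∀ C ∈ φ, ∃ l ∈ C, σ l.1 = l.2) ↔
      ∃ I ∈ satReduction (φ, d, pad), MSR I.1 I.2.1 I.2.2) := by
  obtain ⟨s, hsd⟩ : ∃ s, s = 2 ^ d := ⟨_, rfl⟩
  have e3 : 8 ^ d = s ^ 3 := by rw [hsd, ← pow_mul, mul_comm, pow_mul]; norm_num
  have e4 : 16 ^ d = s ^ 4 := by rw [hsd, ← pow_mul, mul_comm, pow_mul]; norm_num
  rw [e4] at hlen hφ ⊢
  rw [e3] at hT
  have hds : d < s := by rw [hsd]; exact Nat.lt_two_pow_self
  have hs : 2 ≤ s := by omega
  have hs3 : s ≤ s ^ 3 := Nat.le_self_pow (by omega) s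
  have hpow : ∀ m ≤ 3 * s ^ 3, 2 ^ m ≤ pad.length := fun m hm =>
    (Nat.pow_le_pow_right two_pos hm).trans hT
  have hexp : (4 * d + 3) * s ≤ 3 * s ^ 3 := by
    have : 4 * d + 3 ≤ 3 * s ^ 2 := by nlinarith
    calc (4 * d + 3) * s ≤ 3 * s ^ 2 * s := Nat.mul_le_mul_right _ this
      _ = 3 * s ^ 3 := by ring
  have hN : s ^ 4 = 2 ^ (4 * d) := by rw [hsd, ← pow_mul, mul_comm]
  have hNT : s ^ 4 ≤ pad.length := by
    rw [hN]
    exact hpow _ (by nlinarith)
  have hdT : min d pad.length = d :=
    min_eq_left (hds.le.trans ((Nat.le_self_pow (by omega) s).trans hNT))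
  have hsT : cpw pad.length 2 d = s := by
    rw [cpw, ← hsd]
    exact min_eq_left ((Nat.le_self_pow (by omega) s).trans hNT)
  have hφ' : (φ.map fun C => C.map fun l => (min l.1 pad.length, l.2)) = φ := by
    conv_rhs => rw [← List.map_id φ]
    refine List.map_congr_left fun C hC => ?_
    conv_rhs => rw [id, ← List.map_id C]
    refine List.map_congr_left fun l hl => ?_
    rw [min_eq_left (((hφ C hC).2 l hl).le.trans hNT)]
    rfl
  have hM := length_chunks (φ := φ) (s := s) (d := d)
  have h1 : s * s * d ≤ s ^ 4 := by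
    calc s * s * d ≤ s * s * (s * s) := Nat.mul_le_mul_left _ (by nlinarith)
      _ = s ^ 4 := by ring
  have hM' : (chunks φ s d).length + 1 ≤ 2 ^ (4 * d + 3) := by
    have := Nat.le_mul_of_pos_right (chunks φ s d).length hd
    have h2 : 0 < s ^ 4 := by positivity
    rw [pow_add, ← hN]
    omega
  have hT' : ((chunks φ s d).length + 1) ^ s ≤ pad.length :=
    (Nat.pow_le_pow_left hM' s).trans (by rw [← pow_mul]; exact hpow _ hexp)
  have hg := good_groups (φ := φ) (d := d) hs
  simp only [satReduction, hdT, hsT, hφ', satRed, List.mem_map, List.mem_range]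
  rw [show cpw pad.length ((chunks φ s d).length + 1) s = _ from min_eq_left hT']
  refine ⟨?_, fun ⟨σ, hσ⟩ => ?_, ?_⟩
  · rintro I ⟨h, -, rfl⟩
    refine ⟨(nodup_of_key (pairwise_sq1 hg)).map name4_inj, (perm_sq hg).map _, ?_⟩
    have h2 : d ≤ s ^ 4 := hds.le.trans (Nat.le_self_pow (by omega) s)
    simp only [slotInst, add_mul, mul_assoc]
    rw [mul_assoc] at hM h1
    omega
  · obtain ⟨h, hh, H⟩ := msrp_of_sat hd hsd (fun C hC => (hφ C hC).1) hT hT' hσ
    exact ⟨_, ⟨h, hh, rfl⟩, (msr_map_iff unname4_name4 _ _ _).2 H⟩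
  · rintro ⟨I, ⟨h, -, rfl⟩, H⟩
    exact sat_of_msrp hs hd hlen hφ ((msr_map_iff unname4_name4 _ _ _).1 H)

end Pool.Agent.MP_eb915b_lc

end
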