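import Pool.Agent.MP_eb915b_lc.KerDefs
import Pool.Agent.Mg.Xeb915b.G8b3df9
import Pool.Agent.Mg.F2e8011.G61890f
import Pool.Agent.Mg.F2e8011.G2c7daa

section

/-! Tight packings of strips in a grid all of whose cells are decreasing. -/

set_option autoImplicit false

namespace Pool.Agent.MP_eb915b_lc.Ker

open Pool.Agent.MP_eb915b_lc

variable {α β : Type}

theorem MSR.map (f : α → β) {G₁ G₂ : List α} {k : ℕ} (h : MSR G₁ G₂ k) :
    MSR (G₁.map f) (G₂.map f) k := by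
  obtain ⟨S₁, S₂, h1, h2, ⟨P₁, P₂, rfl, rfl, p2, hl⟩, hk⟩ := h
  refine ⟨_, _, h1.map f, h2.map f,
    ⟨P₁.map (List.map f), P₂.map (List.map f), ?_, ?_, p2.map _, ?_⟩, by rwa [List.length_map]⟩
  · rw [List.map_flatten]
  · rw [List.map_flatten]
  · intro s hs
    obtain ⟨t, ht, rfl⟩ := List.mem_map.1 hs
    simpa using hl t ht

theorem msr_map_iff {f : α → β} {g : β → α} (hg : ∀ a, g (f a) = a) (G₁ G₂ : List α)
    (k : ℕ) : MSR (G₁.map f) (G₂.map f) k ↔ MSR G₁ G₂ k := by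
  refine ⟨fun h => ?_, fun h => h.map f⟩
  have := h.map g
  simpa [List.map_map, Function.comp_def, hg] using this

theorem msr_of_pairs {κ₁ κ₂ : α → ℕ} {G₁ G₂ : List α}
    (h₁ : G₁.Pairwise fun a b => κ₁ a < κ₁ b) (h₂ : G₂.Pairwise fun a b => κ₂ a < κ₂ b)
    (m₂ : ∀ x ∈ G₁, x ∈ G₂) {m : ℕ} {R : List (α × α)} (hk : m ≤ 2 * R.length)
    (hm : ∀ p ∈ R, p.1 ∈ G₁ ∧ p.2 ∈ G₁ ∧ κ₁ p.1 < κ₁ p.2 ∧ κ₂ p.1 < κ₂ p.2)
    (hs : R.Pairwise fun p q => Sep κ₁ p q ∧ Sep κ₂ p q) : MSR G₁ G₂ m := by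
  obtain ⟨Q₁, p1, s1⟩ := exists_arrange κ₁ h₁ (P := R)
    (fun p hp => ⟨(hm p hp).1, (hm p hp).2.1, (hm p hp).2.2.1⟩) (hs.imp fun h => h.1)
  obtain ⟨Q₂, p2, s2⟩ := exists_arrange κ₂ h₂ (P := R)
    (fun p hp => ⟨m₂ _ (hm p hp).1, m₂ _ (hm p hp).2.1, (hm p hp).2.2.2⟩)
    (hs.imp fun h => h.2)
  refine ⟨_, _, s1, s2, ⟨Q₁, Q₂, rfl, rfl, p1.symm.trans p2, fun s hs => ?_⟩, ?_⟩
  · obtain ⟨p, -, rfl⟩ := List.mem_map.1 (p1.symm.subset hs)
    simp [pl]
  · rw [← p1.flatten.length_eq, length_flatten_pl]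
    exact hk

theorem exists_last {r : α → α → Prop} (w : α → ℕ) (t : List α) :
    ∀ a b : α, (a :: b :: t).Pairwise (fun x y => r x y ∧ w x < w y) →
      ∃ c ∈ b :: t, r a c ∧ w a + t.length + 1 ≤ w c := by
  induction t with
  | nil =>
    intro a b h
    have := List.rel_of_pairwise_cons h List.mem_cons_self
    exact ⟨b, List.mem_cons_self, this.1, by simp; omega⟩
  | cons c t ih =>
    intro a b h
    obtain ⟨d, hd, -, h2⟩ := ih b c (List.Pairwise.of_cons h)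
    have h3 := List.rel_of_pairwise_cons h List.mem_cons_self
    have h4 := List.rel_of_pairwise_cons h (List.mem_cons_of_mem _ hd)
    exact ⟨d, List.mem_cons_of_mem _ hd, h4.1, by simp; omega⟩

open Classical in
theorem card_cover (f g : β → ℕ) (L : ℕ) (I : List β) (hI : ∀ p ∈ I, g p ≤ L)
    (hs : I.Pairwise fun p q => g p ≤ f q ∨ g q ≤ f p) :
    ((Finset.range L).filter fun l => ∃ p ∈ I, f p ≤ l ∧ l < g p).card =
      (I.map fun p => g p - f p).sum := by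
  induction I with
  | nil => simp
  | cons p I ih =>
    have h1 := ih (fun q hq => hI q (List.mem_cons_of_mem _ hq)) (List.Pairwise.of_cons hs)
    have h2 := hI p List.mem_cons_self
    have e : ((Finset.range L).filter fun l => ∃ q ∈ p :: I, f q ≤ l ∧ l < g q) =
        Finset.Ico (f p) (g p) ∪ (Finset.range L).filter fun l => ∃ q ∈ I, f q ≤ l ∧ l < g q := by
      ext l
      simp only [Finset.mem_filter, Finset.mem_range, List.mem_cons, exists_eq_or_imp,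
        Finset.mem_union, Finset.mem_Ico]
      constructor
      · rintro ⟨h3, h4 | h4⟩
        · exact Or.inl h4
        · exact Or.inr ⟨h3, h4⟩
      · rintro (h4 | ⟨h3, h4⟩)
        · exact ⟨by omega, Or.inl h4⟩
        · exact ⟨h3, Or.inr h4⟩
    rw [e, Finset.card_union_of_disjoint, h1, Nat.card_Ico, List.map_cons, List.sum_cons]
    rw [Finset.disjoint_left]
    intro l hl hl'
    obtain ⟨-, q, hq, h5⟩ := Finset.mem_filter.1 hl'
    have h6 := List.rel_of_pairwise_cons hs hq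
    rw [Finset.mem_Ico] at hl
    omega

theorem sum_le_of_sep (f g : β → ℕ) (L : ℕ) (I : List β) (hI : ∀ p ∈ I, g p ≤ L)
    (hs : I.Pairwise fun p q => g p ≤ f q ∨ g q ≤ f p) :
    (I.map fun p => g p - f p).sum ≤ L ∧
      (L ≤ (I.map fun p => g p - f p).sum → ∀ l < L, ∃ p ∈ I, f p ≤ l ∧ l < g p) := by
  classical
  rw [← card_cover f g L I hI hs]
  refine ⟨(Finset.card_filter_le _ _).trans (by simp), fun h l hl => ?_⟩
  have := Finset.eq_of_subset_of_card_le (Finset.filter_subset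
    (fun l => ∃ p ∈ I, f p ≤ l ∧ l < g p) (Finset.range L)) (by simpa using h)
  have h2 : l ∈ Finset.range L := Finset.mem_range.2 hl
  rw [← this] at h2
  exact (Finset.mem_filter.1 h2).2

theorem length_le_sum (f : β → ℕ) (I : List β) (h : ∀ p ∈ I, 1 ≤ f p) :
    I.length ≤ (I.map f).sum ∧ ((I.map f).sum ≤ I.length → ∀ p ∈ I, f p = 1) := by
  induction I with
  | nil => simp
  | cons p I ih =>
    obtain ⟨h1, h2⟩ := ih fun q hq => h q (List.mem_cons_of_mem _ hq)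
    have h3 := h p List.mem_cons_self
    simp only [List.length_cons, List.map_cons, List.sum_cons, List.mem_cons, forall_eq_or_imp]
    exact ⟨by omega, fun h4 => ⟨by omega, h2 (by omega)⟩⟩

theorem sum_map_le_add (f g h : β → ℕ) (I : List β) (e : ∀ p ∈ I, f p ≤ g p + h p + 1) :
    (I.map f).sum ≤ (I.map g).sum + (I.map h).sum + I.length := by
  induction I with
  | nil => simp
  | cons p I ih =>
    have h1 := ih fun q hq => e q (List.mem_cons_of_mem _ hq)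
    have h3 := e p List.mem_cons_self
    simp only [List.length_cons, List.map_cons, List.sum_cons]
    omega

/-- In a solution of the largest conceivable length every grid line is crossed by a pair that
crosses no other line. -/
theorem tight [Inhabited α] {κ₁ κ₂ col row : α → ℕ} {G₁ G₂ : List α} {Lx Ly : ℕ}
    (h₁ : G₁.Pairwise fun a b => κ₁ a < κ₁ b) (h₂ : G₂.Pairwise fun a b => κ₂ a < κ₂ b)
    (hc : ∀ a ∈ G₁, ∀ b ∈ G₁, κ₁ a < κ₁ b → col a ≤ col b)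
    (hr : ∀ a ∈ G₁, ∀ b ∈ G₁, κ₂ a < κ₂ b → row a ≤ row b)
    (hL : ∀ a ∈ G₁, col a ≤ Lx ∧ row a ≤ Ly)
    (hcell : ∀ a ∈ G₁, ∀ b ∈ G₁, κ₁ a < κ₁ b → κ₂ a < κ₂ b → col a = col b → row a = row b → False)
    (h : MSR G₁ G₂ (2 * (Lx + Ly))) :
    ∃ R : List (α × α), (∀ p ∈ R, p.1 ∈ G₁ ∧ p.2 ∈ G₁ ∧ κ₁ p.1 < κ₁ p.2 ∧ κ₂ p.1 < κ₂ p.2) ∧
      (∀ p ∈ R, ∀ q ∈ R, p ≠ q → Sep κ₁ p q ∧ Sep κ₂ p q) ∧
      (∀ l < Lx, ∃ p ∈ R, col p.1 = l ∧ col p.2 = l + 1 ∧ row p.1 = row p.2) ∧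
      (∀ l < Ly, ∃ p ∈ R, row p.1 = l ∧ row p.2 = l + 1 ∧ col p.1 = col p.2) := by
  obtain ⟨S₁, S₂, s1, s2, ⟨P₁, P₂, rfl, rfl, p2, hl⟩, hk⟩ := h
  obtain ⟨a1, b1⟩ := of_arrange κ₁ h₁ (List.Perm.refl P₁) s1
  obtain ⟨a2, b2⟩ := of_arrange κ₂ h₂ p2 s2
  have hmem : ∀ s ∈ P₁, ∀ x ∈ s, x ∈ G₁ := fun s hs x hx =>
    s1.subset (List.mem_flatten.2 ⟨s, hs, hx⟩)
  have hpair : ∀ s ∈ P₁, ∃ p : α × α, p.1 ∈ s ∧ p.2 ∈ s ∧ (κ₁ p.1 < κ₁ p.2 ∧ κ₂ p.1 < κ₂ p.2) ∧
      col p.1 + row p.1 + s.length ≤ col p.2 + row p.2 + 1 := by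
    intro s hs
    have e0 := hl s hs
    have e1 : s.Pairwise fun x y => (κ₁ x < κ₁ y ∧ κ₂ x < κ₂ y) ∧
        col x + row x < col y + row y := by
      refine ((a1 s hs).and (a2 s hs)).imp_of_mem fun {x y} hx hy h => ⟨h, ?_⟩
      have c1 := hc x (hmem s hs x hx) y (hmem s hs y hy) h.1
      have c2 := hr x (hmem s hs x hx) y (hmem s hs y hy) h.2
      have c3 := hcell x (hmem s hs x hx) y (hmem s hs y hy) h.1 h.2
      by_contra c4
      exact c3 (by omega) (by omega)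
    match s, e0, e1 with
    | x :: y :: t, _, e1 =>
      obtain ⟨c, hc, h1, h2⟩ := exists_last (fun x => col x + row x) t x y e1
      exact ⟨(x, c), List.mem_cons_self, List.mem_cons_of_mem _ hc, h1, by simp; omega⟩
  choose! f f1 f2 f3 f4 using hpair
  have g1 : ∀ s ∈ P₁, (f s).1 ∈ G₁ := fun s hs => hmem s hs _ (f1 s hs)
  have g2 : ∀ s ∈ P₁, (f s).2 ∈ G₁ := fun s hs => hmem s hs _ (f2 s hs)
  have hsep : P₁.Pairwise fun s t => Sep κ₁ (f s) (f t) ∧ Sep κ₂ (f s) (f t) := by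
    refine (b1.and b2).imp_of_mem fun {s t} hs ht h => ⟨?_, ?_⟩
    · exact h.1.imp (fun h => h _ (f2 s hs) _ (f1 t ht)) (fun h => h _ (f2 t ht) _ (f1 s hs))
    · exact h.2.imp (fun h => h _ (f2 s hs) _ (f1 t ht)) (fun h => h _ (f2 t ht) _ (f1 s hs))
  obtain ⟨x1, x2⟩ := sum_le_of_sep (fun s => col (f s).1) (fun s => col (f s).2) Lx P₁
    (fun s hs => (hL _ (g2 s hs)).1) (hsep.imp_of_mem fun {s t} hs ht h =>
      h.1.imp (hc _ (g2 s hs) _ (g1 t ht)) (hc _ (g2 t ht) _ (g1 s hs)))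
  obtain ⟨y1, y2⟩ := sum_le_of_sep (fun s => row (f s).1) (fun s => row (f s).2) Ly P₁
    (fun s hs => (hL _ (g2 s hs)).2) (hsep.imp_of_mem fun {s t} hs ht h =>
      h.2.imp (hr _ (g2 s hs) _ (g1 t ht)) (hr _ (g2 t ht) _ (g1 s hs)))
  have c1 : ∀ s ∈ P₁, col (f s).1 ≤ col (f s).2 := fun s hs =>
    hc _ (g1 s hs) _ (g2 s hs) (f3 s hs).1
  have c2 : ∀ s ∈ P₁, row (f s).1 ≤ row (f s).2 := fun s hs =>
    hr _ (g1 s hs) _ (g2 s hs) (f3 s hs).2
  have z1 := sum_map_le_add List.length (fun s => col (f s).2 - col (f s).1)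
    (fun s => row (f s).2 - row (f s).1) P₁ fun s hs => by
      have := f4 s hs; have := c1 s hs; have := c2 s hs; omega
  obtain ⟨z2, z3⟩ := length_le_sum
    (fun s => (col (f s).2 - col (f s).1) + (row (f s).2 - row (f s).1)) P₁ fun s hs => by
      have := f4 s hs; have := c1 s hs; have := c2 s hs; have := hl s hs; omega
  rw [List.sum_map_add] at z2 z3
  rw [List.length_flatten] at hk
  have z4 := z3 (by omega)
  refine ⟨P₁.map f, fun p hp => ?_, ?_, fun l hl => ?_, fun l hl => ?_⟩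
  · obtain ⟨s, hs, rfl⟩ := List.mem_map.1 hp
    exact ⟨g1 s hs, g2 s hs, f3 s hs⟩
  · have : (P₁.map f).Pairwise fun p q => Sep κ₁ p q ∧ Sep κ₂ p q := List.pairwise_map.2 hsep
    intro p hp q hq hpq
    have hsymm : Std.Symm fun p q : α × α => Sep κ₁ p q ∧ Sep κ₂ p q :=
      ⟨fun _ _ h => ⟨h.1.symm, h.2.symm⟩⟩
    exact List.Pairwise.forall this hp hq hpq
  · obtain ⟨s, hs, h1, h2⟩ := x2 (by omega) l hl
    have := z4 s hs; have := c1 s hs; have := c2 s hs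
    exact ⟨f s, List.mem_map_of_mem hs, by omega, by omega, by omega⟩
  · obtain ⟨s, hs, h1, h2⟩ := y2 (by omega) l hl
    have := z4 s hs; have := c1 s hs; have := c2 s hs
    exact ⟨f s, List.mem_map_of_mem hs, by omega, by omega, by omega⟩

end Pool.Agent.MP_eb915b_lc.Ker

end

section

/-! The point configuration attached to a layered digraph. -/

set_option autoImplicit false
set_option linter.unusedSimpArgs false

namespace Pool.Agent.MP_eb915b_lc.Ker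

open Pool.Agent.MP_eb915b_lc

/-- A character: its kind and three coordinates. -/
abbrev Pq := ℕ × ℕ × ℕ × ℕ

/-- Five digits. -/
abbrev D5 := ℕ × ℕ × ℕ × ℕ × ℕ

/-- The digits of the position in the first sequence; the first digit is the column. -/
def dX (K : ℕ) (a : Pq) : D5 :=
  if a.1 = 0 then (2 * a.2.1, 2, a.2.2.2, 1, a.2.2.1)
  else if a.1 = 1 then (2 * a.2.1 + 1, 1, 0, 0, a.2.2.1)
  else if a.1 = 2 then (2 * a.2.1, 1, 0, 0, a.2.2.1)
  else if a.1 = 3 then (2 * a.2.1, 2, a.2.2.2, 0, a.2.2.1)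
  else if a.1 = 4 then (a.2.1, 3, 0, 0, 0)
  else if a.1 = 5 then (a.2.1 + 1, 0, 0, 0, 0)
  else if a.1 = 6 then (2 * K + 1, 1, 2 * K + 1 - a.2.1, 0, 0)
  else (2 * K + 1, 1, 2 * K + 1 - a.2.1, 1, 0)

/-- The digits of the position in the second sequence; the first digit is the row. -/
def dY (K T : ℕ) (a : Pq) : D5 :=
  if a.1 = 0 then (2 * a.2.2.1 + 1, 0, T - a.2.2.2, 1, a.2.1)
  else if a.1 = 1 then (2 * a.2.2.1 + 1, 1, 0, 0, a.2.1)
  else if a.1 = 2 then (2 * a.2.2.1, 1, 0, 0, a.2.1)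
  else if a.1 = 3 then (2 * a.2.2.1 + 1, 0, T - a.2.2.2, 0, a.2.1)
  else if a.1 = 4 then (2 * K + 1, 1, 2 * K + 1 - a.2.1, 0, 0)
  else if a.1 = 5 then (2 * K + 1, 1, 2 * K + 1 - a.2.1, 1, 0)
  else if a.1 = 6 then (a.2.1, 2, 0, 0, 0)
  else (a.2.1 + 1, 0, 0, 0, 0)

section ev
variable (K T c r t : ℕ)
theorem dX0 : dX K (0, c, r, t) = (2 * c, 2, t, 1, r) := rfl
theorem dX1 : dX K (1, c, r, t) = (2 * c + 1, 1, 0, 0, r) := rfl
theorem dX2 : dX K (2, c, r, t) = (2 * c, 1, 0, 0, r) := rfl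
theorem dX3 : dX K (3, c, r, t) = (2 * c, 2, t, 0, r) := rfl
theorem dX4 : dX K (4, c, r, t) = (c, 3, 0, 0, 0) := rfl
theorem dX5 : dX K (5, c, r, t) = (c + 1, 0, 0, 0, 0) := rfl
theorem dX6 : dX K (6, c, r, t) = (2 * K + 1, 1, 2 * K + 1 - c, 0, 0) := rfl
theorem dX7 : dX K (7, c, r, t) = (2 * K + 1, 1, 2 * K + 1 - c, 1, 0) := rfl
theorem dY0 : dY K T (0, c, r, t) = (2 * r + 1, 0, T - t, 1, c) := rfl
theorem dY1 : dY K T (1, c, r, t) = (2 * r + 1, 1, 0, 0, c) := rfl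
theorem dY2 : dY K T (2, c, r, t) = (2 * r, 1, 0, 0, c) := rfl
theorem dY3 : dY K T (3, c, r, t) = (2 * r + 1, 0, T - t, 0, c) := rfl
theorem dY4 : dY K T (4, c, r, t) = (2 * K + 1, 1, 2 * K + 1 - c, 0, 0) := rfl
theorem dY5 : dY K T (5, c, r, t) = (2 * K + 1, 1, 2 * K + 1 - c, 1, 0) := rfl
theorem dY6 : dY K T (6, c, r, t) = (c, 2, 0, 0, 0) := rfl
theorem dY7 : dY K T (7, c, r, t) = (c + 1, 0, 0, 0, 0) := rfl
end ev

/-- Lexicographic comparison. -/
def Lx (d e : D5) : Prop :=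
  d.1 < e.1 ∨ (d.1 = e.1 ∧ (d.2.1 < e.2.1 ∨ (d.2.1 = e.2.1 ∧ (d.2.2.1 < e.2.2.1 ∨
    (d.2.2.1 = e.2.2.1 ∧ (d.2.2.2.1 < e.2.2.2.1 ∨
      (d.2.2.2.1 = e.2.2.2.1 ∧ d.2.2.2.2 < e.2.2.2.2)))))))

/-- The number with the given digits. -/
def num (W : ℕ) (d : D5) : ℕ := rad W d.1 d.2.1 d.2.2.1 d.2.2.2.1 d.2.2.2.2

/-- All digits are small. -/
def Sm (W : ℕ) (d : D5) : Prop :=
  d.1 < W ∧ d.2.1 < W ∧ d.2.2.1 < W ∧ d.2.2.2.1 < W ∧ d.2.2.2.2 < W

theorem num_lt {W : ℕ} {d e : D5} (hd : Sm W d) (he : Sm W e) : num W d < num W e ↔ Lx d e :=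
  rad5_lt hd.2.1 hd.2.2.1 hd.2.2.2.1 hd.2.2.2.2 he.2.1 he.2.2.1 he.2.2.2.1 he.2.2.2.2

theorem num_bound {W : ℕ} {d : D5} (hd : Sm W d) : num W d < rad W W 0 0 0 0 :=
  rad5_bound hd.1 hd.2.1 hd.2.2.1 hd.2.2.2.1 hd.2.2.2.2

/-- The base of the digits. -/
def bs (K T : ℕ) : ℕ := 2 * K + T + 5

/-- Position in the first sequence. -/
def qx (K T : ℕ) (a : Pq) : ℕ := num (bs K T) (dX K a)

/-- Position in the second sequence. -/
def qy (K T : ℕ) (a : Pq) : ℕ := num (bs K T) (dY K T a)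

/-- The characters in use. -/
def Ok (K T : ℕ) (A : ℕ → ℕ → ℕ → Bool) (a : Pq) : Prop :=
  (∃ c r t, a = (0, c, r, t) ∧ c < K ∧ r < K ∧ t < T ∧ c ≠ r ∧ A c r t = true) ∨
  (∃ c r, a = (1, c, r, 0) ∧ c < K ∧ r < K ∧ c ≠ r) ∨
  (∃ c, a = (2, c, c, 0) ∧ c < K) ∨
  (∃ c t, a = (3, c, c, t) ∧ c < K ∧ t < T) ∨
  (∃ l, a = (4, l, 0, 0) ∧ l ≤ 2 * K ∧ (l % 2 = 1 ∨ l = 2 * K)) ∨
  (∃ l, a = (5, l, 0, 0) ∧ l ≤ 2 * K ∧ (l % 2 = 1 ∨ l = 2 * K)) ∨
  (∃ l, a = (6, l, 0, 0) ∧ l ≤ 2 * K ∧ (l % 2 = 1 ∨ l = 2 * K)) ∨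
  (∃ l, a = (7, l, 0, 0) ∧ l ≤ 2 * K ∧ (l % 2 = 1 ∨ l = 2 * K))

/-- The test for the characters in use. -/
def okq (K T : ℕ) (A : ℕ → ℕ → ℕ → Bool) (a : Pq) : Bool :=
  if a.1 = 0 then
    decide (a.2.1 < K ∧ a.2.2.1 < K ∧ a.2.2.2 < T ∧ a.2.1 ≠ a.2.2.1) && A a.2.1 a.2.2.1 a.2.2.2
  else if a.1 = 1 then decide (a.2.1 < K ∧ a.2.2.1 < K ∧ a.2.2.2 = 0 ∧ a.2.1 ≠ a.2.2.1)
  else if a.1 = 2 then decide (a.2.1 < K ∧ a.2.2.1 = a.2.1 ∧ a.2.2.2 = 0)
  else if a.1 = 3 then decide (a.2.1 < K ∧ a.2.2.1 = a.2.1 ∧ a.2.2.2 < T)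
  else decide (a.2.2.1 = 0 ∧ a.2.2.2 = 0 ∧ (a.2.1 % 2 = 1 ∨ a.2.1 = 2 * K))

/-- The list of characters. -/
def qts (K T : ℕ) (A : ℕ → ℕ → ℕ → Bool) : List Pq :=
  (prd (List.range 8) (prd (List.range (2 * K + 1))
    (prd (List.range (K + 1)) (List.range (T + 1))))).filter (okq K T A)

theorem nodup_qts (K T : ℕ) (A : ℕ → ℕ → ℕ → Bool) : (qts K T A).Nodup :=
  (nodup_prd List.nodup_range (nodup_prd List.nodup_range
    (nodup_prd List.nodup_range List.nodup_range))).filter _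

variable {K T : ℕ} {A : ℕ → ℕ → ℕ → Bool}

theorem mem_qts {a : Pq} : a ∈ qts K T A ↔ Ok K T A a := by
  obtain ⟨s, c, r, t⟩ := a
  simp only [qts, List.mem_filter, mem_prd, List.mem_range]
  constructor
  · rintro ⟨⟨h1, h2, h3, h4⟩, h⟩
    unfold okq at h
    interval_cases s <;> simp at h
    · exact Or.inl ⟨c, r, t, rfl, h.1.1, h.1.2.1, h.1.2.2.1, h.1.2.2.2, h.2⟩
    · obtain ⟨e1, e2, rfl, e3⟩ := h
      exact Or.inr (Or.inl ⟨c, r, rfl, e1, e2, e3⟩)
    · obtain ⟨e1, rfl, rfl⟩ := h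
      exact Or.inr (Or.inr (Or.inl ⟨_, rfl, e1⟩))
    · obtain ⟨e1, rfl, e2⟩ := h
      exact Or.inr (Or.inr (Or.inr (Or.inl ⟨_, t, rfl, e1, e2⟩)))
    · obtain ⟨rfl, rfl, e⟩ := h
      exact Or.inr (Or.inr (Or.inr (Or.inr (Or.inl ⟨c, rfl, by omega, e⟩))))
    · obtain ⟨rfl, rfl, e⟩ := h
      exact Or.inr (Or.inr (Or.inr (Or.inr (Or.inr (Or.inl ⟨c, rfl, by omega, e⟩)))))
    · obtain ⟨rfl, rfl, e⟩ := h
      exact Or.inr (Or.inr (Or.inr (Or.inr (Or.inr (Or.inr (Or.inl ⟨c, rfl, by omega, e⟩))))))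
    · obtain ⟨rfl, rfl, e⟩ := h
      exact Or.inr (Or.inr (Or.inr (Or.inr (Or.inr (Or.inr (Or.inr ⟨c, rfl, by omega, e⟩))))))
  · rintro (⟨c, r, t, e, h⟩ | ⟨c, r, e, h⟩ | ⟨c, e, h⟩ | ⟨c, t, e, h⟩ | ⟨l, e, h⟩ | ⟨l, e, h⟩ |
      ⟨l, e, h⟩ | ⟨l, e, h⟩) <;>
      simp only [Prod.mk.injEq] at e <;> obtain ⟨rfl, rfl, rfl, rfl⟩ := e <;>
      refine ⟨by omega, ?_⟩ <;> simp [okq, h]

theorem Ok.smX {a : Pq} (h : Ok K T A a) : Sm (bs K T) (dX K a) := by
  rcases h with (⟨c, r, t, rfl, h⟩ | ⟨c, r, rfl, h⟩ | ⟨c, rfl, h⟩ | ⟨c, t, rfl, h⟩ | ⟨l, rfl, h⟩ |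
      ⟨l, rfl, h⟩ | ⟨l, rfl, h⟩ | ⟨l, rfl, h⟩) <;>
    simp only [Sm, bs, dX0, dX1, dX2, dX3, dX4, dX5, dX6, dX7] <;> omega

theorem Ok.smY {a : Pq} (h : Ok K T A a) : Sm (bs K T) (dY K T a) := by
  rcases h with (⟨c, r, t, rfl, h⟩ | ⟨c, r, rfl, h⟩ | ⟨c, rfl, h⟩ | ⟨c, t, rfl, h⟩ | ⟨l, rfl, h⟩ |
      ⟨l, rfl, h⟩ | ⟨l, rfl, h⟩ | ⟨l, rfl, h⟩) <;>
    simp only [Sm, bs, dY0, dY1, dY2, dY3, dY4, dY5, dY6, dY7] <;> omega

theorem qx_lt {a b : Pq} (ha : Ok K T A a) (hb : Ok K T A b) :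
    qx K T a < qx K T b ↔ Lx (dX K a) (dX K b) := num_lt ha.smX hb.smX

theorem qy_lt {a b : Pq} (ha : Ok K T A a) (hb : Ok K T A b) :
    qy K T a < qy K T b ↔ Lx (dY K T a) (dY K T b) := num_lt ha.smY hb.smY

theorem qx_inj {a b : Pq} (ha : Ok K T A a) (hb : Ok K T A b) (e : qx K T a = qx K T b) :
    a = b := by
  have h1 : ¬ Lx (dX K a) (dX K b) := by rw [← qx_lt ha hb]; omega
  have h2 : ¬ Lx (dX K b) (dX K a) := by rw [← qx_lt hb ha]; omega
  clear e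
  rcases ha with (⟨c, r, t, rfl, h⟩ | ⟨c, r, rfl, h⟩ | ⟨c, rfl, h⟩ | ⟨c, t, rfl, h⟩ | ⟨l, rfl, h⟩ |
      ⟨l, rfl, h⟩ | ⟨l, rfl, h⟩ | ⟨l, rfl, h⟩) <;>
  rcases hb with (⟨c', r', t', rfl, h'⟩ | ⟨c', r', rfl, h'⟩ | ⟨c', rfl, h'⟩ | ⟨c', t', rfl, h'⟩ |
      ⟨l', rfl, h'⟩ | ⟨l', rfl, h'⟩ | ⟨l', rfl, h'⟩ | ⟨l', rfl, h'⟩) <;>
    simp only [Lx, true_and, and_false, lt_self_iff_false, false_or, or_false,
      dX0, dX1, dX2, dX3, dX4, dX5, dX6, dX7] at h1 h2 <;>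
    simp only [Prod.mk.injEq, true_and, and_true] <;> omega

theorem qy_inj {a b : Pq} (ha : Ok K T A a) (hb : Ok K T A b) (e : qy K T a = qy K T b) :
    a = b := by
  have h1 : ¬ Lx (dY K T a) (dY K T b) := by rw [← qy_lt ha hb]; omega
  have h2 : ¬ Lx (dY K T b) (dY K T a) := by rw [← qy_lt hb ha]; omega
  clear e
  rcases ha with (⟨c, r, t, rfl, h⟩ | ⟨c, r, rfl, h⟩ | ⟨c, rfl, h⟩ | ⟨c, t, rfl, h⟩ | ⟨l, rfl, h⟩ |
      ⟨l, rfl, h⟩ | ⟨l, rfl, h⟩ | ⟨l, rfl, h⟩) <;>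
  rcases hb with (⟨c', r', t', rfl, h'⟩ | ⟨c', r', rfl, h'⟩ | ⟨c', rfl, h'⟩ | ⟨c', t', rfl, h'⟩ |
      ⟨l', rfl, h'⟩ | ⟨l', rfl, h'⟩ | ⟨l', rfl, h'⟩ | ⟨l', rfl, h'⟩) <;>
    simp only [Lx, true_and, and_false, lt_self_iff_false, false_or, or_false,
      dY0, dY1, dY2, dY3, dY4, dY5, dY6, dY7] at h1 h2 <;>
    simp only [Prod.mk.injEq, true_and, and_true] <;> omega

theorem cell_dec {a b : Pq} (ha : Ok K T A a) (hb : Ok K T A b) (h1 : Lx (dX K a) (dX K b))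
    (h2 : Lx (dY K T a) (dY K T b)) (h3 : (dX K a).1 = (dX K b).1)
    (h4 : (dY K T a).1 = (dY K T b).1) : False := by
  rcases ha with (⟨c, r, t, rfl, h⟩ | ⟨c, r, rfl, h⟩ | ⟨c, rfl, h⟩ | ⟨c, t, rfl, h⟩ | ⟨l, rfl, h⟩ |
      ⟨l, rfl, h⟩ | ⟨l, rfl, h⟩ | ⟨l, rfl, h⟩) <;>
  rcases hb with (⟨c', r', t', rfl, h'⟩ | ⟨c', r', rfl, h'⟩ | ⟨c', rfl, h'⟩ | ⟨c', t', rfl, h'⟩ |
      ⟨l', rfl, h'⟩ | ⟨l', rfl, h'⟩ | ⟨l', rfl, h'⟩ | ⟨l', rfl, h'⟩) <;>
    simp only [Lx, true_and, and_false, lt_self_iff_false, false_or, or_false,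
      dX0, dX1, dX2, dX3, dX4, dX5, dX6, dX7, dY0, dY1, dY2, dY3, dY4, dY5, dY6,
      dY7] at h1 h2 h3 h4 <;> omega

theorem hline {a b : Pq} (ha : Ok K T A a) (hb : Ok K T A b) {u : ℕ} (hu : u < K)
    (h2 : Lx (dY K T a) (dY K T b)) (h3 : (dX K a).1 = 2 * u) (h3' : (dX K b).1 = 2 * u + 1)
    (h4 : (dY K T a).1 = (dY K T b).1) :
    ∃ r t, a = (0, u, r, t) ∧ b = (1, u, r, 0) ∧ r < K ∧ t < T ∧ u ≠ r ∧ A u r t = true := by
  rcases ha with (⟨c, r, t, rfl, h⟩ | ⟨c, r, rfl, h⟩ | ⟨c, rfl, h⟩ | ⟨c, t, rfl, h⟩ | ⟨l, rfl, h⟩ |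
      ⟨l, rfl, h⟩ | ⟨l, rfl, h⟩ | ⟨l, rfl, h⟩) <;>
  rcases hb with (⟨c', r', t', rfl, h'⟩ | ⟨c', r', rfl, h'⟩ | ⟨c', rfl, h'⟩ | ⟨c', t', rfl, h'⟩ |
      ⟨l', rfl, h'⟩ | ⟨l', rfl, h'⟩ | ⟨l', rfl, h'⟩ | ⟨l', rfl, h'⟩) <;>
    simp only [Lx, true_and, and_false, lt_self_iff_false, false_or, or_false,
      dX0, dX1, dX2, dX3, dX4, dX5, dX6, dX7, dY0, dY1, dY2, dY3, dY4, dY5, dY6,
      dY7] at h2 h3 h3' h4 <;> first | omega | skip
  obtain rfl : c = u := by omega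
  obtain rfl : c' = c := by omega
  obtain rfl : r' = r := by omega
  exact ⟨_, _, rfl, rfl, h.2⟩

theorem vline {a b : Pq} (ha : Ok K T A a) (hb : Ok K T A b) {u : ℕ} (hu : u < K)
    (h2 : Lx (dX K a) (dX K b)) (h3 : (dY K T a).1 = 2 * u) (h3' : (dY K T b).1 = 2 * u + 1)
    (h4 : (dX K a).1 = (dX K b).1) :
    ∃ t, a = (2, u, u, 0) ∧ b = (3, u, u, t) ∧ t < T := by
  rcases ha with (⟨c, r, t, rfl, h⟩ | ⟨c, r, rfl, h⟩ | ⟨c, rfl, h⟩ | ⟨c, t, rfl, h⟩ | ⟨l, rfl, h⟩ |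
      ⟨l, rfl, h⟩ | ⟨l, rfl, h⟩ | ⟨l, rfl, h⟩) <;>
  rcases hb with (⟨c', r', t', rfl, h'⟩ | ⟨c', r', rfl, h'⟩ | ⟨c', rfl, h'⟩ | ⟨c', t', rfl, h'⟩ |
      ⟨l', rfl, h'⟩ | ⟨l', rfl, h'⟩ | ⟨l', rfl, h'⟩ | ⟨l', rfl, h'⟩) <;>
    simp only [Lx, true_and, and_false, lt_self_iff_false, false_or, or_false,
      dX0, dX1, dX2, dX3, dX4, dX5, dX6, dX7, dY0, dY1, dY2, dY3, dY4, dY5, dY6,
      dY7] at h2 h3 h3' h4 <;> first | omega | skip
  obtain rfl : c = u := by omega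
  obtain rfl : c' = c := by omega
  exact ⟨_, rfl, rfl, h'.2⟩

end Pool.Agent.MP_eb915b_lc.Ker

end

section

/-! Tight strip packings correspond to layered cycle covers. -/

set_option autoImplicit false
set_option linter.unusedSimpArgs false

namespace Pool.Agent.MP_eb915b_lc.Ker

open Pool.Agent.MP_eb915b_lc

/-- A cycle cover of a layered digraph along which the layer never decreases. -/
def LCC (K T : ℕ) (A : ℕ → ℕ → ℕ → Bool) : Prop :=
  ∃ π lam : ℕ → ℕ, (∀ u < K, π u < K ∧ lam u < T ∧ u ≠ π u ∧ A u (π u) (lam u) = true ∧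
    lam u ≤ lam (π u)) ∧ ∀ u < K, ∀ v < K, π u = π v → u = v

/-- A bound for the positions. -/
def qb (K T : ℕ) : ℕ := rad (bs K T) (bs K T) 0 0 0 0

/-- The first sequence. -/
def sq1 (K T : ℕ) (A : ℕ → ℕ → ℕ → Bool) : List Pq := sortBy (qx K T) (qb K T) (qts K T A)

/-- The second sequence. -/
def sq2 (K T : ℕ) (A : ℕ → ℕ → ℕ → Bool) : List Pq := sortBy (qy K T) (qb K T) (qts K T A)

variable {K T : ℕ} {A : ℕ → ℕ → ℕ → Bool}

theorem mem_sq1 {a : Pq} : a ∈ sq1 K T A ↔ Ok K T A a := by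
  rw [sq1, mem_sortBy, mem_qts]
  exact ⟨fun h => h.1, fun h => ⟨h, num_bound h.smX⟩⟩

theorem mem_sq2 {a : Pq} : a ∈ sq2 K T A ↔ Ok K T A a := by
  rw [sq2, mem_sortBy, mem_qts]
  exact ⟨fun h => h.1, fun h => ⟨h, num_bound h.smY⟩⟩

theorem pairwise_sq1 : (sq1 K T A).Pairwise fun a b => qx K T a < qx K T b :=
  pairwise_sortBy _ (nodup_qts K T A) fun _ hx _ hy e => qx_inj (mem_qts.1 hx) (mem_qts.1 hy) e

theorem pairwise_sq2 : (sq2 K T A).Pairwise fun a b => qy K T a < qy K T b :=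
  pairwise_sortBy _ (nodup_qts K T A) fun _ hx _ hy e => qy_inj (mem_qts.1 hx) (mem_qts.1 hy) e

theorem perm_sq : (sq1 K T A).Perm (sq2 K T A) :=
  (List.perm_ext_iff_of_nodup (nodup_of_key pairwise_sq1) (nodup_of_key pairwise_sq2)).2
    fun _ => mem_sq1.trans mem_sq2.symm

theorem ok0 {c r t : ℕ} (h1 : c < K) (h2 : r < K) (h3 : t < T) (h4 : c ≠ r)
    (h5 : A c r t = true) : Ok K T A (0, c, r, t) := Or.inl ⟨c, r, t, rfl, h1, h2, h3, h4, h5⟩

theorem ok1 {c r : ℕ} (h1 : c < K) (h2 : r < K) (h4 : c ≠ r) : Ok K T A (1, c, r, 0) :=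
  Or.inr (Or.inl ⟨c, r, rfl, h1, h2, h4⟩)

theorem ok2 {c : ℕ} (h1 : c < K) : Ok K T A (2, c, c, 0) :=
  Or.inr (Or.inr (Or.inl ⟨c, rfl, h1⟩))

theorem ok3 {c t : ℕ} (h1 : c < K) (h2 : t < T) : Ok K T A (3, c, c, t) :=
  Or.inr (Or.inr (Or.inr (Or.inl ⟨c, t, rfl, h1, h2⟩)))

theorem ok4 {l : ℕ} (h1 : l ≤ 2 * K) (h2 : l % 2 = 1 ∨ l = 2 * K) : Ok K T A (4, l, 0, 0) :=
  Or.inr (Or.inr (Or.inr (Or.inr (Or.inl ⟨l, rfl, h1, h2⟩))))

theorem ok5 {l : ℕ} (h1 : l ≤ 2 * K) (h2 : l % 2 = 1 ∨ l = 2 * K) : Ok K T A (5, l, 0, 0) :=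
  Or.inr (Or.inr (Or.inr (Or.inr (Or.inr (Or.inl ⟨l, rfl, h1, h2⟩)))))

theorem ok6 {l : ℕ} (h1 : l ≤ 2 * K) (h2 : l % 2 = 1 ∨ l = 2 * K) : Ok K T A (6, l, 0, 0) :=
  Or.inr (Or.inr (Or.inr (Or.inr (Or.inr (Or.inr (Or.inl ⟨l, rfl, h1, h2⟩))))))

theorem ok7 {l : ℕ} (h1 : l ≤ 2 * K) (h2 : l % 2 = 1 ∨ l = 2 * K) : Ok K T A (7, l, 0, 0) :=
  Or.inr (Or.inr (Or.inr (Or.inr (Or.inr (Or.inr (Or.inr ⟨l, rfl, h1, h2⟩))))))

theorem sep_iff {p q : Pq × Pq} (h1 : Ok K T A p.1) (h2 : Ok K T A p.2) (h3 : Ok K T A q.1)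
    (h4 : Ok K T A q.2) : (Sep (qx K T) p q ∧ Sep (qy K T) p q) ↔
      ((Lx (dX K p.2) (dX K q.1) ∨ Lx (dX K q.2) (dX K p.1)) ∧
        (Lx (dY K T p.2) (dY K T q.1) ∨ Lx (dY K T q.2) (dY K T p.1))) := by
  unfold Sep
  rw [qx_lt h2 h3, qx_lt h4 h1, qy_lt h2 h3, qy_lt h4 h1]

theorem lcc_of_msr (h : MSR (sq1 K T A) (sq2 K T A) (8 * K + 4)) : LCC K T A := by
  have e : 8 * K + 4 = 2 * ((2 * K + 1) + (2 * K + 1)) := by ring
  rw [e] at h
  obtain ⟨R, hm, hs, hx, hy⟩ := tight (col := fun a => (dX K a).1) (row := fun a => (dY K T a).1)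
    pairwise_sq1 pairwise_sq2
    (fun a ha b hb h => by
      have := (qx_lt (mem_sq1.1 ha) (mem_sq1.1 hb)).1 h
      unfold Lx at this; omega)
    (fun a ha b hb h => by
      have := (qy_lt (mem_sq1.1 ha) (mem_sq1.1 hb)).1 h
      unfold Lx at this; omega)
    (fun a ha => by
      rcases mem_sq1.1 ha with (⟨c, r, t, rfl, h⟩ | ⟨c, r, rfl, h⟩ | ⟨c, rfl, h⟩ | ⟨c, t, rfl, h⟩ |
        ⟨l, rfl, h⟩ | ⟨l, rfl, h⟩ | ⟨l, rfl, h⟩ | ⟨l, rfl, h⟩) <;>
      simp only [dX0, dX1, dX2, dX3, dX4, dX5, dX6, dX7, dY0, dY1, dY2, dY3, dY4, dY5, dY6,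
        dY7] <;> omega)
    (fun a ha b hb h1 h2 => cell_dec (mem_sq1.1 ha) (mem_sq1.1 hb)
      ((qx_lt (mem_sq1.1 ha) (mem_sq1.1 hb)).1 h1) ((qy_lt (mem_sq1.1 ha) (mem_sq1.1 hb)).1 h2)) h
  have hH : ∀ u < K, ∃ r t, (((0, u, r, t), (1, u, r, 0)) : Pq × Pq) ∈ R ∧ r < K ∧ t < T ∧ u ≠ r ∧
      A u r t = true := by
    intro u hu
    obtain ⟨⟨a, b⟩, hp, h1, h2, h3⟩ := hx (2 * u) (by omega)
    obtain ⟨m1, m2, -, m4⟩ := hm _ hp
    obtain ⟨r, t, rfl, rfl, h4⟩ := hline (mem_sq1.1 m1) (mem_sq1.1 m2) hu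
      ((qy_lt (mem_sq1.1 m1) (mem_sq1.1 m2)).1 m4) h1 h2 h3
    exact ⟨r, t, hp, h4⟩
  have hV : ∀ u < K, ∃ t, (((2, u, u, 0), (3, u, u, t)) : Pq × Pq) ∈ R ∧ t < T := by
    intro u hu
    obtain ⟨⟨a, b⟩, hp, h1, h2, h3⟩ := hy (2 * u) (by omega)
    obtain ⟨m1, m2, m3, -⟩ := hm _ hp
    obtain ⟨t, rfl, rfl, h4⟩ := vline (mem_sq1.1 m1) (mem_sq1.1 m2) hu
      ((qx_lt (mem_sq1.1 m1) (mem_sq1.1 m2)).1 m3) h1 h2 h3
    exact ⟨t, hp, h4⟩
  choose! π lam p1 p2 p3 p4 p5 using hH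
  choose! mu q1 q2 using hV
  have hHV : ∀ u < K, ∀ v < K, (u = v → mu v ≤ lam u) ∧ (π u = v → lam u ≤ mu v) := by
    intro u hu v hv
    have h1 := (sep_iff (A := A) (ok0 hu (p2 u hu) (p3 u hu) (p4 u hu) (p5 u hu))
      (ok1 hu (p2 u hu) (p4 u hu)) (ok2 hv) (ok3 hv (q2 v hv))).1
      (hs _ (p1 u hu) _ (q1 v hv) (by simp))
    have := p3 u hu
    have := q2 v hv
    simp only [Lx, true_and, and_false, lt_self_iff_false, false_or, or_false,
      dX0, dX1, dX2, dX3, dY0, dY1, dY2, dY3] at h1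
    omega
  refine ⟨π, lam, fun u hu => ⟨p2 u hu, p3 u hu, p4 u hu, p5 u hu, ?_⟩, fun u hu v hv e => ?_⟩
  · exact ((hHV u hu _ (p2 u hu)).2 rfl).trans ((hHV _ (p2 u hu) _ (p2 u hu)).1 rfl)
  · by_contra hne
    have h1 := (sep_iff (A := A) (ok0 hu (p2 u hu) (p3 u hu) (p4 u hu) (p5 u hu))
      (ok1 hu (p2 u hu) (p4 u hu)) (ok0 hv (p2 v hv) (p3 v hv) (p4 v hv) (p5 v hv))
      (ok1 hv (p2 v hv) (p4 v hv))).1 (hs _ (p1 u hu) _ (p1 v hv) (by simp [hne]))
    simp only [Lx, true_and, and_false, lt_self_iff_false, false_or, or_false,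
      dX0, dX1, dY0, dY1] at h1
    omega

/-- The pair that crosses a vertical line. -/
def fx (K : ℕ) (π lam : ℕ → ℕ) (l : ℕ) : Pq × Pq :=
  if l % 2 = 1 ∨ l = 2 * K then ((4, l, 0, 0), (5, l, 0, 0))
  else ((0, l / 2, π (l / 2), lam (l / 2)), (1, l / 2, π (l / 2), 0))

/-- The pair that crosses a horizontal line. -/
def fy (K : ℕ) (lam : ℕ → ℕ) (l : ℕ) : Pq × Pq :=
  if l % 2 = 1 ∨ l = 2 * K then ((6, l, 0, 0), (7, l, 0, 0))
  else ((2, l / 2, l / 2, 0), (3, l / 2, l / 2, lam (l / 2)))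

theorem fx_cases (π lam : ℕ → ℕ) {l : ℕ} (hl : l < 2 * K + 1) :
    (l ≤ 2 * K ∧ (l % 2 = 1 ∨ l = 2 * K) ∧ fx K π lam l = ((4, l, 0, 0), (5, l, 0, 0))) ∨
    ∃ u < K, l = 2 * u ∧ fx K π lam l = ((0, u, π u, lam u), (1, u, π u, 0)) := by
  unfold fx
  split_ifs with h
  · exact Or.inl ⟨by omega, h, rfl⟩
  · exact Or.inr ⟨l / 2, by omega, by omega, rfl⟩

theorem fy_cases (lam : ℕ → ℕ) {l : ℕ} (hl : l < 2 * K + 1) :
    (l ≤ 2 * K ∧ (l % 2 = 1 ∨ l = 2 * K) ∧ fy K lam l = ((6, l, 0, 0), (7, l, 0, 0))) ∨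
    ∃ u < K, l = 2 * u ∧ fy K lam l = ((2, u, u, 0), (3, u, u, lam u)) := by
  unfold fy
  split_ifs with h
  · exact Or.inl ⟨by omega, h, rfl⟩
  · exact Or.inr ⟨l / 2, by omega, by omega, rfl⟩

theorem msr_of_lcc (h : LCC K T A) : MSR (sq1 K T A) (sq2 K T A) (8 * K + 4) := by
  obtain ⟨π, lam, h1, h2⟩ := h
  have ox : ∀ l < 2 * K + 1, Ok K T A (fx K π lam l).1 ∧ Ok K T A (fx K π lam l).2 := by
    intro l hl
    rcases fx_cases π lam hl with ⟨e1, e2, e⟩ | ⟨u, hu, rfl, e⟩ <;> rw [e]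
    · exact ⟨ok4 e1 e2, ok5 e1 e2⟩
    · obtain ⟨a1, a2, a3, a4, -⟩ := h1 u hu
      exact ⟨ok0 hu a1 a2 a3 a4, ok1 hu a1 a3⟩
  have oy : ∀ l < 2 * K + 1, Ok K T A (fy K lam l).1 ∧ Ok K T A (fy K lam l).2 := by
    intro l hl
    rcases fy_cases lam hl with ⟨e1, e2, e⟩ | ⟨u, hu, rfl, e⟩ <;> rw [e]
    · exact ⟨ok6 e1 e2, ok7 e1 e2⟩
    · exact ⟨ok2 hu, ok3 hu (h1 u hu).2.1⟩
  refine msr_of_pairs pairwise_sq1 pairwise_sq2 (fun x hx => mem_sq2.2 (mem_sq1.1 hx))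
    (R := (List.range (2 * K + 1)).map (fx K π lam) ++ (List.range (2 * K + 1)).map (fy K lam))
    (by simp only [List.length_append, List.length_map, List.length_range]; omega) ?_ ?_
  · intro p hp
    rcases List.mem_append.1 hp with hp | hp <;> obtain ⟨l, hl, rfl⟩ := List.mem_map.1 hp <;>
      rw [List.mem_range] at hl
    · obtain ⟨o1, o2⟩ := ox l hl
      refine ⟨mem_sq1.2 o1, mem_sq1.2 o2, ?_⟩
      rw [qx_lt o1 o2, qy_lt o1 o2]
      rcases fx_cases π lam hl with ⟨e1, e2, e⟩ | ⟨u, hu, rfl, e⟩ <;> rw [e] <;>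
        simp [Lx, dX0, dX1, dX4, dX5, dY0, dY1, dY4, dY5]
    · obtain ⟨o1, o2⟩ := oy l hl
      refine ⟨mem_sq1.2 o1, mem_sq1.2 o2, ?_⟩
      rw [qx_lt o1 o2, qy_lt o1 o2]
      rcases fy_cases lam hl with ⟨e1, e2, e⟩ | ⟨u, hu, rfl, e⟩ <;> rw [e] <;>
        simp [Lx, dX2, dX3, dX6, dX7, dY2, dY3, dY6, dY7]
  · rw [List.pairwise_append, List.pairwise_map, List.pairwise_map]
    refine ⟨List.pairwise_lt_range.imp_of_mem fun {l m} hl hm hlm => ?_,
      List.pairwise_lt_range.imp_of_mem fun {l m} hl hm hlm => ?_, fun p hp q hq => ?_⟩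
    · rw [List.mem_range] at hl hm
      rw [sep_iff (ox l hl).1 (ox l hl).2 (ox m hm).1 (ox m hm).2]
      rcases fx_cases π lam hl with ⟨e1, e2, e⟩ | ⟨u, hu, rfl, e⟩ <;>
      rcases fx_cases π lam hm with ⟨e1', e2', e'⟩ | ⟨v, hv, rfl, e'⟩ <;> rw [e, e'] <;>
        simp only [Lx, true_and, and_false, lt_self_iff_false, false_or, or_false,
          dX0, dX1, dX4, dX5, dY0, dY1, dY4, dY5]
      · omega
      · have := (h1 v hv).1
        omega
      · have := (h1 u hu).1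
        omega
      · have : π u ≠ π v := fun e => by have := h2 u hu v hv e; omega
        omega
    · rw [List.mem_range] at hl hm
      rw [sep_iff (oy l hl).1 (oy l hl).2 (oy m hm).1 (oy m hm).2]
      rcases fy_cases lam hl with ⟨e1, e2, e⟩ | ⟨u, hu, rfl, e⟩ <;>
      rcases fy_cases lam hm with ⟨e1', e2', e'⟩ | ⟨v, hv, rfl, e'⟩ <;> rw [e, e'] <;>
        simp only [Lx, true_and, and_false, lt_self_iff_false, false_or, or_false,
          dX2, dX3, dX6, dX7, dY2, dY3, dY6, dY7] <;> omega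
    · obtain ⟨l, hl, rfl⟩ := List.mem_map.1 hp
      obtain ⟨m, hm, rfl⟩ := List.mem_map.1 hq
      rw [List.mem_range] at hl hm
      rw [sep_iff (ox l hl).1 (ox l hl).2 (oy m hm).1 (oy m hm).2]
      rcases fx_cases π lam hl with ⟨e1, e2, e⟩ | ⟨u, hu, rfl, e⟩ <;>
      rcases fy_cases lam hm with ⟨e1', e2', e'⟩ | ⟨v, hv, rfl, e'⟩ <;> rw [e, e'] <;>
        simp only [Lx, true_and, and_false, lt_self_iff_false, false_or, or_false,
          dX0, dX1, dX4, dX5, dY0, dY1, dY4, dY5, dX2, dX3, dX6, dX7, dY2, dY3, dY6, dY7]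
      · omega
      · omega
      · have := (h1 u hu).1
        omega
      · obtain ⟨a1, a2, a3, -, a5⟩ := h1 u hu
        have b1 : u = v → lam u = lam v := fun e => by rw [e]
        have b2 : π u = v → lam (π u) = lam v := fun e => by rw [e]
        have b3 := (h1 v hv).2.1
        omega

theorem msr_iff_lcc : MSR (sq1 K T A) (sq2 K T A) (8 * K + 4) ↔ LCC K T A :=
  ⟨lcc_of_msr, msr_of_lcc⟩

end Pool.Agent.MP_eb915b_lc.Ker

end

section

/-! A disjunction of formulas as a layered cycle cover. -/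

set_option autoImplicit false
set_option linter.unusedSimpArgs false

namespace Pool.Agent.MP_eb915b_lc.Ker

/-- Layered cycle covers in which loops are allowed. -/
def LCL (K T : ℕ) (B : ℕ → ℕ → ℕ → Bool) : Prop :=
  ∃ σ lam : ℕ → ℕ, (∀ u < K, σ u < K ∧ lam u < T ∧ B u (σ u) (lam u) = true ∧
    lam u ≤ lam (σ u)) ∧ ∀ u < K, ∀ v < K, σ u = σ v → u = v

/-- Every vertex is split in two. -/
def dbl (B : ℕ → ℕ → ℕ → Bool) (u w t : ℕ) : Bool :=
  if u % 2 = 0 then decide (w = u + 1) else decide (w % 2 = 0) && B (u / 2) (w / 2) t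

theorem lcc_dbl {K T : ℕ} {B : ℕ → ℕ → ℕ → Bool} : LCC (2 * K) T (dbl B) ↔ LCL K T B := by
  constructor
  · rintro ⟨π, lam, h1, h2⟩
    have he : ∀ u < K, π (2 * u) = 2 * u + 1 := by
      intro u hu
      have := (h1 (2 * u) (by omega)).2.2.2.1
      simpa [dbl] using this
    have ho : ∀ u < K, π (2 * u + 1) % 2 = 0 ∧
        B u (π (2 * u + 1) / 2) (lam (2 * u + 1)) = true := by
      intro u hu
      have := (h1 (2 * u + 1) (by omega)).2.2.2.1
      have e1 : ¬ (2 * u + 1) % 2 = 0 := by omega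
      have e2 : (2 * u + 1) / 2 = u := by omega
      simpa only [dbl, e1, e2, if_false, Bool.and_eq_true, decide_eq_true_eq] using this
    refine ⟨fun u => π (2 * u + 1) / 2, fun u => lam (2 * u + 1), fun u hu => ?_,
      fun u hu v hv e => ?_⟩
    · obtain ⟨a1, a2, -, -, a5⟩ := h1 (2 * u + 1) (by omega)
      obtain ⟨b1, b2⟩ := ho u hu
      refine ⟨by dsimp only; omega, a2, b2, a5.trans ?_⟩
      have e : π (2 * u + 1) = 2 * (π (2 * u + 1) / 2) := by omega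
      have := (h1 (2 * (π (2 * u + 1) / 2)) (by omega)).2.2.2.2
      rw [he _ (by omega)] at this
      rw [← e] at this
      dsimp only
      rw [← e]
      exact this
    · have := (ho u hu).1
      have := (ho v hv).1
      have := h2 (2 * u + 1) (by omega) (2 * v + 1) (by omega) (by dsimp only at e; omega)
      omega
  · rintro ⟨σ, lam, h1, h2⟩
    refine ⟨fun w => if w % 2 = 0 then w + 1 else 2 * σ (w / 2), fun w => lam (w / 2),
      fun w hw => ?_, fun w hw v hv e => ?_⟩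
    · obtain ⟨a1, a2, a3, a4⟩ := h1 (w / 2) (by omega)
      by_cases h : w % 2 = 0
      · have e : (w + 1) / 2 = w / 2 := by omega
        simp only [h, if_true, dbl, e, decide_true]
        exact ⟨by omega, a2, by omega, trivial, le_rfl⟩
      · have e : 2 * σ (w / 2) / 2 = σ (w / 2) := by omega
        have e' : 2 * σ (w / 2) % 2 = 0 := by omega
        simp only [h, if_false, dbl, e, e', decide_true, Bool.true_and]
        exact ⟨by omega, a2, by omega, a3, a4⟩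
    · have := h2 (w / 2) (by omega) (v / 2) (by omega)
      dsimp only at e
      split_ifs at e <;> omega

theorem layer_eq {K : ℕ} {σ lam : ℕ → ℕ} (h1 : ∀ u < K, σ u < K ∧ lam u ≤ lam (σ u))
    (h2 : ∀ u < K, ∀ v < K, σ u = σ v → u = v) : ∀ u < K, lam (σ u) = lam u := by
  have hinj : Set.InjOn σ (Finset.range K : Finset ℕ) := fun u hu v hv e =>
    h2 u (by simpa using hu) v (by simpa using hv) e
  have himg : (Finset.range K).image σ = Finset.range K := by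
    refine Finset.eq_of_subset_of_card_le (fun w hw => ?_) (Finset.card_image_of_injOn hinj).ge
    obtain ⟨u, hu, rfl⟩ := Finset.mem_image.1 hw
    exact Finset.mem_range.2 (h1 u (Finset.mem_range.1 hu)).1
  have hsum : ∑ u ∈ Finset.range K, lam u = ∑ u ∈ Finset.range K, lam (σ u) := by
    conv_lhs => rw [← himg]
    exact Finset.sum_image hinj
  have := (Finset.sum_eq_sum_iff_of_le fun u hu => (h1 u (Finset.mem_range.1 hu)).2).1 hsum
  exact fun u hu => (this u (Finset.mem_range.2 hu)).symm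

theorem lcl_transfer {V : Type} {K T : ℕ} (enc : V → ℕ) (dec : ℕ → V) (D : V → Prop)
    (e1 : ∀ a, D a → enc a < K ∧ dec (enc a) = a) (e2 : ∀ u < K, D (dec u) ∧ enc (dec u) = u)
    (B : V → V → ℕ → Bool) :
    LCL K T (fun u w t => B (dec u) (dec w) t) ↔ ∃ (σ : V → V) (lam : V → ℕ),
      (∀ a, D a → D (σ a) ∧ lam a < T ∧ B a (σ a) (lam a) = true ∧ lam (σ a) = lam a) ∧
        ∀ a b, D a → D b → σ a = σ b → a = b := by
  constructor
  · rintro ⟨σ, lam, h1, h2⟩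
    have h3 := layer_eq (fun u hu => ⟨(h1 u hu).1, (h1 u hu).2.2.2⟩) h2
    refine ⟨fun a => dec (σ (enc a)), fun a => lam (enc a), fun a ha => ?_, fun a b ha hb e => ?_⟩
    · obtain ⟨a1, a2⟩ := e1 a ha
      obtain ⟨b1, b2, b3, -⟩ := h1 _ a1
      refine ⟨(e2 _ b1).1, b2, by simpa only [a2] using b3, ?_⟩
      dsimp only
      rw [(e2 _ b1).2, h3 _ a1]
    · have f1 := (e2 _ (h1 _ (e1 a ha).1).1).2
      have f2 := (e2 _ (h1 _ (e1 b hb).1).1).2
      dsimp only at e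
      have := h2 _ (e1 a ha).1 _ (e1 b hb).1 (by rw [← f1, ← f2, e])
      rw [← (e1 a ha).2, this, (e1 b hb).2]
  · rintro ⟨σ, lam, h1, h2⟩
    refine ⟨fun u => enc (σ (dec u)), fun u => lam (dec u), fun u hu => ?_, fun u hu v hv e => ?_⟩
    · obtain ⟨b1, b2, b3, b4⟩ := h1 _ (e2 u hu).1
      refine ⟨(e1 _ b1).1, b2, by simpa only [(e1 _ b1).2] using b3, ?_⟩
      dsimp only
      rw [(e1 _ b1).2, b4]
    · have f1 := (e1 _ (h1 _ (e2 u hu).1).1).2
      have f2 := (e1 _ (h1 _ (e2 v hv).1).1).2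
      dsimp only at e
      have := h2 _ _ (e2 u hu).1 (e2 v hv).1 (by rw [← f1, ← f2, e])
      rw [← (e2 u hu).2, this, (e2 v hv).2]

/-- A vertex: clause position, variable and sign. -/
abbrev V3 := ℕ × ℕ × ℕ

/-- The arcs: `I t c x b` says that the literal of variable `x` and sign `b` may be used for clause `c` of formula
`t`, and `τ` is the top layer. -/
def arc (N τ : ℕ) (I : ℕ → ℕ → ℕ → ℕ → Bool) (a b : V3) (t : ℕ) : Bool :=
  if a.1 < N ∧ a.2.1 < N then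
    decide ((t < τ ∧ b = (if a.1 + 1 < N then a.1 + 1 else 0, N, 0)) ∨
      (t = τ ∧ (b = a ∨ b = (a.1 + 1, a.2.1, if a.1 + 1 < N then a.2.2 else 0))))
  else if a.1 < N ∧ a.2.2 = 0 then
    decide (t < τ ∧ b.1 = a.1 ∧ b.2.1 < N) && I t a.1 b.2.1 b.2.2
  else if a.2.1 < N ∧ a.2.2 = 0 then decide (t = τ ∧ b.1 = 0 ∧ b.2.1 = a.2.1)
  else decide (t = τ ∧ b = a)

/-- The range of the vertices. -/
def D3 (N : ℕ) (a : V3) : Prop := a.1 ≤ N ∧ a.2.1 ≤ N ∧ a.2.2 < 2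

theorem sat_of_cover {N τ : ℕ} (hN : 0 < N) {I : ℕ → ℕ → ℕ → ℕ → Bool} {σ : V3 → V3}
    {lam : V3 → ℕ}
    (h1 : ∀ a, D3 N a → D3 N (σ a) ∧ lam a < τ + 1 ∧ arc N τ I a (σ a) (lam a) = true ∧
      lam (σ a) = lam a) (h2 : ∀ a b, D3 N a → D3 N b → σ a = σ b → a = b) :
    ∃ t < τ, ∃ α : ℕ → ℕ, (∀ x, α x < 2) ∧ ∀ c < N, ∃ x < N, I t c x (α x) = true := by
  have hM : ∀ c < N, lam (c, N, 0) < τ ∧ ∃ x < N, ∃ b < 2, σ (c, N, 0) = (c, x, b) ∧
      I (lam (c, N, 0)) c x b = true := by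
    intro c hc
    obtain ⟨a1, -, a3, -⟩ := h1 (c, N, 0) ⟨hc.le, le_rfl, by norm_num⟩
    simp only [arc, lt_self_iff_false, and_false, if_false, hc, and_self, if_true,
      Bool.and_eq_true, decide_eq_true_eq] at a3
    obtain ⟨⟨b1, b2, b3⟩, b4⟩ := a3
    exact ⟨b1, _, b3, _, a1.2.2, Prod.ext b2 rfl, b4⟩
  have hL : ∀ c < N, ∀ x < N, ∀ b < 2,
      (lam (c, x, b) < τ ∧ σ (c, x, b) = (if c + 1 < N then c + 1 else 0, N, 0)) ∨
      (lam (c, x, b) = τ ∧ (σ (c, x, b) = (c, x, b) ∨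
        σ (c, x, b) = (c + 1, x, if c + 1 < N then b else 0))) := by
    intro c hc x hx b hb
    obtain ⟨-, -, a3, -⟩ := h1 (c, x, b) ⟨hc.le, hx.le, hb⟩
    simpa only [arc, hc, hx, and_self, if_true, decide_eq_true_eq] using a3
  have hS : ∀ x < N, ∃ b < 2, lam (N, x, 0) = τ ∧ σ (N, x, 0) = (0, x, b) := by
    intro x hx
    obtain ⟨a1, -, a3, -⟩ := h1 (N, x, 0) ⟨le_rfl, hx.le, by norm_num⟩
    simp only [arc, lt_self_iff_false, false_and, if_false, hx, and_self, if_true,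
      decide_eq_true_eq] at a3
    exact ⟨_, a1.2.2, a3.1, Prod.ext a3.2.1 (Prod.ext a3.2.2 rfl)⟩
  choose! β b1 b2 b3 using hS
  have hmain : ∀ c < N, lam (c, N, 0) = lam (0, N, 0) := by
    intro c
    induction c with
    | zero => exact fun _ => rfl
    | succ c ih =>
      intro hc
      obtain ⟨c1, x, hx, b, hb, c2, -⟩ := hM c (by omega)
      have c3 := (h1 (c, N, 0) ⟨by dsimp only; omega, le_rfl, by norm_num⟩).2.2.2
      have c4 := (h1 (c, x, b) ⟨by dsimp only; omega, hx.le, hb⟩).2.2.2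
      rw [c2] at c3
      rcases hL c (by omega) x hx b hb with ⟨-, c5⟩ | ⟨c5, -⟩
      · rw [c5, if_pos hc] at c4
        rw [c4, c3, ih (by omega)]
      · omega
  have hvar : ∀ x < N, ∀ c < N, ∃ p, D3 N p ∧ p ≠ (c, x, β x) ∧ σ p = (c, x, β x) ∧
      lam p = τ := by
    intro x hx c
    induction c with
    | zero =>
      exact fun _ => ⟨(N, x, 0), ⟨le_rfl, hx.le, by norm_num⟩, by simp; omega, b3 x hx, b2 x hx⟩
    | succ c ih =>
      intro hc
      obtain ⟨p, p1, p2, p3, p4⟩ := ih (by omega)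
      have d1 : D3 N (c, x, β x) := ⟨by dsimp only; omega, hx.le, b1 x hx⟩
      have c3 := (h1 p p1).2.2.2
      rw [p3, p4] at c3
      refine ⟨(c, x, β x), d1, by simp, ?_, c3⟩
      rcases hL c (by omega) x hx _ (b1 x hx) with ⟨c5, -⟩ | ⟨-, c5 | c5⟩
      · omega
      · exact (p2 (h2 _ _ p1 d1 (p3.trans c5.symm))).elim
      · rw [c5, if_pos hc]
  refine ⟨lam (0, N, 0), (hM 0 hN).1, fun x => 1 - β x, fun x => by dsimp only; omega, fun c hc => ?_⟩
  obtain ⟨c1, x, hx, b, hb, c2, c6⟩ := hM c hc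
  have c3 := (h1 (c, N, 0) ⟨hc.le, le_rfl, by norm_num⟩).2.2.2
  rw [c2] at c3
  obtain ⟨p, p1, -, p3, p4⟩ := hvar x hx c hc
  have c4 := (h1 p p1).2.2.2
  rw [p3, p4] at c4
  have c5 : b ≠ β x := by
    rintro rfl
    omega
  have c7 := b1 x hx
  obtain rfl : b = 1 - β x := by omega
  rw [hmain c hc] at c6
  exact ⟨x, hx, c6⟩

/-- The successor in the cover built from a satisfying assignment. -/
def sg (N : ℕ) (α y : ℕ → ℕ) (a : V3) : V3 :=
  if a.1 < N ∧ a.2.1 < N then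
    (if a.2.2 = α a.2.1 then
      (if a.2.1 = y a.1 then (if a.1 + 1 < N then a.1 + 1 else 0, N, 0) else a)
    else (a.1 + 1, a.2.1, if a.1 + 1 < N then a.2.2 else 0))
  else if a.1 < N ∧ a.2.2 = 0 then (a.1, y a.1, α (y a.1))
  else if a.2.1 < N ∧ a.2.2 = 0 then (0, a.2.1, 1 - α a.2.1)
  else a

/-- The layer in the cover built from a satisfying assignment. -/
def lg (N τ t : ℕ) (α y : ℕ → ℕ) (a : V3) : ℕ :=
  if a.1 < N ∧ ((a.2.1 < N ∧ a.2.2 = α a.2.1 ∧ a.2.1 = y a.1) ∨ (a.2.1 = N ∧ a.2.2 = 0)) then t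
  else τ

theorem sg_cases {N : ℕ} (α y : ℕ → ℕ) {c x b : ℕ} (h : D3 N (c, x, b)) :
    (c + 1 < N ∧ x < N ∧ b = α x ∧ x = y c ∧ sg N α y (c, x, b) = (c + 1, N, 0)) ∨
    (c + 1 = N ∧ x < N ∧ b = α x ∧ x = y c ∧ sg N α y (c, x, b) = (0, N, 0)) ∨
    (c < N ∧ x < N ∧ b = α x ∧ x ≠ y c ∧ sg N α y (c, x, b) = (c, x, b)) ∨
    (c + 1 < N ∧ x < N ∧ b ≠ α x ∧ sg N α y (c, x, b) = (c + 1, x, b)) ∨
    (c + 1 = N ∧ x < N ∧ b ≠ α x ∧ sg N α y (c, x, b) = (c + 1, x, 0)) ∨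
    (c < N ∧ x = N ∧ b = 0 ∧ sg N α y (c, x, b) = (c, y c, α (y c))) ∨
    (c = N ∧ x < N ∧ b = 0 ∧ sg N α y (c, x, b) = (0, x, 1 - α x)) ∨
    (((c < N ∧ x = N ∧ b = 1) ∨ (c = N ∧ x < N ∧ b = 1) ∨ (c = N ∧ x = N)) ∧
      sg N α y (c, x, b) = (c, x, b)) := by
  obtain ⟨h1, h2, h3⟩ := h
  dsimp only at h1 h2 h3
  by_cases c1 : c < N
  · by_cases c2 : x < N
    · by_cases c3 : b = α x
      · by_cases c4 : x = y c
        · have e : sg N α y (c, x, b) = (if c + 1 < N then c + 1 else 0, N, 0) := by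
            unfold sg
            rw [if_pos ⟨c1, c2⟩, if_pos c3, if_pos c4]
          by_cases c5 : c + 1 < N
          · exact Or.inl ⟨c5, c2, c3, c4, by rw [e, if_pos c5]⟩
          · exact Or.inr (Or.inl ⟨by omega, c2, c3, c4, by rw [e, if_neg c5]⟩)
        · refine Or.inr (Or.inr (Or.inl ⟨c1, c2, c3, c4, ?_⟩))
          unfold sg
          rw [if_pos ⟨c1, c2⟩, if_pos c3, if_neg c4]
      · have e : sg N α y (c, x, b) = (c + 1, x, if c + 1 < N then b else 0) := by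
          unfold sg
          rw [if_pos ⟨c1, c2⟩, if_neg c3]
        by_cases c5 : c + 1 < N
        · exact Or.inr (Or.inr (Or.inr (Or.inl ⟨c5, c2, c3, by rw [e, if_pos c5]⟩)))
        · exact Or.inr (Or.inr (Or.inr (Or.inr (Or.inl ⟨by omega, c2, c3, by rw [e, if_neg c5]⟩))))
    · by_cases c3 : b = 0
      · refine Or.inr (Or.inr (Or.inr (Or.inr (Or.inr (Or.inl ⟨c1, by omega, c3, ?_⟩)))))
        unfold sg
        rw [if_neg (fun h => c2 h.2), if_pos ⟨c1, c3⟩]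
      · refine Or.inr (Or.inr (Or.inr (Or.inr (Or.inr (Or.inr (Or.inr
          ⟨Or.inl ⟨c1, by omega, by omega⟩, ?_⟩))))))
        unfold sg
        rw [if_neg (fun h => c2 h.2), if_neg (fun h => c3 h.2), if_neg (fun h => c3 h.2)]
  · by_cases c2 : x < N
    · by_cases c3 : b = 0
      · refine Or.inr (Or.inr (Or.inr (Or.inr (Or.inr (Or.inr (Or.inl
          ⟨by omega, c2, c3, ?_⟩))))))
        unfold sg
        rw [if_neg (fun h => c1 h.1), if_neg (fun h => c1 h.1), if_pos ⟨c2, c3⟩]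
      · refine Or.inr (Or.inr (Or.inr (Or.inr (Or.inr (Or.inr (Or.inr
          ⟨Or.inr (Or.inl ⟨by omega, c2, by omega⟩), ?_⟩))))))
        unfold sg
        rw [if_neg (fun h => c1 h.1), if_neg (fun h => c1 h.1), if_neg (fun h => c3 h.2)]
    · refine Or.inr (Or.inr (Or.inr (Or.inr (Or.inr (Or.inr (Or.inr
        ⟨Or.inr (Or.inr ⟨by omega, by omega⟩), ?_⟩))))))
      unfold sg
      rw [if_neg (fun h => c1 h.1), if_neg (fun h => c1 h.1), if_neg (fun h => c2 h.1)]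

theorem cover_of_sat {N τ : ℕ} (hN : 0 < N) {I : ℕ → ℕ → ℕ → ℕ → Bool} {t : ℕ} (ht : t < τ)
    {α : ℕ → ℕ} (hα : ∀ x, α x < 2) (h : ∀ c < N, ∃ x < N, I t c x (α x) = true) :
    ∃ (σ : V3 → V3) (lam : V3 → ℕ),
      (∀ a, D3 N a → D3 N (σ a) ∧ lam a < τ + 1 ∧ arc N τ I a (σ a) (lam a) = true ∧
        lam (σ a) = lam a) ∧ ∀ a b, D3 N a → D3 N b → σ a = σ b → a = b := by
  choose! y y1 y2 using h
  refine ⟨sg N α y, lg N τ t α y, ?_, ?_⟩
  · rintro ⟨c, x, b⟩ ha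
    have hb : b < 2 := ha.2.2
    have h0 := hα x
    rcases sg_cases α y ha with ⟨e1, e2, e3, e4, e⟩ | ⟨e1, e2, e3, e4, e⟩ | ⟨e1, e2, e3, e4, e⟩ |
      ⟨e1, e2, e3, e⟩ | ⟨e1, e2, e3, e⟩ | ⟨e1, e2, e3, e⟩ | ⟨e1, e2, e3, e⟩ | ⟨e1, e⟩ <;> rw [e]
    · have c1 : c < N := by omega
      have l1 : lg N τ t α y (c, x, b) = t := if_pos ⟨c1, Or.inl ⟨e2, e3, e4⟩⟩
      have l2 : lg N τ t α y (c + 1, N, 0) = t := if_pos ⟨e1, Or.inr ⟨rfl, rfl⟩⟩
      rw [l1, l2]
      exact ⟨⟨e1.le, le_rfl, by norm_num⟩, by omega, by simp [arc, c1, e1, e2, ht], rfl⟩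
    · have c1 : c < N := by omega
      have c2 : ¬ c + 1 < N := by omega
      have l1 : lg N τ t α y (c, x, b) = t := if_pos ⟨c1, Or.inl ⟨e2, e3, e4⟩⟩
      have l2 : lg N τ t α y (0, N, 0) = t := if_pos ⟨hN, Or.inr ⟨rfl, rfl⟩⟩
      rw [l1, l2]
      exact ⟨⟨hN.le, le_rfl, by norm_num⟩, by omega, by simp [arc, c1, c2, e2, ht], rfl⟩
    · have l1 : lg N τ t α y (c, x, b) = τ := if_neg (by dsimp only; omega)
      rw [l1]
      exact ⟨ha, by omega, by simp [arc, e1, e2], rfl⟩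
    · have c1 : c < N := by omega
      have l1 : lg N τ t α y (c, x, b) = τ := if_neg (by dsimp only; omega)
      have l2 : lg N τ t α y (c + 1, x, b) = τ := if_neg (by dsimp only; omega)
      rw [l1, l2]
      exact ⟨⟨e1.le, e2.le, hb⟩, by omega, by simp [arc, c1, e1, e2], rfl⟩
    · have c1 : c < N := by omega
      have c2 : ¬ c + 1 < N := by omega
      have l1 : lg N τ t α y (c, x, b) = τ := if_neg (by dsimp only; omega)
      have l2 : lg N τ t α y (c + 1, x, 0) = τ := if_neg (by dsimp only; omega)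
      rw [l1, l2]
      exact ⟨⟨e1.le, e2.le, by norm_num⟩, by omega, by simp [arc, c1, c2, e2], rfl⟩
    · subst e2 e3
      have l1 : lg x τ t α y (c, x, 0) = t := if_pos ⟨e1, Or.inr ⟨rfl, rfl⟩⟩
      have l2 : lg x τ t α y (c, y c, α (y c)) = t := if_pos ⟨e1, Or.inl ⟨y1 c e1, rfl, rfl⟩⟩
      rw [l1, l2]
      exact ⟨⟨e1.le, (y1 c e1).le, hα _⟩, by omega, by simp [arc, e1, ht, y1 c e1, y2 c e1], rfl⟩
    · subst e1 e3
      have l1 : lg c τ t α y (c, x, 0) = τ := if_neg (by dsimp only; omega)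
      have l2 : lg c τ t α y (0, x, 1 - α x) = τ := if_neg (by dsimp only; omega)
      rw [l1, l2]
      exact ⟨⟨hN.le, e2.le, by dsimp only; omega⟩, by omega, by simp [arc, e2], rfl⟩
    · have l1 : lg N τ t α y (c, x, b) = τ := if_neg (by dsimp only; omega)
      rw [l1]
      refine ⟨ha, by omega, ?_, rfl⟩
      unfold arc
      rw [if_neg (by dsimp only; omega), if_neg (by dsimp only; omega),
        if_neg (by dsimp only; omega)]
      simp
  · rintro ⟨c, x, b⟩ ⟨c', x', b'⟩ ha hb e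
    have h1 : b < 2 := ha.2.2
    have h2 : b' < 2 := hb.2.2
    have h3 := hα x
    have h4 := hα x'
    have h5 : x = x' → α x = α x' := fun e => by rw [e]
    have h6 : c = c' → y c = y c' := fun e => by rw [e]
    have h7 : y c = x' → α (y c) = α x' := fun e => by rw [e]
    have h8 : y c' = x → α (y c') = α x := fun e => by rw [e]
    have h9 := y1 c
    have h10 := y1 c'
    rcases sg_cases α y ha with ⟨e1, e2, e3, e4, f⟩ | ⟨e1, e2, e3, e4, f⟩ | ⟨e1, e2, e3, e4, f⟩ |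
      ⟨e1, e2, e3, f⟩ | ⟨e1, e2, e3, f⟩ | ⟨e1, e2, e3, f⟩ | ⟨e1, e2, e3, f⟩ | ⟨e1, f⟩ <;>
    rcases sg_cases α y hb with ⟨g1, g2, g3, g4, f'⟩ | ⟨g1, g2, g3, g4, f'⟩ |
      ⟨g1, g2, g3, g4, f'⟩ | ⟨g1, g2, g3, f'⟩ | ⟨g1, g2, g3, f'⟩ | ⟨g1, g2, g3, f'⟩ |
      ⟨g1, g2, g3, f'⟩ | ⟨g1, f'⟩ <;>
      rw [f, f'] at e <;> clear f f' <;> simp only [Prod.mk.injEq, and_true, true_and] at e ⊢ <;>
      omega

/-- The number of a vertex. -/
def en3 (N : ℕ) (a : V3) : ℕ := (a.1 * (N + 1) + a.2.1) * 2 + a.2.2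

/-- The vertex with a given number. -/
def de3 (N u : ℕ) : V3 := (u / 2 / (N + 1), u / 2 % (N + 1), u % 2)

theorem en3_spec {N : ℕ} (a : V3) (h : D3 N a) :
    en3 N a < 2 * ((N + 1) * (N + 1)) ∧ de3 N (en3 N a) = a := by
  obtain ⟨c, x, b⟩ := a
  obtain ⟨h1, h2, h3⟩ := h
  dsimp only at h1 h2 h3
  have e1 : en3 N (c, x, b) / 2 = x + (N + 1) * c := by
    unfold en3; dsimp only; rw [mul_comm (N + 1) c]; omega
  have e2 : en3 N (c, x, b) % 2 = b := by unfold en3; dsimp only; omega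
  refine ⟨?_, ?_⟩
  · have : (N + 1) * c ≤ (N + 1) * N := Nat.mul_le_mul_left _ h1
    have : (N + 1) * (N + 1) = (N + 1) * N + N + 1 := by ring
    omega
  · unfold de3
    rw [e1, e2, Nat.add_mul_div_left _ _ (Nat.succ_pos N), Nat.add_mul_mod_self_left,
      Nat.div_eq_of_lt (by omega), Nat.mod_eq_of_lt (by omega), zero_add]

theorem de3_spec {N : ℕ} (u : ℕ) (h : u < 2 * ((N + 1) * (N + 1))) :
    D3 N (de3 N u) ∧ en3 N (de3 N u) = u := by
  refine ⟨⟨?_, ?_, ?_⟩, ?_⟩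
  · exact Nat.le_of_lt_succ (Nat.div_lt_of_lt_mul (show u / 2 < (N + 1) * (N + 1) by omega))
  · exact Nat.le_of_lt_succ (Nat.mod_lt _ (Nat.succ_pos N))
  · exact Nat.mod_lt _ (by norm_num)
  · unfold en3 de3
    dsimp only
    rw [Nat.div_add_mod']
    omega

/-- The digraph of a disjunction. -/
def gr (N τ : ℕ) (I : ℕ → ℕ → ℕ → ℕ → Bool) : ℕ → ℕ → ℕ → Bool :=
  dbl fun u w t => arc N τ I (de3 N u) (de3 N w) t

theorem lcc_gr {N τ : ℕ} (hN : 0 < N) {I : ℕ → ℕ → ℕ → ℕ → Bool} :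
    LCC (2 * (2 * ((N + 1) * (N + 1)))) (τ + 1) (gr N τ I) ↔
      ∃ t < τ, ∃ α : ℕ → ℕ, (∀ x, α x < 2) ∧ ∀ c < N, ∃ x < N, I t c x (α x) = true := by
  rw [gr, lcc_dbl, lcl_transfer (en3 N) (de3 N) (D3 N) en3_spec de3_spec]
  exact ⟨fun ⟨_, _, h1, h2⟩ => sat_of_cover hN h1 h2,
    fun ⟨_, ht, _, hα, h⟩ => cover_of_sat hN ht hα h⟩

end Pool.Agent.MP_eb915b_lc.Ker

end

section

/-! Simulation of a polynomial-time machine on a computed input. -/

set_option autoImplicit false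
set_option linter.unusedSimpArgs false

namespace Pool.Agent.MP_eb915b_lc.Ker

open Turing Pool.Agent.MP_2e8011_lc Pool.Agent.MP_a4408f_lc

/-- A polynomial-time machine run on an input whose code is computed in polynomial time. -/
theorem pt_of_machine {α A A' : Type} [Enc α] {ea : A → List Bool} {eb : A' → List Bool}
    {f : A → A'} (hf : Nonempty (TM2ComputableInPolyTime ea eb f)) {F : α → A}
    (hF : PT fun x => ea (F x)) : PT fun x => eb (f (F x)) := by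
  classical
  obtain ⟨M⟩ := hf
  have := M.tm.kFin
  have := M.tm.ΛFin
  have := M.tm.σFin
  let B : Set (Σ k, M.tm.Γ k) := (⋃ l, syms (M.tm.m l)) ∪
    (Set.range (fun b => ⟨M.tm.k₀, M.inputAlphabet.symm b⟩) ∪
      Set.range (fun b => ⟨M.tm.k₁, M.outputAlphabet.symm b⟩))
  have hA : B.Finite := (Set.finite_iUnion (fun l => syms_finite _)).union
    ((Set.finite_range _).union (Set.finite_range _))
  obtain ⟨cs, hcs⟩ := Set.countable_iff_exists_injOn.1 hA.countable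
  obtain ⟨cc, hcc⟩ := exists_injective_nat (Option M.tm.Λ × M.tm.σ)
  let d := Finset.univ.sup (fun l => depth (M.tm.m l))
  have hd : ∀ l, depth (M.tm.m l) ≤ d := fun l =>
    Finset.le_sup (f := fun l => depth (M.tm.m l)) (Finset.mem_univ l)
  have hT := windows_finite (Λ := M.tm.Λ) (σ := M.tm.σ) hA d
  let KL : List M.tm.K := Finset.univ.toList
  have hKL : ∀ k, k ∈ KL := fun k => by simp [KL]
  let TL := hT.toFinset.toList
  have hTL : ∀ c, c ∈ TL ↔ (∀ k, (c.stk k).length ≤ d) ∧ Over B c.stk := fun c => by simp [TL]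
  let g := cstep (TL.map fun w => (ccode KL cc cs w, ccode KL cc cs (nxt M.tm.m w))) KL.length d
  have hm : ∀ l, syms (M.tm.m l) ⊆ B := fun l x hx => Or.inl (Set.mem_iUnion.2 ⟨l, hx⟩)
  let c0 : α → TM2.Cfg M.tm.Γ M.tm.Λ M.tm.σ := fun x =>
    initList M.tm (List.map M.inputAlphabet.invFun (ea (F x)))
  have hstk : ∀ x k, (((c0 x).stk k).map fun γ => cs ⟨k, γ⟩) =
      if k = M.tm.k₀ then (ea (F x)).map fun b => cs ⟨M.tm.k₀, M.inputAlphabet.symm b⟩ else [] := by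
    intro x k
    by_cases hk : k = M.tm.k₀
    · subst hk
      simp [c0, initList]
    · simp [c0, initList, hk]
  have hover0 : ∀ x, Over B (c0 x).stk := by
    intro x k γ hγ
    by_cases hk : k = M.tm.k₀
    · subst hk
      simp only [c0, initList, dif_pos, List.mem_map] at hγ
      obtain ⟨b, -, rfl⟩ := List.mem_map.1 hγ
      exact Or.inr (Or.inl ⟨b, rfl⟩)
    · simp [c0, initList, hk] at hγ
  have hover : ∀ x n, Over B ((nxt M.tm.m)^[n] (c0 x)).stk := by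
    intro x n
    induction n with
    | zero => exact hover0 x
    | succ n ih => rw [Function.iterate_succ_apply']; exact over_nxt hm ih
  have hiter : ∀ x n, g^[n] (ccode KL cc cs (c0 x)) = ccode KL cc cs ((nxt M.tm.m)^[n] (c0 x)) := by
    intro x n
    induction n with
    | zero => rfl
    | succ n ih =>
      rw [Function.iterate_succ_apply', Function.iterate_succ_apply', ih]
      exact cstep_ccode hKL hcc hcs hd hTL (hover x n)
  have hs : PT fun x : α => ccode KL cc cs (c0 x) := by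
    have h1 : PT fun x : α => (ea (F x)).map fun b => cs ⟨M.tm.k₀, M.inputAlphabet.symm b⟩ :=
      PT.map (f := fun _ b => cs ⟨M.tm.k₀, M.inputAlphabet.symm b⟩)
        (PT.bool_cases (p := fun p : α × Bool => p.2) (by fun_prop)
          (g := fun b _ => cs ⟨M.tm.k₀, M.inputAlphabet.symm b⟩) fun b => PT.const _) hF
    simp only [ccode, hstk]
    refine PT.prodMk (PT.const (cc (some M.tm.main, M.tm.initialState))) (PT.map_const KL fun k => ?_)
    split_ifs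
    · exact h1
    · exact PT.const _
  let T : α → ℕ := fun x => M.time.eval (ea (F x)).length
  have hT' : PT T := PT.eval _ hF.length
  obtain ⟨C, hC⟩ : ∃ C, (∀ q, cc q ≤ C) ∧ ∀ s ∈ B, cs s ≤ C := by
    obtain ⟨C1, h1⟩ := (Set.finite_range cc).bddAbove
    obtain ⟨C2, h2⟩ := (hA.image cs).bddAbove
    exact ⟨C1 + C2, fun q => le_add_right (h1 ⟨q, rfl⟩), fun s hs => le_add_left (h2 ⟨s, hs, rfl⟩)⟩
  have hrun : PT fun x => g^[T x] (ccode KL cc cs (c0 x)) := by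
    refine PT.iter (pt_cstep _ _ _) hT' hs
      (B := fun x => 2 * C + 1 + KL.length * (2 * (((ea (F x)).length + T x * d) * (2 * C + 1)) + 1))
      (PT.pb (by have := hF.length; fun_prop)) fun x i hi => ?_
    rw [hiter, ccode, sz_prod, sz_nat]
    refine Nat.add_le_add (by have := hC.1 (((nxt M.tm.m)^[i] (c0 x)).l, ((nxt M.tm.m)^[i] (c0 x)).var); omega) ?_
    refine (sz_le_of_forall (B := ((ea (F x)).length + T x * d) * (2 * C + 1)) fun a ha => ?_).trans (by simp)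
    obtain ⟨k, -, rfl⟩ := List.mem_map.1 ha
    refine (sz_le_of_forall (B := C) fun a ha => ?_).trans (Nat.mul_le_mul_right _ ?_)
    · obtain ⟨γ, hγ, rfl⟩ := List.mem_map.1 ha
      simpa using hC.2 _ (hover x i k γ hγ)
    · rw [List.length_map]
      refine (length_nxt_iter hd _ k i).trans (Nat.add_le_add ?_ (Nat.mul_le_mul_right _ hi))
      have := congrArg List.length (hstk x k)
      rw [List.length_map] at this
      rw [this]
      split_ifs <;> simp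
  obtain ⟨j, hj, hjk⟩ := List.getElem_of_mem (hKL M.tm.k₁)
  have hout : PT fun x => ((g^[T x] (ccode KL cc cs (c0 x))).2.getD j []).map
      fun s => decide (s = cs ⟨M.tm.k₁, M.outputAlphabet.symm true⟩) :=
    PT.map (f := fun _ s => decide (s = cs ⟨M.tm.k₁, M.outputAlphabet.symm true⟩)) (by fun_prop)
      (PT.getD hrun.snd (PT.const _) (PT.const _))
  refine PT.congr hout fun x => ?_
  simp only [hiter]
  obtain ⟨⟨n, hn⟩, hn'⟩ := M.outputsFun (F x)
  simp only at hn'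
  have h1 := nxt_iter_of_steps M.tm.m n _ _ hn
  have h3 : n ≤ T x := hn'
  obtain ⟨e, he⟩ := Nat.exists_eq_add_of_le h3
  rw [he, add_comm, Function.iterate_add_apply]
  change ((ccode KL cc cs ((nxt M.tm.m)^[e] ((nxt M.tm.m)^[n] (initList M.tm _)))).2.getD j []).map _ = _
  rw [h1, nxt_iter_halt _ rfl]
  have hne : cs ⟨M.tm.k₁, M.outputAlphabet.symm false⟩ ≠ cs ⟨M.tm.k₁, M.outputAlphabet.symm true⟩ := by
    intro h
    have := hcs (Or.inr (Or.inr ⟨false, rfl⟩)) (Or.inr (Or.inr ⟨true, rfl⟩)) h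
    simp at this
  simp only [ccode, List.getD_eq_getElem?_getD, List.getElem?_map, List.getElem?_eq_getElem hj, hjk,
    Option.map_some, Option.getD_some, haltList, dif_pos, List.map_map]
  change List.map _ (List.map M.outputAlphabet.invFun (eb (f (F x)))) = _
  rw [List.map_map]
  refine (List.map_congr_left fun b _ => ?_).trans (List.map_id _)
  cases b <;> simp [hne]

end Pool.Agent.MP_eb915b_lc.Ker

end

section

/-! The composition of formulas into one instance and its running time. -/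

set_option autoImplicit false
set_option linter.unusedSimpArgs false

namespace Pool.Agent.MP_eb915b_lc.Ker

open Pool.Agent.MP_eb915b_lc Pool.Agent.MP_2e8011_lc

/-- The literal of variable `x` and sign `b` may be used for clause `c` of formula `t`. -/
def inc (φs : List CNF) (t c x b : ℕ) : Bool :=
  decide ((φs.getD t []).length ≤ c ∨ (x, decide (b = 1)) ∈ (φs.getD t []).getD c [])

theorem inc_iff {φs : List CNF} {N : ℕ} (hN : 0 < N) (h : ∀ φ ∈ φs, sz φ < N) :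
    (∃ t < φs.length, ∃ α : ℕ → ℕ, (∀ x, α x < 2) ∧
      ∀ c < N, ∃ x < N, inc φs t c x (α x) = true) ↔ ∃ φ ∈ φs, Sat φ := by
  constructor
  · rintro ⟨t, ht, α, -, h2⟩
    have e : φs.getD t [] = φs[t] := List.getD_eq_getElem _ _ ht
    refine ⟨φs[t], List.getElem_mem ht, fun x => decide (α x = 1), fun c hc => ?_⟩
    obtain ⟨i, hi, rfl⟩ := List.getElem_of_mem hc
    have h3 := length_le_sz φs[t]
    have h4 := h _ (List.getElem_mem ht)
    obtain ⟨x, -, hx⟩ := h2 i (by omega)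
    simp only [inc, e, decide_eq_true_eq, List.getD_eq_getElem _ _ hi] at hx
    rcases hx with hx | hx
    · omega
    · exact ⟨_, hx, rfl⟩
  · rintro ⟨φ, hφ, a, ha⟩
    obtain ⟨t, ht, rfl⟩ := List.getElem_of_mem hφ
    have e : φs.getD t [] = φs[t] := List.getD_eq_getElem _ _ ht
    refine ⟨t, ht, fun x => if a x = true then 1 else 0,
      fun x => by dsimp only; split_ifs <;> norm_num, fun c hc => ?_⟩
    by_cases hc' : φs[t].length ≤ c
    · exact ⟨0, hN, by simp only [inc, e, hc', true_or, decide_true]⟩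
    · have hi : c < φs[t].length := by omega
      obtain ⟨⟨x, b⟩, hl, hl'⟩ := ha _ (List.getElem_mem hi)
      have h1 := sz_le_of_mem (List.getElem_mem hi)
      have h2 := sz_le_of_mem hl
      have h3 := h _ hφ
      simp only [sz_prod, sz_nat] at h2
      refine ⟨x, by omega, ?_⟩
      simp only [inc, e, decide_eq_true_eq, List.getD_eq_getElem _ _ hi]
      refine Or.inr ?_
      dsimp only at hl'
      subst hl'
      have e' : decide ((if a x = true then 1 else 0) = 1) = a x := by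
        by_cases hx : a x = true <;> simp [hx]
      rwa [e']

/-- The name of a character. -/
def nm (a : Pq) : ℕ := Nat.pair a.1 (Nat.pair a.2.1 (Nat.pair a.2.2.1 a.2.2.2))

/-- The character with a given name. -/
def unm (c : ℕ) : Pq :=
  (c.unpair.1, c.unpair.2.unpair.1, c.unpair.2.unpair.2.unpair.1, c.unpair.2.unpair.2.unpair.2)

theorem unm_nm (a : Pq) : unm (nm a) = a := by
  simp [unm, nm, Nat.unpair_pair]

/-- The number of vertices. -/
def nv (N : ℕ) : ℕ := 2 * (2 * ((N + 1) * (N + 1)))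

/-- The composed instance. -/
def comp (N : ℕ) (φs : List CNF) : List ℕ × List ℕ × ℕ :=
  ((sq1 (nv N) (φs.length + 1) (gr N φs.length (inc φs))).map nm,
    (sq2 (nv N) (φs.length + 1) (gr N φs.length (inc φs))).map nm, 8 * nv N + 4)

theorem comp_spec {φs : List CNF} {N : ℕ} (hN : 0 < N) (h : ∀ φ ∈ φs, sz φ < N) :
    (comp N φs).1.Nodup ∧ (comp N φs).1.Perm (comp N φs).2.1 ∧
      (MSR (comp N φs).1 (comp N φs).2.1 (comp N φs).2.2 ↔ ∃ φ ∈ φs, Sat φ) := by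
  refine ⟨(nodup_of_key pairwise_sq1).map (Function.LeftInverse.injective unm_nm),
    perm_sq.map _, ?_⟩
  unfold comp
  dsimp only
  rw [msr_map_iff unm_nm, msr_iff_lcc, nv, lcc_gr hN, inc_iff hN h]

section time
variable {α : Type} [Enc α]

@[fun_prop] theorem pt_inc {φs : α → List CNF} {t c x b : α → ℕ} (h : PT φs) (ht : PT t)
    (hc : PT c) (hx : PT x) (hb : PT b) : PT (fun a => inc (φs a) (t a) (c a) (x a) (b a)) := by
  unfold inc
  fun_prop

@[fun_prop] theorem pt_de3 {N u : α → ℕ} (hN : PT N) (hu : PT u) :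
    PT (fun a => de3 (N a) (u a)) := by
  unfold de3
  fun_prop

@[fun_prop] theorem pt_arc {φs : α → List CNF} {N τ t : α → ℕ} {u w : α → V3} (h : PT φs)
    (hN : PT N) (hτ : PT τ) (ht : PT t) (hu : PT u) (hw : PT w) :
    PT (fun a => arc (N a) (τ a) (inc (φs a)) (u a) (w a) (t a)) := by
  unfold arc
  fun_prop

@[fun_prop] theorem pt_gr {φs : α → List CNF} {N τ u w t : α → ℕ} (h : PT φs)
    (hN : PT N) (hτ : PT τ) (hu : PT u) (hw : PT w) (ht : PT t) :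
    PT (fun a => gr (N a) (τ a) (inc (φs a)) (u a) (w a) (t a)) := by
  unfold gr dbl
  fun_prop

@[fun_prop] theorem pt_okq {φs : α → List CNF} {K T N τ : α → ℕ} {q : α → Pq} (h : PT φs)
    (hK : PT K) (hT : PT T) (hN : PT N) (hτ : PT τ) (hq : PT q) :
    PT (fun a => okq (K a) (T a) (gr (N a) (τ a) (inc (φs a))) (q a)) := by
  unfold okq
  fun_prop

theorem pt_qts {φs : α → List CNF} {K T N τ : α → ℕ} (h : PT φs)
    (hK : PT K) (hT : PT T) (hN : PT N) (hτ : PT τ) :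
    PT (fun a => qts (K a) (T a) (gr (N a) (τ a) (inc (φs a)))) := by
  unfold qts
  exact PT.filter (f := fun a q => okq (K a) (T a) (gr (N a) (τ a) (inc (φs a))) q)
    (by fun_prop) (by fun_prop)

@[fun_prop] theorem pt_bs {K T : α → ℕ} (hK : PT K) (hT : PT T) :
    PT (fun a => bs (K a) (T a)) := by
  unfold bs
  fun_prop

@[fun_prop] theorem pt_num {W : α → ℕ} {d : α → D5} (hW : PT W) (hd : PT d) :
    PT (fun a => num (W a) (d a)) := by
  unfold num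
  fun_prop

@[fun_prop] theorem pt_dX {K : α → ℕ} {q : α → Pq} (hK : PT K) (hq : PT q) :
    PT (fun a => dX (K a) (q a)) := by
  unfold dX
  fun_prop

@[fun_prop] theorem pt_dY {K T : α → ℕ} {q : α → Pq} (hK : PT K) (hT : PT T) (hq : PT q) :
    PT (fun a => dY (K a) (T a) (q a)) := by
  unfold dY
  fun_prop

@[fun_prop] theorem pt_qx {K T : α → ℕ} {q : α → Pq} (hK : PT K) (hT : PT T) (hq : PT q) :
    PT (fun a => qx (K a) (T a) (q a)) := by
  unfold qx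
  fun_prop

@[fun_prop] theorem pt_qy {K T : α → ℕ} {q : α → Pq} (hK : PT K) (hT : PT T) (hq : PT q) :
    PT (fun a => qy (K a) (T a) (q a)) := by
  unfold qy
  fun_prop

@[fun_prop] theorem pt_qb {K T : α → ℕ} (hK : PT K) (hT : PT T) :
    PT (fun a => qb (K a) (T a)) := by
  unfold qb
  fun_prop

@[fun_prop] theorem pt_nm {q : α → Pq} (hq : PT q) : PT (fun a => nm (q a)) := by
  unfold nm
  fun_prop

@[fun_prop] theorem pt_nv {N : α → ℕ} (hN : PT N) : PT (fun a => nv (N a)) := by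
  unfold nv
  fun_prop

theorem pt_comp {N : α → ℕ} {φs : α → List CNF} (hN : PT N) (h : PT φs) :
    PT (fun a => comp (N a) (φs a)) := by
  have h0 : PT (fun a => qts (nv (N a)) ((φs a).length + 1)
      (gr (N a) (φs a).length (inc (φs a)))) :=
    pt_qts h (by fun_prop) (by fun_prop) hN (by fun_prop)
  have h1 : PT (fun a => sq1 (nv (N a)) ((φs a).length + 1)
      (gr (N a) (φs a).length (inc (φs a)))) :=
    pt_sortBy (κ := fun a q => qx (nv (N a)) ((φs a).length + 1) q) (by fun_prop) (by fun_prop) h0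
  have h2 : PT (fun a => sq2 (nv (N a)) ((φs a).length + 1)
      (gr (N a) (φs a).length (inc (φs a)))) :=
    pt_sortBy (κ := fun a q => qy (nv (N a)) ((φs a).length + 1) q) (by fun_prop) (by fun_prop) h0
  have h4 : ∀ {l : α → List Pq}, PT l → PT (fun x => (l x).map nm) := fun hl =>
    PT.map (f := fun _ t => nm t) (by fun_prop) hl
  exact (h4 h1).prodMk ((h4 h2).prodMk (by fun_prop))

theorem pt_kernel {β : Type} [N487b59b3 β] {κ : List ℕ × List ℕ × ℕ → β}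
    (hκ : N68a2faeb.IsPolyTime κ) {F : α → List ℕ × List ℕ × ℕ} (hF : PT F) :
    PT fun a => N487b59b3.bitEncode (κ (F a)) := by
  refine pt_of_machine hκ ?_
  have h : ∀ {l : α → List ℕ}, PT l → PT (fun x => (l x).map binRaw) := fun hl =>
    PT.map (f := fun _ t => binRaw t) (pt_binRaw (by fun_prop)) hl
  have h1 : PT fun a => ((F a).1.map binRaw, (F a).2.1.map binRaw, binRaw (F a).2.2) :=
    (h hF.fst).prodMk ((h hF.snd.fst).prodMk (pt_binRaw hF.snd.snd))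
  refine PT.congr (CP.toBits h1) fun a => ?_
  exact (bitEncode_prod (bitEncode_list bitEncode_nat)
    (κ := fun z : List ℕ × ℕ => (z.1.map binRaw, binRaw z.2))
    (bitEncode_prod (bitEncode_list bitEncode_nat) bitEncode_nat) (F a)).symm

end time

/-- A polynomial compression of the problem compresses disjunctions of instances of any
language in NP. -/
theorem or_compression {β : Type} [N487b59b3 β] {κ : List ℕ × List ℕ × ℕ → β}
    (hκ : N68a2faeb.IsPolyTime κ) {p : Polynomial ℕ} {R : Set β}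
    (h : ∀ (G₁ G₂ : List ℕ) (k : ℕ), G₁.Nodup → G₁.Perm G₂ →
      (N487b59b3.bitEncode (κ (G₁, G₂, k))).length ≤ p.eval k ∧
        (MSR G₁ G₂ k ↔ κ (G₁, G₂, k) ∈ R))
    {L : List Bool → Bool} (hL : L ∈ N68a2faeb.NP) :
    ∃ (g : ℕ × List (List Bool) → List Bool) (q : Polynomial ℕ), PT g ∧
      ∀ n xs, (∀ x ∈ xs, x.length = n) → (g (n, xs)).length ≤ q.eval n ∧
        ((∃ x ∈ xs, L x = true) ↔ g (n, xs) ∈ N487b59b3.bitEncode '' R) := by
  obtain ⟨f, hf, hfL⟩ := cookLevin hL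
  obtain ⟨r, hr⟩ := hf.pb_sz
  refine ⟨fun z => N487b59b3.bitEncode (κ (comp (r.eval (3 * z.1) + 1) (z.2.map f))),
    p.comp (8 * (2 * (2 * ((r.comp (3 * Polynomial.X) + 2) * (r.comp (3 * Polynomial.X) + 2))))
      + 4),
    pt_kernel hκ (pt_comp (by fun_prop)
      (PT.map (f := fun _ x => f x) (hf.comp (by fun_prop)) (by fun_prop))), fun n xs hxs => ?_⟩
  have h1 : ∀ φ ∈ xs.map f, sz φ < r.eval (3 * n) + 1 := by
    intro φ hφ
    obtain ⟨x, hx, rfl⟩ := List.mem_map.1 hφ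
    have : sz (f x) ≤ r.eval (sz x) := hr x
    rw [show sz x = 3 * n by rw [sz, length_enc_bits, hxs x hx]] at this
    omega
  obtain ⟨a1, a2, a3⟩ := comp_spec (Nat.succ_pos _) h1
  obtain ⟨b1, b2⟩ := h _ _ (comp (r.eval (3 * n) + 1) (xs.map f)).2.2 a1 a2
  refine ⟨b1.trans (le_of_eq ?_), ?_⟩
  · simp [comp, nv, Polynomial.eval_comp, add_assoc]
  · refine Iff.trans ?_ (b2.trans N487b59b3.bitEncode_injective.mem_set_image.symm)
    rw [a3]
    simp only [List.mem_map, exists_exists_and_eq_and, hfL]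

end Pool.Agent.MP_eb915b_lc.Ker

end

section

/-! The counting argument of Fortnow and Santhanam. -/

set_option autoImplicit false
set_option linter.unusedSimpArgs false

namespace Pool.Agent.MP_eb915b_lc.Ker

open Pool.Agent.MP_2e8011_lc Pool.Agent.MP_a4408f_lc

theorem halving {X Y : Type} {t : ℕ} (ht : 0 < t) (S : Finset Y) (hS : S.card ≤ 2 ^ t)
    (G : (Fin t → X) → Y) (U : Finset X) (hG : ∀ f, (∀ i, f i ∈ U) → G f ∈ S)
    (hU : U.Nonempty) : ∃ f₀, (∀ i, f₀ i ∈ U) ∧ ∃ W ⊆ U, U.card ≤ 2 * W.card ∧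
      ∀ x ∈ W, ∃ f, (∀ i, f i ∈ U) ∧ (∃ i, f i = x) ∧ G f = G f₀ := by
  classical
  let W : Y → Finset X := fun y =>
    U.filter fun x => ∃ f, (∀ i, f i ∈ U) ∧ (∃ i, f i = x) ∧ G f = y
  let P := Fintype.piFinset fun _ : Fin t => U
  by_contra hc
  have h1 : ∀ y ∈ P.image G, (2 * (W y).card) ^ t < U.card ^ t := by
    intro y hy
    obtain ⟨f₀, hf, rfl⟩ := Finset.mem_image.1 hy
    refine Nat.pow_lt_pow_left (not_le.1 fun h => hc ⟨f₀, Fintype.mem_piFinset.1 hf, W (G f₀),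
      Finset.filter_subset _ _, h, fun x hx => (Finset.mem_filter.1 hx).2⟩) ht.ne'
  have h2 : U.card ^ t ≤ ∑ y ∈ P.image G, (W y).card ^ t := by
    rw [← Fintype.card_piFinset_const, Finset.card_eq_sum_card_image G]
    refine Finset.sum_le_sum fun y _ => ?_
    rw [← Fintype.card_piFinset_const]
    refine Finset.card_le_card fun f hf => ?_
    obtain ⟨a1, a2⟩ := Finset.mem_filter.1 hf
    have a3 := Fintype.mem_piFinset.1 a1
    exact Fintype.mem_piFinset.2 fun i => Finset.mem_filter.2 ⟨a3 i, f, a3, ⟨i, rfl⟩, a2⟩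
  have h3 : (P.image G).Nonempty := by
    obtain ⟨x, hx⟩ := hU
    exact ⟨_, Finset.mem_image_of_mem G (Fintype.mem_piFinset.2 fun _ => hx : (fun _ => x) ∈ P)⟩
  have h4 := Finset.sum_lt_sum_of_nonempty h3 h1
  have h5 : (P.image G).card ≤ 2 ^ t := by
    refine (Finset.card_le_card fun y hy => ?_).trans hS
    obtain ⟨f, hf, rfl⟩ := Finset.mem_image.1 hy
    exact hG f (Fintype.mem_piFinset.1 hf)
  simp only [mul_pow, ← Finset.mul_sum, Finset.sum_const, smul_eq_mul] at h4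
  have h6 := Nat.mul_le_mul_left (2 ^ t) h2
  have h7 := Nat.mul_le_mul_right (U.card ^ t) h5
  omega

theorem covering {X Y : Type} {t : ℕ} (ht : 0 < t) (S : Finset Y) (hS : S.card ≤ 2 ^ t)
    (G : (Fin t → X) → Y) (V : Finset X) (hG : ∀ f, (∀ i, f i ∈ V) → G f ∈ S) (j : ℕ) :
    ∀ U ⊆ V, U.card < 2 ^ j → ∃ A : List Y, A.length ≤ j ∧
      (∀ y ∈ A, ∃ f, (∀ i, f i ∈ V) ∧ G f = y) ∧
        ∀ x ∈ U, ∃ f, (∀ i, f i ∈ V) ∧ (∃ i, f i = x) ∧ G f ∈ A := by
  classical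
  induction j with
  | zero =>
    intro U _ h
    obtain rfl : U = ∅ := Finset.card_eq_zero.1 (by simpa using h)
    exact ⟨[], le_rfl, by simp, by simp⟩
  | succ j ih =>
    intro U hU h
    rcases U.eq_empty_or_nonempty with rfl | hne
    · exact ⟨[], Nat.zero_le _, by simp, by simp⟩
    obtain ⟨f₀, h0, W, h1, h2, h3⟩ := halving ht S hS G U (fun f hf => hG f fun i => hU (hf i)) hne
    have h4 := Finset.card_sdiff_add_card_eq_card h1
    obtain ⟨A, a1, a2, a3⟩ := ih (U \ W) (Finset.sdiff_subset.trans hU)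
      (by rw [pow_succ] at h; omega)
    refine ⟨G f₀ :: A, Nat.succ_le_succ a1, fun y hy => ?_, fun x hx => ?_⟩
    · rcases List.mem_cons.1 hy with rfl | hy
      · exact ⟨f₀, fun i => hU (h0 i), rfl⟩
      · exact a2 y hy
    · by_cases hx' : x ∈ W
      · obtain ⟨f, b1, b2, b3⟩ := h3 x hx'
        exact ⟨f, fun i => hU (b1 i), b2, b3 ▸ List.mem_cons_self⟩
      · obtain ⟨f, b1, b2, b3⟩ := a3 x (Finset.mem_sdiff.2 ⟨hx, hx'⟩)
        exact ⟨f, b1, b2, List.mem_cons_of_mem _ b3⟩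

/-- The strings of a given length. -/
def strs (n : ℕ) : Finset (List Bool) := (Finset.univ : Finset (Fin n → Bool)).image List.ofFn

theorem mem_strs {n : ℕ} {x : List Bool} : x ∈ strs n ↔ x.length = n := by
  constructor
  · intro h
    obtain ⟨f, -, rfl⟩ := Finset.mem_image.1 h
    exact List.length_ofFn
  · rintro rfl
    exact Finset.mem_image.2 ⟨x.get, Finset.mem_univ _, List.ofFn_get x⟩

theorem card_strs (n : ℕ) : (strs n).card ≤ 2 ^ n :=
  Finset.card_image_le.trans (by simp)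

/-- The first `m` blocks of length `n`. -/
def chunks (n m : ℕ) (w : List Bool) : List (List Bool) :=
  (List.range m).map fun i => (w.drop (i * n)).take n

theorem chunk_flatten {n : ℕ} (A : List (List Bool)) (h : ∀ y ∈ A, y.length = n) (i : ℕ) :
    (A.flatten.drop (i * n)).take n = A.getD i [] := by
  induction A generalizing i with
  | nil => simp
  | cons y A ih =>
    have h1 := h y List.mem_cons_self
    cases i with
    | zero => simp [List.take_left' h1]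
    | succ i =>
      rw [List.flatten_cons, show (i + 1) * n = y.length + i * n by rw [h1]; ring,
        List.drop_length_add_append, ih fun z hz => h z (List.mem_cons_of_mem _ hz)]
      rfl

theorem length_flatten_eq {n : ℕ} (A : List (List Bool)) (h : ∀ y ∈ A, y.length = n) :
    A.flatten.length = A.length * n := by
  induction A with
  | nil => simp
  | cons y A ih =>
    rw [List.flatten_cons, List.length_append, h y List.mem_cons_self,
      ih fun z hz => h z (List.mem_cons_of_mem _ hz), List.length_cons]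
    ring

theorem chunks_flatten {n : ℕ} (A : List (List Bool)) (h : ∀ y ∈ A, y.length = n) :
    chunks n A.length A.flatten = A := by
  refine List.ext_getElem (by simp [chunks]) fun i h1 h2 => ?_
  simp only [chunks, List.getElem_map, List.getElem_range, chunk_flatten A h,
    List.getD_eq_getElem _ _ h2]

theorem mem_chunks {n m : ℕ} (A : List (List Bool)) (h : ∀ y ∈ A, y.length = n)
    (hm : A.length ≤ m) {y : List Bool} (hy : y ≠ []) : y ∈ chunks n m A.flatten ↔ y ∈ A := by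
  simp only [chunks, List.mem_map, List.mem_range, chunk_flatten A h]
  constructor
  · rintro ⟨i, -, rfl⟩
    by_cases hi : i < A.length
    · rw [List.getD_eq_getElem _ _ hi]
      exact List.getElem_mem hi
    · exact (hy (List.getD_eq_default _ _ (not_lt.1 hi))).elim
  · intro h1
    obtain ⟨i, hi, rfl⟩ := List.getElem_of_mem h1
    exact ⟨i, by omega, List.getD_eq_getElem _ _ hi⟩

@[fun_prop] theorem pt_chunks {α : Type} [Enc α] {n m : α → ℕ} {w : α → List Bool} (hn : PT n)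
    (hm : PT m) (hw : PT w) : PT fun a => chunks (n a) (m a) (w a) := by
  unfold chunks
  fun_prop

theorem compl_mem_of_exact {L : List Bool → Bool} {G : ℕ × List (List Bool) → List Bool}
    (hG : PT G) (t : Polynomial ℕ) (ht : ∀ n, 0 < t.eval n)
    (h1 : ∀ n xs, (∀ x ∈ xs, x.length = n) → (G (n, xs)).length = t.eval n)
    (h2 : ∀ n xs ys, (∀ x ∈ xs, x.length = n) → (∀ y ∈ ys, y.length = n) →
      G (n, xs) = G (n, ys) → (∃ x ∈ xs, L x = true) → ∃ y ∈ ys, L y = true) :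
    Lᶜ ∈ NPpoly := by
  have key : ∀ n, ∃ A : List (List Bool), A.length ≤ n + 1 ∧
      (∀ y ∈ A, ∃ ys : List (List Bool), (∀ z ∈ ys, z.length = n ∧ L z = false) ∧
        G (n, ys) = y) ∧
      ∀ x : List Bool, x.length = n → L x = false → ∃ xs : List (List Bool),
        xs.length = t.eval n ∧ (∀ z ∈ xs, z.length = n) ∧ x ∈ xs ∧ G (n, xs) ∈ A := by
    intro n
    let V := (strs n).filter fun x => L x = false
    have hV : ∀ x, x ∈ V ↔ x.length = n ∧ L x = false := fun x => by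
      simp only [V, Finset.mem_filter, mem_strs]
    have hf : ∀ f : Fin (t.eval n) → List Bool, (∀ i, f i ∈ V) →
        ∀ z ∈ List.ofFn f, z.length = n ∧ L z = false := by
      intro f hf z hz
      obtain ⟨i, rfl⟩ := (List.mem_ofFn' _ _).1 hz
      exact (hV _).1 (hf i)
    obtain ⟨A, a1, a2, a3⟩ := covering (ht n) (strs (t.eval n)) (card_strs _)
      (fun f => G (n, List.ofFn f)) V
      (fun f h => mem_strs.2 (h1 n _ fun z hz => (hf f h z hz).1)) (n + 1) V subset_rfl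
      (((Finset.card_filter_le _ _).trans (card_strs n)).trans_lt
        (Nat.pow_lt_pow_right (by norm_num) (Nat.lt_succ_self n)))
    refine ⟨A, a1, fun y hy => ?_, fun x hx hL => ?_⟩
    · obtain ⟨f, b1, b2⟩ := a2 y hy
      exact ⟨_, hf f b1, b2⟩
    · obtain ⟨f, b1, ⟨i, b2⟩, b3⟩ := a3 x ((hV x).2 ⟨hx, hL⟩)
      exact ⟨_, List.length_ofFn, fun z hz => (hf f b1 z hz).1, (List.mem_ofFn' _ _).2 ⟨i, b2⟩, b3⟩
  choose A a1 a2 a3 using key
  have a4 : ∀ n, ∀ y ∈ A n, y.length = t.eval n := by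
    intro n y hy
    obtain ⟨ys, b1, rfl⟩ := a2 n y hy
    exact h1 n ys fun z hz => (b1 z hz).1
  let C : List Bool × List Bool × List Bool → List (List Bool) := fun z =>
    chunks z.1.length (t.eval z.1.length) z.2.2
  have hC : PT C := by fun_prop
  have hGC : PT fun z : List Bool × List Bool × List Bool => G (z.1.length, C z) :=
    hG.comp (by fun_prop)
  refine ⟨(Polynomial.X + 1) * t, fun n => (A n).flatten, fun z =>
    ((C z).all fun y => decide (y.length = z.1.length)) && decide (z.1 ∈ C z) &&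
      decide (G (z.1.length, C z) ∈ chunks (t.eval z.1.length) (z.1.length + 1) z.2.1),
    PT.isPolyTime (agree_prod (agree_list agree_bool)
      (agree_prod (agree_list agree_bool) (agree_list agree_bool))) agree_bool
      (by fun_prop), fun n => ?_, fun x => ?_⟩
  · rw [length_flatten_eq _ (a4 n)]
    simpa using Nat.mul_le_mul_right _ (a1 n)
  · have hne : ∀ xs, (∀ z ∈ xs, z.length = x.length) → G (x.length, xs) ≠ [] := by
      intro xs h e
      have := h1 _ xs h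
      have := ht x.length
      rw [e] at *
      simp at *
      omega
    have e : Lᶜ x = true ↔ L x = false := by simp
    simp only [e, Bool.and_eq_true, List.all_eq_true, decide_eq_true_eq]
    constructor
    · intro hL
      obtain ⟨xs, b1, b2, b3, b4⟩ := a3 _ x rfl hL
      have e1 : C (x, (A x.length).flatten, xs.flatten) = xs := by
        simp only [C, ← b1]
        exact chunks_flatten xs b2
      refine ⟨xs.flatten, ?_, ?_⟩
      · rw [length_flatten_eq _ b2, b1]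
        simp only [Polynomial.eval_mul, Polynomial.eval_add, Polynomial.eval_X,
          Polynomial.eval_one]
        nlinarith
      · rw [e1]
        exact ⟨⟨b2, b3⟩, (mem_chunks _ (a4 _) (a1 _) (hne xs b2)).2 b4⟩
    · rintro ⟨w, -, ⟨b1, b2⟩, b3⟩
      obtain ⟨ys, c1, c2⟩ := a2 _ _ ((mem_chunks _ (a4 _) (a1 _) (hne _ b1)).1 b3)
      by_contra hL
      obtain ⟨y, hy, hy'⟩ := h2 _ _ ys b1 (fun z hz => (c1 z hz).1) c2.symm
        ⟨x, b2, by simpa using hL⟩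
      rw [(c1 y hy).2] at hy'
      exact Bool.false_ne_true hy'

/-- A string padded to a fixed length. -/
def pad (s : ℕ) (y : List Bool) : List Bool :=
  (List.range (s - y.length)).map (fun _ => false) ++ true :: y

theorem pad_inj {s : ℕ} {y z : List Bool} (h : pad s y = pad s z) : y = z := by
  have key : ∀ (m : List ℕ) (y : List Bool),
      (m.map (fun _ => false) ++ true :: y).dropWhile (fun b => !b) = true :: y := by
    intro m y
    induction m with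
    | nil => simp
    | cons a m ih => simp
  have := congrArg (List.dropWhile fun b => !b) h
  simpa only [pad, key, List.cons.injEq, true_and] using this

/-- **Fortnow and Santhanam.** -/
theorem compl_mem_of_compression {L : List Bool → Bool} {g : ℕ × List (List Bool) → List Bool}
    (hg : PT g) (q : Polynomial ℕ) (R : Set (List Bool))
    (h : ∀ n xs, (∀ x ∈ xs, x.length = n) →
      (g (n, xs)).length ≤ q.eval n ∧ ((∃ x ∈ xs, L x = true) ↔ g (n, xs) ∈ R)) :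
    Lᶜ ∈ NPpoly := by
  refine compl_mem_of_exact (G := fun z => pad (q.eval z.1) (g z)) ?_ (q + 1) (by simp)
    (fun n xs hxs => ?_) fun n xs ys hxs hys e hx => ?_
  · unfold pad
    fun_prop
  · have := (h n xs hxs).1
    simp only [pad, List.length_append, List.length_map, List.length_range, List.length_cons,
      Polynomial.eval_add, Polynomial.eval_one]
    omega
  · rw [(h n ys hys).2, ← pad_inj e, ← (h n xs hxs).2]
    exact hx

theorem no_kernel {β : Type} [N487b59b3 β] (κ : List ℕ × List ℕ × ℕ → β)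
    (hκ : N68a2faeb.IsPolyTime κ) (p : Polynomial ℕ) (R : Set β)
    (h : ∀ (G₁ G₂ : List ℕ) (k : ℕ), G₁.Nodup → G₁.Perm G₂ →
      (N487b59b3.bitEncode (κ (G₁, G₂, k))).length ≤ p.eval k ∧
        (MSR G₁ G₂ k ↔ κ (G₁, G₂, k) ∈ R)) :
    N68a2faeb.coNP ⊆ NPpoly := by
  intro L hL
  obtain ⟨g, q, hg, hq⟩ := or_compression hκ h hL
  have := compl_mem_of_compression hg q _ hq
  rwa [compl_compl] at this

end Pool.Agent.MP_eb915b_lc.Ker

end
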