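import Mathlib
import Pool.Agent.Mg.Xeb915b.Gf1ba05

section

namespace Pool.Agent.MP_f23db5_lc.Low

theorem mono_LBnd {A : Type} [BooleanAlgebra A] {R : Ops A} {D : Type} {ρ : A → Set (D × D)}
    (h : IsRep R ρ) {a b : A} (hab : a ≤ b) {p : D × D} (hp : p ∈ ρ a) : p ∈ ρ b := by
  have h1 := h.map_inf a b
  rw [inf_eq_left.mpr hab] at h1
  rw [h1] at hp
  exact hp.2

theorem lab_LBnd {A : Type} [BooleanAlgebra A] [Fintype A] {R : Ops A} {D : Type}
    {ρ : A → Set (D × D)} (h : IsRep R ρ) (p : D × D) :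
    ∃ a, IsAtom a ∧ p ∈ ρ a ∧ ∀ b, p ∈ ρ b → a ≤ b := by
  classical
  have key : ∀ T : Finset A, (∀ b ∈ T, p ∈ ρ b) → p ∈ ρ (T.inf id) := by
    intro T
    induction T using Finset.induction_on with
    | empty => intro _; rw [Finset.inf_empty, h.map_top]; trivial
    | insert c T _ ih =>
      intro hT
      rw [Finset.inf_insert, h.map_inf]
      exact ⟨hT c (Finset.mem_insert_self _ _), ih fun b hb => hT b (Finset.mem_insert_of_mem hb)⟩
  have hmem : p ∈ ρ ((Finset.univ.filter fun b => p ∈ ρ b).inf id) :=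
    key _ fun b hb => (Finset.mem_filter.mp hb).2
  have hle : ∀ b, p ∈ ρ b → (Finset.univ.filter fun b => p ∈ ρ b).inf id ≤ b := fun b hb =>
    Finset.inf_le (f := id) (Finset.mem_filter.mpr ⟨Finset.mem_univ _, hb⟩)
  refine ⟨_, ⟨?_, ?_⟩, hmem, hle⟩
  · intro h0
    rw [h0, h.map_bot] at hmem
    exact hmem
  · intro b hb
    by_cases hp : p ∈ ρ b
    · exact absurd (hle b hp) (not_le_of_gt hb)
    · have h2 : p ∈ ρ bᶜ := by rw [h.map_compl]; exact hp
      exact le_compl_self.mp (hb.le.trans (hle _ h2))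

theorem card_LBnd (X : Type) (k : ℕ) : ∃ s : ℕ, ∀ (D : Type) (l : D → D → X),
    (∀ x y z, x ≠ y → l x y = l x z → l x y ≠ l y z) → ∀ (Y : Finset D) (T : Finset X),
      T.card ≤ k → (∀ x ∈ Y, ∀ y ∈ Y, x ≠ y → l x y ∈ T) → Y.card ≤ s := by
  classical
  induction k with
  | zero =>
    refine ⟨1, fun D l _ Y T hT hY => ?_⟩
    rw [Finset.card_le_one]
    intro x hx y hy
    by_contra hne
    have := hY x hx y hy hne
    rw [Finset.card_eq_zero.mp (Nat.le_zero.mp hT)] at this
    simp at this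
  | succ k ih =>
    obtain ⟨s, hs⟩ := ih
    refine ⟨s * (k + 1) + 1, fun D l hl Y T hT hY => ?_⟩
    rcases Y.eq_empty_or_nonempty with rfl | ⟨x, hx⟩
    · simp
    have h1 : (Y.erase x).card ≤ s * T.card := by
      refine Finset.card_le_mul_card_image_of_maps_to (f := fun y => l x y) ?_ s ?_
      · intro y hy
        exact hY x hx y (Finset.mem_of_mem_erase hy) (Finset.ne_of_mem_erase hy).symm
      · intro a ha
        refine hs D l hl _ (T.erase a) ?_ ?_
        · rw [Finset.card_erase_of_mem ha]; omega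
        · intro y hy z hz hyz
          obtain ⟨hy1, hy2⟩ := Finset.mem_filter.mp hy
          obtain ⟨hz1, hz2⟩ := Finset.mem_filter.mp hz
          refine Finset.mem_erase.mpr ⟨?_, hY y (Finset.mem_of_mem_erase hy1) z
            (Finset.mem_of_mem_erase hz1) hyz⟩
          intro h
          exact hl x y z (Finset.ne_of_mem_erase hy1).symm (hy2.trans hz2.symm) (hy2.trans h.symm)
    have h2 := Finset.card_erase_of_mem hx
    have h3 : s * T.card ≤ s * (k + 1) := Nat.mul_le_mul_left _ hT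
    omega

theorem bndP : BndP := by
  classical
  intro A _ _ R hR
  obtain ⟨s, hs⟩ := card_LBnd A (Fintype.card A)
  refine ⟨(Fin (s + 1) → Fin (s + 1) → A) × Fin (s + 1) × Fin (s + 1), inferInstance,
    fun b => b.1 b.2.1 b.2.2,
    fun g => ∃ (H : Fin (s + 1) → Fin (s + 1) → A) (φ : Fin 4 → Fin (s + 1)),
      Satisfiable R (s + 1) H ∧ ∀ a b, g a b = (H, φ a, φ b), fun n lab => ⟨?_, ?_⟩⟩
  · rintro ⟨D, ρ, hρ, f, hf⟩
    choose l hl1 hl2 hl3 using fun x y : D => lab_LBnd hρ (x, y)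
    have hl : ∀ x y z, x ≠ y → l x y = l x z → l x y ≠ l y z := by
      intro x y z hxy h1 h2
      have h3 : (x, z) ∈ ρ (R.comp (l x y) (l x y)) := by
        rw [hρ.map_comp]
        refine ⟨y, hl2 x y, ?_⟩
        rw [h2]
        exact hl2 y z
      have h4 := hl3 x z _ h3
      rw [← h1] at h4
      have h5 := mono_LBnd hρ (hR _ (hl1 x y) h4) (hl2 x y)
      rw [hρ.map_ide] at h5
      exact hxy h5
    have hc := hs D l hl (Finset.univ.image f) Finset.univ (by simp) (by simp)
    obtain ⟨ι⟩ : Nonempty ((Finset.univ.image f : Finset D) ↪ Fin (s + 1)) := by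
      apply Function.Embedding.nonempty_of_card_le
      rw [Fintype.card_coe, Fintype.card_fin]
      omega
    have hm : ∀ i, f i ∈ (Finset.univ.image f : Finset D) := fun i =>
      Finset.mem_image_of_mem f (Finset.mem_univ i)
    have : Nonempty (Finset.univ.image f : Finset D) := ⟨⟨f 0, hm 0⟩⟩
    have he : ∀ i, (Function.invFun ι (ι ⟨f i, hm i⟩)).1 = f i := fun i => by
      rw [Function.leftInverse_invFun ι.injective]
    refine ⟨fun i j => (fun a b => l (Function.invFun ι a).1 (Function.invFun ι b).1,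
      ι ⟨f i, hm i⟩, ι ⟨f j, hm j⟩), fun i j => ?_, fun t => ⟨_, fun a => ι ⟨f (t a), hm _⟩,
        ⟨D, ρ, hρ, fun a => (Function.invFun ι a).1, fun a b => hl2 _ _⟩, fun a b => rfl⟩⟩
    simp only [he]
    exact hl3 _ _ _ (hf i j)
  · rintro ⟨g, hg1, hg2⟩
    have key : ∀ i j, g i j = ((g 0 0).1, (g i i).2.1, (g j j).2.1) := by
      intro i j
      obtain ⟨H, φ, -, h⟩ := hg2 ![i, j, 0, 0]
      have h01 : g i j = (H, φ 0, φ 1) := h 0 1
      have h00 : g i i = (H, φ 0, φ 0) := h 0 0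
      have h11 : g j j = (H, φ 1, φ 1) := h 1 1
      have h22 : g 0 0 = (H, φ 2, φ 2) := h 2 2
      rw [h01, h00, h11, h22]
    obtain ⟨H, φ, ⟨D, ρ, hρ, e, he⟩, h⟩ := hg2 fun _ => 0
    have h0 : (g 0 0).1 = H := congrArg Prod.fst (h 0 0)
    refine ⟨D, ρ, hρ, fun i => e (g i i).2.1, fun i j => mono_LBnd hρ ?_ (he _ _)⟩
    have h1 := hg1 i j
    rw [key i j, h0] at h1
    exact h1

end Pool.Agent.MP_f23db5_lc.Low

end

section

namespace Pool.Agent.MP_f23db5_lc.Low

theorem gt_eq_LRef {S : St} {D : Type} {l : D → D → ℕ} (hc : Con S l) {f : ℕ → D}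
    {N : List (List ℕ)} (hr : Real l f N) {i j : ℕ} (hi : i < N.length) (hj : j < N.length) :
    gt S N i j = l (f i) (f j) := by
  unfold gt
  split_ifs with h1 h2
  · exact (hr j hj i h1).symm
  · rw [h2, hc.dg]
  · rw [← hr i hi j (by omega), ← hc.cv]

theorem getD_map_range_LRef {β : Type} (g : ℕ → β) (d : β) {n i : ℕ} (hi : i < n) :
    ((List.range n).map g).getD i d = g i := by
  rw [List.getD_eq_getElem _ _ (by simpa using hi)]
  simp

theorem row_mem_LRef {S : St} {D : Type} {l : D → D → ℕ} (hc : Con S l) {f : ℕ → D}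
    {N : List (List ℕ)} (hr : Real l f N) {x y a b : ℕ} {z : D} (ha : l (f x) z = a)
    (hb : l z (f y) = b) (i : ℕ) (hi : i ≤ N.length) :
    (List.range i).map (fun v => l (f v) z) ∈ exts S N x y a b i := by
  induction i with
  | zero => simp [exts]
  | succ i ih =>
    rw [exts, List.mem_flatMap]
    refine ⟨_, ih (by omega), ?_⟩
    rw [List.mem_map]
    refine ⟨l (f i) z, ?_, by rw [List.range_succ, List.map_append]; rfl⟩
    rw [List.mem_filter, List.mem_range, decide_eq_true_iff]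
    refine ⟨hc.lt _ _, fun h => h ▸ ha, fun h => ?_, fun j hj => ?_⟩
    · rw [h, hc.cv, hb]
    · rw [gt_eq_LRef hc hr (by omega) (by omega), getD_map_range_LRef _ _ hj]
      exact hc.tri _ _ _

theorem real_snoc_LRef {D : Type} {l : D → D → ℕ} {f : ℕ → D} {N : List (List ℕ)}
    (hr : Real l f N) (z : D) :
    Real l (Function.update f N.length z)
      (N ++ [(List.range N.length).map (fun v => l (f v) z)]) := by
  intro j hj i hi
  rw [List.length_append, List.length_singleton] at hj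
  rw [Function.update_of_ne (by omega)]
  by_cases h : j = N.length
  · subst h
    rw [Function.update_self, List.getD_append_right _ _ _ _ le_rfl, Nat.sub_self,
      List.getD_cons_zero, getD_map_range_LRef _ _ hi]
  · rw [Function.update_of_ne h, List.getD_append _ _ _ _ (by omega)]
    exact hr j (by omega) i hi

theorem real_sub_LRef {S : St} {D : Type} {l : D → D → ℕ} (hc : Con S l) {f : ℕ → D}
    {N : List (List ℕ)} (hr : Real l f N) {ix : List ℕ} (hix : ∀ i ∈ ix, i < N.length) :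
    Real l (fun i => f (ix.getD i 0)) (sub S N ix) := by
  intro j hj i hi
  have hj' : j < ix.length := by simpa [sub] using hj
  have hm : ∀ k < ix.length, ix.getD k 0 < N.length := fun k hk => by
    rw [List.getD_eq_getElem _ _ hk]
    exact hix _ (List.getElem_mem hk)
  unfold sub
  rw [getD_map_range_LRef _ _ hj', getD_map_range_LRef _ _ hi,
    gt_eq_LRef hc hr (hm i (by omega)) (hm j hj')]

theorem item_bad_LRef {S : St} {F : List (List (List ℕ))} (hF : ∀ N ∈ F, Bad S N) {it : Item}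
    (h : ItemOk S F it) : Bad S it.N := by
  intro D l hm f hr
  obtain ⟨hx, hy, ha, hb, hT, hall⟩ := h
  rw [gt_eq_LRef hm.toCon hr hx hy] at hT
  obtain ⟨z, hza, hzb⟩ := hm.wit _ _ _ _ ha hb hT
  obtain ⟨e, -, he, hix, hs⟩ := hall _ (row_mem_LRef hm.toCon hr hza hzb _ le_rfl)
  have h1 := real_sub_LRef hm.toCon (real_snoc_LRef hr z) (ix := e.2) fun i hi => by
    rw [List.length_append, List.length_singleton]
    exact Nat.lt_succ_of_le (hix i hi)
  rw [hs, List.getD_eq_getElem _ _ he] at h1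
  exact hF _ (List.getElem_mem he) D l hm _ h1

theorem refOk_bad_LRef (S : St) (c : List Item) : ∀ F : List (List (List ℕ)),
    refOk S F c = true → (∀ N ∈ F, Bad S N) → ∀ it ∈ c, Bad S it.N := by
  induction c with
  | nil => intro F _ _ it hit; exact absurd hit List.not_mem_nil
  | cons it c ih =>
    intro F h hF it' hit
    rw [refOk, Bool.and_eq_true, decide_eq_true_iff] at h
    have hb := item_bad_LRef hF h.1
    rcases List.mem_cons.1 hit with rfl | hit
    · exact hb
    · refine ih _ h.2 (fun N hN => ?_) it' hit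
      rcases List.mem_append.1 hN with hN | hN
      · exact hF N hN
      · rw [List.mem_singleton.1 hN]; exact hb

theorem refP : RefP := by
  refine ⟨fun S c h => refOk_bad_LRef S c [] h fun N hN => absurd hN List.not_mem_nil, ?_, ?_⟩
  · rintro S N ⟨y, hy, x, hx, a, ha, b, hb, hT, hn⟩ D l hm f hr
    rw [gt_eq_LRef hm.toCon hr (by omega) hy] at hT
    obtain ⟨z, hza, hzb⟩ := hm.wit _ _ _ _ ha hb hT
    have := row_mem_LRef hm.toCon hr hza hzb _ le_rfl
    rw [hn] at this
    exact List.not_mem_nil this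
  · intro S N D l f hc hr x hx y hy z hz
    rw [gt_eq_LRef hc hr (by omega) (by omega), gt_eq_LRef hc hr (by omega) hx,
      gt_eq_LRef hc hr (by omega) hx]
    exact hc.tri _ _ _

theorem ordP : OrdP := by
  intro D E r hE hne has htot h3 h4
  have hB : ∀ x y z t, r x y → E y z → r y t → r t z → r x z := by
    intro x y z t hxy hyz hyt htz
    have hxz : ¬ E x z := fun h => hne _ _ hxy (hE.trans h (hE.symm hyz))
    refine (htot _ _ hxz).resolve_right fun hzx => ?_
    by_cases hxt : E x t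
    · exact h4 x y t z hxt hyz hxy hyt htz hzx
    · rcases htot _ _ hxt with h | h
      · exact h3 x t z h htz hzx
      · exact h3 x y t hxy hyt h
  have hC : ∀ x y z t, E x y → r x t → r t y → r y z → r x z := by
    intro x y z t hxy hxt hty hyz
    have hxz : ¬ E x z := fun h => hne _ _ hyz (hE.trans (hE.symm hxy) h)
    refine (htot _ _ hxz).resolve_right fun hzx => ?_
    by_cases htz : E t z
    · exact h4 x t y z hxy htz hxt hty hyz hzx
    · rcases htot _ _ htz with h | h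
      · exact h3 x t z hxt h hzx
      · exact h3 t y z hty hyz h
  let lt : D → D → Prop := fun x y => r x y ∨ (E x y ∧ ∃ w, r x w ∧ r w y)
  have hirr : ∀ x, ¬ lt x x := by
    rintro x (h | ⟨-, w, h1, h2⟩)
    · exact hne _ _ h (hE.refl x)
    · exact has _ _ h1 h2
  have htr : ∀ x y z, lt x y → lt y z → lt x z := by
    rintro x y z (hxy | ⟨hxy, t, hxt, hty⟩) (hyz | ⟨hyz, u, hyu, huz⟩)
    · by_cases hxz : E x z
      · exact Or.inr ⟨hxz, y, hxy, hyz⟩
      · exact Or.inl ((htot _ _ hxz).resolve_right (h3 x y z hxy hyz))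
    · exact Or.inl (hB x y z u hxy hyz hyu huz)
    · exact Or.inl (hC x y z t hxy hxt hty hyz)
    · exact Or.inr ⟨hE.trans hxy hyz, t, hxt, hB t y z u hty hyz hyu huz⟩
  let le : D → D → Prop := fun x y => lt x y ∨ x = y
  have hpo : IsPartialOrder D le :=
    { refl := fun _ => Or.inr rfl
      trans := by
        rintro x y z (h1 | rfl) (h2 | rfl)
        · exact Or.inl (htr _ _ _ h1 h2)
        · exact Or.inl h1
        · exact Or.inl h2
        · exact Or.inr rfl
      antisymm := by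
        rintro x y (h1 | rfl) (h2 | h2)
        · exact absurd (htr _ _ _ h1 h2) (hirr x)
        · exact h2.symm
        · rfl
        · rfl }
  obtain ⟨s, hs, hle⟩ := extend_partialOrder le
  refine ⟨fun x y => s x y ∧ x ≠ y,
    { trichotomous := fun x y h1 h2 => ?_
      irrefl := fun x h => h.2 rfl
      trans := fun x y z h1 h2 => ⟨hs.trans _ _ _ h1.1 h2.1, fun h => ?_⟩ }, fun x y h => ?_⟩
  · by_contra hxy
    rcases hs.total x y with h | h
    · exact h1 ⟨h, hxy⟩
    · exact h2 ⟨h, Ne.symm hxy⟩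
  · subst h
    exact h1.2 (hs.antisymm _ _ h1.1 h2.1)
  · refine ⟨hle x y (Or.inl (Or.inl h)), fun hxy => ?_⟩
    subst hxy
    exact hne _ _ h (hE.refl x)

end Pool.Agent.MP_f23db5_lc.Low

end

section

/-! Models of `sD` are circles of length six. -/

set_option synthInstance.maxSize 4096

namespace Pool.Agent.MP_f23db5_lc.Low

/-- the sector of a point with label `a` and side `sd` -/
def sec_LCirc (a : ℕ) (sd : Bool) : ℕ :=
  if a = 0 then 0 else if a = 2 then (if sd then 5 else 0) else if a = 1 then (if sd then 4 else 1)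
  else (if sd then 3 else 2)

/-- the oriented difference of two sectors -/
def kk_LCirc (x y : ℕ) : ℕ := (y + 6 - x) % 6

/-- the label agrees with the sectors -/
def Key_LCirc (x y c : ℕ) : Prop :=
  c = pD (kk_LCirc x y + 1) ∨ c = pD ((kk_LCirc x y + 5) % 6 + 1)

instance instDecKey_LCirc (x y c : ℕ) : Decidable (Key_LCirc x y c) := by
  unfold Key_LCirc; infer_instance

/-- the inner part of the five point check -/
def Five_LCirc (a b c d g : ℕ) : Prop :=
  ∀ e < 4, sD.T d e c = true → ∀ f < 4, sD.T f g c = true → ∀ h < 4,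
    Tris sD [[], [a], [b, c], [1, d, e], [1, f, g, h]] →
    (∀ su sv : Bool, (su = sv ↔ h ≠ 3) → Key_LCirc (sec_LCirc a su) (sec_LCirc b sv) c) ∨
      Dead sD [[], [a], [b, c], [1, d, e], [1, f, g, h]]

instance instDecFive_LCirc (a b c d g : ℕ) : Decidable (Five_LCirc a b c d g) := by
  unfold Five_LCirc; infer_instance

/-- the four choices of the labels to the witnesses -/
def Four_LCirc (a b c : ℕ) : Prop :=
  Five_LCirc a b c 0 0 ∧ Five_LCirc a b c 0 2 ∧ Five_LCirc a b c 2 0 ∧ Five_LCirc a b c 2 2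

instance instDecFour_LCirc (a b c : ℕ) : Decidable (Four_LCirc a b c) := by
  unfold Four_LCirc; infer_instance

lemma four_LCirc : ∀ a < 4, a ≠ 0 → ∀ b < 4, b ≠ 0 → ∀ c < 4, c ≠ 0 → sD.T a c b = true →
    Four_LCirc a b c := by
  decide +kernel

lemma side_LCirc : ∀ a < 4, ∀ b < 4, ∀ h < 4, sD.T 1 a 1 = true → sD.T 1 b 1 = true →
    sD.T 1 h 1 = true → sD.T a h b = true → (decide (a = 3) = decide (b = 3) ↔ h ≠ 3) := by
  decide +kernel

lemma key0_LCirc : ∀ a < 4, a ≠ 0 → ∀ s s' : Bool,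
    Key_LCirc (sec_LCirc 0 s') (sec_LCirc a s) a ∧ Key_LCirc (sec_LCirc a s) (sec_LCirc 0 s') a := by
  decide +kernel

lemma sec_lt_LCirc (a : ℕ) (s : Bool) : sec_LCirc a s < 6 := by
  unfold sec_LCirc; split_ifs <;> omega

lemma cyc3_LCirc : ∀ x < 6, ∀ y < 6, ∀ z < 6, kk_LCirc x y % 3 ≠ 0 → kk_LCirc y z % 3 ≠ 0 →
    kk_LCirc z x % 3 ≠ 0 →
    sD.T (pD (kk_LCirc x y + 1)) (pD (kk_LCirc y z + 1)) (pD (kk_LCirc z x + 1)) = false := by
  decide +kernel

lemma cyc4_LCirc : ∀ x < 6, ∀ z < 6, x % 3 = z % 3 → ∀ y < 6, kk_LCirc x y % 3 ≠ 0 → ∀ w < 6,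
    y % 3 = w % 3 →
    Tris sD [[], [pD (kk_LCirc x y + 1)], [pD (kk_LCirc x z + 1), pD (kk_LCirc y z + 1)],
      [pD (kk_LCirc w x + 1), pD (kk_LCirc y w + 1), pD (kk_LCirc z w + 1)]] →
    Dead sD [[], [pD (kk_LCirc x y + 1)], [pD (kk_LCirc x z + 1), pD (kk_LCirc y z + 1)],
      [pD (kk_LCirc w x + 1), pD (kk_LCirc y w + 1), pD (kk_LCirc z w + 1)]] := by
  decide +kernel

lemma two_LCirc : ∀ x < 6, ∀ y < 6,
    (kk_LCirc x y % 3 ≠ 0 ↔ ¬ x % 3 = y % 3) ∧
    pD (kk_LCirc y x + 1) = pD ((kk_LCirc x y + 5) % 6 + 1) ∧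
    (x % 3 = y % 3 → pD (kk_LCirc x y + 1) = pD ((kk_LCirc x y + 5) % 6 + 1)) ∧
    (¬ x % 3 = y % 3 → pD (kk_LCirc x y + 1) ≠ pD ((kk_LCirc x y + 5) % 6 + 1)) ∧
    (kk_LCirc y x + 5) % 6 + 1 = hD.cv (kk_LCirc x y + 1) ∧
    kk_LCirc y x + 1 = hD.cv ((kk_LCirc x y + 5) % 6 + 1) := by
  decide +kernel

/-- the finer label of two different points -/
def fl_LCirc (x y : ℕ) (b : Bool) : ℕ :=
  if b then kk_LCirc x y + 1 else (kk_LCirc x y + 5) % 6 + 1

lemma tri_LCirc : ∀ x < 6, ∀ y < 6, ∀ z < 6, ∀ b₁ b₂ b₃ : Bool,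
    (b₁ = true → b₂ = true → b₃ = true) → (b₁ = false → b₂ = false → b₃ = false) →
    hD.T (fl_LCirc x z b₁) (fl_LCirc z y b₂) (fl_LCirc x y b₃) = true := by
  decide +kernel

lemma tri0_LCirc : ∀ a < 7, hD.T 0 a a = true ∧ hD.T a 0 a = true ∧
    hD.T a (hD.cv a) 0 = true := by
  decide +kernel

lemma cv_LCirc (a : ℕ) : sD.cv a = a := by simp [sD, st]

lemma sectors_LCirc (hR : RefP) {D : Type} {l : D → D → ℕ} (hM : Mod sD l) (o : D) :
    ∃ s : D → ℕ, (∀ v, s v < 6) ∧ ∀ u v, u ≠ v → Key_LCirc (s u) (s v) (l u v) := by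
  have hlt : ∀ x y, l x y < 4 := hM.lt
  have hsy : ∀ x y, l y x = l x y := fun x y => by rw [hM.cv x y, cv_LCirc]
  obtain ⟨p, hp, -⟩ := hM.wit o o 1 1 (by decide) (by decide) (by rw [hM.dg]; decide +kernel)
  have hW : ∀ v, ∃ w, l o w = 1 ∧ (l o v ≠ 0 → l v w = 0 ∨ l v w = 2) := by
    intro v
    have h4 := hlt o v
    by_cases h0 : l o v = 0
    · exact ⟨p, hp, fun h => absurd h0 h⟩
    by_cases h1 : l o v = 1
    · exact ⟨v, h1, fun _ => Or.inl (hM.dg v)⟩
    have h2 : sD.T 1 2 (l o v) = true := by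
      have : l o v = 2 ∨ l o v = 3 := by omega
      rcases this with h | h <;> rw [h] <;> decide +kernel
    obtain ⟨z, hz1, hz2⟩ := hM.wit o v 1 2 (by decide) (by decide) h2
    exact ⟨z, hz1, fun _ => Or.inr (by rw [hsy, hz2])⟩
  choose W hW1 hW2 using hW
  refine ⟨fun v => sec_LCirc (l o v) (decide (l p (W v) = 3)), fun v => sec_lt_LCirc _ _,
    fun u v huv => ?_⟩
  have hc : l u v ≠ 0 := fun h => huv (hM.eq u v h)
  by_cases hu : l o u = 0
  · obtain rfl := hM.eq o u hu
    simp only [hM.dg]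
    exact (key0_LCirc _ (hlt o v) hc _ _).1
  by_cases hv : l o v = 0
  · obtain rfl := hM.eq o v hv
    simp only [hM.dg]
    rw [hsy o u]
    exact (key0_LCirc _ (hlt o u) hu _ _).2
  have hreal : Real l (fun i => [o, u, v, W u, W v].getD i o)
      [[], [l o u], [l o v, l u v], [1, l u (W u), l v (W u)],
        [1, l u (W v), l v (W v), l (W u) (W v)]] := by
    intro j hj i hi
    simp only [List.length_cons, List.length_nil] at hj
    interval_cases j <;> interval_cases i <;> simp [hW1]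
  have htris := hR.2.2 sD _ D l _ hM.toCon hreal
  have hnd := fun h => hR.2.1 sD _ h D l hM _ hreal
  have h4 := four_LCirc _ (hlt o u) hu _ (hlt o v) hv _ (hlt u v) hc (hM.tri o v u)
  have h5 : Five_LCirc (l o u) (l o v) (l u v) (l u (W u)) (l v (W v)) := by
    rcases hW2 u hu with h1 | h1 <;> rcases hW2 v hv with h2 | h2 <;> rw [h1, h2]
    exacts [h4.1, h4.2.1, h4.2.2.1, h4.2.2.2]
  have t1 : sD.T (l u (W u)) (l v (W u)) (l u v) = true := by
    have := hM.tri u v (W u)
    rwa [hsy v (W u)] at this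
  have t2 : sD.T (l u (W v)) (l v (W v)) (l u v) = true := by
    have := hM.tri u v (W v)
    rwa [hsy v (W v)] at this
  rcases h5 _ (hlt _ _) t1 _ (hlt _ _) t2 _ (hlt _ _) htris with h6 | h6
  · refine h6 _ _ (side_LCirc _ (hlt _ _) _ (hlt _ _) _ (hlt _ _) ?_ ?_ ?_ (hM.tri p (W v) (W u)))
    · have := hM.tri o (W u) p
      rwa [hp, hW1] at this
    · have := hM.tri o (W v) p
      rwa [hp, hW1] at this
    · have := hM.tri o (W v) (W u)
      rwa [hW1, hW1] at this
  · exact absurd h6 hnd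

lemma order_LCirc (hR : RefP) (hO : OrdP) {D : Type} {l : D → D → ℕ} (hM : Mod sD l) {s : D → ℕ}
    (hs : ∀ v, s v < 6) (hK : ∀ u v, u ≠ v → Key_LCirc (s u) (s v) (l u v)) :
    ∃ t : D → D → Prop, IsStrictTotalOrder D t ∧ ∀ x y,
      (¬ s x % 3 = s y % 3 ∧ l x y = pD (kk_LCirc (s x) (s y) + 1)) → t x y := by
  have hsy : ∀ x y, l y x = l x y := fun x y => by rw [hM.cv x y, cv_LCirc]
  have has : ∀ x y, (¬ s x % 3 = s y % 3 ∧ l x y = pD (kk_LCirc (s x) (s y) + 1)) →
      ¬ (¬ s y % 3 = s x % 3 ∧ l y x = pD (kk_LCirc (s y) (s x) + 1)) := by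
    intro x y h1 h2
    obtain ⟨-, e1, -, e2, -⟩ := two_LCirc _ (hs x) _ (hs y)
    exact e2 h1.1 (by rw [← h1.2, ← e1, ← h2.2, hsy])
  refine hO D (fun x y => s x % 3 = s y % 3) _ ⟨fun _ => rfl, Eq.symm, Eq.trans⟩
    (fun x y h => h.1) has ?_ ?_ ?_
  · intro x y h
    have hne : x ≠ y := fun e => h (by rw [e])
    rcases hK x y hne with h1 | h1
    · exact Or.inl ⟨h, h1⟩
    · refine Or.inr ⟨fun e => h e.symm, ?_⟩
      rw [hsy, h1, (two_LCirc _ (hs x) _ (hs y)).2.1]
  · intro x y z h1 h2 h3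
    have := cyc3_LCirc _ (hs x) _ (hs y) _ (hs z) ((two_LCirc _ (hs x) _ (hs y)).1.2 h1.1)
      ((two_LCirc _ (hs y) _ (hs z)).1.2 h2.1) ((two_LCirc _ (hs z) _ (hs x)).1.2 h3.1)
    rw [← h1.2, ← h2.2, ← h3.2, hsy x z, hM.tri x z y] at this
    exact absurd this (by decide)
  · intro x y z w e1 e2 h1 h2 h3 h4
    by_cases hxz : x = z
    · subst hxz; exact has _ _ h1 h2
    by_cases hyw : y = w
    · subst hyw; exact has _ _ h2 h3
    have k1 : l x z = pD (kk_LCirc (s x) (s z) + 1) := by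
      rcases hK x z hxz with h | h
      · exact h
      · rw [h, (two_LCirc _ (hs x) _ (hs z)).2.2.1 e1]
    have k2 : l y w = pD (kk_LCirc (s y) (s w) + 1) := by
      rcases hK y w hyw with h | h
      · exact h
      · rw [h, (two_LCirc _ (hs y) _ (hs w)).2.2.1 e2]
    have hc := cyc4_LCirc _ (hs x) _ (hs z) e1 _ (hs y) ((two_LCirc _ (hs x) _ (hs y)).1.2 h1.1)
      _ (hs w) e2
    rw [← h1.2, ← h2.2, ← h3.2, ← h4.2, ← k1, ← k2] at hc
    have hreal : Real l (fun i => [x, y, z, w].getD i x)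
        [[], [l x y], [l x z, l y z], [l w x, l y w, l z w]] := by
      intro j hj i hi
      simp only [List.length_cons, List.length_nil] at hj
      interval_cases j <;> interval_cases i <;> simp [hsy x w]
    exact hR.2.1 sD _ (hc (hR.2.2 sD _ D l _ hM.toCon hreal)) D l hM _ hreal

theorem expD (hR : RefP) (hO : OrdP) : Exp hD sD pD := by
  classical
  rintro D l hM ⟨o⟩
  obtain ⟨s, hs, hK⟩ := sectors_LCirc hR hM o
  obtain ⟨t, ht, hrt⟩ := order_LCirc hR hO hM hs hK
  have hsy : ∀ x y, l y x = l x y := fun x y => by rw [hM.cv x y, cv_LCirc]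
  have htr : ∀ x y z, t x y → t y z → t x z := fun x y z => ht.trans x y z
  have hir : ∀ x, ¬ t x x := ht.irrefl
  have hto : ∀ x y, x ≠ y → ¬ t x y → t y x := by
    intro x y h1 h2
    by_contra h3
    exact h1 (ht.trichotomous x y h2 h3)
  set l' : D → D → ℕ := fun u v => if u = v then 0 else fl_LCirc (s u) (s v) (decide (t u v))
    with hl'
  have hlt : ∀ x y, l' x y < 7 := by
    intro x y
    simp only [hl', fl_LCirc, kk_LCirc]
    split_ifs <;> omega
  have hdg : ∀ x, l' x x = 0 := fun x => by simp [hl']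
  have hcv : ∀ x y, l' y x = hD.cv (l' x y) := by
    intro x y
    by_cases h : x = y
    · subst h; rw [hdg]; rfl
    · obtain ⟨-, -, -, -, e1, e2⟩ := two_LCirc _ (hs x) _ (hs y)
      by_cases h1 : t x y
      · have h2 : ¬ t y x := fun h2 => hir x (htr _ _ _ h1 h2)
        simp only [hl', if_neg h, if_neg (Ne.symm h), fl_LCirc, h1, h2, decide_true, decide_false,
          if_true, Bool.false_eq_true, if_false, e1]
      · have h2 := hto x y h h1
        simp only [hl', if_neg h, if_neg (Ne.symm h), fl_LCirc, h1, h2, decide_true, decide_false,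
          if_true, Bool.false_eq_true, if_false, e2]
  refine ⟨l', ⟨hlt, hdg, hcv, fun x y z => ?_⟩, fun x y => ?_⟩
  · by_cases h1 : x = z
    · subst h1; rw [hdg]; exact (tri0_LCirc _ (hlt _ _)).1
    by_cases h2 : z = y
    · subst h2; rw [hdg]; exact (tri0_LCirc _ (hlt _ _)).2.1
    by_cases h3 : x = y
    · subst h3; rw [hdg, hcv x z]; exact (tri0_LCirc _ (hlt _ _)).2.2
    simp only [hl', if_neg h1, if_neg h2, if_neg h3]
    refine tri_LCirc _ (hs x) _ (hs y) _ (hs z) _ _ _ ?_ ?_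
    · simp only [decide_eq_true_eq]
      exact htr x z y
    · simp only [decide_eq_false_iff_not]
      intro a b c
      exact hir x (htr _ _ _ c (htr _ _ _ (hto _ _ h2 b) (hto _ _ h1 a)))
  · by_cases h : x = y
    · subst h; rw [hdg, hM.dg]; rfl
    obtain ⟨-, e1, e2, -⟩ := two_LCirc _ (hs x) _ (hs y)
    simp only [hl', if_neg h, fl_LCirc]
    by_cases h1 : t x y
    · simp only [h1, decide_true, if_true]
      rcases hK x y h with h2 | h2
      · exact h2.symm
      · by_cases h3 : s x % 3 = s y % 3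
        · rw [e2 h3, h2]
        · exact absurd (htr _ _ _ h1 (hrt y x ⟨fun e => h3 e.symm, by rw [hsy, h2, e1]⟩)) (hir x)
    · simp only [h1, decide_false, Bool.false_eq_true, if_false]
      rcases hK x y h with h2 | h2
      · by_cases h3 : s x % 3 = s y % 3
        · rw [← e2 h3, h2]
        · exact absurd (hrt x y ⟨h3, h2⟩) h1
      · exact h2.symm

end Pool.Agent.MP_f23db5_lc.Low

end
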