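import Pool.Agent.Mg.Xeb915b.G8b3df9
import Pool.Agent.MP_eb915b_lc.Defs

section

/-! Strip recovery on two sequences drawn on a grid whose cells are decreasing. -/

set_option autoImplicit false

namespace Pool.Agent.MP_eb915b_lc

variable {α β : Type}

/-- Maximal Strip Recovery over an arbitrary alphabet. -/
def MSRp (G₁ G₂ : List α) (k : ℕ) : Prop :=
  ∃ S₁ S₂ : List α, S₁.Sublist G₁ ∧ S₂.Sublist G₂ ∧
    (∃ P₁ P₂ : List (List α), P₁.flatten = S₁ ∧ P₂.flatten = S₂ ∧ P₁.Perm P₂ ∧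
      ∀ s ∈ P₁, 2 ≤ s.length) ∧ k ≤ S₁.length

theorem msr_iff_msrp (G₁ G₂ : List ℕ) (k : ℕ) : MSR G₁ G₂ k ↔ MSRp G₁ G₂ k := Iff.rfl

theorem msrp_iff_msr3 (G₁ G₂ : List α) (k : ℕ) : MSRp G₁ G₂ k ↔ MSR3 G₁ G₂ G₂ k := by
  constructor
  · rintro ⟨S₁, S₂, h1, h2, ⟨P₁, P₂, e1, e2, p, hl⟩, hk⟩
    exact ⟨S₁, S₂, S₂, h1, h2, h2, ⟨P₁, P₂, P₂, e1, e2, e2, p, p, hl⟩, hk⟩
  · rintro ⟨S₁, S₂, S₃, h1, h2, -, ⟨P₁, P₂, P₃, e1, e2, -, p, -, hl⟩, hk⟩
    exact ⟨S₁, S₂, h1, h2, ⟨P₁, P₂, e1, e2, p, hl⟩, hk⟩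

theorem msr_map_iff {f : α → ℕ} {g : ℕ → α} (hg : ∀ a, g (f a) = a) (G₁ G₂ : List α)
    (k : ℕ) : MSR (G₁.map f) (G₂.map f) k ↔ MSRp G₁ G₂ k := by
  rw [msr_iff_msrp, msrp_iff_msr3, msrp_iff_msr3, msr3_map_iff hg]

theorem msrp_of_pairs {κ₁ κ₂ : α → ℕ} {G₁ G₂ : List α}
    (h₁ : G₁.Pairwise fun a b => κ₁ a < κ₁ b) (h₂ : G₂.Pairwise fun a b => κ₂ a < κ₂ b)
    (m₂ : ∀ x ∈ G₁, x ∈ G₂) {R : List (α × α)}
    (hm : ∀ p ∈ R, p.1 ∈ G₁ ∧ p.2 ∈ G₁ ∧ κ₁ p.1 < κ₁ p.2 ∧ κ₂ p.1 < κ₂ p.2)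
    (hs : R.Pairwise fun p q => Sep κ₁ p q ∧ Sep κ₂ p q) : MSRp G₁ G₂ (2 * R.length) := by
  obtain ⟨Q₁, p1, s1⟩ := exists_arrange κ₁ h₁ (P := R)
    (fun p hp => ⟨(hm p hp).1, (hm p hp).2.1, (hm p hp).2.2.1⟩) (hs.imp fun h => h.1)
  obtain ⟨Q₂, p2, s2⟩ := exists_arrange κ₂ h₂ (P := R)
    (fun p hp => ⟨m₂ _ (hm p hp).1, m₂ _ (hm p hp).2.1, (hm p hp).2.2.2⟩)
    (hs.imp fun h => h.2)
  refine ⟨_, _, s1, s2, ⟨Q₁, Q₂, rfl, rfl, p1.symm.trans p2, fun s hs => ?_⟩, ?_⟩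
  · obtain ⟨p, -, rfl⟩ := List.mem_map.1 (p1.symm.subset hs)
    simp [pl]
  · rw [← p1.flatten.length_eq, length_flatten_pl]

/-- The pairs of consecutive entries. -/
def cp : List α → List (α × α)
  | a :: b :: t => (a, b) :: cp (b :: t)
  | _ => []

theorem length_cp : ∀ s : List α, (cp s).length = s.length - 1
  | [] => rfl
  | [_] => rfl
  | _ :: b :: t => by simp [cp, length_cp (b :: t)]

theorem mem_cp : ∀ {s : List α} {p : α × α}, p ∈ cp s → p.1 ∈ s ∧ p.2 ∈ s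
  | [], _, h => by simp [cp] at h
  | [_], _, h => by simp [cp] at h
  | a :: b :: t, p, h => by
    rcases List.mem_cons.1 h with rfl | h
    · simp
    · have := mem_cp h
      exact ⟨List.mem_cons_of_mem _ this.1, List.mem_cons_of_mem _ this.2⟩

theorem rel_cp {r : α → α → Prop} : ∀ {s : List α}, s.Pairwise r → ∀ p ∈ cp s, r p.1 p.2
  | [], _, _, h => by simp [cp] at h
  | [_], _, _, h => by simp [cp] at h
  | a :: b :: t, hs, p, h => by
    rcases List.mem_cons.1 h with rfl | h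
    · exact (List.pairwise_cons.1 hs).1 b List.mem_cons_self
    · exact rel_cp (List.pairwise_cons.1 hs).2 p h

theorem pairwise_cp {κ : α → ℕ} : ∀ {s : List α}, s.Pairwise (fun a b => κ a < κ b) →
    (cp s).Pairwise fun e f => κ e.2 ≤ κ f.1
  | [], _ => by simp [cp]
  | [_], _ => by simp [cp]
  | a :: b :: t, hs => by
    have h2 := (List.pairwise_cons.1 hs).2
    refine List.pairwise_cons.2 ⟨fun f hf => ?_, pairwise_cp h2⟩
    rcases List.mem_cons.1 (mem_cp hf).1 with h | h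
    · rw [h]
    · exact ((List.pairwise_cons.1 h2).1 _ h).le

theorem pairwise_flatMap_cp {κ : α → ℕ} {P : List (List α)}
    (h1 : ∀ s ∈ P, s.Pairwise fun a b => κ a < κ b) (h2 : P.Pairwise (SepL κ)) :
    (P.flatMap cp).Pairwise fun e f => κ e.2 ≤ κ f.1 ∨ κ f.2 ≤ κ e.1 := by
  rw [List.pairwise_flatMap]
  refine ⟨fun s hs => (pairwise_cp (h1 s hs)).imp fun h => Or.inl h,
    h2.imp fun {s t} h e he f hf => ?_⟩
  rcases h with h | h
  · exact Or.inl (h _ (mem_cp he).2 _ (mem_cp hf).1).le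
  · exact Or.inr (h _ (mem_cp hf).2 _ (mem_cp he).1).le

theorem length_flatten_le {P : List (List α)} (h : ∀ s ∈ P, 2 ≤ s.length) :
    P.flatten.length ≤ 2 * (P.flatMap cp).length ∧
      (2 * (P.flatMap cp).length ≤ P.flatten.length → ∀ s ∈ P, s.length = 2) := by
  induction P with
  | nil => simp
  | cons s P ih =>
    obtain ⟨h1, h2⟩ := ih fun t ht => h t (List.mem_cons_of_mem _ ht)
    have h3 := h s List.mem_cons_self
    simp only [List.flatten_cons, List.flatMap_cons, List.length_append, length_cp]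
    refine ⟨by omega, fun h4 t ht => ?_⟩
    rcases List.mem_cons.1 ht with rfl | ht
    · omega
    · exact h2 (by omega) t ht

theorem flatMap_cp_pl (R : List (α × α)) : (R.map pl).flatMap cp = R := by
  induction R with
  | nil => rfl
  | cons p R ih => simp only [List.map_cons, List.flatMap_cons, ih]; rfl

/-- A solution of the largest conceivable size crosses every horizontal line by one pair, which
crosses no other line. -/
theorem grid_pairs {κ₁ κ₂ col row : α → ℕ} {G₁ G₂ : List α} {A B : ℕ}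
    (h₁ : G₁.Pairwise fun a b => κ₁ a < κ₁ b) (h₂ : G₂.Pairwise fun a b => κ₂ a < κ₂ b)
    (hcol : ∀ a ∈ G₁, ∀ b ∈ G₁, κ₁ a ≤ κ₁ b → col a ≤ col b)
    (hrow : ∀ a ∈ G₁, ∀ b ∈ G₁, κ₂ a ≤ κ₂ b → row a ≤ row b)
    (hA : ∀ a ∈ G₁, col a ≤ A) (hB : ∀ a ∈ G₁, row a ≤ B)
    (hdec : ∀ a ∈ G₁, ∀ b ∈ G₁, κ₁ a < κ₁ b → κ₂ a < κ₂ b → col a < col b ∨ row a < row b)
    (h : MSRp G₁ G₂ (2 * (A + B))) :
    ∃ R : List (α × α), (∀ p ∈ R, p.1 ∈ G₁ ∧ p.2 ∈ G₁ ∧ κ₁ p.1 < κ₁ p.2 ∧ κ₂ p.1 < κ₂ p.2) ∧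
      (R.Pairwise fun p q => Sep κ₁ p q ∧ Sep κ₂ p q) ∧
      ∀ h < B, ∃ p ∈ R, row p.1 = h ∧ row p.2 = h + 1 ∧ col p.1 = col p.2 := by
  obtain ⟨S₁, S₂, s1, s2, ⟨P₁, P₂, rfl, rfl, p2, hl⟩, hk⟩ := h
  obtain ⟨a1, b1⟩ := of_arrange κ₁ h₁ (List.Perm.refl P₁) s1
  obtain ⟨a2, b2⟩ := of_arrange κ₂ h₂ p2 s2
  have hmem : ∀ s ∈ P₁, ∀ x ∈ s, x ∈ G₁ := fun s hs x hx =>
    s1.subset (List.mem_flatten.2 ⟨s, hs, hx⟩)
  have hE : ∀ p ∈ P₁.flatMap cp, p.1 ∈ G₁ ∧ p.2 ∈ G₁ ∧ κ₁ p.1 < κ₁ p.2 ∧ κ₂ p.1 < κ₂ p.2 := by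
    intro p hp
    obtain ⟨s, hs, hp⟩ := List.mem_flatMap.1 hp
    exact ⟨hmem s hs _ (mem_cp hp).1, hmem s hs _ (mem_cp hp).2, rel_cp (a1 s hs) p hp,
      rel_cp (a2 s hs) p hp⟩
  have hfacts : ∀ p ∈ P₁.flatMap cp, col p.1 ≤ col p.2 ∧ row p.1 ≤ row p.2 ∧ col p.2 ≤ A ∧
      row p.2 ≤ B ∧ (col p.1 < col p.2 ∨ row p.1 < row p.2) := fun p hp => by
    obtain ⟨e1, e2, e3, e4⟩ := hE p hp
    exact ⟨hcol _ e1 _ e2 e3.le, hrow _ e1 _ e2 e4.le, hA _ e2, hB _ e2, hdec _ e1 _ e2 e3 e4⟩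
  have hw : (P₁.flatMap cp).Pairwise fun e f => (col e.2 ≤ col f.1 ∨ col f.2 ≤ col e.1) ∧
      (row e.2 ≤ row f.1 ∨ row f.2 ≤ row e.1) := by
    refine ((pairwise_flatMap_cp a1 b1).and (pairwise_flatMap_cp a2 b2)).imp_of_mem
      fun {e f} he hf h => ?_
    obtain ⟨e1, e2, -⟩ := hE e he
    obtain ⟨f1, f2, -⟩ := hE f hf
    exact ⟨h.1.imp (hcol _ e2 _ f1) (hcol _ f2 _ e1), h.2.imp (hrow _ e2 _ f1) (hrow _ f2 _ e1)⟩
  let ln : α × α → ℕ := fun e => if row e.1 < row e.2 then row e.1 else B + col e.1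
  have hln : ∀ e, (row e.1 < row e.2 ∧ ln e = row e.1) ∨
      (row e.2 ≤ row e.1 ∧ ln e = B + col e.1) := fun e => by
    simp only [ln]
    split_ifs <;> omega
  have hnd : ((P₁.flatMap cp).map ln).Nodup := by
    refine List.pairwise_map.2 (hw.imp_of_mem fun {e f} he hf h => ?_)
    have := hfacts e he
    have := hfacts f hf
    have := hln e
    have := hln f
    omega
  have hsub : (P₁.flatMap cp).map ln ⊆ List.range (A + B) := by
    intro x hx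
    obtain ⟨e, he, rfl⟩ := List.mem_map.1 hx
    have := hfacts e he
    have := hln e
    rw [List.mem_range]
    omega
  have hsp := List.subperm_of_subset hnd hsub
  have hle := hsp.length_le
  rw [List.length_map, List.length_range] at hle
  obtain ⟨c1, c2⟩ := length_flatten_le hl
  have hperm := hsp.perm_of_length_le (by rw [List.length_map, List.length_range]; omega)
  obtain ⟨R, rfl⟩ := exists_pairs (P := P₁) fun s hs => by
    obtain ⟨x, y, rfl⟩ := List.length_eq_two.1 (c2 (by omega) s hs)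
    exact ⟨(x, y), rfl⟩
  rw [flatMap_cp_pl] at hE hfacts hw hperm
  rw [List.pairwise_map] at b1 b2
  refine ⟨R, hE, (b1.and b2).imp fun h => ⟨h.1.sep, h.2.sep⟩, fun h hh => ?_⟩
  have hsurj : ∀ x < A + B, ∃ e ∈ R, ln e = x := fun x hx =>
    List.mem_map.1 (hperm.symm.subset (List.mem_range.2 hx))
  have : Std.Symm fun e f : α × α => (col e.2 ≤ col f.1 ∨ col f.2 ≤ col e.1) ∧
      (row e.2 ≤ row f.1 ∨ row f.2 ≤ row e.1) := ⟨fun _ _ h => ⟨h.1.symm, h.2.symm⟩⟩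
  obtain ⟨e, he, hx⟩ := hsurj h (by omega)
  have e1 := hfacts e he
  have e2 := hln e
  refine ⟨e, he, by omega, ?_, ?_⟩
  · by_contra hc
    obtain ⟨f, hf, hy⟩ := hsurj (h + 1) (by omega)
    have f1 := hfacts f hf
    have f2 := hln f
    have := hw.forall he hf (fun e => by rw [e] at hx; omega)
    omega
  · by_contra hc
    obtain ⟨f, hf, hy⟩ := hsurj (B + col e.1) (by omega)
    have f1 := hfacts f hf
    have f2 := hln f
    have := hw.forall he hf (fun e => by rw [e] at hx; omega)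
    omega

end Pool.Agent.MP_eb915b_lc

end

section

/-! The slot configuration: columns with windows, gates, and slots. -/

set_option autoImplicit false

namespace Pool.Agent.MP_eb915b_lc

/-- A character: its kind, a column, a window and a slot. -/
abbrev Q4 := ℕ × ℕ × ℕ × ℕ

/-- The column of a character. -/
def cX (M : ℕ) (nx : List ℕ) (t : Q4) : ℕ :=
  if t.1 ≤ 1 then nx.getD t.2.1 0 else if t.1 = 6 ∨ t.1 = 7 then 2 * M
  else if t.1 = 9 then t.2.1 + 1 else t.2.1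

/-- First digit inside a column. -/
def x1 (W : ℕ) (t : Q4) : ℕ :=
  if t.1 = 0 ∨ t.1 = 6 then 1 else if t.1 = 3 then W + 2 else if t.1 = 8 then W + 3
  else if t.1 = 9 then 0 else 2 + t.2.2.1

/-- Second digit inside a column. -/
def x2 (t : Q4) : ℕ := if t.1 = 2 then 3 else if t.1 = 4 then 1 else if t.1 = 5 then 2 else 0

/-- The row of a character. -/
def rY (M : ℕ) (t : Q4) : ℕ :=
  if t.1 = 0 then 2 * t.2.1 else if t.1 ≤ 2 then 2 * t.2.1 + 1 else if t.1 = 3 then 2 * t.2.1 + 2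
  else if t.1 ≤ 5 then 4 * M + 2 * t.2.2.2 + (t.1 - 4) + (if t.2.1 < M then 0 else 1)
  else if t.1 = 6 then 6 * M else 6 * M + 1

/-- First digit inside a row. -/
def y1 (M W : ℕ) (t : Q4) : ℕ :=
  if t.1 = 0 ∨ t.1 = 6 then 1 else if t.1 ≤ 2 then W - 1 - t.2.2.1
  else if t.1 = 4 then (if t.2.1 < M then 1 else t.2.1 - M)
  else if t.1 = 5 then (if t.2.1 < M then t.2.1 else 0)
  else if 8 ≤ t.1 then 2 * M - t.2.1 else 0

/-- Second digit inside a row. -/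
def y2 (M : ℕ) (t : Q4) : ℕ :=
  if t.1 = 2 ∨ t.1 = 9 then 1 else if t.1 = 4 then (if t.2.1 < M then t.2.1 else 1)
  else if t.1 = 5 then (if t.2.1 < M then 0 else t.2.1) else 0

/-- Third digit inside a row. -/
def y3 (W : ℕ) (t : Q4) : ℕ := if t.1 = 4 ∨ t.1 = 5 then W - 1 - t.2.2.1 else 0

/-- Position in the first sequence. -/
def k1 (M W : ℕ) (nx : List ℕ) (t : Q4) : ℕ :=
  rad (W + 6 * M + 5) (cX M nx t) (x1 W t) (x2 t) t.2.2.2 0

/-- Position in the second sequence. -/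
def k2 (M W : ℕ) (t : Q4) : ℕ :=
  rad (W + 6 * M + 5) (rY M t) (y1 M W t) (y2 M t) (y3 W t) 0

/-- The range conditions on a character. -/
def Bx (M W : ℕ) (t : Q4) : Prop :=
  t.1 < 10 ∧ (if t.1 = 6 ∨ t.1 = 7 then t.2.1 = 0 else t.2.1 < 2 * M) ∧
    (if t.1 = 1 ∨ t.1 = 2 ∨ t.1 = 4 ∨ t.1 = 5 then t.2.2.1 < W else t.2.2.1 = 0) ∧
    (if t.1 = 4 ∨ t.1 = 5 then t.2.2.2 < M else t.2.2.2 = 0)

instance (M W : ℕ) (t : Q4) : Decidable (Bx M W t) := by unfold Bx; infer_instance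

/-- The successor map permutes the columns of each side without fixed points. -/
structure Good (M : ℕ) (nx : List ℕ) : Prop where
  lt : ∀ u < 2 * M, nx.getD u 0 < 2 * M
  ne : ∀ u < 2 * M, nx.getD u 0 ≠ u
  side : ∀ u < 2 * M, (nx.getD u 0 < M ↔ u < M)
  inj : ∀ u < 2 * M, ∀ v < 2 * M, nx.getD u 0 = nx.getD v 0 → u = v

/-- The list of the digits of a character, kind by kind. -/
def Spec (M W n s u a j c p q r y z o : ℕ) : Prop :=
  (s = 0 ∧ u < 2 * M ∧ a = 0 ∧ j = 0 ∧ c = n ∧ p = 1 ∧ q = 0 ∧ r = 2 * u ∧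
    y = 1 ∧ z = 0 ∧ o = 0) ∨
  (s = 1 ∧ u < 2 * M ∧ a < W ∧ j = 0 ∧ c = n ∧ p = 2 + a ∧ q = 0 ∧ r = 2 * u + 1 ∧
    y = W - 1 - a ∧ z = 0 ∧ o = 0) ∨
  (s = 2 ∧ u < 2 * M ∧ a < W ∧ j = 0 ∧ c = u ∧ p = 2 + a ∧ q = 3 ∧ r = 2 * u + 1 ∧
    y = W - 1 - a ∧ z = 1 ∧ o = 0) ∨
  (s = 3 ∧ u < 2 * M ∧ a = 0 ∧ j = 0 ∧ c = u ∧ p = W + 2 ∧ q = 0 ∧ r = 2 * u + 2 ∧
    y = 0 ∧ z = 0 ∧ o = 0) ∨
  (s = 4 ∧ u < M ∧ a < W ∧ j < M ∧ c = u ∧ p = 2 + a ∧ q = 1 ∧ r = 4 * M + 2 * j ∧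
    y = 1 ∧ z = u ∧ o = W - 1 - a) ∨
  (s = 4 ∧ M ≤ u ∧ u < 2 * M ∧ a < W ∧ j < M ∧ c = u ∧ p = 2 + a ∧ q = 1 ∧
    r = 4 * M + 2 * j + 1 ∧ y = u - M ∧ z = 1 ∧ o = W - 1 - a) ∨
  (s = 5 ∧ u < M ∧ a < W ∧ j < M ∧ c = u ∧ p = 2 + a ∧ q = 2 ∧ r = 4 * M + 2 * j + 1 ∧
    y = u ∧ z = 0 ∧ o = W - 1 - a) ∨
  (s = 5 ∧ M ≤ u ∧ u < 2 * M ∧ a < W ∧ j < M ∧ c = u ∧ p = 2 + a ∧ q = 2 ∧
    r = 4 * M + 2 * j + 2 ∧ y = 0 ∧ z = u ∧ o = W - 1 - a) ∨
  (s = 6 ∧ u = 0 ∧ a = 0 ∧ j = 0 ∧ c = 2 * M ∧ p = 1 ∧ q = 0 ∧ r = 6 * M ∧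
    y = 1 ∧ z = 0 ∧ o = 0) ∨
  (s = 7 ∧ u = 0 ∧ a = 0 ∧ j = 0 ∧ c = 2 * M ∧ p = 2 ∧ q = 0 ∧ r = 6 * M + 1 ∧
    y = 0 ∧ z = 0 ∧ o = 0) ∨
  (s = 8 ∧ u < 2 * M ∧ a = 0 ∧ j = 0 ∧ c = u ∧ p = W + 3 ∧ q = 0 ∧ r = 6 * M + 1 ∧
    y = 2 * M - u ∧ z = 0 ∧ o = 0) ∨
  (s = 9 ∧ u < 2 * M ∧ a = 0 ∧ j = 0 ∧ c = u + 1 ∧ p = 0 ∧ q = 0 ∧ r = 6 * M + 1 ∧
    y = 2 * M - u ∧ z = 1 ∧ o = 0)

theorem spec {M W : ℕ} (nx : List ℕ) {s u a j : ℕ} (h : Bx M W (s, u, a, j)) :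
    Spec M W (nx.getD u 0) s u a j (cX M nx (s, u, a, j)) (x1 W (s, u, a, j)) (x2 (s, u, a, j))
      (rY M (s, u, a, j)) (y1 M W (s, u, a, j)) (y2 M (s, u, a, j)) (y3 W (s, u, a, j)) := by
  obtain ⟨h0, h1, h2, h3⟩ := h
  dsimp only at h0 h1 h2 h3
  unfold Spec
  by_cases hu : u < M <;> interval_cases s <;>
    simp [cX, x1, x2, rY, y1, y2, y3, hu] at h1 h2 h3 ⊢ <;> omega

section order
variable {M W : ℕ} {nx : List ℕ}

theorem digits_lt (hg : Good M nx) {t : Q4} (h : Bx M W t) :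
    cX M nx t ≤ 2 * M ∧ x1 W t < W + 5 ∧ x2 t < 5 ∧ t.2.2.2 ≤ M ∧ rY M t ≤ 6 * M + 1 ∧
      y1 M W t ≤ W + 2 * M + 1 ∧ y2 M t ≤ 2 * M + 1 ∧ y3 W t ≤ W := by
  obtain ⟨s, u, a, j⟩ := t
  have e := spec nx h
  have := hg.lt u
  dsimp only
  rcases e with e | e | e | e | e | e | e | e | e | e | e | e <;> omega

theorem k1_lt (hg : Good M nx) {t t' : Q4} (h : Bx M W t) (h' : Bx M W t') :
    k1 M W nx t < k1 M W nx t' ↔ cX M nx t < cX M nx t' ∨ (cX M nx t = cX M nx t' ∧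
      (x1 W t < x1 W t' ∨ (x1 W t = x1 W t' ∧ (x2 t < x2 t' ∨
        (x2 t = x2 t' ∧ t.2.2.2 < t'.2.2.2))))) := by
  have e := digits_lt hg h
  have e' := digits_lt hg h'
  unfold k1
  rw [rad5_lt (by omega) (by omega) (by omega) (by omega) (by omega) (by omega) (by omega)
    (by omega)]
  simp

theorem k2_lt (hg : Good M nx) {t t' : Q4} (h : Bx M W t) (h' : Bx M W t') :
    k2 M W t < k2 M W t' ↔ rY M t < rY M t' ∨ (rY M t = rY M t' ∧
      (y1 M W t < y1 M W t' ∨ (y1 M W t = y1 M W t' ∧ (y2 M t < y2 M t' ∨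
        (y2 M t = y2 M t' ∧ y3 W t < y3 W t'))))) := by
  have e := digits_lt hg h
  have e' := digits_lt hg h'
  unfold k2
  rw [rad5_lt (by omega) (by omega) (by omega) (by omega) (by omega) (by omega) (by omega)
    (by omega)]
  simp

theorem k1_inj (hg : Good M nx) {t t' : Q4} (h : Bx M W t) (h' : Bx M W t')
    (e : k1 M W nx t = k1 M W nx t') : t = t' := by
  have e1 := k1_lt hg h h'
  have e2 := k1_lt hg h' h
  simp only [e, lt_irrefl, false_iff] at e1 e2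
  have f1 : cX M nx t = cX M nx t' := by omega
  have f2 : x1 W t = x1 W t' := by omega
  have f3 : x2 t = x2 t' := by omega
  have f4 : t.2.2.2 = t'.2.2.2 := by omega
  clear e1 e2 e
  obtain ⟨s, u, a, j⟩ := t
  obtain ⟨s', u', a', j'⟩ := t'
  have g := spec nx h
  have g' := spec nx h'
  have := hg.lt u
  have := hg.lt u'
  have : u < 2 * M → u' < 2 * M → nx.getD u 0 = nx.getD u' 0 → u = u' :=
    fun h h' => hg.inj u h u' h'
  simp only [Prod.mk.injEq]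
  dsimp only at f4
  rcases g with g | g | g | g | g | g | g | g | g | g | g | g <;>
    rcases g' with g' | g' | g' | g' | g' | g' | g' | g' | g' | g' | g' | g' <;> omega

theorem k2_inj (hg : Good M nx) {t t' : Q4} (h : Bx M W t) (h' : Bx M W t')
    (e : k2 M W t = k2 M W t') : t = t' := by
  have e1 := k2_lt hg h h'
  have e2 := k2_lt hg h' h
  simp only [e, lt_irrefl, false_iff] at e1 e2
  have f1 : rY M t = rY M t' := by omega
  have f2 : y1 M W t = y1 M W t' := by omega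
  have f3 : y2 M t = y2 M t' := by omega
  have f4 : y3 W t = y3 W t' := by omega
  clear e1 e2 e
  obtain ⟨s, u, a, j⟩ := t
  obtain ⟨s', u', a', j'⟩ := t'
  have g := spec nx h
  have g' := spec nx h'
  simp only [Prod.mk.injEq]
  rcases g with g | g | g | g | g | g | g | g | g | g | g | g <;>
    rcases g' with g' | g' | g' | g' | g' | g' | g' | g' | g' | g' | g' | g' <;> omega

theorem cells_dec (hg : Good M nx) {t t' : Q4} (h : Bx M W t) (h' : Bx M W t')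
    (e1 : k1 M W nx t < k1 M W nx t') (e2 : k2 M W t < k2 M W t') :
    cX M nx t < cX M nx t' ∨ rY M t < rY M t' := by
  rw [k1_lt hg h h'] at e1
  rw [k2_lt hg h h'] at e2
  by_contra hc
  have f1 : cX M nx t = cX M nx t' := by omega
  have f2 : rY M t = rY M t' := by omega
  simp only [f1, f2, lt_irrefl, true_and, false_or] at e1 e2
  clear hc
  obtain ⟨s, u, a, j⟩ := t
  obtain ⟨s', u', a', j'⟩ := t'
  have g := spec nx h
  have g' := spec nx h'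
  have := hg.lt u
  have := hg.lt u'
  have := hg.ne u
  have := hg.ne u'
  dsimp only at e1
  rcases g with g | g | g | g | g | g | g | g | g | g | g | g <;>
    rcases g' with g' | g' | g' | g' | g' | g' | g' | g' | g' | g' | g' | g' <;> omega

/-- The pairs that cross exactly one horizontal line. -/
theorem cross_cases (hg : Good M nx) {s u a j s' u' a' j' : ℕ} (h : Bx M W (s, u, a, j))
    (h' : Bx M W (s', u', a', j'))
    (e1 : k1 M W nx (s, u, a, j) < k1 M W nx (s', u', a', j'))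
    (f1 : cX M nx (s, u, a, j) = cX M nx (s', u', a', j'))
    (f2 : rY M (s', u', a', j') = rY M (s, u, a, j) + 1) (f3 : rY M (s, u, a, j) < 6 * M) :
    u = u' ∧ u < 2 * M ∧
    ((s = 0 ∧ s' = 1 ∧ a = 0 ∧ j = 0 ∧ j' = 0 ∧ a' < W ∧ rY M (s, u, a, j) = 2 * u) ∨
    (s = 2 ∧ s' = 3 ∧ a' = 0 ∧ j = 0 ∧ j' = 0 ∧ a < W ∧ rY M (s, u, a, j) = 2 * u + 1) ∨
    (s = 4 ∧ s' = 5 ∧ j = j' ∧ a ≤ a' ∧ a' < W ∧ j < M ∧
      ((u < M ∧ rY M (s, u, a, j) = 4 * M + 2 * j) ∨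
        (M ≤ u ∧ rY M (s, u, a, j) = 4 * M + 2 * j + 1))) ∨
    (s = 5 ∧ s' = 4 ∧ a < a' ∧ a' < W ∧ j < M ∧ j' < M ∧ 4 * M ≤ rY M (s, u, a, j))) := by
  rw [k1_lt hg h h'] at e1
  simp only [f1, lt_irrefl, true_and, false_or] at e1
  have g := spec nx h
  have g' := spec nx h'
  have := hg.lt u
  have := hg.lt u'
  have := hg.ne u
  have := hg.ne u'
  have := hg.side u
  have : u < 2 * M → u' < 2 * M → nx.getD u 0 = nx.getD u' 0 → u = u' :=
    fun h h' => hg.inj u h u' h'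
  rcases g with g | g | g | g | g | g | g | g | g | g | g | g <;>
    rcases g' with g' | g' | g' | g' | g' | g' | g' | g' | g' | g' | g' | g' <;>
    first
    | (exfalso; omega)
    | exact ⟨by omega, by omega, Or.inl ⟨by omega, by omega, by omega⟩⟩
    | exact ⟨by omega, by omega, Or.inr (Or.inl ⟨by omega, by omega, by omega⟩)⟩
    | exact ⟨by omega, by omega, Or.inr (Or.inr (Or.inl ⟨by omega, by omega, by omega⟩))⟩
    | exact ⟨by omega, by omega, Or.inr (Or.inr (Or.inr ⟨by omega, by omega, by omega⟩))⟩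

end order

end Pool.Agent.MP_eb915b_lc

end

section

/-! The two sequences of the slot configuration; a slot assignment gives a solution. -/

set_option autoImplicit false

namespace Pool.Agent.MP_eb915b_lc

/-- The characters. -/
def qts (M W : ℕ) (av : List (ℕ × ℕ × ℕ)) : List Q4 :=
  (prd (List.range 10) (prd (List.range (2 * M + 1)) (prd (List.range (W + 1))
    (List.range (M + 1))))).filter fun t =>
      decide (Bx M W t ∧ (t.1 = 4 ∨ t.1 = 5 → t.2 ∈ av))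

theorem mem_qts {M W : ℕ} {av : List (ℕ × ℕ × ℕ)} {t : Q4} :
    t ∈ qts M W av ↔ Bx M W t ∧ (t.1 = 4 ∨ t.1 = 5 → t.2 ∈ av) := by
  simp only [qts, List.mem_filter, mem_prd, List.mem_range, decide_eq_true_eq]
  refine ⟨fun h => h.2, fun h => ⟨?_, h⟩⟩
  obtain ⟨⟨h0, h1, h2, h3⟩, -⟩ := h
  refine ⟨h0, ?_, ?_, ?_⟩
  · split_ifs at h1 <;> omega
  · split_ifs at h2 <;> omega
  · split_ifs at h3 <;> omega

theorem nodup_qts (M W : ℕ) (av : List (ℕ × ℕ × ℕ)) : (qts M W av).Nodup :=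
  (nodup_prd List.nodup_range (nodup_prd List.nodup_range
    (nodup_prd List.nodup_range List.nodup_range))).filter _

/-- The bound on the keys. -/
def bd (M W : ℕ) : ℕ := rad (W + 6 * M + 5) (W + 6 * M + 5) 0 0 0 0

/-- The first sequence. -/
def sq1 (M W : ℕ) (nx : List ℕ) (av : List (ℕ × ℕ × ℕ)) : List Q4 :=
  sortBy (k1 M W nx) (bd M W) (qts M W av)

/-- The second sequence. -/
def sq2 (M W : ℕ) (av : List (ℕ × ℕ × ℕ)) : List Q4 :=
  sortBy (k2 M W) (bd M W) (qts M W av)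

section
variable {M W : ℕ} {nx : List ℕ} {av : List (ℕ × ℕ × ℕ)}

theorem mem_sq1 (hg : Good M nx) {t : Q4} : t ∈ sq1 M W nx av ↔ t ∈ qts M W av := by
  refine mem_sortBy.trans ⟨fun h => h.1, fun h => ⟨h, ?_⟩⟩
  have := digits_lt hg (mem_qts.1 h).1
  exact rad5_bound (by omega) (by omega) (by omega) (by omega) (by omega)

theorem mem_sq2 (hg : Good M nx) {t : Q4} : t ∈ sq2 M W av ↔ t ∈ qts M W av := by
  refine mem_sortBy.trans ⟨fun h => h.1, fun h => ⟨h, ?_⟩⟩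
  have := digits_lt hg (mem_qts.1 h).1
  exact rad5_bound (by omega) (by omega) (by omega) (by omega) (by omega)

theorem pairwise_sq1 (hg : Good M nx) :
    (sq1 M W nx av).Pairwise fun a b => k1 M W nx a < k1 M W nx b :=
  pairwise_sortBy _ (nodup_qts M W av) fun _ hx _ hy =>
    k1_inj hg (mem_qts.1 hx).1 (mem_qts.1 hy).1

theorem pairwise_sq2 (hg : Good M nx) :
    (sq2 M W av).Pairwise fun a b => k2 M W a < k2 M W b :=
  pairwise_sortBy _ (nodup_qts M W av) fun _ hx _ hy =>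
    k2_inj hg (mem_qts.1 hx).1 (mem_qts.1 hy).1

theorem perm_sq (hg : Good M nx) : (sq1 M W nx av).Perm (sq2 M W av) :=
  (List.perm_ext_iff_of_nodup (nodup_of_key (pairwise_sq1 hg)) (nodup_of_key (pairwise_sq2 hg))).2
    fun _ => (mem_sq1 hg).trans (mem_sq2 hg).symm

/-- The strips of the intended solution. -/
def job (nx : List ℕ) (w ρ : ℕ → ℕ) (e u : ℕ) : Q4 × Q4 :=
  if e = 0 then ((0, u, 0, 0), (1, u, w (nx.getD u 0), 0))
  else if e = 1 then ((2, u, w u, 0), (3, u, 0, 0))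
  else if e = 2 then ((4, u, w u, ρ u), (5, u, w u, ρ u))
  else if e = 3 then ((8, u, 0, 0), (9, u, 0, 0))
  else ((6, 0, 0, 0), (7, 0, 0, 0))

theorem dg0 (M W : ℕ) (nx : List ℕ) (u a j : ℕ) : cX M nx (0, u, a, j) = nx.getD u 0 ∧
    x1 W (0, u, a, j) = 1 ∧ x2 (0, u, a, j) = 0 ∧
    rY M (0, u, a, j) = 2 * u ∧
    y1 M W (0, u, a, j) = 1 ∧
    y2 M (0, u, a, j) = 0 ∧ y3 W (0, u, a, j) = 0 :=
  ⟨rfl, rfl, rfl, rfl, rfl, rfl, rfl⟩

theorem dg1 (M W : ℕ) (nx : List ℕ) (u a j : ℕ) : cX M nx (1, u, a, j) = nx.getD u 0 ∧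
    x1 W (1, u, a, j) = 2 + a ∧ x2 (1, u, a, j) = 0 ∧
    rY M (1, u, a, j) = 2 * u + 1 ∧
    y1 M W (1, u, a, j) = W - 1 - a ∧
    y2 M (1, u, a, j) = 0 ∧ y3 W (1, u, a, j) = 0 :=
  ⟨rfl, rfl, rfl, rfl, rfl, rfl, rfl⟩

theorem dg2 (M W : ℕ) (nx : List ℕ) (u a j : ℕ) : cX M nx (2, u, a, j) = u ∧
    x1 W (2, u, a, j) = 2 + a ∧ x2 (2, u, a, j) = 3 ∧
    rY M (2, u, a, j) = 2 * u + 1 ∧
    y1 M W (2, u, a, j) = W - 1 - a ∧
    y2 M (2, u, a, j) = 1 ∧ y3 W (2, u, a, j) = 0 :=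
  ⟨rfl, rfl, rfl, rfl, rfl, rfl, rfl⟩

theorem dg3 (M W : ℕ) (nx : List ℕ) (u a j : ℕ) : cX M nx (3, u, a, j) = u ∧
    x1 W (3, u, a, j) = W + 2 ∧ x2 (3, u, a, j) = 0 ∧
    rY M (3, u, a, j) = 2 * u + 2 ∧
    y1 M W (3, u, a, j) = 0 ∧
    y2 M (3, u, a, j) = 0 ∧ y3 W (3, u, a, j) = 0 :=
  ⟨rfl, rfl, rfl, rfl, rfl, rfl, rfl⟩

theorem dg4 (M W : ℕ) (nx : List ℕ) (u a j : ℕ) : cX M nx (4, u, a, j) = u ∧
    x1 W (4, u, a, j) = 2 + a ∧ x2 (4, u, a, j) = 1 ∧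
    rY M (4, u, a, j) = 4 * M + 2 * j + (if u < M then 0 else 1) ∧
    y1 M W (4, u, a, j) = (if u < M then 1 else u - M) ∧
    y2 M (4, u, a, j) = (if u < M then u else 1) ∧ y3 W (4, u, a, j) = W - 1 - a :=
  ⟨rfl, rfl, rfl, rfl, rfl, rfl, rfl⟩

theorem dg5 (M W : ℕ) (nx : List ℕ) (u a j : ℕ) : cX M nx (5, u, a, j) = u ∧
    x1 W (5, u, a, j) = 2 + a ∧ x2 (5, u, a, j) = 2 ∧
    rY M (5, u, a, j) = 4 * M + 2 * j + 1 + (if u < M then 0 else 1) ∧
    y1 M W (5, u, a, j) = (if u < M then u else 0) ∧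
    y2 M (5, u, a, j) = (if u < M then 0 else u) ∧ y3 W (5, u, a, j) = W - 1 - a :=
  ⟨rfl, rfl, rfl, rfl, rfl, rfl, rfl⟩

theorem dg6 (M W : ℕ) (nx : List ℕ) (u a j : ℕ) : cX M nx (6, u, a, j) = 2 * M ∧
    x1 W (6, u, a, j) = 1 ∧ x2 (6, u, a, j) = 0 ∧
    rY M (6, u, a, j) = 6 * M ∧
    y1 M W (6, u, a, j) = 1 ∧
    y2 M (6, u, a, j) = 0 ∧ y3 W (6, u, a, j) = 0 :=
  ⟨rfl, rfl, rfl, rfl, rfl, rfl, rfl⟩

theorem dg7 (M W : ℕ) (nx : List ℕ) (u a j : ℕ) : cX M nx (7, u, a, j) = 2 * M ∧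
    x1 W (7, u, a, j) = 2 + a ∧ x2 (7, u, a, j) = 0 ∧
    rY M (7, u, a, j) = 6 * M + 1 ∧
    y1 M W (7, u, a, j) = 0 ∧
    y2 M (7, u, a, j) = 0 ∧ y3 W (7, u, a, j) = 0 :=
  ⟨rfl, rfl, rfl, rfl, rfl, rfl, rfl⟩

theorem dg8 (M W : ℕ) (nx : List ℕ) (u a j : ℕ) : cX M nx (8, u, a, j) = u ∧
    x1 W (8, u, a, j) = W + 3 ∧ x2 (8, u, a, j) = 0 ∧
    rY M (8, u, a, j) = 6 * M + 1 ∧
    y1 M W (8, u, a, j) = 2 * M - u ∧
    y2 M (8, u, a, j) = 0 ∧ y3 W (8, u, a, j) = 0 :=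
  ⟨rfl, rfl, rfl, rfl, rfl, rfl, rfl⟩

theorem dg9 (M W : ℕ) (nx : List ℕ) (u a j : ℕ) : cX M nx (9, u, a, j) = u + 1 ∧
    x1 W (9, u, a, j) = 0 ∧ x2 (9, u, a, j) = 0 ∧
    rY M (9, u, a, j) = 6 * M + 1 ∧
    y1 M W (9, u, a, j) = 2 * M - u ∧
    y2 M (9, u, a, j) = 1 ∧ y3 W (9, u, a, j) = 0 :=
  ⟨rfl, rfl, rfl, rfl, rfl, rfl, rfl⟩

theorem job_eq (nx : List ℕ) (w ρ : ℕ → ℕ) (u : ℕ) :
    job nx w ρ 0 u = ((0, u, 0, 0), (1, u, w (nx.getD u 0), 0)) ∧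
    job nx w ρ 1 u = ((2, u, w u, 0), (3, u, 0, 0)) ∧
    job nx w ρ 2 u = ((4, u, w u, ρ u), (5, u, w u, ρ u)) ∧
    job nx w ρ 3 u = ((8, u, 0, 0), (9, u, 0, 0)) ∧
    job nx w ρ 4 u = ((6, 0, 0, 0), (7, 0, 0, 0)) := ⟨rfl, rfl, rfl, rfl, rfl⟩

/-- The data of an intended solution. -/
structure Sol (M W : ℕ) (nx : List ℕ) (w ρ : ℕ → ℕ) : Prop where
  hw : ∀ u < 2 * M, w u < W
  hn : ∀ u < 2 * M, w (nx.getD u 0) = w u
  hρ : ∀ u < 2 * M, ρ u < M
  hi : ∀ u < 2 * M, ∀ v < 2 * M, ρ u = ρ v → u = v ∨ u = v + M ∨ v = u + M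

variable {w ρ : ℕ → ℕ}

theorem bx_job (hs : Sol M W nx w ρ) {e u : ℕ} (he : e ≤ 4) (hu : u < 2 * M) :
    Bx M W (job nx w ρ e u).1 ∧ Bx M W (job nx w ρ e u).2 := by
  have e1 := hs.hw u hu
  have e2 := hs.hn u hu
  have e3 := hs.hρ u hu
  interval_cases e <;> simp [job_eq nx w ρ, Bx, -List.getD_eq_getElem?_getD, *]

set_option linter.unusedSimpArgs false

theorem sep00 (hg : Good M nx) (hs : Sol M W nx w ρ) {u v : ℕ} (hu : u < 2 * M)
    (hv : v < 2 * M) (hne : u ≠ v) : Sep (k1 M W nx) (job nx w ρ 0 u) (job nx w ρ 0 v) ∧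
      Sep (k2 M W) (job nx w ρ 0 u) (job nx w ρ 0 v) := by
  obtain ⟨p1, p2⟩ := bx_job hs (e := 0) (by omega) hu
  obtain ⟨q1, q2⟩ := bx_job hs (e := 0) (by omega) hv
  unfold Sep
  rw [k1_lt hg p2 q1, k1_lt hg q2 p1, k2_lt hg p2 q1, k2_lt hg q2 p1]
  clear p1 p2 q1 q2
  constructor
  · have : nx.getD u 0 ≠ nx.getD v 0 := fun h => hne (hg.inj u hu v hv h)
    simp only [job_eq nx w ρ, dg0 M W nx, dg1 M W nx,
      true_and, lt_self_iff_false, false_or, or_false, and_false]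
    omega
  · simp only [job_eq nx w ρ, dg0 M W nx, dg1 M W nx,
      true_and, lt_self_iff_false, false_or, or_false, and_false]
    omega

theorem sep01 (hg : Good M nx) (hs : Sol M W nx w ρ) {u v : ℕ} (hu : u < 2 * M)
    (hv : v < 2 * M) : Sep (k1 M W nx) (job nx w ρ 0 u) (job nx w ρ 1 v) ∧
      Sep (k2 M W) (job nx w ρ 0 u) (job nx w ρ 1 v) := by
  obtain ⟨p1, p2⟩ := bx_job hs (e := 0) (by omega) hu
  obtain ⟨q1, q2⟩ := bx_job hs (e := 1) (by omega) hv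
  unfold Sep
  rw [k1_lt hg p2 q1, k1_lt hg q2 p1, k2_lt hg p2 q1, k2_lt hg q2 p1]
  clear p1 p2 q1 q2
  constructor
  · have := hg.lt u hu
    have : nx.getD u 0 = v → w (nx.getD u 0) = w v := fun h => by rw [h]
    simp only [job_eq nx w ρ, dg0 M W nx, dg1 M W nx, dg2 M W nx, dg3 M W nx,
      true_and, lt_self_iff_false, false_or, or_false, and_false]
    omega
  · have : u = v → w (nx.getD u 0) = w v := fun h => by rw [hs.hn u hu, h]
    simp only [job_eq nx w ρ, dg0 M W nx, dg1 M W nx, dg2 M W nx, dg3 M W nx,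
      true_and, lt_self_iff_false, false_or, or_false, and_false]
    omega

theorem sep02 (hg : Good M nx) (hs : Sol M W nx w ρ) {u v : ℕ} (hu : u < 2 * M)
    (hv : v < 2 * M) : Sep (k1 M W nx) (job nx w ρ 0 u) (job nx w ρ 2 v) ∧
      Sep (k2 M W) (job nx w ρ 0 u) (job nx w ρ 2 v) := by
  obtain ⟨p1, p2⟩ := bx_job hs (e := 0) (by omega) hu
  obtain ⟨q1, q2⟩ := bx_job hs (e := 2) (by omega) hv
  unfold Sep
  rw [k1_lt hg p2 q1, k1_lt hg q2 p1, k2_lt hg p2 q1, k2_lt hg q2 p1]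
  clear p1 p2 q1 q2
  constructor
  · have := hg.lt u hu
    have : nx.getD u 0 = v → w (nx.getD u 0) = w v := fun h => by rw [h]
    simp only [job_eq nx w ρ, dg0 M W nx, dg1 M W nx, dg4 M W nx, dg5 M W nx,
      true_and, lt_self_iff_false, false_or, or_false, and_false]
    omega
  · have := hs.hρ v hv
    by_cases hv' : v < M <;>
      simp only [job_eq nx w ρ, dg0 M W nx, dg1 M W nx, dg4 M W nx, dg5 M W nx,
      true_and, lt_self_iff_false, false_or, or_false, and_false, hv', if_true, if_false] <;> omega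

theorem sep03 (hg : Good M nx) (hs : Sol M W nx w ρ) {u v : ℕ} (hu : u < 2 * M)
    (hv : v < 2 * M) : Sep (k1 M W nx) (job nx w ρ 0 u) (job nx w ρ 3 v) ∧
      Sep (k2 M W) (job nx w ρ 0 u) (job nx w ρ 3 v) := by
  obtain ⟨p1, p2⟩ := bx_job hs (e := 0) (by omega) hu
  obtain ⟨q1, q2⟩ := bx_job hs (e := 3) (by omega) hv
  unfold Sep
  rw [k1_lt hg p2 q1, k1_lt hg q2 p1, k2_lt hg p2 q1, k2_lt hg q2 p1]
  clear p1 p2 q1 q2
  constructor
  · have := hg.lt u hu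
    have := hs.hw _ (hg.lt u hu)
    simp only [job_eq nx w ρ, dg0 M W nx, dg1 M W nx, dg8 M W nx, dg9 M W nx,
      true_and, lt_self_iff_false, false_or, or_false, and_false]
    omega
  · simp only [job_eq nx w ρ, dg0 M W nx, dg1 M W nx, dg8 M W nx, dg9 M W nx,
      true_and, lt_self_iff_false, false_or, or_false, and_false]
    omega

theorem sep04 (hg : Good M nx) (hs : Sol M W nx w ρ) {u v : ℕ} (hu : u < 2 * M)
    (hv : v < 2 * M) : Sep (k1 M W nx) (job nx w ρ 0 u) (job nx w ρ 4 v) ∧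
      Sep (k2 M W) (job nx w ρ 0 u) (job nx w ρ 4 v) := by
  obtain ⟨p1, p2⟩ := bx_job hs (e := 0) (by omega) hu
  obtain ⟨q1, q2⟩ := bx_job hs (e := 4) (by omega) hv
  unfold Sep
  rw [k1_lt hg p2 q1, k1_lt hg q2 p1, k2_lt hg p2 q1, k2_lt hg q2 p1]
  clear p1 p2 q1 q2
  constructor
  · have := hg.lt u hu
    simp only [job_eq nx w ρ, dg0 M W nx, dg1 M W nx, dg6 M W nx, dg7 M W nx,
      true_and, lt_self_iff_false, false_or, or_false, and_false]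
    omega
  · simp only [job_eq nx w ρ, dg0 M W nx, dg1 M W nx, dg6 M W nx, dg7 M W nx,
      true_and, lt_self_iff_false, false_or, or_false, and_false]
    omega

theorem sep11 (hg : Good M nx) (hs : Sol M W nx w ρ) {u v : ℕ} (hu : u < 2 * M)
    (hv : v < 2 * M) (hne : u ≠ v) : Sep (k1 M W nx) (job nx w ρ 1 u) (job nx w ρ 1 v) ∧
      Sep (k2 M W) (job nx w ρ 1 u) (job nx w ρ 1 v) := by
  obtain ⟨p1, p2⟩ := bx_job hs (e := 1) (by omega) hu
  obtain ⟨q1, q2⟩ := bx_job hs (e := 1) (by omega) hv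
  unfold Sep
  rw [k1_lt hg p2 q1, k1_lt hg q2 p1, k2_lt hg p2 q1, k2_lt hg q2 p1]
  clear p1 p2 q1 q2
  constructor
  · simp only [job_eq nx w ρ, dg2 M W nx, dg3 M W nx,
      true_and, lt_self_iff_false, false_or, or_false, and_false]
    omega
  · simp only [job_eq nx w ρ, dg2 M W nx, dg3 M W nx,
      true_and, lt_self_iff_false, false_or, or_false, and_false]
    omega

theorem sep12 (hg : Good M nx) (hs : Sol M W nx w ρ) {u v : ℕ} (hu : u < 2 * M)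
    (hv : v < 2 * M) : Sep (k1 M W nx) (job nx w ρ 1 u) (job nx w ρ 2 v) ∧
      Sep (k2 M W) (job nx w ρ 1 u) (job nx w ρ 2 v) := by
  obtain ⟨p1, p2⟩ := bx_job hs (e := 1) (by omega) hu
  obtain ⟨q1, q2⟩ := bx_job hs (e := 2) (by omega) hv
  unfold Sep
  rw [k1_lt hg p2 q1, k1_lt hg q2 p1, k2_lt hg p2 q1, k2_lt hg q2 p1]
  clear p1 p2 q1 q2
  constructor
  · have : u = v → w u = w v := fun h => by rw [h]
    simp only [job_eq nx w ρ, dg2 M W nx, dg3 M W nx, dg4 M W nx, dg5 M W nx,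
      true_and, lt_self_iff_false, false_or, or_false, and_false]
    omega
  · have := hs.hρ v hv
    by_cases hv' : v < M <;>
      simp only [job_eq nx w ρ, dg2 M W nx, dg3 M W nx, dg4 M W nx, dg5 M W nx,
      true_and, lt_self_iff_false, false_or, or_false, and_false, hv', if_true, if_false] <;> omega

theorem sep13 (hg : Good M nx) (hs : Sol M W nx w ρ) {u v : ℕ} (hu : u < 2 * M)
    (hv : v < 2 * M) : Sep (k1 M W nx) (job nx w ρ 1 u) (job nx w ρ 3 v) ∧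
      Sep (k2 M W) (job nx w ρ 1 u) (job nx w ρ 3 v) := by
  obtain ⟨p1, p2⟩ := bx_job hs (e := 1) (by omega) hu
  obtain ⟨q1, q2⟩ := bx_job hs (e := 3) (by omega) hv
  unfold Sep
  rw [k1_lt hg p2 q1, k1_lt hg q2 p1, k2_lt hg p2 q1, k2_lt hg q2 p1]
  clear p1 p2 q1 q2
  constructor
  · simp only [job_eq nx w ρ, dg2 M W nx, dg3 M W nx, dg8 M W nx, dg9 M W nx,
      true_and, lt_self_iff_false, false_or, or_false, and_false]
    omega
  · simp only [job_eq nx w ρ, dg2 M W nx, dg3 M W nx, dg8 M W nx, dg9 M W nx,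
      true_and, lt_self_iff_false, false_or, or_false, and_false]
    omega

theorem sep14 (hg : Good M nx) (hs : Sol M W nx w ρ) {u v : ℕ} (hu : u < 2 * M)
    (hv : v < 2 * M) : Sep (k1 M W nx) (job nx w ρ 1 u) (job nx w ρ 4 v) ∧
      Sep (k2 M W) (job nx w ρ 1 u) (job nx w ρ 4 v) := by
  obtain ⟨p1, p2⟩ := bx_job hs (e := 1) (by omega) hu
  obtain ⟨q1, q2⟩ := bx_job hs (e := 4) (by omega) hv
  unfold Sep
  rw [k1_lt hg p2 q1, k1_lt hg q2 p1, k2_lt hg p2 q1, k2_lt hg q2 p1]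
  clear p1 p2 q1 q2
  constructor
  · simp only [job_eq nx w ρ, dg2 M W nx, dg3 M W nx, dg6 M W nx, dg7 M W nx,
      true_and, lt_self_iff_false, false_or, or_false, and_false]
    omega
  · simp only [job_eq nx w ρ, dg2 M W nx, dg3 M W nx, dg6 M W nx, dg7 M W nx,
      true_and, lt_self_iff_false, false_or, or_false, and_false]
    omega

theorem sep22 (hg : Good M nx) (hs : Sol M W nx w ρ) {u v : ℕ} (hu : u < 2 * M)
    (hv : v < 2 * M) (hne : u ≠ v) : Sep (k1 M W nx) (job nx w ρ 2 u) (job nx w ρ 2 v) ∧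
      Sep (k2 M W) (job nx w ρ 2 u) (job nx w ρ 2 v) := by
  obtain ⟨p1, p2⟩ := bx_job hs (e := 2) (by omega) hu
  obtain ⟨q1, q2⟩ := bx_job hs (e := 2) (by omega) hv
  unfold Sep
  rw [k1_lt hg p2 q1, k1_lt hg q2 p1, k2_lt hg p2 q1, k2_lt hg q2 p1]
  clear p1 p2 q1 q2
  constructor
  · simp only [job_eq nx w ρ, dg4 M W nx, dg5 M W nx,
      true_and, lt_self_iff_false, false_or, or_false, and_false]
    omega
  · have := hs.hρ u hu
    have := hs.hρ v hv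
    have := hs.hi u hu v hv
    by_cases hu' : u < M <;> by_cases hv' : v < M <;>
      simp only [job_eq nx w ρ, dg4 M W nx, dg5 M W nx,
      true_and, lt_self_iff_false, false_or, or_false, and_false, hu', hv', if_true, if_false] <;> omega

theorem sep23 (hg : Good M nx) (hs : Sol M W nx w ρ) {u v : ℕ} (hu : u < 2 * M)
    (hv : v < 2 * M) : Sep (k1 M W nx) (job nx w ρ 2 u) (job nx w ρ 3 v) ∧
      Sep (k2 M W) (job nx w ρ 2 u) (job nx w ρ 3 v) := by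
  obtain ⟨p1, p2⟩ := bx_job hs (e := 2) (by omega) hu
  obtain ⟨q1, q2⟩ := bx_job hs (e := 3) (by omega) hv
  unfold Sep
  rw [k1_lt hg p2 q1, k1_lt hg q2 p1, k2_lt hg p2 q1, k2_lt hg q2 p1]
  clear p1 p2 q1 q2
  constructor
  · have := hs.hw u hu
    simp only [job_eq nx w ρ, dg4 M W nx, dg5 M W nx, dg8 M W nx, dg9 M W nx,
      true_and, lt_self_iff_false, false_or, or_false, and_false]
    omega
  · have := hs.hρ u hu
    by_cases hu' : u < M <;>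
      simp only [job_eq nx w ρ, dg4 M W nx, dg5 M W nx, dg8 M W nx, dg9 M W nx,
      true_and, lt_self_iff_false, false_or, or_false, and_false, hu', if_true, if_false] <;> omega

theorem sep24 (hg : Good M nx) (hs : Sol M W nx w ρ) {u v : ℕ} (hu : u < 2 * M)
    (hv : v < 2 * M) : Sep (k1 M W nx) (job nx w ρ 2 u) (job nx w ρ 4 v) ∧
      Sep (k2 M W) (job nx w ρ 2 u) (job nx w ρ 4 v) := by
  obtain ⟨p1, p2⟩ := bx_job hs (e := 2) (by omega) hu
  obtain ⟨q1, q2⟩ := bx_job hs (e := 4) (by omega) hv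
  unfold Sep
  rw [k1_lt hg p2 q1, k1_lt hg q2 p1, k2_lt hg p2 q1, k2_lt hg q2 p1]
  clear p1 p2 q1 q2
  constructor
  · simp only [job_eq nx w ρ, dg4 M W nx, dg5 M W nx, dg6 M W nx, dg7 M W nx,
      true_and, lt_self_iff_false, false_or, or_false, and_false]
    omega
  · have := hs.hρ u hu
    by_cases hu' : u < M <;>
      simp only [job_eq nx w ρ, dg4 M W nx, dg5 M W nx, dg6 M W nx, dg7 M W nx,
      true_and, lt_self_iff_false, false_or, or_false, and_false, hu', if_true, if_false] <;> omega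

theorem sep33 (hg : Good M nx) (hs : Sol M W nx w ρ) {u v : ℕ} (hu : u < 2 * M)
    (hv : v < 2 * M) (hne : u ≠ v) : Sep (k1 M W nx) (job nx w ρ 3 u) (job nx w ρ 3 v) ∧
      Sep (k2 M W) (job nx w ρ 3 u) (job nx w ρ 3 v) := by
  obtain ⟨p1, p2⟩ := bx_job hs (e := 3) (by omega) hu
  obtain ⟨q1, q2⟩ := bx_job hs (e := 3) (by omega) hv
  unfold Sep
  rw [k1_lt hg p2 q1, k1_lt hg q2 p1, k2_lt hg p2 q1, k2_lt hg q2 p1]
  clear p1 p2 q1 q2
  constructor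
  · simp only [job_eq nx w ρ, dg8 M W nx, dg9 M W nx,
      true_and, lt_self_iff_false, false_or, or_false, and_false]
    omega
  · simp only [job_eq nx w ρ, dg8 M W nx, dg9 M W nx,
      true_and, lt_self_iff_false, false_or, or_false, and_false]
    omega

theorem sep34 (hg : Good M nx) (hs : Sol M W nx w ρ) {u v : ℕ} (hu : u < 2 * M)
    (hv : v < 2 * M) : Sep (k1 M W nx) (job nx w ρ 3 u) (job nx w ρ 4 v) ∧
      Sep (k2 M W) (job nx w ρ 3 u) (job nx w ρ 4 v) := by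
  obtain ⟨p1, p2⟩ := bx_job hs (e := 3) (by omega) hu
  obtain ⟨q1, q2⟩ := bx_job hs (e := 4) (by omega) hv
  unfold Sep
  rw [k1_lt hg p2 q1, k1_lt hg q2 p1, k2_lt hg p2 q1, k2_lt hg q2 p1]
  clear p1 p2 q1 q2
  constructor
  · simp only [job_eq nx w ρ, dg6 M W nx, dg7 M W nx, dg8 M W nx, dg9 M W nx,
      true_and, lt_self_iff_false, false_or, or_false, and_false]
    omega
  · simp only [job_eq nx w ρ, dg6 M W nx, dg7 M W nx, dg8 M W nx, dg9 M W nx,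
      true_and, lt_self_iff_false, false_or, or_false, and_false]
    omega

theorem sep_job (hg : Good M nx) (hs : Sol M W nx w ρ) {e f u v : ℕ} (hu : u < 2 * M)
    (hv : v < 2 * M) (hef : e ≤ f) (he : e < 4) (hf : f ≤ 4) (hne : e = f → u ≠ v) :
    Sep (k1 M W nx) (job nx w ρ e u) (job nx w ρ f v) ∧
      Sep (k2 M W) (job nx w ρ e u) (job nx w ρ f v) := by
  interval_cases e <;> interval_cases f
  · exact sep00 hg hs hu hv (hne rfl)
  · exact sep01 hg hs hu hv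
  · exact sep02 hg hs hu hv
  · exact sep03 hg hs hu hv
  · exact sep04 hg hs hu hv
  · exact sep11 hg hs hu hv (hne rfl)
  · exact sep12 hg hs hu hv
  · exact sep13 hg hs hu hv
  · exact sep14 hg hs hu hv
  · exact sep22 hg hs hu hv (hne rfl)
  · exact sep23 hg hs hu hv
  · exact sep24 hg hs hu hv
  · exact sep33 hg hs hu hv (hne rfl)
  · exact sep34 hg hs hu hv

theorem msrp_of_slots (hg : Good M nx) (hs : Sol M W nx w ρ)
    (ha : ∀ u < 2 * M, (u, w u, ρ u) ∈ av) :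
    MSRp (sq1 M W nx av) (sq2 M W av) (16 * M + 2) := by
  let I : List (ℕ × ℕ) := prd (List.range 4) (List.range (2 * M))
  have hI : ∀ x ∈ I, x.1 < 4 ∧ x.2 < 2 * M := fun x hx => by simpa [I, mem_prd] using hx
  have hnd : I.Nodup := nodup_prd List.nodup_range List.nodup_range
  have hlen : 16 * M + 2 =
      2 * (job nx w ρ 4 0 :: I.map fun x => job nx w ρ x.1 x.2).length := by
    simp only [I, List.length_map, List.length_cons, length_prd, List.length_range]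
    omega
  rw [hlen]
  refine msrp_of_pairs (pairwise_sq1 hg) (pairwise_sq2 hg)
    (fun x hx => (mem_sq2 hg).2 ((mem_sq1 hg).1 hx)) (fun p hp => ?_) ?_
  · rcases List.mem_cons.1 hp with rfl | hp
    · have q1 : Bx M W (job nx w ρ 4 0).1 := by simp [job_eq nx w ρ, Bx]
      have q2 : Bx M W (job nx w ρ 4 0).2 := by simp [job_eq nx w ρ, Bx]
      refine ⟨(mem_sq1 hg).2 (mem_qts.2 ⟨q1, by simp [job_eq nx w ρ]⟩),
        (mem_sq1 hg).2 (mem_qts.2 ⟨q2, by simp [job_eq nx w ρ]⟩), ?_⟩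
      rw [k1_lt hg q1 q2, k2_lt hg q1 q2]
      simp only [job_eq nx w ρ, dg6 M W nx, dg7 M W nx, true_and]
      omega
    · obtain ⟨⟨e, u⟩, hx, rfl⟩ := List.mem_map.1 hp
      obtain ⟨h1, h2⟩ := hI _ hx
      dsimp only at h1 h2 ⊢
      obtain ⟨q1, q2⟩ := bx_job hs (e := e) (by omega) h2
      have e4 := ha u h2
      refine ⟨(mem_sq1 hg).2 (mem_qts.2 ⟨q1, ?_⟩), (mem_sq1 hg).2 (mem_qts.2 ⟨q2, ?_⟩), ?_⟩
      · interval_cases e <;> simp [job_eq nx w ρ, e4]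
      · interval_cases e <;> simp [job_eq nx w ρ, e4]
      · rw [k1_lt hg q1 q2, k2_lt hg q1 q2]
        have e1 := hs.hw u h2
        interval_cases e <;> constructor <;> simp only [job_eq nx w ρ, dg0 M W nx, dg1 M W nx, dg2 M W nx, dg3 M W nx, dg4 M W nx, dg5 M W nx,
        dg8 M W nx, dg9 M W nx,
        true_and, lt_self_iff_false, false_or, or_false, and_false] <;> omega
  · refine List.pairwise_cons.2 ⟨fun p hp => ?_, ?_⟩
    · obtain ⟨⟨e, u⟩, hx, rfl⟩ := List.mem_map.1 hp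
      obtain ⟨h1, h2⟩ := hI _ hx
      have := sep_job hg hs (e := e) (f := 4) h2 h2 (le_of_lt h1) h1 le_rfl
        (fun h => absurd h (ne_of_lt h1))
      exact ⟨this.1.symm, this.2.symm⟩
    · rw [List.pairwise_map]
      refine hnd.imp_of_mem fun {x y} hx hy hne => ?_
      obtain ⟨h1, h2⟩ := hI _ hx
      obtain ⟨h3, h4⟩ := hI _ hy
      rcases le_total x.1 y.1 with h | h
      · exact sep_job hg hs h2 h4 h h1 h3.le fun e e' => hne (Prod.ext e e')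
      · have := sep_job hg hs h4 h2 h h3 h1.le fun e e' => hne (Prod.ext e.symm e'.symm)
        exact ⟨this.1.symm, this.2.symm⟩

end

end Pool.Agent.MP_eb915b_lc

end

section

/-! A solution of the slot configuration gives a slot assignment. -/

set_option autoImplicit false

namespace Pool.Agent.MP_eb915b_lc

theorem surj_of_inj {K : ℕ} {σ : ℕ → ℕ} (h1 : ∀ u < K, σ u < K)
    (h2 : ∀ u < K, ∀ v < K, σ u = σ v → u = v) : ∀ t < K, ∃ u < K, σ u = t := by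
  intro t ht
  have := Finset.surjOn_of_injOn_of_card_le (s := Finset.range K) (t := Finset.range K) σ
    (fun u hu => by simpa using h1 u (by simpa using hu))
    (fun u hu v hv => h2 u (by simpa using hu) v (by simpa using hv)) le_rfl
  obtain ⟨u, hu, e⟩ := this (show t ∈ (Finset.range K : Set ℕ) by simpa using ht)
  exact ⟨u, by simpa using hu, e⟩

theorem sum_comp {K : ℕ} {σ : ℕ → ℕ} (h1 : ∀ u < K, σ u < K)
    (h2 : ∀ u < K, ∀ v < K, σ u = σ v → u = v) (f : ℕ → ℕ) :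
    ∑ u ∈ Finset.range K, f (σ u) = ∑ u ∈ Finset.range K, f u := by
  refine Finset.sum_bij (fun u _ => σ u) (fun u hu => by simpa using h1 u (by simpa using hu))
    (fun u hu v hv => h2 u (by simpa using hu) v (by simpa using hv)) (fun t ht => ?_)
    (fun _ _ => rfl)
  obtain ⟨u, hu, e⟩ := surj_of_inj h1 h2 t (by simpa using ht)
  exact ⟨u, by simpa using hu, e⟩

theorem eq_of_sum {K : ℕ} {f g : ℕ → ℕ} (h : ∀ u < K, f u ≤ g u)
    (e : ∑ u ∈ Finset.range K, f u = ∑ u ∈ Finset.range K, g u) : ∀ u < K, f u = g u :=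
  fun u hu => (Finset.sum_eq_sum_iff_of_le fun v hv => h v (by simpa using hv)).1 e u
    (by simpa using hu)

variable {M W : ℕ} {nx : List ℕ} {av : List (ℕ × ℕ × ℕ)}

theorem bx0 {u : ℕ} (s : ℕ) (hs : s = 0 ∨ s = 3) (hu : u < 2 * M) : Bx M W (s, u, 0, 0) := by
  rcases hs with rfl | rfl <;> simp [Bx, hu]

theorem bx1 {u a : ℕ} (s : ℕ) (hs : s = 1 ∨ s = 2) (hu : u < 2 * M) (ha : a < W) :
    Bx M W (s, u, a, 0) := by
  rcases hs with rfl | rfl <;> simp [Bx, hu, ha]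

theorem bx4 {u a j : ℕ} (s : ℕ) (hs : s = 4 ∨ s = 5) (hu : u < 2 * M) (ha : a < W) (hj : j < M) :
    Bx M W (s, u, a, j) := by
  rcases hs with rfl | rfl <;> simp [Bx, hu, ha, hj]

set_option linter.unusedSimpArgs false

theorem slots_of_msrp (hg : Good M nx)
    (h : MSRp (sq1 M W nx av) (sq2 M W av) (16 * M + 2)) :
    ∃ w : ℕ → ℕ, (∀ u < 2 * M, w u < W ∧ w (nx.getD u 0) = w u) ∧
      ∀ t < M, ∃ j < M, (t, w t, j) ∈ av ∧ (M + t, w (M + t), j) ∈ av := by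
  have hb : ∀ t ∈ sq1 M W nx av, Bx M W t := fun t ht => (mem_qts.1 ((mem_sq1 hg).1 ht)).1
  obtain ⟨R, hm, hs, hl⟩ := grid_pairs (col := cX M nx) (row := rY M) (A := 2 * M)
    (B := 6 * M + 1) (pairwise_sq1 hg) (pairwise_sq2 hg)
    (fun a ha b hb' h => by
      have := (k1_lt hg (hb b hb') (hb a ha)).not.1 (not_lt.2 h)
      omega)
    (fun a ha b hb' h => by
      have := (k2_lt hg (hb b hb') (hb a ha)).not.1 (not_lt.2 h)
      omega)
    (fun a ha => (digits_lt hg (hb a ha)).1) (fun a ha => (digits_lt hg (hb a ha)).2.2.2.2.1)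
    (fun a ha b hb' => cells_dec hg (hb a ha) (hb b hb'))
    (by rwa [show 2 * (2 * M + (6 * M + 1)) = 16 * M + 2 by omega])
  have : Std.Symm fun p q : Q4 × Q4 => Sep (k1 M W nx) p q ∧ Sep (k2 M W) p q :=
    ⟨fun _ _ h => ⟨h.1.symm, h.2.symm⟩⟩
  have hsep := hs.forall
  have hc : ∀ r < 6 * M, ∃ s u a j s' a' j', ((s, u, a, j), (s', u, a', j')) ∈ R ∧ u < 2 * M ∧
      ((s = 0 ∧ s' = 1 ∧ a = 0 ∧ j = 0 ∧ j' = 0 ∧ a' < W ∧ r = 2 * u) ∨
      (s = 2 ∧ s' = 3 ∧ a' = 0 ∧ j = 0 ∧ j' = 0 ∧ a < W ∧ r = 2 * u + 1) ∨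
      (s = 4 ∧ s' = 5 ∧ j = j' ∧ a ≤ a' ∧ a' < W ∧ j < M ∧
        ((u < M ∧ r = 4 * M + 2 * j) ∨ (M ≤ u ∧ r = 4 * M + 2 * j + 1))) ∨
      (s = 5 ∧ s' = 4 ∧ a < a' ∧ a' < W ∧ j < M ∧ j' < M ∧ 4 * M ≤ r)) := by
    intro r hr
    obtain ⟨⟨⟨s, u, a, j⟩, ⟨s', u', a', j'⟩⟩, hp, e1, e2, e3⟩ := hl r (by omega)
    obtain ⟨m1, m2, m3, -⟩ := hm _ hp
    dsimp only at e1 e2 e3 m1 m2 m3
    obtain ⟨rfl, h2, h3⟩ := cross_cases hg (hb _ m1) (hb _ m2) m3 e3 (by omega) (by omega)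
    rw [e1] at h3
    exact ⟨s, u, a, j, s', a', j', hp, h2, h3⟩
  have hS : ∀ u, ∃ a, u < 2 * M → a < W ∧ ((0, u, 0, 0), (1, u, a, 0)) ∈ R := by
    intro u
    by_cases hu : u < 2 * M
    · obtain ⟨s, v, a, j, s', a', j', hp, hv, h⟩ := hc (2 * u) (by omega)
      obtain ⟨rfl, rfl, rfl, rfl, rfl, h1, rfl⟩ :
        s = 0 ∧ s' = 1 ∧ a = 0 ∧ j = 0 ∧ j' = 0 ∧ a' < W ∧ v = u := by omega
      exact ⟨a', fun _ => ⟨h1, hp⟩⟩
    · exact ⟨0, fun h => absurd h hu⟩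
  have hE : ∀ u, ∃ a, u < 2 * M → a < W ∧ ((2, u, a, 0), (3, u, 0, 0)) ∈ R := by
    intro u
    by_cases hu : u < 2 * M
    · obtain ⟨s, v, a, j, s', a', j', hp, hv, h⟩ := hc (2 * u + 1) (by omega)
      obtain ⟨rfl, rfl, rfl, rfl, rfl, h1, rfl⟩ :
        s = 2 ∧ s' = 3 ∧ a' = 0 ∧ j = 0 ∧ j' = 0 ∧ a < W ∧ v = u := by omega
      exact ⟨a, fun _ => ⟨h1, hp⟩⟩
    · exact ⟨0, fun h => absurd h hu⟩
  choose z hS using hS
  choose w hE using hE
  have g1 : ∀ u < 2 * M, w u ≤ z u := by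
    intro u hu
    obtain ⟨a1, a2⟩ := hS u hu
    obtain ⟨b1, b2⟩ := hE u hu
    have e := (hsep a2 b2 (by simp)).2
    unfold Sep at e
    rw [k2_lt hg (bx1 1 (by omega) hu a1) (bx1 2 (by omega) hu b1),
      k2_lt hg (bx0 3 (by omega) hu) (bx0 0 (by omega) hu)] at e
    simp only [dg0 M W nx, dg1 M W nx, dg2 M W nx, dg3 M W nx, true_and, lt_self_iff_false,
      false_or, or_false, and_false] at e
    omega
  have g2 : ∀ u < 2 * M, z u ≤ w (nx.getD u 0) := by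
    intro u hu
    have hv := hg.lt u hu
    obtain ⟨a1, a2⟩ := hS u hu
    obtain ⟨b1, b2⟩ := hE _ hv
    have e := (hsep a2 b2 (by simp)).1
    unfold Sep at e
    rw [k1_lt hg (bx1 1 (by omega) hu a1) (bx1 2 (by omega) hv b1),
      k1_lt hg (bx0 3 (by omega) hv) (bx0 0 (by omega) hu)] at e
    simp only [dg0 M W nx, dg1 M W nx, dg2 M W nx, dg3 M W nx, true_and, lt_self_iff_false,
      false_or, or_false, and_false] at e
    omega
  have g3 : ∀ u < 2 * M, w u = w (nx.getD u 0) :=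
    eq_of_sum (fun u hu => (g1 u hu).trans (g2 u hu)) (sum_comp hg.lt hg.inj w).symm
  have g4 : ∀ {s c a j s' a' j' : ℕ}, ((s, c, a, j), (s', c, a', j')) ∈ R → c < 2 * M →
      (s = 4 ∨ s = 5) → (s' = 4 ∨ s' = 5) → a ≤ a' → a' < W → j < M → j' < M →
      a = w c ∧ a' = w c := by
    intro s c a j s' a' j' hp hc' h1 h2 h3 h4 h5 h6
    obtain ⟨u, hu, rfl⟩ := surj_of_inj hg.lt hg.inj c hc'
    obtain ⟨a1, a2⟩ := hS u hu
    obtain ⟨b1, b2⟩ := hE _ hc'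
    have e := (hsep a2 hp (by rcases h1 with rfl | rfl <;> simp)).1
    have e' := (hsep hp b2 (by rcases h1 with rfl | rfl <;> simp)).1
    unfold Sep at e e'
    rw [k1_lt hg (bx1 1 (by omega) hu a1) (bx4 s h1 hc' (by omega) h5),
      k1_lt hg (bx4 s' h2 hc' h4 h6) (bx0 0 (by omega) hu)] at e
    rw [k1_lt hg (bx4 s' h2 hc' h4 h6) (bx1 2 (by omega) hc' b1),
      k1_lt hg (bx0 3 (by omega) hc') (bx4 s h1 hc' (by omega) h5)] at e'
    have f1 := g1 u hu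
    have f2 := g3 u hu
    rcases h1 with rfl | rfl <;> rcases h2 with rfl | rfl <;>
      simp only [dg0 M W nx, dg1 M W nx, dg2 M W nx, dg3 M W nx, dg4 M W nx, dg5 M W nx,
        true_and, lt_self_iff_false, false_or, or_false, and_false] at e e' <;> omega
  have hJ : ∀ b < 2, ∀ j, ∃ c, j < M → c < M ∧
      ((4, b * M + c, w (b * M + c), j), (5, b * M + c, w (b * M + c), j)) ∈ R := by
    intro b hb' j
    by_cases hj : j < M
    · obtain ⟨s, v, a, i, s', a', j', hp, hv, h⟩ := hc (4 * M + 2 * j + b) (by omega)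
      rcases h with h | h | ⟨rfl, rfl, rfl, h1, h2, h3, h4⟩ | ⟨rfl, rfl, h1, h2, h3, h4, -⟩
      · omega
      · omega
      · obtain ⟨rfl, e⟩ := g4 hp hv (by omega) (by omega) h1 h2 h3 h3
        rw [e] at hp
        obtain rfl : i = j := by omega
        refine ⟨v - b * M, fun _ => ?_⟩
        have e' : b * M + (v - b * M) = v ∧ v - b * M < M := by
          interval_cases b <;> omega
        rw [e'.1]
        exact ⟨e'.2, hp⟩
      · have := g4 hp hv (by omega) (by omega) h1.le h2 h3 h4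
        omega
    · exact ⟨0, fun h => absurd h hj⟩
  choose σ hσ using hJ
  have hinj : ∀ b (hb' : b < 2), ∀ i < M, ∀ j < M, σ b hb' i = σ b hb' j → i = j := by
    intro b hb' i hi j hj e
    by_contra hne
    obtain ⟨a1, a2⟩ := hσ b hb' i hi
    obtain ⟨-, b2⟩ := hσ b hb' j hj
    rw [← e] at b2
    have hc' : b * M + σ b hb' i < 2 * M := by interval_cases b <;> omega
    have hw := (hE _ hc').1
    have e := (hsep a2 b2 (by simp [hne])).1
    unfold Sep at e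
    rw [k1_lt hg (bx4 5 (by omega) hc' hw hi) (bx4 4 (by omega) hc' hw hj),
      k1_lt hg (bx4 5 (by omega) hc' hw hj) (bx4 4 (by omega) hc' hw hi)] at e
    simp only [dg4 M W nx, dg5 M W nx, true_and, lt_self_iff_false, false_or, or_false,
      and_false] at e
    omega
  have hle : ∀ j < M, σ 0 (by omega) j ≤ σ 1 (by omega) j := by
    intro j hj
    obtain ⟨a1, a2⟩ := hσ 0 (by omega) j hj
    obtain ⟨b1, b2⟩ := hσ 1 (by omega) j hj
    generalize σ 0 _ j = c at *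
    generalize σ 1 _ j = d at *
    simp only [zero_mul, zero_add, one_mul] at a2 b2
    have hc' : c < 2 * M := by omega
    have hd : M + d < 2 * M := by omega
    have e := (hsep a2 b2 (by simp; omega)).2
    unfold Sep at e
    rw [k2_lt hg (bx4 5 (by omega) hc' (hE _ hc').1 hj) (bx4 4 (by omega) hd (hE _ hd).1 hj),
      k2_lt hg (bx4 5 (by omega) hd (hE _ hd).1 hj) (bx4 4 (by omega) hc' (hE _ hc').1 hj)] at e
    have hd' : ¬ M + d < M := by omega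
    simp only [dg4 M W nx, dg5 M W nx, a1, hd', if_true, if_false] at e
    omega
  have heq : ∀ j < M, σ 0 (by omega) j = σ 1 (by omega) j :=
    eq_of_sum hle ((sum_comp (fun j hj => (hσ 0 (by omega) j hj).1) (hinj 0 _) id).trans
      (sum_comp (fun j hj => (hσ 1 (by omega) j hj).1) (hinj 1 _) id).symm)
  refine ⟨w, fun u hu => ⟨(hE u hu).1, (g3 u hu).symm⟩, fun t ht => ?_⟩
  obtain ⟨j, hj, rfl⟩ := surj_of_inj (fun j hj => (hσ 0 two_pos j hj).1) (hinj 0 two_pos) t ht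
  have a2 := (hσ 0 (by omega) j hj).2
  have b2 := (hσ 1 (by omega) j hj).2
  rw [← heq j hj] at b2
  simp only [zero_mul, zero_add, one_mul] at a2 b2
  exact ⟨j, hj, (mem_qts.1 ((mem_sq1 hg).1 (hm _ a2).1)).2 (Or.inl rfl),
    (mem_qts.1 ((mem_sq1 hg).1 (hm _ b2).1)).2 (Or.inl rfl)⟩

end Pool.Agent.MP_eb915b_lc

end
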